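import Pool.Agent.Helper26.PG.Miss

/-!
# PG-Beta: the exceptional set of a small prime is small

PROOF.  As PE-Beta (`q x` is a unit as `q` does not divide `n`).
-/

set_option autoImplicit false

namespace Pool.Agent.Helper26.PG

open Finset
open Pool.Agent.Helper26.PE (la la_mul la_prime la_one la_sq la_eq la_abs PS Tup mem_Tup card_Tup pr sm)

variable {n : ℕ} [hn0 : NeZero n]


theorem Beta_sub (H : Subgroup (ZMod n)ˣ) (hH : Stab H) {q M : ℕ} (hq : q.Prime) (hqn : ¬ q ∣ n)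
    (hM : 0 < M) (hqM : 2 * q * M < n) {x : ZMod n} (hx : x ∈ Bd n q) :
    ∀ g ∈ H, 2 * M < (((g : (ZMod n)ˣ) : ZMod n) * x).val := by
  obtain ⟨hxu, hxF⟩ := mem_Bd.1 hx
  intro g hg
  by_contra hle
  rw [not_lt] at hle
  apply hxF
  have hn1 : 1 < n := by
    have h1 : 1 ≤ 2 * q * M := Nat.mul_pos (Nat.mul_pos (by norm_num) hq.pos) hM
    omega
  obtain ⟨s, hs0, hs⟩ := hH g hg
  have hgx0 : IsUnit (((g : (ZMod n)ˣ) : ZMod n) * x) := g.isUnit.mul hxu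
  obtain ⟨w, hw⟩ : ∃ w, w = (((g : (ZMod n)ˣ) : ZMod n) * x).val := ⟨_, rfl⟩
  have hw0 : 0 < w := by
    rw [hw]
    exact val_pos hn1 hgx0
  rw [← hw] at hle
  have hqw : q * w < n := by
    calc q * w ≤ q * (2 * M) := Nat.mul_le_mul_left q hle
      _ = 2 * q * M := by ring
      _ < n := hqM
  have hwn : w < n := by rw [hw]; exact ZMod.val_lt _
  have hgx : (((g : (ZMod n)ˣ) : ZMod n) * x) = (w : ZMod n) := by
    rw [hw, ZMod.natCast_zmod_val]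
  have h1 : F ((q : ZMod n) * (((g : (ZMod n)ˣ) : ZMod n) * x)) =
      - F (((g : (ZMod n)ˣ) : ZMod n) * x) := by
    rw [hgx, ← Nat.cast_mul, F_nat hqw, F_nat hwn, la_mul hq.ne_zero hw0.ne', la_prime hq]
    ring
  have h4 : (q : ZMod n) * (((g : (ZMod n)ˣ) : ZMod n) * x) =
      ((g : (ZMod n)ˣ) : ZMod n) * ((q : ZMod n) * x) := by ring
  rw [h4, hs _ ((unit_of_prime hq hqn).mul hxu), hs _ hxu] at h1
  have h5 : s * (F ((q : ZMod n) * x) + F x) = 0 := by linarith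
  rcases mul_eq_zero.1 h5 with h | h
  · exact absurd h hs0
  · linarith

theorem bad_card (H : Subgroup (ZMod n)ˣ) (hH : Stab H) {q M L : ℕ} (hq : q.Prime) (hqn : ¬ q ∣ n)
    (hM : 0 < M) (hqM : 2 * q * M < n) (hL : 0 < L) :
    (#(Bd n q) : ℝ) ≤
      n * (4 * (L : ℝ) ^ 3 / Nat.card H + (n : ℝ) ^ 3 / (2 * (M : ℝ) ^ 3 * (L : ℝ) ^ 2)) := by
  have h2M : 2 * M < n := by
    have h1 : 1 ≤ q := hq.one_le
    calc 2 * M = 2 * 1 * M := by ring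
      _ ≤ 2 * q * M := Nat.mul_le_mul_right M (Nat.mul_le_mul_left 2 h1)
      _ < n := hqM
  refine le_trans ?_ (miss_card H M L hM h2M hL)
  rw [← Set.ncard_coe_finset]
  exact_mod_cast Set.ncard_le_ncard
    (fun x hx => Beta_sub H hH hq hqn hM hqM (Finset.mem_coe.1 hx)) (Set.toFinite _)

/-- `M = (n - 1) / (2 q)`, `L = S ^ 11`, as PE-Fin1a: `4 S ^ 33 / S ^ 60 ≤ 4 / S ^ 16` -/
theorem fin_beta : ∃ S0 : ℕ, ∀ S : ℕ, S0 ≤ S → ∀ (n : ℕ) [NeZero n], S ^ 8 ≤ n →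
    ∀ H : Subgroup (ZMod n)ˣ, Stab H → S ^ 60 ≤ Nat.card H → ∀ q : ℕ, q.Prime → ¬ q ∣ n → q ≤ S ^ 2 →
    (#(Bd n q) : ℝ) ≤ 36 * n / (S : ℝ) ^ 16 := by
  refine ⟨2, fun S hS n hn hSn H hH hcard q hq hqn hqS => ?_⟩
  have hq2 : 2 ≤ q := hq.two_le
  -- sizes
  have h4q : 4 * q ≤ n := by
    have h1 : 4 ≤ S ^ 6 := by
      calc 4 ≤ 2 ^ 6 := by norm_num
        _ ≤ S ^ 6 := Nat.pow_le_pow_left hS 6
    calc 4 * q ≤ S ^ 6 * S ^ 2 := Nat.mul_le_mul h1 hqS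
      _ = S ^ 8 := by ring
      _ ≤ n := hSn
  obtain ⟨M, hMdef⟩ : ∃ M, M = (n - 1) / (2 * q) := ⟨_, rfl⟩
  have hM : 0 < M := by
    rw [hMdef]
    exact Nat.div_pos (by omega) (by omega)
  have hmul : 2 * q * M ≤ n - 1 := by rw [hMdef]; exact Nat.mul_div_le _ _
  have hqM : 2 * q * M < n := by omega
  have hlt : n - 1 < 2 * q * (M + 1) := by
    rw [hMdef]; exact Nat.lt_mul_div_succ (n - 1) (by omega)
  have hn4 : n ≤ 4 * (M * q) := by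
    have e1 : 2 * q * (M + 1) = 2 * (M * q) + 2 * q := by ring
    rw [e1] at hlt
    omega
  have hL : 0 < S ^ 11 := Nat.pow_pos (by omega)
  have hb := bad_card H hH hq hqn hM hqM hL
  refine hb.trans ?_
  have hX : (0 : ℝ) < S := by
    have : 0 < S := by omega
    exact_mod_cast this
  have hX1 : (1 : ℝ) ≤ S := by
    have : 1 ≤ S := by omega
    exact_mod_cast this
  have hMr : (0 : ℝ) < M := by exact_mod_cast hM
  have hnr : (0 : ℝ) ≤ n := Nat.cast_nonneg n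
  -- first part
  have ha : 4 * ((S ^ 11 : ℕ) : ℝ) ^ 3 / (Nat.card H : ℝ) ≤ 4 / (S : ℝ) ^ 16 := by
    have hc : ((S : ℝ)) ^ 60 ≤ (Nat.card H : ℝ) := by exact_mod_cast hcard
    rw [div_le_div_iff₀ (lt_of_lt_of_le (by positivity) hc) (by positivity)]
    have e1 : ((S ^ 11 : ℕ) : ℝ) ^ 3 = (S : ℝ) ^ 33 := by push_cast; ring
    rw [e1]
    have e2 : (4 : ℝ) * S ^ 33 * S ^ 16 = 4 * S ^ 49 := by ring
    rw [e2]
    have h49 : (S : ℝ) ^ 49 ≤ (S : ℝ) ^ 60 := pow_le_pow_right₀ hX1 (by norm_num)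
    linarith
  -- second part
  have hb2 : (n : ℝ) ^ 3 / (2 * (M : ℝ) ^ 3 * ((S ^ 11 : ℕ) : ℝ) ^ 2) ≤ 32 / (S : ℝ) ^ 16 := by
    rw [div_le_div_iff₀ (by positivity) (by positivity)]
    have e1 : ((S ^ 11 : ℕ) : ℝ) ^ 2 = (S : ℝ) ^ 22 := by push_cast; ring
    rw [e1]
    have hnM : (n : ℝ) ≤ 4 * (M * S ^ 2) := by
      have h1 : n ≤ 4 * (M * S ^ 2) :=
        hn4.trans (Nat.mul_le_mul_left 4 (Nat.mul_le_mul_left M hqS))
      exact_mod_cast h1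
    have hn3 : (n : ℝ) ^ 3 ≤ (4 * (M * S ^ 2)) ^ 3 := pow_le_pow_left₀ hnr hnM 3
    calc (n : ℝ) ^ 3 * (S : ℝ) ^ 16 ≤ (4 * (M * S ^ 2)) ^ 3 * (S : ℝ) ^ 16 :=
          mul_le_mul_of_nonneg_right hn3 (by positivity)
      _ = 32 * (2 * (M : ℝ) ^ 3 * (S : ℝ) ^ 22) := by ring
  calc (n : ℝ) * (4 * ((S ^ 11 : ℕ) : ℝ) ^ 3 / (Nat.card H : ℝ) +
        (n : ℝ) ^ 3 / (2 * (M : ℝ) ^ 3 * ((S ^ 11 : ℕ) : ℝ) ^ 2))
      ≤ n * (4 / (S : ℝ) ^ 16 + 32 / (S : ℝ) ^ 16) :=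
        mul_le_mul_of_nonneg_left (add_le_add ha hb2) hnr
    _ = 36 * n / (S : ℝ) ^ 16 := by ring

end Pool.Agent.Helper26.PG
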