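import Pool.Agent.Helper26.PG.MissG

/-!
# PG-BetaG: the exceptional set of a small prime is small, for a set of units which nearly stabilize `F`

PROOF.  As PG-Beta.  If `x ∈ Bd n q` and `(g x).val ≤ 2 M` for some `g ∈ G` then `F (q g x) = - F (g x)`, so `F (g x) ≠ s F x` or
`F (g (q x)) ≠ s F (q x)` (otherwise `F (q x) = - F x`): for each `g` at most `2 η n` such `x` (`x ↦ q x` is injective).
Second theorem: `M = (n - 1) / (2 q)`, `L = S ^ 11`, `#G = S ^ 60`, `η = 1 / S ^ 80`: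
`4 S ^ 33 / S ^ 60 + 32 / S ^ 16 + 2 S ^ 60 / S ^ 80 ≤ 36 / S ^ 16`.
-/

set_option autoImplicit false

namespace Pool.Agent.Helper26.PG

open Finset
open Pool.Agent.Helper26.PE (la la_mul la_prime la_one la_sq la_eq la_abs PS Tup mem_Tup card_Tup pr sm)

variable {n : ℕ} [hn0 : NeZero n]


/-- every `g ∈ G` multiplies `F` by a constant, up to `η n` exceptions -/
def Near (G : Finset (ZMod n)ˣ) (η : ℝ) : Prop :=
  ∀ g ∈ G, ∃ s : ℝ, s ≠ 0 ∧
    (Set.ncard {x : ZMod n | IsUnit x ∧ F (((g : (ZMod n)ˣ) : ZMod n) * x) ≠ s * F x} : ℝ) ≤ η * n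

private theorem BetaG_point {q M : ℕ} (hq : q.Prime) (hM : 0 < M) (hqM : 2 * q * M < n)
    {x : ZMod n} (hx : x ∈ Bd n q) (g : (ZMod n)ˣ) {s : ℝ} (hs0 : s ≠ 0)
    (hle : ((g : ZMod n) * x).val ≤ 2 * M) (hs1 : F ((g : ZMod n) * x) = s * F x)
    (hs2 : F ((g : ZMod n) * ((q : ZMod n) * x)) = s * F ((q : ZMod n) * x)) : False := by
  obtain ⟨hxu, hxF⟩ := mem_Bd.1 hx
  apply hxF
  have hn1 : 1 < n := by
    have h1 : 1 ≤ 2 * q * M := Nat.mul_pos (Nat.mul_pos (by norm_num) hq.pos) hM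
    omega
  have hgx0 : IsUnit ((g : ZMod n) * x) := g.isUnit.mul hxu
  obtain ⟨w, hw⟩ : ∃ w, w = ((g : ZMod n) * x).val := ⟨_, rfl⟩
  have hw0 : 0 < w := by
    rw [hw]
    exact val_pos hn1 hgx0
  rw [← hw] at hle
  have hqw : q * w < n := by
    calc q * w ≤ q * (2 * M) := Nat.mul_le_mul_left q hle
      _ = 2 * q * M := by ring
      _ < n := hqM
  have hwn : w < n := by rw [hw]; exact ZMod.val_lt _
  have hgx : ((g : ZMod n) * x) = (w : ZMod n) := by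
    rw [hw, ZMod.natCast_zmod_val]
  have h1 : F ((q : ZMod n) * ((g : ZMod n) * x)) = - F ((g : ZMod n) * x) := by
    rw [hgx, ← Nat.cast_mul, F_nat hqw, F_nat hwn, la_mul hq.ne_zero hw0.ne', la_prime hq]
    ring
  have h4 : (q : ZMod n) * ((g : ZMod n) * x) = (g : ZMod n) * ((q : ZMod n) * x) := by ring
  rw [h4, hs2, hs1] at h1
  have h5 : s * (F ((q : ZMod n) * x) + F x) = 0 := by linarith
  rcases mul_eq_zero.1 h5 with h | h
  · exact absurd h hs0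
  · linarith

theorem bad_set (G : Finset (ZMod n)ˣ) (hGne : G.Nonempty) {η : ℝ} (hG : Near G η) {q M L : ℕ}
    (hq : q.Prime) (hqn : ¬ q ∣ n) (hM : 0 < M) (hqM : 2 * q * M < n) (hL : 0 < L) :
    (#(Bd n q) : ℝ) ≤
      n * (4 * (L : ℝ) ^ 3 / #G + (n : ℝ) ^ 3 / (2 * (M : ℝ) ^ 3 * (L : ℝ) ^ 2)) +
        2 * #G * η * n := by
  classical
  have h2M : 2 * M < n := by
    have h1 : 1 ≤ q := hq.one_le
    calc 2 * M = 2 * 1 * M := by ring
      _ ≤ 2 * q * M := Nat.mul_le_mul_right M (Nat.mul_le_mul_left 2 h1)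
      _ < n := hqM
  have hmiss := miss_set G hGne M L hM h2M hL
  choose! s hs0 hs using hG
  obtain ⟨A, hA⟩ : ∃ A : (ZMod n)ˣ → Finset (ZMod n), A = fun g : (ZMod n)ˣ =>
    univ.filter fun x : ZMod n => IsUnit x ∧ F ((g : ZMod n) * x) ≠ s g * F x := ⟨_, rfl⟩
  obtain ⟨B, hB⟩ : ∃ B : (ZMod n)ˣ → Finset (ZMod n), B = fun g : (ZMod n)ˣ =>
    univ.filter fun x : ZMod n => (q : ZMod n) * x ∈ A g := ⟨_, rfl⟩
  obtain ⟨Z, hZ⟩ : ∃ Z : Finset (ZMod n), Z =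
    univ.filter fun x : ZMod n => ∀ g ∈ G, 2 * M < ((g : ZMod n) * x).val := ⟨_, rfl⟩
  have hAc : ∀ g ∈ G, (#(A g) : ℝ) ≤ η * n := by
    intro g hg
    have h1 := hs g hg
    have h2 : {x : ZMod n | IsUnit x ∧ F ((g : ZMod n) * x) ≠ s g * F x} =
        ((A g : Finset (ZMod n)) : Set (ZMod n)) := by
      rw [hA]
      ext x
      simp
    rw [h2, Set.ncard_coe_finset] at h1
    exact h1
  have hBc : ∀ g ∈ G, (#(B g) : ℝ) ≤ η * n := by
    intro g hg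
    refine le_trans ?_ (hAc g hg)
    have h1 : #(B g) ≤ #(A g) := by
      refine Finset.card_le_card_of_injOn (fun x => (q : ZMod n) * x) ?_ ?_
      · intro x hx
        rw [hB] at hx
        exact Finset.mem_coe.mpr (Finset.mem_filter.mp (Finset.mem_coe.mp hx)).2
      · intro x _ y _ hxy
        exact (unit_of_prime hq hqn).mul_left_cancel hxy
    exact_mod_cast h1
  have hZc : (#Z : ℝ) ≤
      n * (4 * (L : ℝ) ^ 3 / #G + (n : ℝ) ^ 3 / (2 * (M : ℝ) ^ 3 * (L : ℝ) ^ 2)) := by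
    have h2 : {x : ZMod n | ∀ g ∈ G, 2 * M < (((g : (ZMod n)ˣ) : ZMod n) * x).val} =
        ((Z : Finset (ZMod n)) : Set (ZMod n)) := by
      rw [hZ]
      ext x
      simp
    rw [h2, Set.ncard_coe_finset] at hmiss
    exact hmiss
  have hsub : Bd n q ⊆ Z ∪ G.biUnion fun g => A g ∪ B g := by
    intro x hx
    rw [Finset.mem_union]
    by_cases hxZ : ∀ g ∈ G, 2 * M < ((g : ZMod n) * x).val
    · left
      rw [hZ]
      exact Finset.mem_filter.mpr ⟨mem_univ _, hxZ⟩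
    · right
      simp only [not_forall, not_lt] at hxZ
      obtain ⟨g, hg, hle⟩ := hxZ
      rw [Finset.mem_biUnion]
      refine ⟨g, hg, ?_⟩
      by_contra hcon
      rw [Finset.mem_union, not_or] at hcon
      obtain ⟨hxA, hxB⟩ := hcon
      have hxu := (mem_Bd.1 hx).1
      have e1 : F ((g : ZMod n) * x) = s g * F x := by
        by_contra hne
        apply hxA
        rw [hA]
        exact Finset.mem_filter.mpr ⟨mem_univ _, hxu, hne⟩
      have e2 : F ((g : ZMod n) * ((q : ZMod n) * x)) = s g * F ((q : ZMod n) * x) := by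
        by_contra hne
        apply hxB
        rw [hB, hA]
        exact Finset.mem_filter.mpr ⟨mem_univ _, Finset.mem_filter.mpr
          ⟨mem_univ _, (unit_of_prime hq hqn).mul hxu, hne⟩⟩
      exact BetaG_point hq hM hqM hx g (hs0 g hg) hle e1 e2
  have hcard : #(Bd n q) ≤ #Z + ∑ g ∈ G, (#(A g) + #(B g)) := by
    refine (Finset.card_le_card hsub).trans ((Finset.card_union_le _ _).trans ?_)
    refine Nat.add_le_add_left (Finset.card_biUnion_le.trans ?_) _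
    exact Finset.sum_le_sum fun g _ => Finset.card_union_le _ _
  have hcard' : (#(Bd n q) : ℝ) ≤ #Z + ∑ g ∈ G, ((#(A g) : ℝ) + #(B g)) := by exact_mod_cast hcard
  have hsum : ∑ g ∈ G, ((#(A g) : ℝ) + #(B g)) ≤ 2 * #G * η * n := by
    calc ∑ g ∈ G, ((#(A g) : ℝ) + #(B g)) ≤ ∑ g ∈ G, (η * n + η * n) :=
          Finset.sum_le_sum fun g hg => add_le_add (hAc g hg) (hBc g hg)
      _ = 2 * #G * η * n := by
          rw [Finset.sum_const, nsmul_eq_mul]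
          ring
  linarith

theorem fin_betaG : ∃ S0 : ℕ, ∀ S : ℕ, S0 ≤ S → ∀ (n : ℕ) [NeZero n], S ^ 8 ≤ n →
    ∀ G : Finset (ZMod n)ˣ, #G = S ^ 60 → Near G (1 / (S : ℝ) ^ 80) →
    ∀ q : ℕ, q.Prime → ¬ q ∣ n → q ≤ S ^ 2 → (#(Bd n q) : ℝ) ≤ 36 * n / (S : ℝ) ^ 16 := by
  refine ⟨2, fun S hS n hn hSn G hcard hG q hq hqn hqS => ?_⟩
  have hq2 : 2 ≤ q := hq.two_le
  -- sizes
  have h4q : 4 * q ≤ n := by
    have h1 : 4 ≤ S ^ 6 := by
      calc 4 ≤ 2 ^ 6 := by norm_num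
        _ ≤ S ^ 6 := Nat.pow_le_pow_left hS 6
    calc 4 * q ≤ S ^ 6 * S ^ 2 := Nat.mul_le_mul h1 hqS
      _ = S ^ 8 := by ring
      _ ≤ n := hSn
  obtain ⟨M, hMdef⟩ : ∃ M, M = (n - 1) / (2 * q) := ⟨_, rfl⟩
  have hM : 0 < M := by
    rw [hMdef]
    exact Nat.div_pos (by omega) (by omega)
  have hmul : 2 * q * M ≤ n - 1 := by rw [hMdef]; exact Nat.mul_div_le _ _
  have hqM : 2 * q * M < n := by omega
  have hlt : n - 1 < 2 * q * (M + 1) := by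
    rw [hMdef]; exact Nat.lt_mul_div_succ (n - 1) (by omega)
  have hn4 : n ≤ 4 * (M * q) := by
    have e1 : 2 * q * (M + 1) = 2 * (M * q) + 2 * q := by ring
    rw [e1] at hlt
    omega
  have hL : 0 < S ^ 11 := Nat.pow_pos (by omega)
  have hGne : G.Nonempty := by
    rw [← Finset.card_pos, hcard]
    exact Nat.pow_pos (by omega)
  have hb := bad_set G hGne hG hq hqn hM hqM hL
  refine hb.trans ?_
  have hX : (0 : ℝ) < S := by
    have : 0 < S := by omega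
    exact_mod_cast this
  have hX2 : (2 : ℝ) ≤ S := by exact_mod_cast hS
  have hX1 : (1 : ℝ) ≤ S := by linarith
  have hMr : (0 : ℝ) < M := by exact_mod_cast hM
  have hnr : (0 : ℝ) ≤ n := Nat.cast_nonneg n
  have hcr : (#G : ℝ) = (S : ℝ) ^ 60 := by
    rw [hcard]
    push_cast
    rfl
  -- first part
  have ha : 4 * ((S ^ 11 : ℕ) : ℝ) ^ 3 / (#G : ℝ) ≤ 2 / (S : ℝ) ^ 16 := by
    rw [hcr, div_le_div_iff₀ (by positivity) (by positivity)]
    have e1 : ((S ^ 11 : ℕ) : ℝ) ^ 3 = (S : ℝ) ^ 33 := by push_cast; ring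
    rw [e1]
    have e2 : (4 : ℝ) * S ^ 33 * S ^ 16 = 2 * (2 * S ^ 49) := by ring
    rw [e2]
    have h50 : 2 * (S : ℝ) ^ 49 ≤ (S : ℝ) ^ 50 := by
      have e3 : (S : ℝ) ^ 50 = S * S ^ 49 := by ring
      rw [e3]
      exact mul_le_mul_of_nonneg_right hX2 (by positivity)
    have h60 : (S : ℝ) ^ 50 ≤ (S : ℝ) ^ 60 := pow_le_pow_right₀ hX1 (by norm_num)
    linarith
  -- second part
  have hb2 : (n : ℝ) ^ 3 / (2 * (M : ℝ) ^ 3 * ((S ^ 11 : ℕ) : ℝ) ^ 2) ≤ 32 / (S : ℝ) ^ 16 := by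
    rw [div_le_div_iff₀ (by positivity) (by positivity)]
    have e1 : ((S ^ 11 : ℕ) : ℝ) ^ 2 = (S : ℝ) ^ 22 := by push_cast; ring
    rw [e1]
    have hnM : (n : ℝ) ≤ 4 * (M * S ^ 2) := by
      have h1 : n ≤ 4 * (M * S ^ 2) :=
        hn4.trans (Nat.mul_le_mul_left 4 (Nat.mul_le_mul_left M hqS))
      exact_mod_cast h1
    have hn3 : (n : ℝ) ^ 3 ≤ (4 * (M * S ^ 2)) ^ 3 := pow_le_pow_left₀ hnr hnM 3
    calc (n : ℝ) ^ 3 * (S : ℝ) ^ 16 ≤ (4 * (M * S ^ 2)) ^ 3 * (S : ℝ) ^ 16 :=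
          mul_le_mul_of_nonneg_right hn3 (by positivity)
      _ = 32 * (2 * (M : ℝ) ^ 3 * (S : ℝ) ^ 22) := by ring
  -- third part
  have hc2 : 2 * (#G : ℝ) * (1 / (S : ℝ) ^ 80) ≤ 2 / (S : ℝ) ^ 16 := by
    have e0 : 2 * (#G : ℝ) * (1 / (S : ℝ) ^ 80) = 2 * (S : ℝ) ^ 60 / (S : ℝ) ^ 80 := by
      rw [hcr]; ring
    rw [e0, div_le_div_iff₀ (by positivity) (by positivity)]
    have e1 : 2 * (S : ℝ) ^ 60 * S ^ 16 = 2 * S ^ 76 := by ring
    rw [e1]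
    exact mul_le_mul_of_nonneg_left (pow_le_pow_right₀ hX1 (by norm_num)) (by norm_num)
  have h3 := mul_le_mul_of_nonneg_right hc2 hnr
  have h4 : (n : ℝ) * (4 * ((S ^ 11 : ℕ) : ℝ) ^ 3 / (#G : ℝ) +
        (n : ℝ) ^ 3 / (2 * (M : ℝ) ^ 3 * ((S ^ 11 : ℕ) : ℝ) ^ 2)) ≤
      n * (2 / (S : ℝ) ^ 16 + 32 / (S : ℝ) ^ 16) :=
    mul_le_mul_of_nonneg_left (add_le_add ha hb2) hnr
  calc _ ≤ n * (2 / (S : ℝ) ^ 16 + 32 / (S : ℝ) ^ 16) + 2 / (S : ℝ) ^ 16 * n := add_le_add h4 h3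
    _ = 36 * n / (S : ℝ) ^ 16 := by ring

end Pool.Agent.Helper26.PG
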