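import Pool.Agent.Helper26.PG.MissM
import Pool.Agent.Helper26.PG.BetaW

/-!
# PG-BetaM: the exceptional set of a small prime is small, from columns in a short window (sharper)

PROOF.  `bad_setM` is `bad_setW` with `miss_m` in place of `miss_set` (`a = (k x).val ≤ m M`, `q a ≤ A`).  `fin_betaM`: `m = d + 24`,
`L = S ^ (d + 3)`, `M = A / (m q) ≥ A / (2 m q)`, so `n / M ≤ 2 m S ^ (2 + d)`:
`2 n ^ (m + 1) / ((2 L) ^ m M ^ (m + 1)) ≤ 2 (2 m) ^ (m + 1) S ^ ((2 + d) (m + 1) - (d + 3) m) = 2 (2 m) ^ (m + 1) S ^ (- 22) ≤ S ^ (-16)` for large `S`,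
`4 L ^ 2 / #K = 4 S ^ (-24)`, `2 #K E = 2 n S ^ (-20)`.
-/

set_option autoImplicit false

namespace Pool.Agent.Helper26.PG

open Finset
open Pool.Agent.Helper26.PE (la la_mul la_prime la_one la_sq la_eq la_abs PS Tup mem_Tup card_Tup pr sm)

variable {n : ℕ} [hn0 : NeZero n]

private theorem bm_inv {z w : ZMod n} (hz : IsUnit z) (hw : IsUnit w) (h : z⁻¹ = w⁻¹) : z = w := by
  have h1 := ZMod.mul_inv_of_unit z hz
  have h2 := ZMod.inv_mul_of_unit w hw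
  calc z = z * (w⁻¹ * w) := by rw [h2, mul_one]
    _ = (z * z⁻¹) * w := by rw [h]; ring
    _ = w := by rw [h1, one_mul]

private theorem bm_solve {b y k : ZMod n} (hb : IsUnit b) (h : b * y = k) : y = b⁻¹ * k := by
  rw [← h, ← mul_assoc, ZMod.inv_mul_of_unit b hb, one_mul]

/-- the exceptions for `k` -/
private def ExcM (n A : ℕ) (k : (ZMod n)ˣ) (s : ℝ) : Set ℕ :=
  {a : ℕ | 1 ≤ a ∧ a ≤ A ∧ ∃ x : ZMod n, (a : ZMod n) * x = (k : ZMod n) ∧ F x ≠ s * la a}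

omit hn0 in
private theorem ExcM_fin (A : ℕ) (k : (ZMod n)ˣ) (s : ℝ) : (ExcM n A k s).Finite :=
  (Set.finite_Icc 1 A).subset fun _ ha => ⟨ha.1, ha.2.1⟩

theorem bad_setM (K : Finset (ZMod n)ˣ) (hKne : K.Nonempty) {A : ℕ} {E : ℝ} (hK : NearW K A E)
    {q m M L : ℕ} (hq : q.Prime) (hqn : ¬ q ∣ n) (hm : 2 ≤ m) (hM : 0 < M) (hqM : m * q * M ≤ A)
    (hAn : A < n) (hL : 0 < L) :
    (#(Bd n q) : ℝ) ≤
      n * (4 * (L : ℝ) ^ 2 / #K +
        2 * (n : ℝ) ^ (m + 1) / ((2 * (L : ℝ)) ^ m * (M : ℝ) ^ (m + 1))) + 2 * #K * E := by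
  classical
  have hm0 : 0 < m := by omega
  have hqM0 : 0 < m * q * M := Nat.mul_pos (Nat.mul_pos hm0 hq.pos) hM
  have hn1 : 1 < n := by omega
  have h2MA : m * M ≤ A := by
    refine le_trans ?_ hqM
    calc m * M = m * 1 * M := by ring
      _ ≤ m * q * M := Nat.mul_le_mul_right M (Nat.mul_le_mul_left m hq.one_le)
  have h2M : m * M < n := by omega
  have hqu : IsUnit (q : ZMod n) := unit_of_prime hq hqn
  choose! s hs using hK
  obtain ⟨X, hX⟩ : ∃ X : Finset (ZMod n), X = univ.filter fun x : ZMod n =>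
    ∀ g ∈ K, m * M < (((g : (ZMod n)ˣ) : ZMod n) * x).val := ⟨_, rfl⟩
  have hXc : (X.card : ℝ) ≤
      n * (4 * (L : ℝ) ^ 2 / #K +
        2 * (n : ℝ) ^ (m + 1) / ((2 * (L : ℝ)) ^ m * (M : ℝ) ^ (m + 1))) := by
    refine le_trans (le_of_eq ?_) (miss_m K hKne m M L hm hM h2M hL)
    rw [← Set.ncard_coe_finset]
    congr 2
    ext x
    rw [hX, Finset.mem_coe, Finset.mem_filter]
    exact ⟨fun h => h.2, fun h => ⟨Finset.mem_univ _, h⟩⟩
  obtain ⟨T, hT⟩ : ∃ T : (ZMod n)ˣ → Finset (ZMod n), T = fun k =>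
      ((ExcM_fin A k (s k)).toFinset.image fun a : ℕ => ((a : ZMod n) * (q : ZMod n))⁻¹ * k) ∪
        ((ExcM_fin A k (s k)).toFinset.image fun a : ℕ => ((a : ZMod n))⁻¹ * k) := ⟨_, rfl⟩
  have hTc : ∀ k ∈ K, ((T k).card : ℝ) ≤ 2 * E := by
    intro k hk
    have h1 : (T k).card ≤ 2 * (ExcM_fin A k (s k)).toFinset.card := by
      rw [hT]
      refine (Finset.card_union_le _ _).trans ?_
      have h2 := Finset.card_image_le (s := (ExcM_fin A k (s k)).toFinset)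
        (f := fun a : ℕ => ((a : ZMod n) * (q : ZMod n))⁻¹ * (k : ZMod n))
      have h3 := Finset.card_image_le (s := (ExcM_fin A k (s k)).toFinset)
        (f := fun a : ℕ => ((a : ZMod n))⁻¹ * (k : ZMod n))
      omega
    have h2 : ((ExcM_fin A k (s k)).toFinset.card : ℝ) ≤ E := by
      refine le_trans (le_of_eq ?_) (hs k hk)
      have h4 := Set.ncard_eq_toFinset_card (ExcM n A k (s k)) (ExcM_fin A k (s k))
      rw [← h4]
      rfl
    have h3 : ((T k).card : ℝ) ≤ 2 * ((ExcM_fin A k (s k)).toFinset.card : ℝ) := by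
      exact_mod_cast h1
    linarith
  have hsub : Bd n q ⊆ ((Bd n q).filter fun y => ((q : ZMod n) * y)⁻¹ ∈ X) ∪ K.biUnion T := by
    intro y hy
    obtain ⟨hyu, hyF⟩ := mem_Bd.1 hy
    rw [Finset.mem_union, Finset.mem_filter]
    by_cases hyX : ((q : ZMod n) * y)⁻¹ ∈ X
    · exact Or.inl ⟨hy, hyX⟩
    · right
      rw [hX, Finset.mem_filter] at hyX
      push Not at hyX
      obtain ⟨k, hk, hle⟩ := hyX (Finset.mem_univ _)
      have hqy : IsUnit ((q : ZMod n) * y) := hqu.mul hyu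
      have hinv : IsUnit (((q : ZMod n) * y)⁻¹) :=
        IsUnit.of_mul_eq_one _ (ZMod.inv_mul_of_unit _ hqy)
      obtain ⟨a, ha⟩ : ∃ a, a = ((k : ZMod n) * ((q : ZMod n) * y)⁻¹).val := ⟨_, rfl⟩
      have ha1 : 0 < a := by
        rw [ha]
        exact val_pos hn1 (k.isUnit.mul hinv)
      rw [← ha] at hle
      have hac : (a : ZMod n) = (k : ZMod n) * ((q : ZMod n) * y)⁻¹ := by
        rw [ha, ZMod.natCast_zmod_val]
      have e1 : (a : ZMod n) * ((q : ZMod n) * y) = k := by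
        rw [hac, mul_assoc, ZMod.inv_mul_of_unit _ hqy, mul_one]
      have hau : IsUnit (a : ZMod n) := by
        rw [hac]
        exact k.isUnit.mul hinv
      have hqa : q * a ≤ A := by
        calc q * a ≤ q * (m * M) := Nat.mul_le_mul_left q hle
          _ = m * q * M := by ring
          _ ≤ A := hqM
      rw [Finset.mem_biUnion]
      refine ⟨k, hk, ?_⟩
      rw [hT, Finset.mem_union, Finset.mem_image, Finset.mem_image]
      by_cases h1 : F ((q : ZMod n) * y) = s k * la a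
      · -- then `q a` is an exception
        have h2 : F y ≠ s k * la (q * a) := by
          intro h3
          apply hyF
          rw [h3, la_mul hq.ne_zero ha1.ne', la_prime hq, h1]
          ring
        right
        refine ⟨q * a, ?_, ?_⟩
        · rw [Set.Finite.mem_toFinset]
          refine ⟨Nat.mul_pos hq.pos ha1, hqa, y, ?_, h2⟩
          rw [Nat.cast_mul, ← e1]
          ring
        · refine (bm_solve ?_ ?_).symm
          · rw [Nat.cast_mul]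
            exact hqu.mul hau
          · rw [Nat.cast_mul, ← e1]
            ring
      · left
        refine ⟨a, ?_, ?_⟩
        · rw [Set.Finite.mem_toFinset]
          exact ⟨ha1, by omega, (q : ZMod n) * y, e1, h1⟩
        · refine (bm_solve (hau.mul hqu) ?_).symm
          rw [← e1]
          ring
  have hA1 : ((Bd n q).filter fun y => ((q : ZMod n) * y)⁻¹ ∈ X).card ≤ X.card := by
    refine Finset.card_le_card_of_injOn (fun y => ((q : ZMod n) * y)⁻¹) ?_ ?_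
    · intro y hy
      exact Finset.mem_coe.2 (Finset.mem_filter.1 (Finset.mem_coe.1 hy)).2
    · intro y hy y' hy' h
      have hyu := (mem_Bd.1 (Finset.mem_filter.1 (Finset.mem_coe.1 hy)).1).1
      have hyu' := (mem_Bd.1 (Finset.mem_filter.1 (Finset.mem_coe.1 hy')).1).1
      have h1 := bm_inv (hqu.mul hyu) (hqu.mul hyu') h
      exact hqu.mul_left_cancel h1
  have hB1 : ((K.biUnion T).card : ℝ) ≤ 2 * #K * E := by
    have h1 : ((K.biUnion T).card : ℝ) ≤ ∑ k ∈ K, ((T k).card : ℝ) := by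
      exact_mod_cast Finset.card_biUnion_le
    refine h1.trans ((Finset.sum_le_sum hTc).trans (le_of_eq ?_))
    rw [Finset.sum_const, nsmul_eq_mul]
    ring
  have h1 : (#(Bd n q) : ℝ) ≤ (X.card : ℝ) + ((K.biUnion T).card : ℝ) := by
    have h2 := (Finset.card_le_card hsub).trans (Finset.card_union_le _ _)
    have h3 : #(Bd n q) ≤ X.card + (K.biUnion T).card := by omega
    exact_mod_cast h3
  linarith

theorem fin_betaM (d : ℕ) : ∃ S0 : ℕ, ∀ S : ℕ, S0 ≤ S → ∀ (n : ℕ) [NeZero n], S ^ (8 + d) ≤ n →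
    ∀ (K : Finset (ZMod n)ˣ) (A : ℕ), #K = S ^ (30 + 2 * d) → A < n → n ≤ A * S ^ d →
    NearW K A (n / (S : ℝ) ^ (50 + 2 * d)) →
    ∀ q : ℕ, q.Prime → ¬ q ∣ n → q ≤ S ^ 2 → (#(Bd n q) : ℝ) ≤ 36 * n / (S : ℝ) ^ 16 := by
  refine ⟨2 * (2 * (d + 24)) ^ (d + 25) + 2, fun S hS n hn hSn K A hKc hAn hnA hK q hq hqn hqS => ?_⟩
  obtain ⟨m, hmd⟩ : ∃ m : ℕ, m = d + 24 := ⟨_, rfl⟩
  have hS' : 2 * (2 * m) ^ (m + 1) + 2 ≤ S := by
    rw [hmd]
    exact hS
  clear hS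
  have hm2 : 2 ≤ m := by omega
  have hS0 : 0 < S := by omega
  have hS2 : 2 ≤ S := by omega
  have hmS : m ≤ S := by
    have h1 : (2 * m) ^ 1 ≤ (2 * m) ^ (m + 1) := Nat.pow_le_pow_right (by omega) (by omega)
    rw [pow_one] at h1
    omega
  have hA8 : S ^ 8 ≤ A := by
    have h1 : S ^ 8 * S ^ d ≤ A * S ^ d := by
      rw [← pow_add]
      exact hSn.trans hnA
    exact Nat.le_of_mul_le_mul_right h1 (Nat.pow_pos hS0)
  have hq2 : 2 ≤ q := hq.two_le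
  have hmq0 : 0 < m * q := Nat.mul_pos (by omega) hq.pos
  have h4q : m * q ≤ A := by
    have h1 : m ≤ S ^ 6 := hmS.trans (Nat.le_self_pow (by norm_num) S)
    calc m * q ≤ S ^ 6 * S ^ 2 := Nat.mul_le_mul h1 hqS
      _ = S ^ 8 := by ring
      _ ≤ A := hA8
  obtain ⟨M, hMdef⟩ : ∃ M, M = A / (m * q) := ⟨_, rfl⟩
  have hM : 0 < M := by
    rw [hMdef]
    exact Nat.div_pos h4q hmq0
  have hqM : m * q * M ≤ A := by rw [hMdef]; exact Nat.mul_div_le _ _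
  have hlt : A < m * q * (M + 1) := by
    rw [hMdef]; exact Nat.lt_mul_div_succ A hmq0
  have hA4 : A ≤ 2 * m * (M * q) := by
    have e1 : m * q * (M + 1) = m * q * M + m * q := by ring
    have e2 : 2 * m * (M * q) = m * q * M + m * q * M := by ring
    have e3 : m * q * 1 ≤ m * q * M := Nat.mul_le_mul_left _ hM
    rw [e1] at hlt
    rw [e2]
    omega
  have hL : 0 < S ^ (d + 3) := Nat.pow_pos hS0
  have hKne : K.Nonempty := by
    rw [← Finset.card_pos, hKc]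
    exact Nat.pow_pos hS0
  have hb := bad_setM K hKne hK hq hqn hm2 hM hqM hAn hL
  refine hb.trans ?_
  have hX : (0 : ℝ) < S := by exact_mod_cast hS0
  have hX2 : (2 : ℝ) ≤ S := by exact_mod_cast hS2
  have hX1 : (1 : ℝ) ≤ S := by linarith
  have hMr : (0 : ℝ) < M := by exact_mod_cast hM
  have hnr : (0 : ℝ) ≤ n := Nat.cast_nonneg n
  have hKr : (#K : ℝ) = (S : ℝ) ^ (30 + 2 * d) := by exact_mod_cast hKc
  have hLr : ((S ^ (d + 3) : ℕ) : ℝ) = (S : ℝ) ^ (d + 3) := by push_cast; rfl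
  rw [hKr, hLr]
  have hpow : ∀ m : ℕ, (0 : ℝ) < (S : ℝ) ^ m := fun m => pow_pos hX m
  -- first part
  have ha : 4 * ((S : ℝ) ^ (d + 3)) ^ 2 / (S : ℝ) ^ (30 + 2 * d) ≤
      2 / (S : ℝ) ^ 16 := by
    rw [div_le_div_iff₀ (hpow _) (hpow _), ← pow_mul]
    have e1 : 4 * (S : ℝ) ^ ((d + 3) * 2) * (S : ℝ) ^ 16 = 4 * (S : ℝ) ^ (22 + 2 * d) := by
      rw [mul_assoc, ← pow_add]
      congr 2
      ring
    have e2 : (S : ℝ) ^ (30 + 2 * d) = (S : ℝ) ^ 8 * (S : ℝ) ^ (22 + 2 * d) := by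
      rw [← pow_add]
      congr 1
      ring
    rw [e1, e2]
    have h11 : (2 : ℝ) ≤ (S : ℝ) ^ 8 := by
      calc (2 : ℝ) ≤ S := hX2
        _ = (S : ℝ) ^ 1 := (pow_one _).symm
        _ ≤ (S : ℝ) ^ 8 := pow_le_pow_right₀ hX1 (by norm_num)
    have h12 := mul_le_mul_of_nonneg_right h11 (hpow (22 + 2 * d)).le
    linarith
  -- second part
  have hb2 : 2 * (n : ℝ) ^ (m + 1) / ((2 * (S : ℝ) ^ (d + 3)) ^ m * (M : ℝ) ^ (m + 1)) ≤
      32 / (S : ℝ) ^ 16 := by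
    rw [div_le_div_iff₀ (by positivity) (hpow _)]
    have hnM : (n : ℝ) ≤ 2 * m * (M * S ^ 2) * S ^ d := by
      have h1 : n ≤ 2 * m * (M * S ^ 2) * S ^ d :=
        hnA.trans (Nat.mul_le_mul_right _ (hA4.trans
          (Nat.mul_le_mul_left (2 * m) (Nat.mul_le_mul_left M hqS))))
      exact_mod_cast h1
    have hn3 : (n : ℝ) ^ (m + 1) ≤ (2 * m * (M * S ^ 2) * S ^ d) ^ (m + 1) :=
      pow_le_pow_left₀ hnr hnM (m + 1)
    have hSm : 2 * (2 * (m : ℝ)) ^ (m + 1) ≤ S := by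
      have h1 : 2 * (2 * m) ^ (m + 1) ≤ S := by omega
      exact_mod_cast h1
    have h2m : (1 : ℝ) ≤ (2 : ℝ) ^ m := one_le_pow₀ (by norm_num)
    have hS5 : (1 : ℝ) ≤ (S : ℝ) ^ 5 := one_le_pow₀ hX1
    have e4 : 2 * (2 * (m : ℝ) * (M * S ^ 2) * S ^ d) ^ (m + 1) * (S : ℝ) ^ 16 =
        (2 * (2 * (m : ℝ)) ^ (m + 1)) * ((M : ℝ) ^ (m + 1) * (S : ℝ) ^ ((d + 2) * (m + 1) + 16)) := by
      have e5 : (2 * (m : ℝ) * (M * S ^ 2) * S ^ d) = (2 * m) * (M * S ^ (d + 2)) := by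
        rw [pow_add]
        ring
      rw [e5, mul_pow, mul_pow (M : ℝ), ← pow_mul, pow_add (S : ℝ) ((d + 2) * (m + 1)) 16]
      ring
    have e6 : 32 * ((2 * (S : ℝ) ^ (d + 3)) ^ m * (M : ℝ) ^ (m + 1)) =
        32 * (2 : ℝ) ^ m * ((M : ℝ) ^ (m + 1) * (S : ℝ) ^ ((d + 3) * m)) := by
      rw [mul_pow, ← pow_mul]
      ring
    have e7 : (d + 3) * m = (d + 2) * (m + 1) + 16 + 6 := by
      rw [hmd]
      ring
    calc 2 * (n : ℝ) ^ (m + 1) * (S : ℝ) ^ 16 ≤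
          2 * (2 * (m : ℝ) * (M * S ^ 2) * S ^ d) ^ (m + 1) * (S : ℝ) ^ 16 := by
          refine mul_le_mul_of_nonneg_right ?_ (hpow _).le
          exact mul_le_mul_of_nonneg_left hn3 (by norm_num)
      _ = (2 * (2 * (m : ℝ)) ^ (m + 1)) *
          ((M : ℝ) ^ (m + 1) * (S : ℝ) ^ ((d + 2) * (m + 1) + 16)) := e4
      _ ≤ (S : ℝ) * ((M : ℝ) ^ (m + 1) * (S : ℝ) ^ ((d + 2) * (m + 1) + 16)) := by
          refine mul_le_mul_of_nonneg_right hSm ?_
          positivity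
      _ ≤ ((S : ℝ) ^ 6) * ((M : ℝ) ^ (m + 1) * (S : ℝ) ^ ((d + 2) * (m + 1) + 16)) := by
          refine mul_le_mul_of_nonneg_right ?_ (by positivity)
          calc (S : ℝ) = (S : ℝ) ^ 1 := (pow_one _).symm
            _ ≤ (S : ℝ) ^ 6 := pow_le_pow_right₀ hX1 (by norm_num)
      _ = (M : ℝ) ^ (m + 1) * (S : ℝ) ^ ((d + 3) * m) := by
          rw [e7, pow_add (S : ℝ) _ 6]
          ring
      _ ≤ 32 * (2 : ℝ) ^ m * ((M : ℝ) ^ (m + 1) * (S : ℝ) ^ ((d + 3) * m)) := by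
          refine le_mul_of_one_le_left (by positivity) ?_
          linarith
      _ = 32 * ((2 * (S : ℝ) ^ (d + 3)) ^ m * (M : ℝ) ^ (m + 1)) := e6.symm
  have hc3 : 2 * (S : ℝ) ^ (30 + 2 * d) * (n / (S : ℝ) ^ (50 + 2 * d)) ≤
      n * (2 / (S : ℝ) ^ 16) := by
    have e1 : (S : ℝ) ^ (50 + 2 * d) = (S : ℝ) ^ (30 + 2 * d) * ((S : ℝ) ^ 16 * (S : ℝ) ^ 4) := by
      rw [← pow_add, ← pow_add]
      congr 1
      ring
    have h4 : (1 : ℝ) ≤ (S : ℝ) ^ 4 := one_le_pow₀ hX1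
    have e2 : 2 * (S : ℝ) ^ (30 + 2 * d) * (n / (S : ℝ) ^ (50 + 2 * d)) =
        n * (2 / ((S : ℝ) ^ 16 * (S : ℝ) ^ 4)) := by
      rw [e1]
      have := (hpow (30 + 2 * d)).ne'
      field_simp
    rw [e2]
    refine mul_le_mul_of_nonneg_left ?_ hnr
    refine div_le_div_of_nonneg_left (by norm_num) (hpow _) ?_
    calc (S : ℝ) ^ 16 = (S : ℝ) ^ 16 * 1 := (mul_one _).symm
      _ ≤ (S : ℝ) ^ 16 * (S : ℝ) ^ 4 := mul_le_mul_of_nonneg_left h4 (hpow _).le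
  calc (n : ℝ) * (4 * ((S : ℝ) ^ (d + 3)) ^ 2 / (S : ℝ) ^ (30 + 2 * d) +
        2 * (n : ℝ) ^ (m + 1) / ((2 * (S : ℝ) ^ (d + 3)) ^ m * (M : ℝ) ^ (m + 1))) +
        2 * (S : ℝ) ^ (30 + 2 * d) * (n / (S : ℝ) ^ (50 + 2 * d))
      ≤ n * (2 / (S : ℝ) ^ 16 + 32 / (S : ℝ) ^ 16) + n * (2 / (S : ℝ) ^ 16) :=
        add_le_add (mul_le_mul_of_nonneg_left (add_le_add ha hb2) hnr) hc3
    _ = 36 * n / (S : ℝ) ^ 16 := by ring

end Pool.Agent.Helper26.PG
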