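import Pool.Agent.Helper26.PG.Defs

/-!
# PG-Cheb: Chebyshev's inequality

PROOF.  As PE-Cheb.
-/

set_option autoImplicit false

namespace Pool.Agent.Helper26.PG

open Finset
open Pool.Agent.Helper26.PE (la la_mul la_prime la_one la_sq la_eq la_abs PS Tup mem_Tup card_Tup pr sm)

variable {n : ℕ} [hn0 : NeZero n]


theorem cheb {T : ZMod n → ℝ} {A ν X : ℝ} (hA : 0 < A) (hν : 0 ≤ ν)
    (hvar : ∑ w : ZMod n, (T w - A / n) ^ 2 ≤ ν * A ^ 2 / n) (B : Finset (ZMod n))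
    (hB : ∑ w ∈ B, T w ≤ X) : (#B : ℝ) / n ≤ 2 * X / A + ν := by
  have hp0 : (0 : ℝ) < n := by exact_mod_cast Nat.pos_of_ne_zero hn0.out
  obtain ⟨x, hx⟩ : ∃ x : ℝ, x = (#B : ℝ) / n := ⟨_, rfl⟩
  have hx0 : 0 ≤ x := by rw [hx]; positivity
  have hBx : (#B : ℝ) = x * n := by rw [hx, div_mul_cancel₀ _ hp0.ne']
  rw [← hx]
  obtain ⟨E, hE⟩ : ∃ E : ℝ, E = ∑ w ∈ B, (T w - A / n) := ⟨_, rfl⟩
  have h1 : E ^ 2 ≤ (#B : ℝ) * ∑ w ∈ B, (T w - A / n) ^ 2 := by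
    rw [hE]
    exact sq_sum_le_card_mul_sum_sq
  have h2 : ∑ w ∈ B, (T w - A / n) ^ 2 ≤ ν * A ^ 2 / n :=
    le_trans (Finset.sum_le_sum_of_subset_of_nonneg (Finset.subset_univ B)
      fun _ _ _ => sq_nonneg _) hvar
  have h3 : E ^ 2 ≤ x * ν * A ^ 2 := by
    calc E ^ 2 ≤ (#B : ℝ) * ∑ w ∈ B, (T w - A / n) ^ 2 := h1
      _ ≤ (#B : ℝ) * (ν * A ^ 2 / n) := mul_le_mul_of_nonneg_left h2 (Nat.cast_nonneg _)
      _ = x * ν * A ^ 2 := by rw [hBx]; field_simp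
  have h4 : |E| ≤ A * (x + ν) / 2 := by
    apply abs_le_of_sq_le_sq _ (by positivity)
    refine h3.trans ?_
    have : 0 ≤ A ^ 2 * (x - ν) ^ 2 := by positivity
    nlinarith
  have h5 : ∑ w ∈ B, T w = E + x * A := by
    rw [hE, Finset.sum_sub_distrib, Finset.sum_const, nsmul_eq_mul, hBx]
    field_simp
    ring
  have h6 : -(A * (x + ν) / 2) ≤ E := (abs_le.1 h4).1
  have h7 : x * A ≤ 2 * X + ν * A := by
    rw [h5] at hB
    linarith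
  have h8 : 2 * X / A + ν = (2 * X + ν * A) / A := by field_simp
  rw [h8, le_div_iff₀ hA]
  exact h7

end Pool.Agent.Helper26.PG
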