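import Pool.Agent.Helper26.PG.Final
import Pool.Agent.Helper68.CO2.Same

/-!
# PG-Cols: the failing columns

PROOF.  As PE-Cols: `H = HH n lam cm_lam` (Helper68/CO2/Rigid.lean, general modulus) satisfies `Stab`; if the coprime columns `k₁`, `k₂`
fail then `U n k₂ * (U n k₁)⁻¹ ∈ H` (`ratio_step`).
-/

set_option autoImplicit false

namespace Pool.Agent.Helper26.PG

open Finset
open Pool.Agent.Helper26.PE (la la_mul la_prime la_one la_sq la_eq la_abs PS Tup mem_Tup card_Tup pr sm)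

theorem la_lam (m : ℕ) : la m = ((Pool.Agent.Helper68.CO2.lam m : ℤ) : ℝ) := by
  unfold la Pool.Agent.Helper68.CO2.lam
  push_cast
  rfl

/-- the stabilizer satisfies the condition -/
theorem stab_HH {n : ℕ} [hn : Fact (1 < n)] :
    Stab (Pool.Agent.Helper68.CO2.HH n Pool.Agent.Helper68.CO2.lam
      Pool.Agent.Helper68.CO2.cm_lam) := by
  intro g hg
  refine ⟨F ((g : (ZMod n)ˣ) : ZMod n), ?_, ?_⟩
  · rcases F_eq ((g : (ZMod n)ˣ) : ZMod n) with h | h <;> rw [h] <;> norm_num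
  · rintro _ ⟨u, rfl⟩
    have h1 := Pool.Agent.Helper68.CO2.mem_HH.1 hg u
    unfold Pool.Agent.Helper68.CO2.FF at h1
    rw [Units.val_mul] at h1
    unfold F
    rw [la_lam, la_lam, la_lam, h1]
    push_cast
    rfl

theorem card_HH_le (ε : ℝ) (hε : 0 < ε) : ∃ C : ℝ, ∀ n : ℕ, ∀ hn : Fact (1 < n),
    (Nat.card (Pool.Agent.Helper68.CO2.HH n Pool.Agent.Helper68.CO2.lam
      Pool.Agent.Helper68.CO2.cm_lam) : ℝ) ≤ C * (n : ℝ) ^ ε := by
  obtain ⟨n0, hn0⟩ := stab_small ε hε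
  refine ⟨(n0 : ℝ) + 1, fun n hn => ?_⟩
  have hnz : NeZero n := ⟨by have := hn.out; omega⟩
  have hn1 : (1 : ℝ) ≤ n := by
    have := hn.out
    exact_mod_cast this.le
  have hpe : (1 : ℝ) ≤ (n : ℝ) ^ ε := Real.one_le_rpow hn1 hε.le
  have h4 : (0 : ℝ) ≤ n0 := Nat.cast_nonneg _
  rcases le_or_gt n0 n with h | h
  · have h2 := hn0 n h _ stab_HH
    nlinarith
  · have h1 : Nat.card (Pool.Agent.Helper68.CO2.HH n Pool.Agent.Helper68.CO2.lam
        Pool.Agent.Helper68.CO2.cm_lam) ≤ n := by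
      refine (Nat.card_le_card_of_injective _ (Subtype.val_injective)).trans ?_
      rw [Nat.card_eq_fintype_card, ZMod.card_units_eq_totient]
      exact Nat.totient_le n
    have h5 : (Nat.card (Pool.Agent.Helper68.CO2.HH n Pool.Agent.Helper68.CO2.lam
        Pool.Agent.Helper68.CO2.cm_lam) : ℝ) ≤ n0 := by exact_mod_cast h1.trans h.le
    nlinarith

open Pool.Agent.Helper68.CO2 in
/-- the number of failing columns is at most the order of the stabilizer -/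
theorem fail_le_card' {n : ℕ} [hn : Fact (1 < n)] :
    {k : ℕ | 1 ≤ k ∧ k < n ∧ Nat.Coprime k n ∧ ¬ Mixed n k n}.ncard ≤
      Nat.card (HH n lam cm_lam) := by
  classical
  have : NeZero n := ⟨by have := hn.out; omega⟩
  obtain ⟨S, hS⟩ : ∃ S : Set ℕ, S = {k : ℕ | 1 ≤ k ∧ k < n ∧ Nat.Coprime k n ∧ ¬ Mixed n k n} :=
    ⟨_, rfl⟩
  rw [← hS]
  have hmem : ∀ k ∈ S, 1 ≤ k ∧ k < n ∧ Nat.Coprime k n ∧ ¬ Mixed n k n := by
    intro k hk
    rw [hS] at hk
    exact hk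
  rcases S.eq_empty_or_nonempty with h | ⟨k₀, hk₀⟩
  · rw [h, Set.ncard_empty]
    exact Nat.zero_le _
  · obtain ⟨a1, a2, a3, a4⟩ := hmem k₀ hk₀
    have h1 : (HH n lam cm_lam : Set (ZMod n)ˣ).ncard = Nat.card (HH n lam cm_lam) :=
      (Nat.card_coe_set_eq _).symm
    rw [← h1]
    refine Set.ncard_le_ncard_of_injOn (fun k => U n k * (U n k₀)⁻¹) ?_ ?_ (Set.toFinite _)
    · intro k hk
      obtain ⟨b1, b2, b3, b4⟩ := hmem k hk
      exact ratio_mem a1 a2 a3 b1 b2 b3 a4 b4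
    · intro k hk l hl hkl
      obtain ⟨b1, b2, b3, _⟩ := hmem k hk
      obtain ⟨c1, c2, c3, _⟩ := hmem l hl
      have h5 : U n k = U n l := mul_right_cancel hkl
      have h6 : (k : ZMod n) = (l : ZMod n) := by
        rw [← coe_U b3, ← coe_U c3, h5]
      have h7 := (ZMod.natCast_eq_natCast_iff' k l n).1 h6
      rwa [Nat.mod_eq_of_lt b2, Nat.mod_eq_of_lt c2] at h7

theorem fail_bound (ε : ℝ) (hε : 0 < ε) : ∃ C : ℝ, ∀ n : ℕ, 1 < n →
    ({k : ℕ | 1 ≤ k ∧ k < n ∧ Nat.Coprime k n ∧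
      ¬ ((∃ j < n, Even (ArithmeticFunction.cardFactors (j * n + k))) ∧
      (∃ j < n, Odd (ArithmeticFunction.cardFactors (j * n + k))))}.ncard : ℝ) ≤
      C * (n : ℝ) ^ ε := by
  obtain ⟨C, hC⟩ := card_HH_le ε hε
  refine ⟨C, fun n hn => ?_⟩
  have hnf : Fact (1 < n) := ⟨hn⟩
  have h1 := fail_le_card' (n := n)
  have h2 := hC n hnf
  refine le_trans ?_ h2
  exact_mod_cast h1

end Pool.Agent.Helper26.PG
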