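import Pool.Agent.Helper26.PG.FinalG
import Pool.Agent.Helper53.KM.G13
import Pool.Agent.Helper68.CO2.Rigid

/-!
# PG-ColsG: columns with many numbers of each parity

PROOF.  Let `k` be bad: for a sign `s`, `#{j < n : λ(j n + k) ≠ s} < n ^ (1 - ε)`.  For a unit `a`, `b = k / a`, the representatives
satisfy `a b ≡ k`, `k ≤ a b < n ^ 2`, so `a b = j n + k`, `j < n`, and `F a F (k / a) = λ(j n + k)`.  Every `m < n ^ 2` has at most
`C n ^ (ε / 4)` divisors (`divisor_bound` in Helper53/KM/G13.lean, namespace Pool.Agent.M17.Helper89.SLE, or `small_fun`), so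
`F (k / a) = s F a` for all but `C n ^ (1 - 3 ε / 4)` units `a`.  For bad `k₁`, `k₂`, `g = k₂ / k₁`, `x = k₁ / a`:
`F (g x) = s₁ s₂ F x` for all but `2 C n ^ (1 - 3 ε / 4) ≤ n ^ (1 - ε / 2)` units.  Fix `k₁`; `G = {k / k₁ : k bad}`, `near_small` with
`ε / 2`.  Small `n` by the constant (`# ≤ n ≤ n0`).
-/

set_option autoImplicit false

namespace Pool.Agent.Helper26.PG

open Finset
open Pool.Agent.Helper26.PE (la la_mul la_prime la_one la_sq la_eq la_abs PS Tup mem_Tup card_Tup pr sm)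

open Pool.Agent.Helper68.CO2 (U coe_U) in
/-- the exceptions of one column -/
private theorem ColsG_exc {n : ℕ} [NeZero n] (hn : 1 < n) {k : ℕ} (hkn : k < n)
    (hc : Nat.Coprime k n) (s T : ℝ) (hT : ∀ m, 0 < m → m < n ^ 2 → (#m.divisors : ℝ) ≤ T) :
    (#(univ.filter fun a : (ZMod n)ˣ =>
      F (a : ZMod n) * F ((U n k * a⁻¹ : (ZMod n)ˣ) : ZMod n) ≠ s) : ℝ) ≤
      #((range n).filter fun j => la (j * n + k) ≠ s) * T := by
  classical
  set E := (range n).filter fun j => la (j * n + k) ≠ s with hE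
  set A := univ.filter fun a : (ZMod n)ˣ =>
    F (a : ZMod n) * F ((U n k * a⁻¹ : (ZMod n)ˣ) : ZMod n) ≠ s with hA
  have hk0 : 0 < k := by
    rcases Nat.eq_zero_or_pos k with h | h
    · rw [h, Nat.coprime_zero_left] at hc
      omega
    · exact h
  have h1 : #A ≤ #(E.biUnion fun j => (j * n + k).divisors) := by
    refine card_le_card_of_injOn (fun a => (a : ZMod n).val) (fun a ha => ?_)
      (fun a _ b _ hab => ?_)
    · rw [mem_coe, hA, mem_filter] at ha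
      obtain ⟨-, ha⟩ := ha
      obtain ⟨v, hv⟩ : ∃ v, v = (a : ZMod n).val := ⟨_, rfl⟩
      obtain ⟨w, hw⟩ : ∃ w, w = ((U n k * a⁻¹ : (ZMod n)ˣ) : ZMod n).val := ⟨_, rfl⟩
      have hv0 : 0 < v := by rw [hv]; exact val_pos hn a.isUnit
      have hw0 : 0 < w := by rw [hw]; exact val_pos hn (U n k * a⁻¹).isUnit
      have hvn : v < n := by rw [hv]; exact ZMod.val_lt _
      have hwn : w < n := by rw [hw]; exact ZMod.val_lt _
      have h2 : ((v * w : ℕ) : ZMod n) = (k : ZMod n) := by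
        rw [Nat.cast_mul, hv, hw, ZMod.natCast_zmod_val, ZMod.natCast_zmod_val, ← Units.val_mul,
          ← coe_U hc]
        congr 1
        rw [mul_comm, inv_mul_cancel_right]
      have h3 := (ZMod.natCast_eq_natCast_iff' _ _ n).1 h2
      rw [Nat.mod_eq_of_lt hkn] at h3
      have h4 : v * w / n * n + k = v * w := by
        have := Nat.div_add_mod (v * w) n
        rw [h3, mul_comm] at this
        exact this
      have h5 : v * w / n < n := by
        rw [Nat.div_lt_iff_lt_mul (by omega)]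
        exact Nat.mul_lt_mul'' hvn hwn
      rw [mem_coe, mem_biUnion]
      refine ⟨v * w / n, ?_, ?_⟩
      · rw [hE, mem_filter, mem_range]
        refine ⟨h5, ?_⟩
        rw [h4, la_mul hv0.ne' hw0.ne', hv, hw]
        exact ha
      · rw [h4, Nat.mem_divisors]
        refine ⟨?_, (mul_pos hv0 hw0).ne'⟩
        show (a : ZMod n).val ∣ v * w
        rw [← hv]
        exact dvd_mul_right _ _
    · exact Units.ext (ZMod.val_injective n hab)
  have h2 : (#(E.biUnion fun j => (j * n + k).divisors) : ℝ) ≤ #E * T := by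
    have h3 : (#(E.biUnion fun j => (j * n + k).divisors) : ℝ) ≤
        ∑ j ∈ E, (#(j * n + k).divisors : ℝ) := by
      exact_mod_cast card_biUnion_le
    refine h3.trans ((sum_le_sum fun j hj => hT _ (by omega) ?_).trans (le_of_eq ?_))
    · rw [hE, mem_filter, mem_range] at hj
      have h6 : j * n + k < (j + 1) * n := by
        rw [add_mul, one_mul]
        omega
      have h7 : (j + 1) * n ≤ n * n := Nat.mul_le_mul_right n hj.1
      rw [pow_two]
      exact lt_of_lt_of_le h6 h7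
    · rw [sum_const, nsmul_eq_mul]
  have h3 : (#A : ℝ) ≤ #(E.biUnion fun j => (j * n + k).divisors) := by exact_mod_cast h1
  exact h3.trans h2

open Pool.Agent.Helper68.CO2 (U coe_U) in
/-- the ratio of two columns -/
private theorem ColsG_pair {n : ℕ} [NeZero n] {k₁ k₂ : ℕ} (s₁ s₂ X : ℝ)
    (h₁ : (#(univ.filter fun a : (ZMod n)ˣ =>
      F (a : ZMod n) * F ((U n k₁ * a⁻¹ : (ZMod n)ˣ) : ZMod n) ≠ s₁) : ℝ) ≤ X)
    (h₂ : (#(univ.filter fun a : (ZMod n)ˣ =>
      F (a : ZMod n) * F ((U n k₂ * a⁻¹ : (ZMod n)ˣ) : ZMod n) ≠ s₂) : ℝ) ≤ X) :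
    (Set.ncard {x : ZMod n | IsUnit x ∧
      F (((U n k₂ * (U n k₁)⁻¹ : (ZMod n)ˣ) : ZMod n) * x) ≠ (s₁ * s₂) * F x} : ℝ) ≤ 2 * X := by
  classical
  set A₁ := univ.filter fun a : (ZMod n)ˣ =>
      F (a : ZMod n) * F ((U n k₁ * a⁻¹ : (ZMod n)ˣ) : ZMod n) ≠ s₁ with hA₁
  set A₂ := univ.filter fun a : (ZMod n)ˣ =>
      F (a : ZMod n) * F ((U n k₂ * a⁻¹ : (ZMod n)ˣ) : ZMod n) ≠ s₂ with hA₂
  have hsub : {x : ZMod n | IsUnit x ∧
      F (((U n k₂ * (U n k₁)⁻¹ : (ZMod n)ˣ) : ZMod n) * x) ≠ (s₁ * s₂) * F x} ⊆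
      (fun a : (ZMod n)ˣ => ((U n k₁ * a⁻¹ : (ZMod n)ˣ) : ZMod n)) '' ((A₁ ∪ A₂ : Finset _) : Set _) := by
    rintro _ ⟨⟨u, rfl⟩, hx⟩
    refine ⟨U n k₁ * u⁻¹, ?_, ?_⟩
    · by_contra hcon
      rw [mem_coe, mem_union, not_or] at hcon
      obtain ⟨c1, c2⟩ := hcon
      rw [hA₁, mem_filter, not_and, not_ne_iff] at c1
      rw [hA₂, mem_filter, not_and, not_ne_iff] at c2
      have d1 := c1 (mem_univ _)
      have d2 := c2 (mem_univ _)
      have e1 : U n k₁ * (U n k₁ * u⁻¹)⁻¹ = u := by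
        rw [mul_inv, inv_inv, mul_inv_cancel_left]
      have e2 : U n k₂ * (U n k₁ * u⁻¹)⁻¹ = U n k₂ * (U n k₁)⁻¹ * u := by
        rw [mul_inv, inv_inv, mul_assoc]
      rw [e1] at d1
      rw [e2] at d2
      apply hx
      rw [← Units.val_mul, ← d1, ← d2]
      have f1 := F_sq ((U n k₁ * u⁻¹ : (ZMod n)ˣ) : ZMod n)
      have f2 := F_sq ((u : (ZMod n)ˣ) : ZMod n)
      generalize F ((U n k₁ * u⁻¹ : (ZMod n)ˣ) : ZMod n) = P at *
      generalize F ((u : (ZMod n)ˣ) : ZMod n) = Q at *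
      generalize F ((U n k₂ * (U n k₁)⁻¹ * u : (ZMod n)ˣ) : ZMod n) = R at *
      calc R = (P * P) * (Q * Q) * R := by rw [f1, f2]; ring
        _ = _ := by ring
    · show ((U n k₁ * (U n k₁ * u⁻¹)⁻¹ : (ZMod n)ˣ) : ZMod n) = u
      rw [mul_inv, inv_inv, mul_inv_cancel_left]
  have h3 := (Set.ncard_le_ncard hsub (Set.toFinite _)).trans (Set.ncard_image_le (Set.toFinite _))
  rw [Set.ncard_coe_finset] at h3
  have h4 : (#(A₁ ∪ A₂) : ℝ) ≤ #A₁ + #A₂ := by exact_mod_cast card_union_le _ _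
  have h5 : ((Set.ncard {x : ZMod n | IsUnit x ∧
      F (((U n k₂ * (U n k₁)⁻¹ : (ZMod n)ˣ) : ZMod n) * x) ≠ (s₁ * s₂) * F x} : ℕ) : ℝ) ≤
      #(A₁ ∪ A₂) := by exact_mod_cast h3
  linarith

private theorem ColsG_one (m : ℕ) : la m ≠ 1 ↔ Odd (ArithmeticFunction.cardFactors m) := by
  rw [← Nat.not_even_iff_odd, not_iff_not]
  exact neg_one_pow_eq_one_iff_even (by norm_num)

private theorem ColsG_neg (m : ℕ) : la m ≠ -1 ↔ Even (ArithmeticFunction.cardFactors m) := by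
  rw [← Nat.not_odd_iff_even, not_iff_not]
  exact neg_one_pow_eq_neg_one_iff_odd (by norm_num)

open Pool.Agent.Helper68.CO2 (U coe_U) in
theorem few_near (ε : ℝ) (hε : 0 < ε) : ∃ C : ℝ, ∀ n : ℕ, 1 < n →
    ({k : ℕ | 1 ≤ k ∧ k < n ∧ Nat.Coprime k n ∧
      ¬ ((n : ℝ) ^ (1 - ε) ≤
          (#((range n).filter fun j => Even (ArithmeticFunction.cardFactors (j * n + k))) : ℝ) ∧
        (n : ℝ) ^ (1 - ε) ≤
          (#((range n).filter fun j => Odd (ArithmeticFunction.cardFactors (j * n + k))) : ℝ))}.ncard : ℝ) ≤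
      C * (n : ℝ) ^ ε := by
  classical
  obtain ⟨C1, hC1, hdiv⟩ := Pool.Agent.M17.Helper89.SLE.divisor_bound (ε / 8) (by linarith)
  obtain ⟨n0, hn0⟩ := near_small (ε / 2) (by linarith)
  obtain ⟨n1, hn1⟩ := exists_nat_ge ((2 * C1) ^ (4 / ε))
  refine ⟨(n0 : ℝ) + n1 + 1, fun n hn => ?_⟩
  have hnz : NeZero n := ⟨by omega⟩
  have hnR : (1 : ℝ) ≤ n := by exact_mod_cast hn.le
  have hnp : (0 : ℝ) < n := by linarith
  have hpe : (1 : ℝ) ≤ (n : ℝ) ^ ε := Real.one_le_rpow hnR hε.le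
  have hn0R : (0 : ℝ) ≤ n0 := Nat.cast_nonneg _
  have hn1R : (0 : ℝ) ≤ n1 := Nat.cast_nonneg _
  obtain ⟨S, hS⟩ : ∃ S : Set ℕ, S = {k : ℕ | 1 ≤ k ∧ k < n ∧ Nat.Coprime k n ∧
      ¬ ((n : ℝ) ^ (1 - ε) ≤
          (#((range n).filter fun j => Even (ArithmeticFunction.cardFactors (j * n + k))) : ℝ) ∧
        (n : ℝ) ^ (1 - ε) ≤
          (#((range n).filter fun j => Odd (ArithmeticFunction.cardFactors (j * n + k))) : ℝ))} :=
    ⟨_, rfl⟩
  rw [← hS]
  have hSsub : S ⊆ (range n : Set ℕ) := by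
    rw [hS]
    intro k hk
    rw [mem_coe, mem_range]
    exact hk.2.1
  have hSfin : S.Finite := (finite_toSet _).subset hSsub
  have hScard : S.ncard ≤ n := by
    have h := Set.ncard_le_ncard hSsub (finite_toSet _)
    rwa [Set.ncard_coe_finset, card_range] at h
  by_cases hbig : n0 ≤ n ∧ n1 ≤ n
  · obtain ⟨hb0, hb1⟩ := hbig
    have hmem : ∀ k ∈ S, k < n ∧ Nat.Coprime k n ∧ ∃ s : ℝ, (s = 1 ∨ s = -1) ∧
        (#((range n).filter fun j => la (j * n + k) ≠ s) : ℝ) ≤ (n : ℝ) ^ (1 - ε) := by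
      intro k hk
      rw [hS] at hk
      obtain ⟨-, h2, h3, h4⟩ := hk
      refine ⟨h2, h3, ?_⟩
      rw [not_and_or, not_le, not_le] at h4
      rcases h4 with h4 | h4
      · refine ⟨-1, Or.inr rfl, ?_⟩
        simp only [ColsG_neg]
        exact h4.le
      · refine ⟨1, Or.inl rfl, ?_⟩
        simp only [ColsG_one]
        exact h4.le
    have hT : ∀ m, 0 < m → m < n ^ 2 → (#m.divisors : ℝ) ≤ C1 * (n : ℝ) ^ (ε / 4) := by
      intro m hm hm2
      refine (hdiv m hm).trans (mul_le_mul_of_nonneg_left ?_ (by linarith))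
      have h1 : (m : ℝ) ≤ (n : ℝ) ^ (2 : ℝ) := by
        rw [Real.rpow_two]
        exact_mod_cast hm2.le
      refine (Real.rpow_le_rpow (Nat.cast_nonneg _) h1 (by linarith)).trans (le_of_eq ?_)
      rw [← Real.rpow_mul hnp.le]
      congr 1
      ring
    have hX : ∀ k ∈ S, ∃ s : ℝ, s ≠ 0 ∧ (#(univ.filter fun a : (ZMod n)ˣ =>
        F (a : ZMod n) * F ((U n k * a⁻¹ : (ZMod n)ˣ) : ZMod n) ≠ s) : ℝ) ≤
          (n : ℝ) ^ (1 - ε) * (C1 * (n : ℝ) ^ (ε / 4)) := by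
      intro k hk
      obtain ⟨h1, h2, s, hs, h3⟩ := hmem k hk
      refine ⟨s, by rcases hs with rfl | rfl <;> norm_num, ?_⟩
      refine (ColsG_exc hn h1 h2 s _ hT).trans (mul_le_mul_of_nonneg_right h3 ?_)
      have := Real.rpow_nonneg hnp.le (ε / 4)
      exact mul_nonneg (by linarith) this
    have hfin : 2 * ((n : ℝ) ^ (1 - ε) * (C1 * (n : ℝ) ^ (ε / 4))) ≤ (n : ℝ) ^ (-(ε / 2)) * n := by
      have h1 : 2 * C1 ≤ (n : ℝ) ^ (ε / 4) := by
        have h2 : ((2 * C1) ^ (4 / ε) : ℝ) ≤ n := hn1.trans (by exact_mod_cast hb1)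
        have h3 := Real.rpow_le_rpow (Real.rpow_nonneg (by linarith) _) h2
          (show 0 ≤ ε / 4 by linarith)
        rw [← Real.rpow_mul (by linarith)] at h3
        have h4 : 4 / ε * (ε / 4) = 1 := by field_simp
        rwa [h4, Real.rpow_one] at h3
      have h5 : (n : ℝ) ^ (-(ε / 2)) * n =
          (n : ℝ) ^ (ε / 4) * ((n : ℝ) ^ (1 - ε) * (n : ℝ) ^ (ε / 4)) := by
        have h6 : (n : ℝ) ^ (-(ε / 2)) * n = (n : ℝ) ^ (-(ε / 2)) * (n : ℝ) ^ (1 : ℝ) := by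
          rw [Real.rpow_one]
        rw [h6, ← Real.rpow_add hnp, ← Real.rpow_add hnp, ← Real.rpow_add hnp]
        congr 1
        ring
      rw [h5]
      have h7 : 0 ≤ (n : ℝ) ^ (1 - ε) * (n : ℝ) ^ (ε / 4) :=
        mul_nonneg (Real.rpow_nonneg hnp.le _) (Real.rpow_nonneg hnp.le _)
      calc 2 * ((n : ℝ) ^ (1 - ε) * (C1 * (n : ℝ) ^ (ε / 4)))
          = (2 * C1) * ((n : ℝ) ^ (1 - ε) * (n : ℝ) ^ (ε / 4)) := by ring
        _ ≤ _ := mul_le_mul_of_nonneg_right h1 h7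
    have hmain : (S.ncard : ℝ) ≤ (n : ℝ) ^ (ε / 2) := by
      rcases S.eq_empty_or_nonempty with h | ⟨k₁, hk₁⟩
      · rw [h, Set.ncard_empty, Nat.cast_zero]
        exact Real.rpow_nonneg hnp.le _
      · set G : Finset (ZMod n)ˣ := hSfin.toFinset.image fun k => U n k * (U n k₁)⁻¹ with hG
        have hGc : #G = S.ncard := by
          rw [hG, card_image_of_injOn, Set.ncard_eq_toFinset_card S hSfin]
          intro k hk l hl hkl
          have hk' : k ∈ S := by simpa using hk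
          have hl' : l ∈ S := by simpa using hl
          obtain ⟨b1, b2, -⟩ := hmem k hk'
          obtain ⟨c1, c2, -⟩ := hmem l hl'
          have h5 : U n k = U n l := mul_right_cancel hkl
          have h6 : (k : ZMod n) = (l : ZMod n) := by rw [← coe_U b2, ← coe_U c2, h5]
          have h7 := (ZMod.natCast_eq_natCast_iff' k l n).1 h6
          rwa [Nat.mod_eq_of_lt b1, Nat.mod_eq_of_lt c1] at h7
        rw [← hGc]
        refine hn0 n hb0 G ?_
        intro g hg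
        rw [hG, mem_image] at hg
        obtain ⟨k₂, hk₂, rfl⟩ := hg
        have hk₂' : k₂ ∈ S := by simpa using hk₂
        obtain ⟨s₁, hs₁, e₁⟩ := hX k₁ hk₁
        obtain ⟨s₂, hs₂, e₂⟩ := hX k₂ hk₂'
        exact ⟨s₁ * s₂, mul_ne_zero hs₁ hs₂, (ColsG_pair s₁ s₂ _ e₁ e₂).trans hfin⟩
    have h8 : (n : ℝ) ^ (ε / 2) ≤ (n : ℝ) ^ ε := Real.rpow_le_rpow_of_exponent_le hnR (by linarith)
    nlinarith
  · have h1 : (S.ncard : ℝ) ≤ n := by exact_mod_cast hScard
    have h2 : (n : ℝ) ≤ n0 + n1 := by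
      rw [not_and_or, not_le, not_le] at hbig
      rcases hbig with h | h
      · have : (n : ℝ) ≤ n0 := by exact_mod_cast h.le
        linarith
      · have : (n : ℝ) ≤ n1 := by exact_mod_cast h.le
        linarith
    nlinarith

end Pool.Agent.Helper26.PG
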