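import Pool.Agent.Helper26.PG.FinalM
import Pool.Agent.Helper53.KM.G13
import Pool.Agent.Helper68.CO2.Rigid

/-!
# PG-ColsM: columns with many numbers of each parity in a short window (sharper)

PROOF.  As ColsW with `2 δ` in place of `9 δ / 2`.
-/

set_option autoImplicit false

namespace Pool.Agent.Helper26.PG

open Finset
open Pool.Agent.Helper26.PE (la la_mul la_prime la_one la_sq la_eq la_abs PS Tup mem_Tup card_Tup pr sm)

open Pool.Agent.Helper68.CO2 (U coe_U) in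
/-- the exceptions of one column in a window -/
private theorem ColsM_exc {n : ℕ} [NeZero n] {k : ℕ} (hk0 : 0 < k) (hkn : k < n)
    (hc : Nat.Coprime k n) (A : ℕ) (s T : ℝ) (hT0 : 0 ≤ T)
    (hT : ∀ m, 0 < m → m < n ^ 2 → (#m.divisors : ℝ) ≤ T) (J : Finset ℕ)
    (hJn : ∀ j ∈ J, j < n) (hJ : ∀ j, j < A → la (j * n + k) ≠ s → j ∈ J) :
    (Set.ncard {a : ℕ | 1 ≤ a ∧ a ≤ A ∧ ∃ x : ZMod n,
      (a : ZMod n) * x = ((U n k : (ZMod n)ˣ) : ZMod n) ∧ F x ≠ s * la a} : ℝ) ≤ #J * T := by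
  classical
  have hn : 0 < n := by omega
  have h1 : {a : ℕ | 1 ≤ a ∧ a ≤ A ∧ ∃ x : ZMod n,
      (a : ZMod n) * x = ((U n k : (ZMod n)ˣ) : ZMod n) ∧ F x ≠ s * la a} ⊆
      ((J.biUnion fun j => (j * n + k).divisors : Finset ℕ) : Set ℕ) := by
    rintro a ⟨ha1, haA, x, hax, hFx⟩
    obtain ⟨w, hw⟩ : ∃ w, w = x.val := ⟨_, rfl⟩
    have hwn : w < n := by rw [hw]; exact ZMod.val_lt _
    have h2 : ((a * w : ℕ) : ZMod n) = (k : ZMod n) := by
      rw [Nat.cast_mul, hw, ZMod.natCast_zmod_val, hax, coe_U hc]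
    have h3 := (ZMod.natCast_eq_natCast_iff' _ _ n).1 h2
    rw [Nat.mod_eq_of_lt hkn] at h3
    have hw0 : 0 < w := by
      rcases Nat.eq_zero_or_pos w with h | h
      · rw [h, mul_zero, Nat.zero_mod] at h3
        omega
      · exact h
    have h4 : a * w / n * n + k = a * w := by
      have := Nat.div_add_mod (a * w) n
      rw [h3, mul_comm] at this
      exact this
    have h5 : a * w / n < A := by
      rw [Nat.div_lt_iff_lt_mul hn]
      calc a * w < a * n := Nat.mul_lt_mul_of_pos_left hwn ha1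
        _ ≤ A * n := Nat.mul_le_mul_right n haA
    rw [mem_coe, mem_biUnion]
    refine ⟨a * w / n, hJ _ h5 ?_, ?_⟩
    · rw [h4, la_mul (by omega) hw0.ne']
      intro h6
      apply hFx
      have h7 : F x = la w := by rw [hw]; rfl
      have h8 := la_sq a
      rw [h7, ← h6]
      calc la w = (la a * la a) * la w := by rw [h8, one_mul]
        _ = _ := by ring
    · rw [h4, Nat.mem_divisors]
      exact ⟨dvd_mul_right _ _, (Nat.mul_pos ha1 hw0).ne'⟩
  have h2 := Set.ncard_le_ncard h1 (finite_toSet _)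
  rw [Set.ncard_coe_finset] at h2
  have h3 : (#(J.biUnion fun j => (j * n + k).divisors) : ℝ) ≤ #J * T := by
    have h3 : (#(J.biUnion fun j => (j * n + k).divisors) : ℝ) ≤
        ∑ j ∈ J, (#(j * n + k).divisors : ℝ) := by
      exact_mod_cast card_biUnion_le
    refine h3.trans ((sum_le_sum fun j hj => hT _ (by omega) ?_).trans (le_of_eq ?_))
    · have h6 : j * n + k < (j + 1) * n := by
        rw [add_mul, one_mul]
        omega
      have h7 : (j + 1) * n ≤ n * n := Nat.mul_le_mul_right n (hJn j hj)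
      rw [pow_two]
      exact lt_of_lt_of_le h6 h7
    · rw [sum_const, nsmul_eq_mul]
  refine le_trans ?_ h3
  exact_mod_cast h2

private theorem ColsM_one (m : ℕ) : la m ≠ 1 ↔ Odd (ArithmeticFunction.cardFactors m) := by
  rw [← Nat.not_even_iff_odd, not_iff_not]
  exact neg_one_pow_eq_one_iff_even (by norm_num)

private theorem ColsM_neg (m : ℕ) : la m ≠ -1 ↔ Even (ArithmeticFunction.cardFactors m) := by
  rw [← Nat.not_odd_iff_even, not_iff_not]
  exact neg_one_pow_eq_neg_one_iff_odd (by norm_num)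

open Pool.Agent.Helper68.CO2 (U coe_U) in
/-- the window theorem from the bound for the sets with `NearW` -/
theorem cols_core (δ ε κ : ℝ) (hδ : 0 ≤ δ) (hκ : 0 < κ) (hε : 0 < ε)
    (H : ∀ C : ℝ, ∃ n0 : ℕ, ∀ (n : ℕ) [NeZero n], n0 ≤ n → ∀ (K : Finset (ZMod n)ˣ) (A : ℕ),
      A < n → (n : ℝ) ^ (1 - δ) ≤ A + 1 → NearW K A (C * (n : ℝ) ^ (1 - ε + κ / 4)) →
      (#K : ℝ) ≤ (n : ℝ) ^ ε) :
    ∃ C : ℝ, ∀ n : ℕ, 1 < n →
    ({k : ℕ | 1 ≤ k ∧ k < n ∧ Nat.Coprime k n ∧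
      ¬ ((n : ℝ) ^ (1 - ε) ≤ ({j : ℕ | (j : ℝ) < (n : ℝ) ^ (1 - δ) ∧
            Even (ArithmeticFunction.cardFactors (j * n + k))}.ncard : ℝ) ∧
        (n : ℝ) ^ (1 - ε) ≤ ({j : ℕ | (j : ℝ) < (n : ℝ) ^ (1 - δ) ∧
            Odd (ArithmeticFunction.cardFactors (j * n + k))}.ncard : ℝ))}.ncard : ℝ) ≤
      C * (n : ℝ) ^ ε := by
  classical
  obtain ⟨C1, hC1, hdiv⟩ := Pool.Agent.M17.Helper89.SLE.divisor_bound (κ / 8) (by linarith)
  obtain ⟨n0, hn0⟩ := H C1
  refine ⟨(n0 : ℝ) + 1, fun n hn => ?_⟩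
  have hnz : NeZero n := ⟨by omega⟩
  have hnR : (1 : ℝ) ≤ n := by exact_mod_cast hn.le
  have hnp : (0 : ℝ) < n := by linarith
  have hpe : (1 : ℝ) ≤ (n : ℝ) ^ ε := Real.one_le_rpow hnR hε.le
  have hn0R : (0 : ℝ) ≤ n0 := Nat.cast_nonneg _
  obtain ⟨S, hS⟩ : ∃ S : Set ℕ, S = {k : ℕ | 1 ≤ k ∧ k < n ∧ Nat.Coprime k n ∧
      ¬ ((n : ℝ) ^ (1 - ε) ≤ ({j : ℕ | (j : ℝ) < (n : ℝ) ^ (1 - δ) ∧
            Even (ArithmeticFunction.cardFactors (j * n + k))}.ncard : ℝ) ∧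
        (n : ℝ) ^ (1 - ε) ≤ ({j : ℕ | (j : ℝ) < (n : ℝ) ^ (1 - δ) ∧
            Odd (ArithmeticFunction.cardFactors (j * n + k))}.ncard : ℝ))} :=
    ⟨_, rfl⟩
  rw [← hS]
  have hSsub : S ⊆ (range n : Set ℕ) := by
    rw [hS]
    intro k hk
    rw [mem_coe, mem_range]
    exact hk.2.1
  have hSfin : S.Finite := (finite_toSet _).subset hSsub
  have hScard : S.ncard ≤ n := by
    have h := Set.ncard_le_ncard hSsub (finite_toSet _)
    rwa [Set.ncard_coe_finset, card_range] at h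
  by_cases hb0 : n0 ≤ n
  · -- the window
    have hwin : ∀ j : ℕ, (j : ℝ) < (n : ℝ) ^ (1 - δ) → j < n := by
      intro j hj
      have h1 : (n : ℝ) ^ (1 - δ) ≤ n := by
        calc (n : ℝ) ^ (1 - δ) ≤ (n : ℝ) ^ (1 : ℝ) :=
              Real.rpow_le_rpow_of_exponent_le hnR (by linarith)
          _ = n := Real.rpow_one _
      exact_mod_cast hj.trans_le h1
    have hwfin : ∀ (p : ℕ → Prop), {j : ℕ | (j : ℝ) < (n : ℝ) ^ (1 - δ) ∧ p j}.Finite := by
      intro p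
      refine (finite_toSet (range n)).subset fun j hj => ?_
      rw [mem_coe, mem_range]
      exact hwin j hj.1
    obtain ⟨y, hy⟩ : ∃ y, y = (n : ℝ) ^ (1 - δ) := ⟨_, rfl⟩
    have hy0 : 0 < y := by rw [hy]; exact Real.rpow_pos_of_pos hnp _
    have hyn : y ≤ n := by
      rw [hy]
      calc (n : ℝ) ^ (1 - δ) ≤ (n : ℝ) ^ (1 : ℝ) :=
            Real.rpow_le_rpow_of_exponent_le hnR (by linarith)
        _ = n := Real.rpow_one _
    obtain ⟨A, hA⟩ : ∃ A, A = ⌈y⌉₊ - 1 := ⟨_, rfl⟩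
    have hc0 : 0 < ⌈y⌉₊ := Nat.ceil_pos.2 hy0
    have hcn : ⌈y⌉₊ ≤ n := Nat.ceil_le.2 hyn
    have hA1 : A + 1 = ⌈y⌉₊ := by omega
    have hAn : A < n := by omega
    have hAy : (A : ℝ) < y := Nat.lt_ceil.1 (by omega)
    have hyA : y ≤ (A : ℝ) + 1 := by
      have h := Nat.le_ceil y
      rw [← hA1] at h
      exact_mod_cast h
    have hT : ∀ m, 0 < m → m < n ^ 2 → (#m.divisors : ℝ) ≤ C1 * (n : ℝ) ^ (κ / 4) := by
      intro m hm hm2
      refine (hdiv m hm).trans (mul_le_mul_of_nonneg_left ?_ (by linarith))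
      have h1 : (m : ℝ) ≤ (n : ℝ) ^ (2 : ℝ) := by
        rw [Real.rpow_two]
        exact_mod_cast hm2.le
      refine (Real.rpow_le_rpow (Nat.cast_nonneg _) h1 (by linarith)).trans (le_of_eq ?_)
      rw [← Real.rpow_mul hnp.le]
      congr 1
      ring
    have hT0 : 0 ≤ C1 * (n : ℝ) ^ (κ / 4) :=
      mul_nonneg (by linarith) (Real.rpow_nonneg hnp.le _)
    have hmem : ∀ k ∈ S, 0 < k ∧ k < n ∧ Nat.Coprime k n ∧ ∃ s : ℝ,
        ({j : ℕ | (j : ℝ) < (n : ℝ) ^ (1 - δ) ∧ la (j * n + k) ≠ s}.ncard : ℝ) ≤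
          (n : ℝ) ^ (1 - ε) := by
      intro k hk
      rw [hS] at hk
      obtain ⟨h1, h2, h3, h4⟩ := hk
      refine ⟨h1, h2, h3, ?_⟩
      rw [not_and_or, not_le, not_le] at h4
      rcases h4 with h4 | h4
      · refine ⟨-1, ?_⟩
        simp only [ColsM_neg]
        exact h4.le
      · refine ⟨1, ?_⟩
        simp only [ColsM_one]
        exact h4.le
    have hmain : (S.ncard : ℝ) ≤ (n : ℝ) ^ ε := by
      set K : Finset (ZMod n)ˣ := hSfin.toFinset.image fun k => U n k with hK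
      have hKc : #K = S.ncard := by
        rw [hK, card_image_of_injOn, Set.ncard_eq_toFinset_card S hSfin]
        intro k hk l hl hkl
        have hk' : k ∈ S := by simpa using hk
        have hl' : l ∈ S := by simpa using hl
        obtain ⟨-, b1, b2, -⟩ := hmem k hk'
        obtain ⟨-, c1, c2, -⟩ := hmem l hl'
        have h5 : U n k = U n l := hkl
        have h6 : (k : ZMod n) = (l : ZMod n) := by rw [← coe_U b2, ← coe_U c2, h5]
        have h7 := (ZMod.natCast_eq_natCast_iff' k l n).1 h6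
        rwa [Nat.mod_eq_of_lt b1, Nat.mod_eq_of_lt c1] at h7
      rw [← hKc]
      refine hn0 n hb0 K A hAn (by rw [← hy]; exact hyA) ?_
      intro g hg
      rw [hK, mem_image] at hg
      obtain ⟨k, hk, rfl⟩ := hg
      have hk' : k ∈ S := by simpa using hk
      obtain ⟨d1, d2, d3, s, d4⟩ := hmem k hk'
      refine ⟨s, ?_⟩
      have hfin := hwfin fun j => la (j * n + k) ≠ s
      have h1 := ColsM_exc d1 d2 d3 A s (C1 * (n : ℝ) ^ (κ / 4)) hT0 hT hfin.toFinset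
        (fun j hj => by
          rw [Set.Finite.mem_toFinset] at hj
          exact hwin j hj.1)
        (fun j hj hs => by
          rw [Set.Finite.mem_toFinset]
          refine ⟨?_, hs⟩
          rw [← hy]
          have : (j : ℝ) < A := by exact_mod_cast hj
          linarith)
      refine h1.trans ?_
      rw [← Set.ncard_eq_toFinset_card _ hfin]
      calc (({j : ℕ | (j : ℝ) < (n : ℝ) ^ (1 - δ) ∧ la (j * n + k) ≠ s}.ncard : ℕ) : ℝ) *
            (C1 * (n : ℝ) ^ (κ / 4)) ≤ (n : ℝ) ^ (1 - ε) * (C1 * (n : ℝ) ^ (κ / 4)) :=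
            mul_le_mul_of_nonneg_right d4 hT0
        _ = C1 * (n : ℝ) ^ (1 - ε + κ / 4) := by
            rw [Real.rpow_add hnp]
            ring
    have h9 : (0 : ℝ) ≤ n0 * (n : ℝ) ^ ε := by positivity
    linarith
  · have h1 : (S.ncard : ℝ) ≤ n := by exact_mod_cast hScard
    have h2 : (n : ℝ) ≤ n0 := by exact_mod_cast (not_le.1 hb0).le
    nlinarith

theorem few_windowM (δ ε : ℝ) (hδ : 0 ≤ δ) (hδε : 2 * δ < ε) : ∃ C : ℝ, ∀ n : ℕ, 1 < n →
    ({k : ℕ | 1 ≤ k ∧ k < n ∧ Nat.Coprime k n ∧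
      ¬ ((n : ℝ) ^ (1 - ε) ≤ ({j : ℕ | (j : ℝ) < (n : ℝ) ^ (1 - δ) ∧
            Even (ArithmeticFunction.cardFactors (j * n + k))}.ncard : ℝ) ∧
        (n : ℝ) ^ (1 - ε) ≤ ({j : ℕ | (j : ℝ) < (n : ℝ) ^ (1 - δ) ∧
            Odd (ArithmeticFunction.cardFactors (j * n + k))}.ncard : ℝ))}.ncard : ℝ) ≤
      C * (n : ℝ) ^ ε := by
  rcases le_or_gt ε 1 with hε1 | hε1
  · exact cols_core δ ε (ε - 2 * δ) hδ (by linarith) (by linarith)
      fun C => nearM_small δ ε hδ hδε hε1 C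
  · refine ⟨1, fun n hn => ?_⟩
    have hnR : (1 : ℝ) ≤ n := by exact_mod_cast hn.le
    rw [one_mul]
    have h1 : {k : ℕ | 1 ≤ k ∧ k < n ∧ Nat.Coprime k n ∧
      ¬ ((n : ℝ) ^ (1 - ε) ≤ ({j : ℕ | (j : ℝ) < (n : ℝ) ^ (1 - δ) ∧
            Even (ArithmeticFunction.cardFactors (j * n + k))}.ncard : ℝ) ∧
        (n : ℝ) ^ (1 - ε) ≤ ({j : ℕ | (j : ℝ) < (n : ℝ) ^ (1 - δ) ∧
            Odd (ArithmeticFunction.cardFactors (j * n + k))}.ncard : ℝ))} ⊆ (range n : Set ℕ) := by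
      intro k hk
      rw [mem_coe, mem_range]
      exact hk.2.1
    have h2 := Set.ncard_le_ncard h1 (finite_toSet _)
    rw [Set.ncard_coe_finset, card_range] at h2
    calc _ ≤ (n : ℝ) := by exact_mod_cast h2
      _ = (n : ℝ) ^ (1 : ℝ) := (Real.rpow_one _).symm
      _ ≤ (n : ℝ) ^ ε := Real.rpow_le_rpow_of_exponent_le hnR hε1.le

end Pool.Agent.Helper26.PG
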