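import Pool.Agent.Helper26.PG.FinalW
import Pool.Agent.Helper26.PG.ColsM

/-!
# PG-ColsW: columns with many numbers of each parity in a short window

PROOF.  `A = ⌈n ^ (1 - δ)⌉₊ - 1 < n` (so `A < n ^ (1 - δ) ≤ A + 1`).  Let `k` be bad: for a sign `s`,
`#{j < n ^ (1 - δ) : λ(j n + k) ≠ s} < n ^ (1 - ε)`.  For `1 ≤ a ≤ A`, `x = k / a`, `b = x.val < n`: `a b ≡ k`, `a b ≥ k`, `a b = j n + k`
with `j n ≤ a b < A n`, so `j < A`, and `F x λ(a) = λ(j n + k)`, so `F x = s λ(a)` unless `j` is one of the fewer than `n ^ (1 - ε)`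
exceptions; each `m = j n + k < n ^ 2` has at most `C n ^ ((ε - 9 δ / 2) / 4)` divisors `a` (`divisor_bound` in Helper53/KM/G13.lean,
namespace Pool.Agent.M17.Helper89.SLE, or `small_fun`).  So `NearW` for the set `K` of bad columns, and `nearW_small`.
`ε > 1` and small `n`: `# ≤ n`.  (Landed as a corollary of `few_windowM`.)
-/

set_option autoImplicit false

namespace Pool.Agent.Helper26.PG

open Finset
open Pool.Agent.Helper26.PE (la la_mul la_prime la_one la_sq la_eq la_abs PS Tup mem_Tup card_Tup pr sm)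

theorem few_window (δ ε : ℝ) (hδ : 0 ≤ δ) (hδε : 9 * δ / 2 < ε) : ∃ C : ℝ, ∀ n : ℕ, 1 < n →
    ({k : ℕ | 1 ≤ k ∧ k < n ∧ Nat.Coprime k n ∧
      ¬ ((n : ℝ) ^ (1 - ε) ≤ ({j : ℕ | (j : ℝ) < (n : ℝ) ^ (1 - δ) ∧
            Even (ArithmeticFunction.cardFactors (j * n + k))}.ncard : ℝ) ∧
        (n : ℝ) ^ (1 - ε) ≤ ({j : ℕ | (j : ℝ) < (n : ℝ) ^ (1 - δ) ∧
            Odd (ArithmeticFunction.cardFactors (j * n + k))}.ncard : ℝ))}.ncard : ℝ) ≤
      C * (n : ℝ) ^ ε :=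
  few_windowM δ ε hδ (by linarith)

end Pool.Agent.Helper26.PG
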