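import Pool.Agent.Helper26.PG.Defs

/-!
# PG-Cop: counting the coprime pairs

PROOF.  (1) For each `i`: `#{j ≤ M : (i + j, n) = 1} = ∑ d ∣ n, μ(d) #{j ≤ M : d ∣ i + j} ≥ M φ(n) / n - τ(n)`
(`#{..} = M / d + θ`, `|θ| ≤ 1`, `∑ d ∣ n, μ(d) / d = φ(n) / n`).  (2) `m = i + j ≤ 2 M`, coprime to `n`, `q ∣ m`, `q > Y` prime:
`m = q t`, `t ≤ 2 M / Y`, `(t, n) = 1`, `q ≤ 2 M / t` prime; each `m` has at most `M` pairs; the number of primes `q` with
`Y < q ≤ 2 M / t` is at most `π(2 M / t) ≤ C (2 M / t) / log Y` (Chebyshev, as `2 M / t > Y`).  For the Chebyshev bound see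
Helper26/PE/Primes.lean (helper42).
-/

set_option autoImplicit false

namespace Pool.Agent.Helper26.PG

open Finset
open scoped ArithmeticFunction.Moebius
open Pool.Agent.Helper26.PE (la la_mul la_prime la_one la_sq la_eq la_abs PS Tup mem_Tup card_Tup pr sm)

/-- The product of the primes dividing `W`. -/
private def cop_rd (W : ℕ) : ℕ := ∏ p ∈ W.primeFactors, p

private theorem cop_rd_primeFactors (W : ℕ) : (cop_rd W).primeFactors = W.primeFactors :=
  Nat.primeFactors_prod_primeFactors W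

private theorem cop_rd_squarefree (W : ℕ) : Squarefree (cop_rd W) := by
  refine Finset.squarefree_prod_of_pairwise_isCoprime (fun p hp q hq hpq ↦ ?_)
    fun p hp ↦ (Nat.prime_of_mem_primeFactors hp).squarefree
  simp only [← Nat.coprime_iff_isRelPrime]
  exact (Nat.coprime_primes (Nat.prime_of_mem_primeFactors hp)
    (Nat.prime_of_mem_primeFactors hq)).mpr hpq

private theorem cop_rd_dvd (W : ℕ) : cop_rd W ∣ W := Nat.prod_primeFactors_dvd W

private theorem cop_coprime_rd {W : ℕ} (hW : 0 < W) (n : ℕ) :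
    n.Coprime (cop_rd W) ↔ n.Coprime W := by
  constructor
  · intro h
    rw [Nat.coprime_comm, Nat.coprime_iff_gcd_eq_one] at h ⊢
    by_contra hne
    obtain ⟨p, hp, hpd⟩ := Nat.exists_prime_and_dvd hne
    have h1 : p ∣ W := hpd.trans (Nat.gcd_dvd_left _ _)
    have h2 : p ∣ n := hpd.trans (Nat.gcd_dvd_right _ _)
    have h3 : p ∣ cop_rd W :=
      Finset.dvd_prod_of_mem _ (Nat.mem_primeFactors.2 ⟨hp, h1, hW.ne'⟩)
    have h4 : p ∣ (cop_rd W).gcd n := Nat.dvd_gcd h3 h2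
    rw [h] at h4
    exact hp.one_lt.ne' (Nat.dvd_one.1 h4)
  · intro h
    exact h.coprime_dvd_right (cop_rd_dvd W)

/-- The function `n ↦ 1 / n`. -/
private noncomputable def cop_iv : ArithmeticFunction ℝ := ⟨fun n => (n : ℝ)⁻¹, by simp⟩

private theorem cop_iv_apply (n : ℕ) : cop_iv n = (n : ℝ)⁻¹ := rfl

private theorem cop_iv_mult : cop_iv.IsMultiplicative := by
  refine ⟨by simp [cop_iv_apply], fun {m n} _ => ?_⟩
  rw [cop_iv_apply, cop_iv_apply, cop_iv_apply, Nat.cast_mul, mul_inv]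

private theorem cop_totient_eq (W : ℕ) (hW : 0 < W) :
    (W.totient : ℝ) / W = ∏ p ∈ W.primeFactors, (1 - (p : ℝ)⁻¹) := by
  have h := Nat.totient_eq_mul_prod_factors W
  have h2 : (W.totient : ℝ) = W * ∏ p ∈ W.primeFactors, (1 - (p : ℝ)⁻¹) := by
    have h3 := congrArg (Rat.cast : ℚ → ℝ) h
    push_cast at h3
    exact h3
  rw [h2]
  have : (W : ℝ) ≠ 0 := by positivity
  field_simp

private theorem cop_sum_mu (W : ℕ) (hW : 0 < W) :
    ∑ e ∈ (cop_rd W).divisors, (μ e : ℝ) * (e : ℝ)⁻¹ = (W.totient : ℝ) / W := by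
  rw [cop_totient_eq W hW]
  have h := ArithmeticFunction.IsMultiplicative.prodPrimeFactors_one_sub_of_squarefree cop_iv
    cop_iv_mult (cop_rd_squarefree W)
  rw [cop_rd_primeFactors] at h
  simp only [cop_iv_apply] at h
  rw [h]

private theorem cop_indicator (W n : ℕ) (hW : 0 < W) (hn : 0 < n) :
    ∑ e ∈ (cop_rd W).divisors.filter (fun e => e ∣ n), (μ e : ℝ) =
      if n.Coprime W then 1 else 0 := by
  have hr : cop_rd W ≠ 0 := (cop_rd_squarefree W).ne_zero
  have h1 : (cop_rd W).divisors.filter (fun e => e ∣ n) = ((cop_rd W).gcd n).divisors := by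
    ext e
    simp only [Finset.mem_filter, Nat.mem_divisors, Nat.dvd_gcd_iff]
    constructor
    · rintro ⟨⟨h1, h2⟩, h3⟩
      exact ⟨⟨h1, h3⟩, (Nat.gcd_pos_of_pos_right _ hn).ne'⟩
    · rintro ⟨⟨h1, h3⟩, h2⟩
      exact ⟨⟨h1, hr⟩, h3⟩
  rw [h1]
  have h4 : ∑ s ∈ ((cop_rd W).gcd n).divisors, μ s = if (cop_rd W).gcd n = 1 then 1 else 0 := by
    rw [← ArithmeticFunction.coe_zeta_mul_apply, ArithmeticFunction.coe_zeta_mul_moebius,
      ArithmeticFunction.one_apply]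
  rw [← Int.cast_sum, h4]
  have h5 : (cop_rd W).gcd n = 1 ↔ n.Coprime W := by
    rw [← cop_coprime_rd hW, Nat.coprime_comm]
  by_cases hc : n.Coprime W
  · rw [if_pos (h5.2 hc), if_pos hc]
    simp
  · rw [if_neg (fun h => hc (h5.1 h)), if_neg hc]
    simp

/-- multiples of `d` in the interval `(i, i + M]` -/
private theorem cop_count (i M d : ℕ) :
    #((Icc 1 M).filter fun j => d ∣ i + j) + i / d = (i + M) / d := by
  rw [← Nat.Ioc_filter_dvd_card_eq_div i d, ← Nat.Ioc_filter_dvd_card_eq_div (i + M) d]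
  have h1 : (Ioc 0 (i + M)).filter (fun x => d ∣ x) =
      (((Icc 1 M).filter fun j => d ∣ i + j).image fun j => i + j) ∪
        (Ioc 0 i).filter (fun x => d ∣ x) := by
    ext x
    simp only [mem_filter, mem_Ioc, mem_union, mem_image, mem_Icc]
    constructor
    · rintro ⟨⟨h1, h2⟩, h3⟩
      by_cases h : x ≤ i
      · exact Or.inr ⟨⟨h1, h⟩, h3⟩
      · refine Or.inl ⟨x - i, ⟨⟨by omega, by omega⟩, ?_⟩, by omega⟩
        rwa [show i + (x - i) = x by omega]
    · rintro (⟨j, ⟨⟨h1, h2⟩, h3⟩, rfl⟩ | ⟨⟨h1, h2⟩, h3⟩)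
      · exact ⟨⟨by omega, by omega⟩, h3⟩
      · exact ⟨⟨h1, by omega⟩, h3⟩
  rw [h1, card_union_of_disjoint, card_image_of_injective]
  · intro a b hab
    have : i + a = i + b := hab
    omega
  · rw [disjoint_left]
    intro x hx hy
    simp only [mem_filter, mem_Ioc, mem_image, mem_Icc] at hx hy
    obtain ⟨j, ⟨⟨h1, h2⟩, h3⟩, rfl⟩ := hx
    omega

private theorem cop_count_real (i M d : ℕ) (hd : 0 < d) :
    |(#((Icc 1 M).filter fun j => d ∣ i + j) : ℝ) - M * (d : ℝ)⁻¹| ≤ 1 := by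
  have h := cop_count i M d
  have hd0 : (0 : ℝ) < d := by exact_mod_cast hd
  have h1 : (#((Icc 1 M).filter fun j => d ∣ i + j) : ℝ) + ((i / d : ℕ) : ℝ) =
      (((i + M) / d : ℕ) : ℝ) := by exact_mod_cast h
  have e1 : (d : ℝ) * ((i / d : ℕ) : ℝ) + ((i % d : ℕ) : ℝ) = i := by
    exact_mod_cast Nat.div_add_mod i d
  have e2 : (d : ℝ) * (((i + M) / d : ℕ) : ℝ) + (((i + M) % d : ℕ) : ℝ) = (i : ℝ) + M := by
    exact_mod_cast Nat.div_add_mod (i + M) d
  have f1 : ((i % d : ℕ) : ℝ) < d := by exact_mod_cast Nat.mod_lt _ hd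
  have f2 : (((i + M) % d : ℕ) : ℝ) < d := by exact_mod_cast Nat.mod_lt _ hd
  have g1 : (0 : ℝ) ≤ ((i % d : ℕ) : ℝ) := Nat.cast_nonneg _
  have g2 : (0 : ℝ) ≤ (((i + M) % d : ℕ) : ℝ) := Nat.cast_nonneg _
  have key : ((#((Icc 1 M).filter fun j => d ∣ i + j) : ℝ) - M * (d : ℝ)⁻¹) * d =
      ((i % d : ℕ) : ℝ) - (((i + M) % d : ℕ) : ℝ) := by
    have : (M : ℝ) * (d : ℝ)⁻¹ * d = M := by field_simp
    rw [sub_mul, this]
    have h2 : (#((Icc 1 M).filter fun j => d ∣ i + j) : ℝ) =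
      (((i + M) / d : ℕ) : ℝ) - ((i / d : ℕ) : ℝ) := by linarith
    rw [h2]
    linarith
  rw [abs_le]
  constructor
  · by_contra hc
    push Not at hc
    nlinarith
  · by_contra hc
    push Not at hc
    nlinarith

private theorem cop_row (n M i : ℕ) (hn : 0 < n) :
    (M : ℝ) * (n.totient / n) - #n.divisors ≤
      (#((Icc 1 M).filter fun j => Nat.Coprime (i + j) n) : ℝ) := by
  classical
  have h1 : (#((Icc 1 M).filter fun j => Nat.Coprime (i + j) n) : ℝ) =
      ∑ e ∈ (cop_rd n).divisors,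
        (μ e : ℝ) * (#((Icc 1 M).filter fun j => e ∣ i + j) : ℝ) := by
    rw [card_filter]
    push_cast
    have h2 : ∀ j ∈ Icc 1 M, (if Nat.Coprime (i + j) n then (1 : ℝ) else 0) =
        ∑ e ∈ (cop_rd n).divisors, if e ∣ i + j then (μ e : ℝ) else 0 := by
      intro j hj
      rw [mem_Icc] at hj
      rw [← cop_indicator n (i + j) hn (by omega), sum_filter]
    rw [sum_congr rfl h2, sum_comm]
    refine sum_congr rfl fun e _ => ?_
    rw [← sum_filter, sum_const, nsmul_eq_mul, mul_comm]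
  rw [h1]
  have h3 : ∀ e ∈ (cop_rd n).divisors, (μ e : ℝ) * (M * (e : ℝ)⁻¹) - 1 ≤
      (μ e : ℝ) * (#((Icc 1 M).filter fun j => e ∣ i + j) : ℝ) := by
    intro e he
    have he0 : 0 < e := Nat.pos_of_mem_divisors he
    have h4 := cop_count_real i M e he0
    have h5 : |(μ e : ℝ)| ≤ 1 := by
      have := ArithmeticFunction.abs_moebius_le_one (n := e)
      exact_mod_cast this
    have h6 : |(μ e : ℝ) * ((#((Icc 1 M).filter fun j => e ∣ i + j) : ℝ) - M * (e : ℝ)⁻¹)| ≤ 1 := by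
      rw [abs_mul]
      exact mul_le_one₀ h5 (abs_nonneg _) h4
    have h7 := (abs_le.1 h6).1
    linarith [mul_sub (μ e : ℝ) (#((Icc 1 M).filter fun j => e ∣ i + j) : ℝ) (M * (e : ℝ)⁻¹)]
  refine le_trans ?_ (sum_le_sum h3)
  rw [sum_sub_distrib]
  have h8 : ∑ e ∈ (cop_rd n).divisors, (μ e : ℝ) * (M * (e : ℝ)⁻¹) =
      (M : ℝ) * (n.totient / n) := by
    rw [← cop_sum_mu n hn, mul_sum]
    exact sum_congr rfl fun e _ => by ring
  rw [h8]
  have h9 : #(cop_rd n).divisors ≤ #n.divisors :=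
    card_le_card (Nat.divisors_subset_of_dvd hn.ne' (cop_rd_dvd n))
  have h10 : (#(cop_rd n).divisors : ℝ) ≤ #n.divisors := by exact_mod_cast h9
  rw [sum_const, nsmul_eq_mul, mul_one]
  linarith

theorem cop_pairs (n M : ℕ) (hn : 0 < n) :
    (M : ℝ) ^ 2 * n.totient / n - #n.divisors * M ≤
      (#((Icc 1 M ×ˢ Icc 1 M).filter fun c : ℕ × ℕ => Nat.Coprime (c.1 + c.2) n) : ℝ) := by
  have h1 : (#((Icc 1 M ×ˢ Icc 1 M).filter fun c : ℕ × ℕ => Nat.Coprime (c.1 + c.2) n) : ℝ) =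
      ∑ i ∈ Icc 1 M, (#((Icc 1 M).filter fun j => Nat.Coprime (i + j) n) : ℝ) := by
    rw [card_filter, sum_product]
    push_cast
    refine sum_congr rfl fun i _ => ?_
    rw [card_filter]
    push_cast
    rfl
  rw [h1]
  refine le_trans ?_ (sum_le_sum fun i _ => cop_row n M i hn)
  rw [sum_const, Nat.card_Icc, nsmul_eq_mul, Nat.add_sub_cancel]
  refine le_of_eq ?_
  ring

theorem big_pairs : ∃ C : ℝ, 0 < C ∧ ∀ n M Y : ℕ, 0 < n → 2 ≤ Y → Y ≤ M →
    (#((Icc 1 M ×ˢ Icc 1 M).filter fun c : ℕ × ℕ => Nat.Coprime (c.1 + c.2) n ∧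
        ∃ q ∈ (c.1 + c.2).primeFactors, Y < q) : ℝ) ≤
      C * (M : ℝ) ^ 2 / Real.log Y *
        ∑ t ∈ (Icc 1 (2 * M / Y)).filter (fun t => Nat.Coprime t n), 1 / (t : ℝ) := by
  classical
  refine ⟨2 * Real.log 4, by positivity, fun n M Y hn hY hYM => ?_⟩
  have hlY : 0 < Real.log Y := Real.log_pos (by exact_mod_cast hY)
  have hY0 : (0 : ℝ) < Y := by
    have : 0 < Y := by omega
    exact_mod_cast this
  have hsub : ((Icc 1 M ×ˢ Icc 1 M).filter fun c : ℕ × ℕ => Nat.Coprime (c.1 + c.2) n ∧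
        ∃ q ∈ (c.1 + c.2).primeFactors, Y < q) ⊆
      ((Icc 1 (2 * M / Y)).filter (fun t => Nat.Coprime t n)).biUnion fun t =>
        ((Ioc Y (2 * M / t)).filter Nat.Prime).biUnion fun q =>
          (Icc 1 M ×ˢ Icc 1 M).filter fun c : ℕ × ℕ => c.1 + c.2 = t * q := by
    intro c hc
    simp only [mem_filter, mem_product, mem_Icc] at hc
    obtain ⟨⟨⟨h1, h2⟩, h3, h4⟩, h5, q, hq, hYq⟩ := hc
    have hqp := Nat.prime_of_mem_primeFactors hq
    obtain ⟨t, ht⟩ := Nat.dvd_of_mem_primeFactors hq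
    have ht0 : 0 < t := by
      rcases Nat.eq_zero_or_pos t with h | h
      · rw [h, mul_zero] at ht
        omega
      · exact h
    have hle : t * q ≤ 2 * M := by
      rw [mul_comm, ← ht]
      omega
    simp only [mem_biUnion, mem_filter, mem_Icc, mem_Ioc, mem_product]
    refine ⟨t, ⟨⟨ht0, ?_⟩, ?_⟩, q, ⟨⟨hYq, ?_⟩, hqp⟩, ⟨⟨h1, h2⟩, h3, h4⟩, ?_⟩
    · rw [Nat.le_div_iff_mul_le (by omega)]
      exact (Nat.mul_le_mul_left t hYq.le).trans hle
    · exact Nat.Coprime.coprime_dvd_left ⟨q, by rw [ht, mul_comm]⟩ h5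
    · rw [Nat.le_div_iff_mul_le ht0, mul_comm]
      exact hle
    · rw [ht, mul_comm]
  have hpairs : ∀ m : ℕ, #((Icc 1 M ×ˢ Icc 1 M).filter fun c : ℕ × ℕ => c.1 + c.2 = m) ≤ M := by
    intro m
    have h1 : #((Icc 1 M ×ˢ Icc 1 M).filter fun c : ℕ × ℕ => c.1 + c.2 = m) ≤ #(Icc 1 M) := by
      refine card_le_card_of_injOn (fun c => c.1) ?_ ?_
      · intro c hc
        simp only [coe_filter, mem_product, Set.mem_setOf_eq] at hc
        exact hc.1.1
      · intro c hc c' hc' hcc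
        simp only [coe_filter, mem_product, Set.mem_setOf_eq] at hc hc'
        have h0 : c.1 = c'.1 := hcc
        exact Prod.ext h0 (by omega)
    rwa [Nat.card_Icc, Nat.add_sub_cancel] at h1
  have hprimes : ∀ t ∈ (Icc 1 (2 * M / Y)).filter (fun t => Nat.Coprime t n),
      (#((Ioc Y (2 * M / t)).filter Nat.Prime) : ℝ) ≤
        2 * Real.log 4 * M / Real.log Y * (1 / (t : ℝ)) := by
    intro t ht
    rw [mem_filter, mem_Icc] at ht
    have ht0 : (0 : ℝ) < t := by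
      have : 0 < t := by omega
      exact_mod_cast this
    have h1 : (#((Ioc Y (2 * M / t)).filter Nat.Prime) : ℝ) * Real.log Y ≤
        ∑ q ∈ (Ioc Y (2 * M / t)).filter Nat.Prime, Real.log q := by
      rw [← nsmul_eq_mul]
      refine card_nsmul_le_sum _ _ _ fun q hq => ?_
      rw [mem_filter, mem_Ioc] at hq
      exact Real.log_le_log hY0 (by exact_mod_cast hq.1.1.le)
    have h3 : ∑ q ∈ (Ioc Y (2 * M / t)).filter Nat.Prime, Real.log q ≤
        Chebyshev.theta ((2 * M / t : ℕ) : ℝ) := by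
      rw [Chebyshev.theta, Nat.floor_natCast]
      refine sum_le_sum_of_subset_of_nonneg ?_ ?_
      · intro q hq
        rw [mem_filter, mem_Ioc] at hq ⊢
        exact ⟨⟨by omega, hq.1.2⟩, hq.2⟩
      · intro q hq _
        exact Real.log_natCast_nonneg q
    have h4 := Chebyshev.theta_le_log4_mul_x (x := ((2 * M / t : ℕ) : ℝ)) (by positivity)
    have h5 : ((2 * M / t : ℕ) : ℝ) ≤ 2 * M / t := by
      have := @Nat.cast_div_le ℝ _ _ _ (2 * M) t
      push_cast at this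
      exact this
    have hl4 : 0 < Real.log 4 := Real.log_pos (by norm_num)
    have h6 : (#((Ioc Y (2 * M / t)).filter Nat.Prime) : ℝ) * Real.log Y ≤
        Real.log 4 * (2 * M / t) :=
      (h1.trans (h3.trans h4)).trans (mul_le_mul_of_nonneg_left h5 hl4.le)
    rw [← le_div_iff₀ hlY] at h6
    refine h6.trans (le_of_eq ?_)
    field_simp
  have hcard : (#((Icc 1 M ×ˢ Icc 1 M).filter fun c : ℕ × ℕ => Nat.Coprime (c.1 + c.2) n ∧
        ∃ q ∈ (c.1 + c.2).primeFactors, Y < q) : ℝ) ≤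
      ∑ t ∈ (Icc 1 (2 * M / Y)).filter (fun t => Nat.Coprime t n),
        (#((Ioc Y (2 * M / t)).filter Nat.Prime) : ℝ) * M := by
    have h1 := (card_le_card hsub).trans card_biUnion_le
    have h2 : ∀ t ∈ (Icc 1 (2 * M / Y)).filter (fun t => Nat.Coprime t n),
        #(((Ioc Y (2 * M / t)).filter Nat.Prime).biUnion fun q =>
          (Icc 1 M ×ˢ Icc 1 M).filter fun c : ℕ × ℕ => c.1 + c.2 = t * q) ≤
        #((Ioc Y (2 * M / t)).filter Nat.Prime) * M := by
      intro t _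
      refine card_biUnion_le.trans ?_
      rw [← smul_eq_mul]
      exact sum_le_card_nsmul _ _ _ fun q _ => hpairs _
    have h3 := h1.trans (sum_le_sum h2)
    exact_mod_cast h3
  refine hcard.trans ?_
  rw [mul_sum]
  refine sum_le_sum fun t ht => ?_
  have hM0 : (0 : ℝ) ≤ M := Nat.cast_nonneg _
  refine (mul_le_mul_of_nonneg_right (hprimes t ht) hM0).trans (le_of_eq ?_)
  ring

end Pool.Agent.Helper26.PG
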