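import Pool.Agent.Helper26.PE.Defs

/-!
# PG-Defs: definitions for a general modulus (MP_418075_nt)

`F x` is the value of Liouville's function at the representative of `x` in `[0, n - 1]`; only units matter.
-/

set_option autoImplicit false

namespace Pool.Agent.Helper26.PG

open Finset
open Pool.Agent.Helper26.PE (la la_mul la_prime la_one la_sq la_eq la_abs PS Tup mem_Tup card_Tup pr sm)

variable {n : ℕ}

/-- Liouville's function of the representative -/
noncomputable def F (x : ZMod n) : ℝ := la x.val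

theorem F_eq (x : ZMod n) : F x = 1 ∨ F x = -1 := la_eq _

theorem F_abs (x : ZMod n) : |F x| = 1 := la_abs _

theorem F_sq (x : ZMod n) : F x * F x = 1 := la_sq _

theorem F_nat {a : ℕ} (ha : a < n) : F (a : ZMod n) = la a := by
  unfold F
  rw [ZMod.val_natCast_of_lt ha]

theorem unit_of_prime {q : ℕ} (hq : q.Prime) (h : ¬ q ∣ n) : IsUnit (q : ZMod n) :=
  (ZMod.isUnit_iff_coprime q n).2 ((Nat.Prime.coprime_iff_not_dvd hq).2 h)

theorem val_coprime {x : ZMod n} (hx : IsUnit x) : Nat.Coprime x.val n := by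
  obtain ⟨u, rfl⟩ := hx
  exact ZMod.val_coe_unit_coprime u

theorem val_pos (hn : 1 < n) {x : ZMod n} (hx : IsUnit x) : 0 < x.val := by
  rcases Nat.eq_zero_or_pos x.val with h | h
  · have h1 := val_coprime hx
    rw [h, Nat.coprime_zero_left] at h1
    omega
  · exact h

variable [hn0 : NeZero n]

/-- the exceptional set of a prime `q`: units with `F (q x) ≠ - F x` -/
noncomputable def Bd (n : ℕ) [NeZero n] (q : ℕ) : Finset (ZMod n) := by
  classical
  exact univ.filter fun x : ZMod n => IsUnit x ∧ F ((q : ZMod n) * x) ≠ - F x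

theorem mem_Bd {q : ℕ} {x : ZMod n} :
    x ∈ Bd n q ↔ IsUnit x ∧ F ((q : ZMod n) * x) ≠ - F x := by
  classical
  unfold Bd
  rw [mem_filter]
  exact ⟨fun h => h.2, fun h => ⟨mem_univ _, h⟩⟩

/-- its density -/
noncomputable def dl (n : ℕ) [NeZero n] (q : ℕ) : ℝ := (#(Bd n q) : ℝ) / n

omit hn0 in
/-- `F` is multiplied by a constant by every element of `H` -/
def Stab (H : Subgroup (ZMod n)ˣ) : Prop :=
  ∀ g ∈ H, ∃ s : ℝ, s ≠ 0 ∧ ∀ x : ZMod n, IsUnit x →
    F (((g : (ZMod n)ˣ) : ZMod n) * x) = s * F x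

/-- the primes up to `Y` which do not divide `n` -/
def PY (n Y : ℕ) : Finset ℕ := (Icc 1 Y).filter fun q => q.Prime ∧ ¬ q ∣ n

omit hn0 in
theorem mem_PY {Y q : ℕ} : q ∈ PY n Y ↔ q ≤ Y ∧ q.Prime ∧ ¬ q ∣ n := by
  unfold PY
  rw [mem_filter, mem_Icc]
  exact ⟨fun h => ⟨h.1.2, h.2⟩, fun h => ⟨⟨h.2.1.one_lt.le, h.1⟩, h.2⟩⟩

/-- the number of representations `w = N z`, `N` a product of `k` elements of `P`, `z` a sum of `m`
elements of `[1, M]` -/
noncomputable def TT (n : ℕ) [NeZero n] (k m M : ℕ) (P : Finset ℕ) (w : ZMod n) : ℝ := by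
  classical
  exact (#((Tup k P ×ˢ Tup m (Icc 1 M)).filter fun c =>
    ((pr c.1 : ℕ) : ZMod n) * ((sm c.2 : ℕ) : ZMod n) = w) : ℝ)

/-- exceptional pairs `(N, z)`, `z` coprime to `n`, for a factor `r` -/
noncomputable def Ex (n : ℕ) [NeZero n] (k m M : ℕ) (P : Finset ℕ) (r : ℕ) : ℝ := by
  classical
  exact (#((Tup k P ×ˢ Tup m (Icc 1 M)).filter fun c => Nat.Coprime (sm c.2) n ∧
    F (((pr c.1 : ℕ) : ZMod n) * (((r * sm c.2 : ℕ) : ℕ) : ZMod n)) ≠
      la (pr c.1) * F (((r * sm c.2 : ℕ) : ℕ) : ZMod n)) : ℝ)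

end Pool.Agent.Helper26.PG
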