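import Pool.Agent.Helper26.PG.Defs
import Pool.Agent.Helper26.PE.Exc1

/-!
# PG-Exc1: the exceptional pairs with factor one

PROOF.  As PE-Exc1; `z = sm c.2` is coprime to `n`, so `n' z` is a unit; `Pool.Agent.Helper26.PE.card_sum_le` can be used.
-/

set_option autoImplicit false

namespace Pool.Agent.Helper26.PG

open Finset
open Pool.Agent.Helper26.PE (la la_mul la_prime la_one la_sq la_eq la_abs PS Tup mem_Tup card_Tup pr sm)

variable {n : ℕ} [hn0 : NeZero n]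


theorem exc_one {k m M Q K0 : ℕ} {P : Finset ℕ} {B : ℝ} (hP : ∀ q ∈ P, q.Prime ∧ q ≤ Q ∧ ¬ q ∣ n)
    (hm : 0 < m) (hM : 0 < M) (h : m * M * Q ^ k < n) (hQp : Q < n)
    (hK : ∀ v : ℕ, 0 < v → v < n → #(P.filter fun q => q ∣ v) ≤ K0)
    (hB : ∀ q ∈ P, (#(Bd n q) : ℝ) ≤ B) :
    Ex n (k + 1) m M P 1 ≤ #P * B * (K0 : ℝ) ^ k * (M : ℝ) ^ (m - 1) := by
  classical
  -- the target
  obtain ⟨TS, hTS⟩ : ∃ TS : Finset (Σ _ : ℕ, Σ _ : ZMod n, Σ _ : Fin k → ℕ, (Fin m → ℕ)),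
      TS = P.sigma fun q => (Bd n q).sigma fun w =>
        (Tup k (P.filter fun q => q ∣ w.val)).sigma fun t' =>
          (Tup m (Icc 1 M)).filter fun s => sm s = w.val / pr t' := ⟨_, rfl⟩
  have hcard : (#TS : ℝ) ≤ #P * B * (K0 : ℝ) ^ k * (M : ℝ) ^ (m - 1) := by
    have h1 : ∀ q ∈ P, ∀ w ∈ Bd n q,
        #((Tup k (P.filter fun q => q ∣ w.val)).sigma fun t' =>
          (Tup m (Icc 1 M)).filter fun s => sm s = w.val / pr t') ≤ K0 ^ k * M ^ (m - 1) := by
      intro q hq w hw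
      rw [Finset.card_sigma]
      refine (Finset.sum_le_card_nsmul _ _ (M ^ (m - 1)) fun t' _ =>
        Pool.Agent.Helper26.PE.card_sum_le m M _ hm).trans ?_
      rw [smul_eq_mul, card_Tup]
      refine Nat.mul_le_mul_right _ (Nat.pow_le_pow_left ?_ k)
      refine hK _ (val_pos ?_ (mem_Bd.1 hw).1) (ZMod.val_lt w)
      exact (hP q hq).1.one_lt.trans_le ((hP q hq).2.1.trans hQp.le)
    have h2 : (#TS : ℝ) ≤ ∑ q ∈ P, (#(Bd n q) : ℝ) * ((K0 : ℝ) ^ k * (M : ℝ) ^ (m - 1)) := by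
      rw [hTS, Finset.card_sigma, Nat.cast_sum]
      refine Finset.sum_le_sum fun q hq => ?_
      rw [Finset.card_sigma]
      have h3 := Finset.sum_le_card_nsmul (Bd n q) _ (K0 ^ k * M ^ (m - 1)) (h1 q hq)
      rw [smul_eq_mul] at h3
      have h4 : ((#(Bd n q) * (K0 ^ k * M ^ (m - 1)) : ℕ) : ℝ) =
          (#(Bd n q) : ℝ) * ((K0 : ℝ) ^ k * (M : ℝ) ^ (m - 1)) := by push_cast; ring
      rw [← h4]
      exact_mod_cast h3
    refine h2.trans ?_
    refine (Finset.sum_le_sum fun q hq => mul_le_mul_of_nonneg_right (hB q hq)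
      (by positivity)).trans ?_
    rw [Finset.sum_const, nsmul_eq_mul]
    exact le_of_eq (by ring)
  refine le_trans ?_ hcard
  unfold Ex
  rw [Nat.cast_le]
  refine Finset.card_le_card_of_injOn (fun c => ⟨c.1 (Fin.last k),
    ((pr (fun j : Fin k => c.1 j.castSucc) * sm c.2 : ℕ) : ZMod n),
    fun j : Fin k => c.1 j.castSucc, c.2⟩) ?_ ?_
  · rintro ⟨t, s⟩ hts
    obtain ⟨h1, hcop, h2⟩ := mem_filter.1 (mem_coe.1 hts)
    obtain ⟨ht, hs⟩ := mem_product.1 h1
    have ht' := mem_Tup.1 ht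
    have hs' := mem_Tup.1 hs
    dsimp only at ht' hs' h2 hcop ⊢
    obtain ⟨n', hn'⟩ : ∃ n', n' = pr (fun j : Fin k => t j.castSucc) := ⟨_, rfl⟩
    obtain ⟨z, hz⟩ : ∃ z, z = sm s := ⟨_, rfl⟩
    obtain ⟨q, hq⟩ : ∃ q, q = t (Fin.last k) := ⟨_, rfl⟩
    have hqP : q ∈ P := hq ▸ ht' _
    have hprt : pr t = n' * q := by
      rw [hn', hq]
      exact Fin.prod_univ_castSucc t
    have hn'Q : n' ≤ Q ^ k := by
      rw [hn']
      refine (Finset.prod_le_pow_card _ _ Q fun j _ => (hP _ (ht' _)).2.1).trans ?_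
      rw [Finset.card_univ, Fintype.card_fin]
    have hn'pos : 0 < n' := by
      rw [hn']
      exact Finset.prod_pos fun j _ => (hP _ (ht' _)).1.pos
    have hzM : z ≤ m * M := by
      rw [hz]
      refine (Finset.sum_le_card_nsmul _ _ M fun j _ => (mem_Icc.1 (hs' j)).2).trans ?_
      rw [Finset.card_univ, Fintype.card_fin, smul_eq_mul]
    have hzpos : 0 < z := by
      rw [hz]
      refine lt_of_lt_of_le ?_ (Finset.single_le_sum (f := s) (fun j _ => Nat.zero_le _)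
        (mem_univ (⟨0, hm⟩ : Fin m)))
      exact (mem_Icc.1 (hs' _)).1
    have hlt : n' * z < n := by
      refine lt_of_le_of_lt (Nat.mul_le_mul hn'Q hzM) ?_
      rw [mul_comm]
      exact h
    have hzlt : z < n := lt_of_le_of_lt (Nat.le_mul_of_pos_left z hn'pos) hlt
    have hval : (((n' * z : ℕ) : ZMod n)).val = n' * z := ZMod.val_natCast_of_lt hlt
    have hne : IsUnit ((n' * z : ℕ) : ZMod n) := by
      refine (ZMod.isUnit_iff_coprime _ n).2 (Nat.Coprime.mul_left ?_ (by rw [hz]; exact hcop))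
      rw [hn']
      refine Nat.Coprime.prod_left fun j _ => ?_
      exact (Nat.Prime.coprime_iff_not_dvd (hP _ (ht' _)).1).2 (hP _ (ht' _)).2.2
    have hBd : ((n' * z : ℕ) : ZMod n) ∈ Bd n q := by
      rw [mem_Bd]
      refine ⟨hne, fun h3 => h2 ?_⟩
      rw [← hz, hprt, one_mul, la_mul hn'pos.ne' (hP q hqP).1.ne_zero,
        la_prime (hP q hqP).1, F_nat hzlt]
      have h4 : ((n' * q : ℕ) : ZMod n) * ((z : ℕ) : ZMod n) =
          (q : ZMod n) * ((n' * z : ℕ) : ZMod n) := by push_cast; ring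
      rw [h4, h3, F_nat hlt, la_mul hn'pos.ne' hzpos.ne']
      ring
    rw [hTS]
    refine mem_coe.2 ?_
    simp only [mem_sigma]
    rw [← hn', ← hz, ← hq]
    refine ⟨hqP, hBd, ?_, ?_⟩
    · rw [mem_Tup]
      intro j
      rw [mem_filter, hval]
      refine ⟨ht' _, ?_⟩
      refine Dvd.dvd.mul_right ?_ z
      rw [hn']
      exact Finset.dvd_prod_of_mem (fun j : Fin k => t j.castSucc) (mem_univ j)
    · rw [mem_filter, hval, Nat.mul_div_cancel_left _ hn'pos]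
      exact ⟨hs, hz.symm⟩
  · rintro ⟨t, s⟩ _ ⟨t', s'⟩ _ hE
    simp only [Sigma.mk.injEq, heq_eq_eq] at hE
    obtain ⟨h1, _, h3, h4⟩ := hE
    refine Prod.ext ?_ h4
    funext j
    refine Fin.lastCases h1 (fun i => congrFun h3 i) j

end Pool.Agent.Helper26.PG
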