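import Pool.Agent.Helper26.PG.Defs
import Pool.Agent.Helper26.PE.Exc1

/-!
# PG-Exc2: the exceptional pairs for a factor `r`, on average over `r`

PROOF.  As PE-Exc2; all `w_i` are units as `z` is coprime to `n` and the primes do not divide `n`.
-/

set_option autoImplicit false

namespace Pool.Agent.Helper26.PG

open Finset
open Pool.Agent.Helper26.PE (la la_mul la_prime la_one la_sq la_eq la_abs PS Tup mem_Tup card_Tup pr sm)

variable {n : ℕ} [hn0 : NeZero n]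

/-- a tuple as a sequence -/
private def exc2_ext {k : ℕ} (t : Fin k → ℕ) (j : ℕ) : ℕ := if h : j < k then t ⟨j, h⟩ else 1

private theorem exc2_pr {k : ℕ} (t : Fin k → ℕ) : pr t = ∏ j ∈ range k, exc2_ext t j := by
  unfold pr
  rw [← Fin.prod_univ_eq_prod_range]
  refine Finset.prod_congr rfl fun j _ => ?_
  unfold exc2_ext
  rw [dif_pos j.2]

private theorem exc2_step {t : ℕ → ℕ} {k : ℕ} (ht : ∀ j < k, (t j).Prime ∧ ¬ t j ∣ n) {y : ZMod n}
    (hy : IsUnit y) : ∀ i ≤ k, (∀ i' < i, ((∏ j ∈ range i', t j : ℕ) : ZMod n) * y ∉ Bd n (t i')) →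
      IsUnit (((∏ j ∈ range i, t j : ℕ) : ZMod n) * y) ∧
      F (((∏ j ∈ range i, t j : ℕ) : ZMod n) * y) = la (∏ j ∈ range i, t j) * F y := by
  intro i
  induction i with
  | zero =>
    intro _ _
    simp only [Finset.prod_range_zero, Nat.cast_one, one_mul, la_one]
    exact ⟨hy, trivial⟩
  | succ i ih =>
    intro hi hno
    obtain ⟨h1, h2⟩ := ih (by omega) (fun i' hi' => hno i' (by omega))
    have h3 := ht i (by omega)
    have h4 : IsUnit ((t i : ℕ) : ZMod n) := unit_of_prime h3.1 h3.2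
    have h5 : ((∏ j ∈ range (i + 1), t j : ℕ) : ZMod n) * y
        = (t i : ZMod n) * (((∏ j ∈ range i, t j : ℕ) : ZMod n) * y) := by
      rw [Finset.prod_range_succ, Nat.cast_mul]
      ring
    rw [h5]
    refine ⟨h4.mul h1, ?_⟩
    have h6 := hno i (Nat.lt_succ_self i)
    rw [mem_Bd] at h6
    push Not at h6
    rw [h6 h1, h2, Finset.prod_range_succ, la_mul _ h3.1.ne_zero, la_prime h3.1]
    · ring
    · rw [Finset.prod_ne_zero_iff]
      intro j hj
      exact (ht j (by have := Finset.mem_range.1 hj; omega)).1.ne_zero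

omit hn0 in
private theorem exc2_unit {t : ℕ → ℕ} {k : ℕ} (ht : ∀ j < k, (t j).Prime ∧ ¬ t j ∣ n) :
    ∀ i ≤ k, IsUnit ((∏ j ∈ range i, t j : ℕ) : ZMod n) := by
  intro i
  induction i with
  | zero =>
    intro _
    simp
  | succ i ih =>
    intro hi
    rw [Finset.prod_range_succ, Nat.cast_mul]
    have h3 := ht i (by omega)
    exact (ih (by omega)).mul (unit_of_prime h3.1 h3.2)

private theorem exc2_sm {m M : ℕ} (hm : 0 < m) {u : Fin m → ℕ} (hu : u ∈ Tup m (Icc 1 M)) :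
    0 < sm u ∧ sm u ≤ m * M := by
  have h1 := mem_Tup.1 hu
  constructor
  · unfold sm
    have h2 : u ⟨0, hm⟩ ≤ ∑ j, u j :=
      Finset.single_le_sum (f := u) (fun _ _ => Nat.zero_le _) (Finset.mem_univ _)
    have h3 := (Finset.mem_Icc.1 (h1 ⟨0, hm⟩)).1
    omega
  · unfold sm
    calc ∑ j, u j ≤ ∑ _j : Fin m, M := Finset.sum_le_sum fun j _ => (Finset.mem_Icc.1 (h1 j)).2
      _ = m * M := by simp

open Classical in
private theorem exc2_fix {m M Y K1 : ℕ} {R : Finset ℕ} (hn : 1 < n)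
    (hR : ∀ r ∈ R, r.Prime ∧ r ≤ Y ∧ ¬ r ∣ n) (hm : 0 < m) (h : m * M * Y < n)
    (hK1 : ∀ v : ℕ, 0 < v → v < n → #(R.filter fun q => q ∣ v) ≤ K1)
    {g x : ZMod n} (hg : IsUnit g) (hx : IsUnit x) :
    ∑ r ∈ R, #((Tup m (Icc 1 M)).filter fun u => g * ((r * sm u : ℕ) : ZMod n) = x) ≤
      K1 * M ^ (m - 1) := by
  obtain ⟨g', rfl⟩ := hg
  obtain ⟨v, hv⟩ : ∃ v, v = (((g'⁻¹ : (ZMod n)ˣ) : ZMod n) * x).val := ⟨_, rfl⟩
  have hv0 : 0 < v := by
    rw [hv]
    exact val_pos hn ((g'⁻¹).isUnit.mul hx)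
  have hvp : v < n := by rw [hv]; exact ZMod.val_lt _
  have key : ∀ r ∈ R, #((Tup m (Icc 1 M)).filter fun u =>
      (g' : ZMod n) * ((r * sm u : ℕ) : ZMod n) = x) ≤ if r ∣ v then M ^ (m - 1) else 0 := by
    intro r hr
    have hr' := hR r hr
    have h1 : ((Tup m (Icc 1 M)).filter fun u => (g' : ZMod n) * ((r * sm u : ℕ) : ZMod n) = x) ⊆
        (Tup m (Icc 1 M)).filter fun u => r * sm u = v := by
      intro u hu
      rw [Finset.mem_filter] at hu ⊢
      refine ⟨hu.1, ?_⟩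
      have h2 := exc2_sm hm hu.1
      have h3 : r * sm u < n := by
        calc r * sm u ≤ Y * (m * M) := Nat.mul_le_mul hr'.2.1 h2.2
          _ = m * M * Y := by ring
          _ < n := h
      have h4 : ((r * sm u : ℕ) : ZMod n) = ((g'⁻¹ : (ZMod n)ˣ) : ZMod n) * x := by
        rw [← hu.2, ← mul_assoc, Units.inv_mul, one_mul]
      have h5 := congrArg ZMod.val h4
      rw [ZMod.val_natCast_of_lt h3] at h5
      rw [h5, hv]
    split_ifs with h6
    · refine le_trans (Finset.card_le_card (t := (Tup m (Icc 1 M)).filter fun u => sm u = v / r)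
        ?_) (Pool.Agent.Helper26.PE.card_sum_le m M (v / r) hm)
      intro u hu
      have h7 := Finset.mem_filter.1 (h1 hu)
      refine Finset.mem_filter.2 ⟨h7.1, ?_⟩
      rw [← h7.2, Nat.mul_div_cancel_left _ hr'.1.pos]
    · rw [Nat.le_zero, Finset.card_eq_zero, Finset.eq_empty_iff_forall_notMem]
      intro u hu
      have h7 := Finset.mem_filter.1 (h1 hu)
      exact h6 ⟨_, h7.2.symm⟩
  calc _ ≤ ∑ r ∈ R, (if r ∣ v then M ^ (m - 1) else 0) := Finset.sum_le_sum key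
    _ = #(R.filter fun q => q ∣ v) * M ^ (m - 1) := by
        rw [← Finset.sum_filter, Finset.sum_const, smul_eq_mul]
    _ ≤ K1 * M ^ (m - 1) := Nat.mul_le_mul_right _ (hK1 v hv0 hvp)

open Classical in
private theorem exc2_set {m M Y K1 : ℕ} {R : Finset ℕ} (hn : 1 < n)
    (hR : ∀ r ∈ R, r.Prime ∧ r ≤ Y ∧ ¬ r ∣ n) (hm : 0 < m) (h : m * M * Y < n)
    (hK1 : ∀ v : ℕ, 0 < v → v < n → #(R.filter fun q => q ∣ v) ≤ K1)
    {g : ZMod n} (hg : IsUnit g) (q : ℕ) :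
    ∑ r ∈ R, #((Tup m (Icc 1 M)).filter fun u => g * ((r * sm u : ℕ) : ZMod n) ∈ Bd n q) ≤
      #(Bd n q) * (K1 * M ^ (m - 1)) := by
  calc ∑ r ∈ R, #((Tup m (Icc 1 M)).filter fun u => g * ((r * sm u : ℕ) : ZMod n) ∈ Bd n q)
      ≤ ∑ r ∈ R, ∑ x ∈ Bd n q,
        #((Tup m (Icc 1 M)).filter fun u => g * ((r * sm u : ℕ) : ZMod n) = x) := by
        refine Finset.sum_le_sum fun r _ => ?_
        refine le_trans (Finset.card_le_card (t := (Bd n q).biUnion fun x =>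
          (Tup m (Icc 1 M)).filter fun u => g * ((r * sm u : ℕ) : ZMod n) = x) ?_)
          Finset.card_biUnion_le
        intro u hu
        have h1 := Finset.mem_filter.1 hu
        exact Finset.mem_biUnion.2 ⟨_, h1.2, Finset.mem_filter.2 ⟨h1.1, rfl⟩⟩
    _ = ∑ x ∈ Bd n q, ∑ r ∈ R,
        #((Tup m (Icc 1 M)).filter fun u => g * ((r * sm u : ℕ) : ZMod n) = x) :=
        Finset.sum_comm
    _ ≤ ∑ _x ∈ Bd n q, K1 * M ^ (m - 1) := by
        refine Finset.sum_le_sum fun x hx => ?_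
        exact exc2_fix hn hR hm h hK1 hg (mem_Bd.1 hx).1
    _ = #(Bd n q) * (K1 * M ^ (m - 1)) := by rw [Finset.sum_const, smul_eq_mul]

theorem exc_sum {k m M Y K1 : ℕ} {P R : Finset ℕ} {B : ℝ} (hP : ∀ q ∈ P, q.Prime ∧ ¬ q ∣ n)
    (hR : ∀ r ∈ R, r.Prime ∧ r ≤ Y ∧ ¬ r ∣ n) (hm : 0 < m) (hM : 0 < M) (h : m * M * Y < n)
    (hK1 : ∀ v : ℕ, 0 < v → v < n → #(R.filter fun q => q ∣ v) ≤ K1)
    (hB : ∀ q ∈ P, (#(Bd n q) : ℝ) ≤ B) :
    ∑ r ∈ R, Ex n k m M P r ≤ k * (#P : ℝ) ^ k * B * K1 * (M : ℝ) ^ (m - 1) := by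
  classical
  rcases R.eq_empty_or_nonempty with hR0 | ⟨r0, hr0⟩
  · rw [hR0, Finset.sum_empty]
    rcases P.eq_empty_or_nonempty with hP0 | ⟨q0, hq0⟩
    · rw [hP0]
      rcases k with _ | k <;> simp
    · have hB0 : 0 ≤ B := le_trans (Nat.cast_nonneg _) (hB q0 hq0)
      positivity
  have hn : 1 < n := by
    have h1 := hR r0 hr0
    have h2 := h1.1.two_le
    have h3 : 1 * 1 * 2 ≤ m * M * Y := Nat.mul_le_mul (Nat.mul_le_mul hm hM) (by omega)
    omega
  have hext : ∀ t ∈ Tup k P, ∀ j < k, exc2_ext t j ∈ P := by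
    intro t ht j hj
    unfold exc2_ext
    rw [dif_pos hj]
    exact mem_Tup.1 ht _
  have s1 : ∀ r ∈ R, Ex n k m M P r ≤ ∑ t ∈ Tup k P, ∑ i ∈ range k,
      (#((Tup m (Icc 1 M)).filter fun u =>
        ((∏ j ∈ range i, exc2_ext t j : ℕ) : ZMod n) * ((r * sm u : ℕ) : ZMod n) ∈
          Bd n (exc2_ext t i)) : ℝ) := by
    intro r hr
    have hr' := hR r hr
    have h1 : ((Tup k P ×ˢ Tup m (Icc 1 M)).filter fun c => Nat.Coprime (sm c.2) n ∧
      F (((pr c.1 : ℕ) : ZMod n) * (((r * sm c.2 : ℕ) : ℕ) : ZMod n)) ≠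
        la (pr c.1) * F (((r * sm c.2 : ℕ) : ℕ) : ZMod n)) ⊆
        (Tup k P).biUnion fun t => (range k).biUnion fun i =>
          ((Tup m (Icc 1 M)).filter fun u =>
            ((∏ j ∈ range i, exc2_ext t j : ℕ) : ZMod n) * ((r * sm u : ℕ) : ZMod n) ∈
              Bd n (exc2_ext t i)).image fun u => (t, u) := by
      rintro ⟨t, u⟩ hc
      rw [Finset.mem_filter, Finset.mem_product] at hc
      obtain ⟨⟨ht, hu⟩, hco, hne⟩ := hc
      simp only at ht hu hne hco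
      have hy : IsUnit ((r * sm u : ℕ) : ZMod n) := by
        rw [Nat.cast_mul]
        exact (unit_of_prime hr'.1 hr'.2.2).mul ((ZMod.isUnit_iff_coprime _ n).2 hco)
      by_contra hcon
      apply hne
      have h5 := (exc2_step (t := exc2_ext t) (k := k) (fun j hj => hP _ (hext t ht j hj)) hy k
        le_rfl (fun i hi hmem => hcon ?_)).2
      · rw [← exc2_pr] at h5
        exact h5
      · refine Finset.mem_biUnion.2 ⟨t, ht, Finset.mem_biUnion.2 ⟨i, Finset.mem_range.2 hi, ?_⟩⟩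
        exact Finset.mem_image.2 ⟨u, Finset.mem_filter.2 ⟨hu, hmem⟩, rfl⟩
    have h2 : #((Tup k P ×ˢ Tup m (Icc 1 M)).filter fun c => Nat.Coprime (sm c.2) n ∧
      F (((pr c.1 : ℕ) : ZMod n) * (((r * sm c.2 : ℕ) : ℕ) : ZMod n)) ≠
        la (pr c.1) * F (((r * sm c.2 : ℕ) : ℕ) : ZMod n)) ≤
        ∑ t ∈ Tup k P, ∑ i ∈ range k, #((Tup m (Icc 1 M)).filter fun u =>
            ((∏ j ∈ range i, exc2_ext t j : ℕ) : ZMod n) * ((r * sm u : ℕ) : ZMod n) ∈
              Bd n (exc2_ext t i)) := by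
      refine le_trans (Finset.card_le_card h1) (le_trans Finset.card_biUnion_le ?_)
      refine Finset.sum_le_sum fun t _ => le_trans Finset.card_biUnion_le ?_
      exact Finset.sum_le_sum fun i _ => Finset.card_image_le
    have h3 : Ex n k m M P r = (#((Tup k P ×ˢ Tup m (Icc 1 M)).filter fun c =>
      Nat.Coprime (sm c.2) n ∧
      F (((pr c.1 : ℕ) : ZMod n) * (((r * sm c.2 : ℕ) : ℕ) : ZMod n)) ≠
        la (pr c.1) * F (((r * sm c.2 : ℕ) : ℕ) : ZMod n)) : ℝ) := by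
      unfold Ex
      rfl
    rw [h3]
    exact_mod_cast h2
  have s2 : ∀ t ∈ Tup k P, ∀ i ∈ range k, ∑ r ∈ R,
      (#((Tup m (Icc 1 M)).filter fun u =>
        ((∏ j ∈ range i, exc2_ext t j : ℕ) : ZMod n) * ((r * sm u : ℕ) : ZMod n) ∈
          Bd n (exc2_ext t i)) : ℝ) ≤ B * (K1 * (M : ℝ) ^ (m - 1)) := by
    intro t ht i hi
    have hi' := Finset.mem_range.1 hi
    have h1 := exc2_set hn hR hm h hK1 (g := ((∏ j ∈ range i, exc2_ext t j : ℕ) : ZMod n))
      (exc2_unit (k := k) (fun j hj => hP _ (hext t ht j hj)) i hi'.le) (exc2_ext t i)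
    have h2 : ∑ r ∈ R, (#((Tup m (Icc 1 M)).filter fun u =>
        ((∏ j ∈ range i, exc2_ext t j : ℕ) : ZMod n) * ((r * sm u : ℕ) : ZMod n) ∈
          Bd n (exc2_ext t i)) : ℝ) ≤ (#(Bd n (exc2_ext t i)) : ℝ) * (K1 * (M : ℝ) ^ (m - 1)) := by
      exact_mod_cast h1
    exact le_trans h2 (mul_le_mul_of_nonneg_right (hB _ (hext t ht i hi')) (by positivity))
  calc ∑ r ∈ R, Ex n k m M P r
      ≤ ∑ r ∈ R, ∑ t ∈ Tup k P, ∑ i ∈ range k,
        (#((Tup m (Icc 1 M)).filter fun u =>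
          ((∏ j ∈ range i, exc2_ext t j : ℕ) : ZMod n) * ((r * sm u : ℕ) : ZMod n) ∈
            Bd n (exc2_ext t i)) : ℝ) := Finset.sum_le_sum s1
    _ = ∑ t ∈ Tup k P, ∑ i ∈ range k, ∑ r ∈ R,
        (#((Tup m (Icc 1 M)).filter fun u =>
          ((∏ j ∈ range i, exc2_ext t j : ℕ) : ZMod n) * ((r * sm u : ℕ) : ZMod n) ∈
            Bd n (exc2_ext t i)) : ℝ) := by
        rw [Finset.sum_comm]
        exact Finset.sum_congr rfl fun t _ => Finset.sum_comm
    _ ≤ ∑ _t ∈ Tup k P, ∑ _i ∈ range k, B * (K1 * (M : ℝ) ^ (m - 1)) :=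
        Finset.sum_le_sum fun t ht => Finset.sum_le_sum fun i hi => s2 t ht i hi
    _ = k * (#P : ℝ) ^ k * B * K1 * (M : ℝ) ^ (m - 1) := by
        rw [Finset.sum_const, Finset.sum_const, card_Tup, Finset.card_range]
        simp only [nsmul_eq_mul, Nat.cast_pow]
        ring

end Pool.Agent.Helper26.PG
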