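import Pool.Agent.Helper26.PG.Var
import Pool.Agent.Helper26.PG.Cheb
import Pool.Agent.Helper26.PG.Exc1
import Pool.Agent.Helper26.PG.Exc2
import Pool.Agent.Helper26.PG.Bad

/-!
# PG-Ext: extension to larger primes, on average

PROOF.  As PE-Ext.
-/

set_option autoImplicit false

namespace Pool.Agent.Helper26.PG

open Finset
open Pool.Agent.Helper26.PE (la la_mul la_prime la_one la_sq la_eq la_abs PS Tup mem_Tup card_Tup pr sm)

variable {n : ℕ} [hn0 : NeZero n]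


private theorem Ext_nonneg (k m M : ℕ) (P : Finset ℕ) (r : ℕ) : 0 ≤ Ex n k m M P r := by
  unfold Ex
  exact Nat.cast_nonneg _

private theorem Ext_eq {a b c K L x y n' t : ℝ} (ha : a ≠ 0) (hpp : n' ≠ 0) (hx : x * (t * t) = y)
    (hc : c = t * t) (hb : b = a * a) :
    1 / n' * (4 * K * c * L * a + 2 * n' * b * y) =
      (4 * K * L / a + 2 * n' * x) * (a * t) ^ 2 / n' := by
  subst hx hc hb
  field_simp

theorem ext_sum {k m M L Q Y0 K0 : ℕ} {P R : Finset ℕ} {B : ℝ}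
    (hP : ∀ q ∈ P, q.Prime ∧ q ≤ Q ∧ ¬ q ∣ n) (hPne : P.Nonempty) (hm : 0 < m) (hM : 0 < M)
    (hL : 0 < L) (hk : 0 < k) (hB0 : 0 ≤ B) (h1 : m * M * Q ^ k < n) (h2 : 2 * L * Q ^ (k + 1) < n)
    (hR : ∀ r ∈ R, r.Prime ∧ Y0 < r ∧ r ≤ Q ^ k ∧ ¬ r ∣ n) (hY0 : 0 < Y0)
    (hK : ∀ v : ℕ, 0 < v → v < n → #(P.filter fun q => q ∣ v) ≤ K0)
    (hK1 : ∀ v : ℕ, 0 < v → v < n → #(R.filter fun q => q ∣ v) ≤ K0)
    (hB : ∀ q ∈ P, (#(Bd n q) : ℝ) ≤ B) :
    ∑ r ∈ R, dl n r / r ≤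
      (2 * B * (K0 : ℝ) ^ k / ((#P : ℝ) ^ k * M) +
        (4 * (K0 : ℝ) ^ (k + 1) * L / (#P : ℝ) ^ (k + 1) +
          2 * n * ((n : ℝ) / (2 * L * M)) ^ (2 * m))) * ∑ r ∈ R, 1 / (r : ℝ) +
      2 * (k + 1) * B * K0 / (M * Y0) := by
  have hn1 : (0 : ℝ) < (n : ℝ) := by exact_mod_cast (Nat.pos_of_ne_zero hn0.out)
  obtain ⟨q0, hq0⟩ := hPne
  have hQ1 : 1 ≤ Q := (hP q0 hq0).1.one_lt.le.trans (hP q0 hq0).2.1
  have hQp : Q < n := by
    have h3 : Q ≤ Q ^ (k + 1) := Nat.le_self_pow (by omega) Q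
    have h4 : Q ^ (k + 1) ≤ 2 * L * Q ^ (k + 1) := Nat.le_mul_of_pos_left _ (by omega)
    omega
  have hPp : ∀ q ∈ P, q.Prime ∧ ¬ q ∣ n := fun q hq =>
    ⟨(hP q hq).1, (hP q hq).2.2⟩
  have hmM : m * M < n := by
    have h3 : m * M ≤ m * M * Q ^ k := Nat.le_mul_of_pos_right _ (Nat.pow_pos hQ1)
    omega
  have hPc : (0 : ℝ) < (#P : ℝ) := by exact_mod_cast Finset.card_pos.2 ⟨q0, hq0⟩
  have hMc : (0 : ℝ) < (M : ℝ) := by exact_mod_cast hM
  have hLc : (0 : ℝ) < (L : ℝ) := by exact_mod_cast hL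
  have hYc : (0 : ℝ) < (Y0 : ℝ) := by exact_mod_cast hY0
  set A : ℝ := (#P : ℝ) ^ (k + 1) * (M : ℝ) ^ m with hA
  have hA0 : 0 < A := by positivity
  set ν : ℝ := 4 * (K0 : ℝ) ^ (k + 1) * L / (#P : ℝ) ^ (k + 1) +
    2 * n * ((n : ℝ) / (2 * L * M)) ^ (2 * m) with hν
  have hν0 : 0 ≤ ν := by positivity
  have hvar : ∑ w : ZMod n, (TT n (k + 1) m M P w - A / n) ^ 2 ≤ ν * A ^ 2 / n := by
    refine (var_TT (k := k + 1) (m := m) (M := M) (P := P) hP hL hmM h2 hK).trans (le_of_eq ?_)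
    rw [hν, hA]
    refine Ext_eq (by positivity) hn1.ne' ?_ ?_ ?_
    · rw [← pow_add, ← two_mul, ← mul_pow]
      congr 1
      field_simp
    · rw [← pow_add, ← two_mul]
    · rw [← pow_add, ← two_mul]
  have hE1 : 2 * Ex n (k + 1) m M P 1 / A ≤ 2 * B * (K0 : ℝ) ^ k / ((#P : ℝ) ^ k * M) := by
    have h3 := exc_one (k := k) (m := m) (M := M) hP hm hM h1 hQp hK hB
    rw [div_le_div_iff₀ hA0 (by positivity)]
    have h4 : A = (#P : ℝ) ^ k * #P * ((M : ℝ) ^ (m - 1) * M) := by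
      rw [hA, pow_succ, ← pow_succ (M : ℝ) (m - 1), Nat.sub_add_cancel hm]
    calc 2 * Ex n (k + 1) m M P 1 * ((#P : ℝ) ^ k * M)
        ≤ 2 * (#P * B * (K0 : ℝ) ^ k * (M : ℝ) ^ (m - 1)) * ((#P : ℝ) ^ k * M) := by
          refine mul_le_mul_of_nonneg_right ?_ (by positivity)
          linarith
      _ = 2 * B * (K0 : ℝ) ^ k * A := by
          rw [h4]
          ring
  have hr : ∀ r ∈ R, dl n r / r ≤
      (2 * B * (K0 : ℝ) ^ k / ((#P : ℝ) ^ k * M) + ν) * (1 / (r : ℝ)) +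
        2 / (A * Y0) * Ex n (k + 1) m M P r := by
    intro r hrR
    obtain ⟨hrp, hrY, hrQ, -⟩ := hR r hrR
    have hr0 : (0 : ℝ) < (r : ℝ) := by exact_mod_cast hrp.pos
    have h3 : r * (m * M) < n := by
      have h4 : r * (m * M) ≤ Q ^ k * (m * M) := Nat.mul_le_mul_right _ hrQ
      have h5 : Q ^ k * (m * M) = m * M * Q ^ k := by ring
      omega
    have h4 := cheb hA0 hν0 hvar (Bd n r) (sum_Bd_le (k := k + 1) hPp hrp hm h3)
    have h5 : dl n r ≤ (2 * B * (K0 : ℝ) ^ k / ((#P : ℝ) ^ k * M) + ν) +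
        2 * Ex n (k + 1) m M P r / A := by
      have h6 : 2 * (Ex n (k + 1) m M P 1 + Ex n (k + 1) m M P r) / A =
          2 * Ex n (k + 1) m M P 1 / A + 2 * Ex n (k + 1) m M P r / A := by ring
      have h7 : dl n r ≤ 2 * (Ex n (k + 1) m M P 1 + Ex n (k + 1) m M P r) / A + ν := h4
      rw [h6] at h7
      linarith
    have h6 : (1 : ℝ) / r ≤ 1 / Y0 :=
      one_div_le_one_div_of_le hYc (by exact_mod_cast hrY.le)
    have h7 : 2 * Ex n (k + 1) m M P r / A * (1 / r) ≤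
        2 * Ex n (k + 1) m M P r / A * (1 / Y0) :=
      mul_le_mul_of_nonneg_left h6 (div_nonneg (mul_nonneg zero_le_two (Ext_nonneg _ _ _ _ _))
        hA0.le)
    calc dl n r / r = dl n r * (1 / r) := by ring
      _ ≤ ((2 * B * (K0 : ℝ) ^ k / ((#P : ℝ) ^ k * M) + ν) +
          2 * Ex n (k + 1) m M P r / A) * (1 / r) :=
          mul_le_mul_of_nonneg_right h5 (by positivity)
      _ = (2 * B * (K0 : ℝ) ^ k / ((#P : ℝ) ^ k * M) + ν) * (1 / r) +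
          2 * Ex n (k + 1) m M P r / A * (1 / r) := by ring
      _ ≤ (2 * B * (K0 : ℝ) ^ k / ((#P : ℝ) ^ k * M) + ν) * (1 / r) +
          2 * Ex n (k + 1) m M P r / A * (1 / Y0) := by linarith
      _ = (2 * B * (K0 : ℝ) ^ k / ((#P : ℝ) ^ k * M) + ν) * (1 / r) +
          2 / (A * Y0) * Ex n (k + 1) m M P r := by
          congr 1
          field_simp
  refine (Finset.sum_le_sum hr).trans ?_
  rw [Finset.sum_add_distrib, ← Finset.mul_sum, ← Finset.mul_sum]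
  have hE := exc_sum (k := k + 1) (m := m) (M := M) (Y := Q ^ k) hPp
    (fun r hrR => ⟨(hR r hrR).1, (hR r hrR).2.2⟩) hm hM h1 hK1 hB
  have h8 : 2 / (A * Y0) * ∑ r ∈ R, Ex n (k + 1) m M P r ≤ 2 * (k + 1) * B * K0 / (M * Y0) := by
    calc 2 / (A * Y0) * ∑ r ∈ R, Ex n (k + 1) m M P r
        ≤ 2 / (A * Y0) * (((k + 1 : ℕ) : ℝ) * (#P : ℝ) ^ (k + 1) * B * K0 * (M : ℝ) ^ (m - 1)) :=
          mul_le_mul_of_nonneg_left hE (by positivity)
      _ = 2 * (k + 1) * B * K0 / (M * Y0) := by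
          have h4 : A = (#P : ℝ) ^ (k + 1) * ((M : ℝ) ^ (m - 1) * M) := by
            rw [hA, ← pow_succ (M : ℝ) (m - 1), Nat.sub_add_cancel hm]
          rw [h4]
          push_cast
          field_simp
  linarith

end Pool.Agent.Helper26.PG
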