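import Pool.Agent.Helper26.PG.Ext
import Pool.Agent.Helper26.PG.Beta
import Pool.Agent.Helper26.PE.Primes

/-!
# PG-Fin1: the choice of the parameters, first part

PROOF.  As PE-Fin1 with `P = (PS S).filter (¬ · ∣ n)` and `R` = the primes in `(Q ^ (k-1), Q ^ k]` which do not divide `n`;
`fin_beta` (same bound `36 n / S ^ 16`).  `n < (S + 1) ^ (4 k0 + 4) < S ^ (4 k0 + 5)` has at most `4 k0 + 5` prime factors `> S`
(`Pool.Agent.Helper26.PE.card_big`), so `#P ≥ S ^ (2 - a)` for large `S` (`many_primes` with `a / 2`).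
-/

set_option autoImplicit false

namespace Pool.Agent.Helper26.PG

open Finset
open Pool.Agent.Helper26.PE (la la_mul la_prime la_one la_sq la_eq la_abs PS Tup mem_Tup card_Tup pr sm)

/-- reciprocals of the elements of a set of positive integers up to `N` -/
theorem Fin1_sum_inv {R : Finset ℕ} {N : ℕ} (hR : ∀ r ∈ R, 1 ≤ r ∧ r ≤ N) :
    ∑ r ∈ R, 1 / (r : ℝ) ≤ 1 + Real.log N := by
  have h1 : ∑ r ∈ R, 1 / (r : ℝ) ≤ ∑ r ∈ Icc 1 N, 1 / (r : ℝ) := by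
    apply Finset.sum_le_sum_of_subset_of_nonneg
    · intro r hr
      exact Finset.mem_Icc.2 (hR r hr)
    · intro r _ _
      positivity
  refine h1.trans ?_
  have h2 := harmonic_le_one_add_log N
  rw [harmonic_eq_sum_Icc] at h2
  push_cast at h2
  refine le_trans (le_of_eq ?_) h2
  exact Finset.sum_congr rfl fun r _ => one_div _

/-- the four terms of `ext_sum` -/
theorem Fin1_terms {s E n Mr pr m K : ℝ} {k0 j : ℕ} (hs : 1 ≤ s) (hE : 1 ≤ E) (hn : 0 < n)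
    (hM : 0 < Mr) (hp0 : 0 < pr) (hm : 0 < m) (hK : 1 ≤ K) (hj : j + 1 ≤ k0)
    (h1 : s ^ (2 * (j + 1)) ≤ n ^ (j + 1) * E) (h2 : s ^ (2 * (j + 2)) ≤ n ^ (j + 2) * E)
    (hpM : pr ≤ 2 * (m * s ^ (2 * (j + 1))) * Mr)
    (hp1 : pr ≤ 2 ^ (4 * k0 + 4) * s ^ (4 * k0 + 4)) :
    2 * (36 * pr / s ^ 16) * K ^ (j + 1) / (n ^ (j + 1) * Mr) ≤ 144 * m * K ^ k0 * (E / s) ∧
    4 * K ^ (j + 1 + 1) * s ^ (2 * (j + 1) + 1) / n ^ (j + 1 + 1) ≤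
      4 * K ^ (k0 + 1) * (E / s) ∧
    2 * pr * (pr / (2 * s ^ (2 * (j + 1) + 1) * Mr)) ^ (2 * (2 * k0 + 3)) ≤
      2 * 2 ^ (4 * k0 + 4) * m ^ (4 * k0 + 6) * (E / s) ∧
    2 * ((j + 1 : ℕ) + 1) * (36 * pr / s ^ 16) * K / (Mr * s ^ (2 * j)) ≤
      144 * (k0 + 1) * K * m * (E / s) := by
  have hs0 : 0 < s := by linarith
  have hE0 : 0 < E := by linarith
  have hK0 : 0 < K := by linarith
  have hs16 : s ≤ s ^ 16 := by
    calc s = s ^ 1 := (pow_one s).symm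
      _ ≤ s ^ 16 := pow_le_pow_right₀ hs (by norm_num)
  have hs14 : s ≤ s ^ 14 := by
    calc s = s ^ 1 := (pow_one s).symm
      _ ≤ s ^ 14 := pow_le_pow_right₀ hs (by norm_num)
  have hKk : K ^ (j + 1) ≤ K ^ k0 := pow_le_pow_right₀ hK hj
  have hKk1 : K ^ (j + 1 + 1) ≤ K ^ (k0 + 1) := pow_le_pow_right₀ hK (by omega)
  have hEs : 0 < E / s := by positivity
  refine ⟨?_, ?_, ?_, ?_⟩
  · rw [div_le_iff₀ (by positivity)]
    calc 2 * (36 * pr / s ^ 16) * K ^ (j + 1)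
        ≤ 2 * (36 * (2 * (m * s ^ (2 * (j + 1))) * Mr) / s ^ 16) * K ^ k0 := by gcongr
      _ = 144 * m * K ^ k0 * Mr * (s ^ (2 * (j + 1)) / s ^ 16) := by ring
      _ ≤ 144 * m * K ^ k0 * Mr * ((n ^ (j + 1) * E) / s) := by gcongr
      _ = 144 * m * K ^ k0 * (E / s) * (n ^ (j + 1) * Mr) := by ring
  · rw [div_le_iff₀ (by positivity)]
    calc 4 * K ^ (j + 1 + 1) * s ^ (2 * (j + 1) + 1)
        = 4 * K ^ (j + 1 + 1) * (s ^ (2 * (j + 2)) / s) := by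
          have : s ^ (2 * (j + 2)) = s ^ (2 * (j + 1) + 1) * s := by
            rw [← pow_succ]
            congr 1
          rw [this, mul_div_assoc, div_self hs0.ne', mul_one]
      _ ≤ 4 * K ^ (k0 + 1) * ((n ^ (j + 2) * E) / s) := by gcongr
      _ = 4 * K ^ (k0 + 1) * (E / s) * n ^ (j + 1 + 1) := by ring
  · have e1 : pr / (2 * s ^ (2 * (j + 1) + 1) * Mr) ≤ m / s := by
      rw [div_le_div_iff₀ (by positivity) hs0]
      calc pr * s ≤ 2 * (m * s ^ (2 * (j + 1))) * Mr * s := by gcongr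
        _ = m * (2 * s ^ (2 * (j + 1) + 1) * Mr) := by ring
    have e2 : (pr / (2 * s ^ (2 * (j + 1) + 1) * Mr)) ^ (2 * (2 * k0 + 3)) ≤
        (m / s) ^ (4 * k0 + 6) := by
      have : 2 * (2 * k0 + 3) = 4 * k0 + 6 := by ring
      rw [this]
      exact pow_le_pow_left₀ (by positivity) e1 _
    calc 2 * pr * (pr / (2 * s ^ (2 * (j + 1) + 1) * Mr)) ^ (2 * (2 * k0 + 3))
        ≤ 2 * (2 ^ (4 * k0 + 4) * s ^ (4 * k0 + 4)) * (m / s) ^ (4 * k0 + 6) := by gcongr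
      _ = 2 * 2 ^ (4 * k0 + 4) * m ^ (4 * k0 + 6) * (1 / s ^ 2) := by
          rw [div_pow]
          have : s ^ (4 * k0 + 6) = s ^ (4 * k0 + 4) * s ^ 2 := by rw [← pow_add]
          rw [this]
          field_simp
      _ ≤ 2 * 2 ^ (4 * k0 + 4) * m ^ (4 * k0 + 6) * (E / s) := by
          gcongr ?_ * ?_
          rw [div_le_div_iff₀ (by positivity) hs0]
          nlinarith [mul_nonneg (sub_nonneg.2 hE) (sq_nonneg s)]
  · rw [div_le_iff₀ (by positivity)]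
    have hj1 : ((j + 1 : ℕ) : ℝ) + 1 ≤ (k0 : ℝ) + 1 := by
      have : ((j + 1 : ℕ) : ℝ) ≤ (k0 : ℝ) := by exact_mod_cast hj
      linarith
    calc 2 * (((j + 1 : ℕ) : ℝ) + 1) * (36 * pr / s ^ 16) * K
        ≤ 2 * ((k0 : ℝ) + 1) * (36 * (2 * (m * s ^ (2 * (j + 1))) * Mr) / s ^ 16) * K := by
          gcongr
      _ = 144 * (k0 + 1) * K * m * (1 / s ^ 14) * (Mr * s ^ (2 * j)) := by
          have h3 : s ^ (2 * (j + 1)) = s ^ (2 * j) * s ^ 2 := by rw [← pow_add]; ring_nf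
          have h4 : s ^ 16 = s ^ 14 * s ^ 2 := by rw [← pow_add]
          rw [h3, h4]
          field_simp
          ring
      _ ≤ 144 * (k0 + 1) * K * m * (E / s) * (Mr * s ^ (2 * j)) := by
          gcongr

/-- powers of the number of primes -/
theorem Fin1_P {k0 : ℕ} {s n a : ℝ} (hs : 1 ≤ s) (ha : a = 1 / (8 * ((k0 : ℝ) + 2)))
    (hn : s ^ (2 - a) ≤ n) {i : ℕ} (hi : i ≤ k0 + 1) :
    s ^ (2 * i) ≤ n ^ i * s ^ (1 / 8 : ℝ) := by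
  have hs0 : 0 < s := by linarith
  have hk : (0 : ℝ) < (k0 : ℝ) + 2 := by positivity
  have hi' : (i : ℝ) ≤ (k0 : ℝ) + 2 := by
    have : (i : ℝ) ≤ ((k0 + 1 : ℕ) : ℝ) := by exact_mod_cast hi
    push_cast at this
    linarith
  have hai : a * i ≤ 1 / 8 := by
    rw [ha, div_mul_eq_mul_div, one_mul, div_le_div_iff₀ (by positivity) (by norm_num)]
    linarith
  have h1 : (s ^ (2 - a)) ^ i ≤ n ^ i := pow_le_pow_left₀ (by positivity) hn i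
  have h2 : (s ^ (2 - a)) ^ i = s ^ ((2 - a) * (i : ℝ)) := by
    rw [Real.rpow_mul hs0.le, Real.rpow_natCast]
  have h3 : s ^ (2 * i) = s ^ (((2 * i : ℕ) : ℝ)) := (Real.rpow_natCast _ _).symm
  calc s ^ (2 * i) = s ^ (((2 * i : ℕ) : ℝ)) := h3
    _ ≤ s ^ ((2 - a) * (i : ℝ) + 1 / 8) := by
        apply Real.rpow_le_rpow_of_exponent_le hs
        push_cast
        nlinarith
    _ = (s ^ (2 - a)) ^ i * s ^ (1 / 8 : ℝ) := by rw [Real.rpow_add hs0, h2]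
    _ ≤ n ^ i * s ^ (1 / 8 : ℝ) := by gcongr

/-- the final inequality between the powers -/
theorem Fin1_small (W : ℝ) : ∃ S1 : ℕ, ∀ S : ℕ, S1 ≤ S →
    (S : ℝ) ^ (1 / 8 : ℝ) / S * (W * (1 + Real.log S)) ≤ (S : ℝ) ^ (-(1 / 2) : ℝ) := by
  have h1 : Filter.Tendsto (fun x : ℝ => x ^ (-(3 / 8) : ℝ)) Filter.atTop (nhds 0) :=
    tendsto_rpow_neg_atTop (by norm_num)
  have h2 : Filter.Tendsto (fun x : ℝ => Real.log x / x ^ (3 / 8 : ℝ)) Filter.atTop (nhds 0) :=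
    (isLittleO_log_rpow_atTop (by norm_num : (0 : ℝ) < 3 / 8)).tendsto_div_nhds_zero
  have h3 : Filter.Tendsto (fun x : ℝ => W * (x ^ (-(3 / 8) : ℝ) + Real.log x / x ^ (3 / 8 : ℝ)))
      Filter.atTop (nhds (W * (0 + 0))) := (h1.add h2).const_mul W
  rw [add_zero, mul_zero] at h3
  have h4 := (h3.comp tendsto_natCast_atTop_atTop).eventually (ge_mem_nhds (by norm_num : (0 : ℝ) < 1))
  obtain ⟨S1, hS1⟩ := Filter.eventually_atTop.1 h4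
  refine ⟨max S1 1, fun S hS => ?_⟩
  have h5 := hS1 S (le_trans (le_max_left _ _) hS)
  have hS0 : 1 ≤ S := le_trans (le_max_right _ _) hS
  have hs0 : (0 : ℝ) < S := by exact_mod_cast hS0
  simp only [Function.comp_apply] at h5
  have h6 : W * (1 + Real.log S) ≤ (S : ℝ) ^ (3 / 8 : ℝ) := by
    have h7 : W * (1 + Real.log S) = W * ((S : ℝ) ^ (-(3 / 8) : ℝ) +
        Real.log S / (S : ℝ) ^ (3 / 8 : ℝ)) * (S : ℝ) ^ (3 / 8 : ℝ) := by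
      have h8 : (0 : ℝ) < (S : ℝ) ^ (3 / 8 : ℝ) := by positivity
      rw [Real.rpow_neg hs0.le]
      field_simp
    rw [h7]
    have h8 : (0 : ℝ) < (S : ℝ) ^ (3 / 8 : ℝ) := by positivity
    nlinarith
  calc (S : ℝ) ^ (1 / 8 : ℝ) / S * (W * (1 + Real.log S))
      ≤ (S : ℝ) ^ (1 / 8 : ℝ) / S * (S : ℝ) ^ (3 / 8 : ℝ) := by gcongr
    _ = (S : ℝ) ^ (-(1 / 2) : ℝ) := by
        have h9 : (S : ℝ) ^ (1 / 8 : ℝ) / S = (S : ℝ) ^ ((1 / 8 : ℝ) - 1) := by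
          rw [Real.rpow_sub hs0, Real.rpow_one]
        rw [h9, ← Real.rpow_add hs0]
        norm_num

theorem many_cop (a : ℝ) (ha : 0 < a) (K : ℕ) : ∃ S0 : ℕ, ∀ S : ℕ, S0 ≤ S → ∀ n : ℕ, 0 < n →
    n < S ^ (K + 1) → (S : ℝ) ^ (2 - a) ≤ (#((PS S).filter fun q => ¬ q ∣ n) : ℝ) := by
  obtain ⟨b, hb⟩ : ∃ b : ℝ, b = min a 1 / 2 := ⟨_, rfl⟩
  have hb0 : 0 < b := by
    rw [hb]
    have : 0 < min a 1 := lt_min ha one_pos
    linarith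
  have hb1 : b ≤ 1 / 2 := by
    rw [hb]
    have := min_le_right a 1
    linarith
  have hba : 2 * b ≤ a := by
    rw [hb]
    have := min_le_left a 1
    linarith
  obtain ⟨T0, hT0⟩ := Pool.Agent.Helper26.PE.many_primes b hb0
  refine ⟨max (max T0 2) (max K ⌈(2 : ℝ) ^ (1 / b)⌉₊), fun S hS n hn hnS => ?_⟩
  simp only [max_le_iff] at hS
  obtain ⟨⟨hS0, hS2⟩, hSK, hSc⟩ := hS
  have h1 := hT0 S hS0
  have h2 := Pool.Agent.Helper26.PE.card_big (S := S) (K := K) (by omega) hn hnS (PS S) (fun q hq => by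
    rw [PS, mem_filter, mem_Ioc] at hq
    exact ⟨hq.2, hq.1.1⟩)
  have h3 : #((PS S).filter fun q => q ∣ n) + #((PS S).filter fun q => ¬ q ∣ n) = #(PS S) :=
    Finset.card_filter_add_card_filter_not _
  have hs0 : (0 : ℝ) < S := by exact_mod_cast (by omega : 0 < S)
  have hs1 : (1 : ℝ) ≤ S := by exact_mod_cast (by omega : 1 ≤ S)
  have h4 : (2 : ℝ) ≤ (S : ℝ) ^ b := by
    have h5 : (2 : ℝ) ^ (1 / b) ≤ S := (Nat.le_ceil _).trans (by exact_mod_cast hSc)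
    calc (2 : ℝ) = ((2 : ℝ) ^ (1 / b)) ^ b := by
          rw [← Real.rpow_mul (by norm_num), one_div, inv_mul_cancel₀ hb0.ne', Real.rpow_one]
      _ ≤ (S : ℝ) ^ b := Real.rpow_le_rpow (by positivity) h5 hb0.le
  have h5 : (S : ℝ) ^ (2 - b) = (S : ℝ) ^ (2 - 2 * b) * (S : ℝ) ^ b := by
    rw [← Real.rpow_add hs0]
    congr 1
    ring
  have h6 : (S : ℝ) ^ (2 - a) ≤ (S : ℝ) ^ (2 - 2 * b) :=
    Real.rpow_le_rpow_of_exponent_le hs1 (by linarith)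
  have h7 : (K : ℝ) ≤ (S : ℝ) ^ (2 - 2 * b) := by
    calc (K : ℝ) ≤ S := by exact_mod_cast hSK
      _ = (S : ℝ) ^ (1 : ℝ) := (Real.rpow_one _).symm
      _ ≤ (S : ℝ) ^ (2 - 2 * b) := Real.rpow_le_rpow_of_exponent_le hs1 (by linarith)
  have h8 : (#((PS S).filter fun q => q ∣ n) : ℝ) ≤ K := by exact_mod_cast h2
  have h9 : (#((PS S).filter fun q => q ∣ n) : ℝ) + #((PS S).filter fun q => ¬ q ∣ n) =
      #(PS S) := by exact_mod_cast h3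
  have h10 : 0 < (S : ℝ) ^ (2 - 2 * b) := by positivity
  nlinarith

/-- one block of primes -/
theorem Fin1_block {n : ℕ} [hn0 : NeZero n] {k0 S : ℕ} (hS : 2 ^ (4 * k0 + 4) ≤ S) (hS3 : 3 ≤ S)
    (hSm : 2 * k0 + 3 ≤ S) {E : ℝ} (hE : 1 ≤ E) {P : Finset ℕ}
    (hPS : ∀ q ∈ P, q.Prime ∧ S < q ∧ q ≤ S ^ 2 ∧ ¬ q ∣ n)
    (hP : ∀ i, i ≤ k0 + 1 → (S : ℝ) ^ (2 * i) ≤ (#P : ℝ) ^ i * E) (hPne : P.Nonempty)
    (h1 : S ^ (4 * k0 + 4) ≤ n) (h2 : n < (S + 1) ^ (4 * k0 + 4))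
    (hB : ∀ q ∈ P, (#(Bd n q) : ℝ) ≤ 36 * n / (S : ℝ) ^ 16) {j : ℕ} (hj0 : 1 ≤ j)
    (hj : j + 1 ≤ k0) {R : Finset ℕ}
    (hR : ∀ r ∈ R, r.Prime ∧ S ^ (2 * j) < r ∧ r ≤ S ^ (2 * (j + 1)) ∧ ¬ r ∣ n) :
    ∑ r ∈ R, dl n r / r ≤
      (144 * ((2 * k0 + 3 : ℕ) : ℝ) * ((4 * k0 + 4 : ℕ) : ℝ) ^ k0 * (E / S) +
        (4 * ((4 * k0 + 4 : ℕ) : ℝ) ^ (k0 + 1) * (E / S) +
          2 * 2 ^ (4 * k0 + 4) * ((2 * k0 + 3 : ℕ) : ℝ) ^ (4 * k0 + 6) * (E / S))) *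
        (1 + Real.log ((S ^ (2 * (j + 1)) : ℕ) : ℝ)) +
      144 * (k0 + 1) * ((4 * k0 + 4 : ℕ) : ℝ) * ((2 * k0 + 3 : ℕ) : ℝ) * (E / S) := by
  have hs0 : (0 : ℝ) < S := by exact_mod_cast (by omega : 0 < S)
  have hs1 : (1 : ℝ) ≤ S := by exact_mod_cast (by omega : 1 ≤ S)
  have hppos : 0 < n := Nat.pos_of_ne_zero (NeZero.ne n)
  have hp0 : (0 : ℝ) < n := by exact_mod_cast hppos
  obtain ⟨D, hD⟩ : ∃ D, D = (2 * k0 + 3) * (S ^ 2) ^ (j + 1) := ⟨_, rfl⟩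
  have hDp : 2 * D ≤ n - 1 := by
    have h3 : 2 * D < S ^ (4 * k0 + 4) := by
      calc 2 * D = 2 * (2 * k0 + 3) * S ^ (2 * (j + 1)) := by rw [hD, ← pow_mul]; ring
        _ ≤ S * S * S ^ (2 * (j + 1)) := by
            gcongr
            omega
        _ = S ^ (2 * j + 4) := by ring
        _ < S ^ (4 * k0 + 4) := Nat.pow_lt_pow_right (by omega) (by omega)
    omega
  have hD0 : 0 < D := by
    rw [hD]
    positivity
  set M : ℕ := (n - 1) / D with hM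
  have hM1 : 1 ≤ M := (Nat.one_le_div_iff hD0).2 (by omega)
  have hM2 : D * M ≤ n - 1 := Nat.mul_div_le _ _
  have hM3 : n ≤ 2 * D * M := by
    have h5 : n - 1 < D * (M + 1) := Nat.lt_mul_div_succ _ hD0
    have h6 : D * (M + 1) ≤ D * (2 * M) := Nat.mul_le_mul_left _ (by omega)
    have h7 : D * (2 * M) = 2 * D * M := by ring
    omega
  have h2S : (S + 1) ^ (4 * k0 + 4) ≤ (2 * S) ^ (4 * k0 + 4) := Nat.pow_le_pow_left (by omega) _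
  have hpS : n < S ^ (4 * k0 + 4 + 1) := by
    calc n < (S + 1) ^ (4 * k0 + 4) := h2
      _ ≤ (2 * S) ^ (4 * k0 + 4) := h2S
      _ = 2 ^ (4 * k0 + 4) * S ^ (4 * k0 + 4) := mul_pow _ _ _
      _ ≤ S * S ^ (4 * k0 + 4) := Nat.mul_le_mul_right _ hS
      _ = S ^ (4 * k0 + 4 + 1) := by ring
  have hRr : ∀ r ∈ R, r.Prime ∧ S ^ (2 * j) < r ∧ r ≤ (S ^ 2) ^ (j + 1) ∧ ¬ r ∣ n := by
    intro r hr
    obtain ⟨a1, a2, a3, a4⟩ := hR r hr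
    refine ⟨a1, a2, ?_, a4⟩
    rw [← pow_mul]
    exact a3
  have hSj : S ≤ S ^ (2 * j) := by
    calc S = S ^ 1 := (pow_one S).symm
      _ ≤ S ^ (2 * j) := Nat.pow_le_pow_right (by omega) (by omega)
  have hext := ext_sum (n := n) (k := j + 1) (m := 2 * k0 + 3) (M := M) (L := S ^ (2 * (j + 1) + 1))
    (Q := S ^ 2) (Y0 := S ^ (2 * j)) (K0 := 4 * k0 + 4) (P := P)
    (R := R) (B := 36 * n / (S : ℝ) ^ 16)
    (fun q hq => ⟨(hPS q hq).1, (hPS q hq).2.2.1, (hPS q hq).2.2.2⟩) hPne (by omega) hM1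
    (by positivity) (by omega) (by positivity)
    (by
      have : (2 * k0 + 3) * M * (S ^ 2) ^ (j + 1) = D * M := by rw [hD]; ring
      omega)
    (by
      calc 2 * S ^ (2 * (j + 1) + 1) * (S ^ 2) ^ (j + 1 + 1) = 2 * S ^ (4 * j + 7) := by
            rw [← pow_mul]; ring
        _ < S * S ^ (4 * j + 7) := Nat.mul_lt_mul_of_pos_right (by omega) (by positivity)
        _ = S ^ (4 * j + 8) := by ring
        _ ≤ S ^ (4 * k0 + 4) := Nat.pow_le_pow_right (by omega) (by omega)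
        _ ≤ n := h1)
    hRr (by positivity)
    (fun v hv hvn => Pool.Agent.Helper26.PE.card_big (by omega) hv (hvn.trans hpS) _ fun q hq =>
      ⟨(hPS q hq).1, (hPS q hq).2.1⟩)
    (fun v hv hvn => Pool.Agent.Helper26.PE.card_big (by omega) hv (hvn.trans hpS) _ fun r hr =>
      ⟨(hRr r hr).1, lt_of_le_of_lt hSj (hRr r hr).2.1⟩)
    hB
  have hcP : (0 : ℝ) < #P := by exact_mod_cast hPne.card_pos
  have hpM : (n : ℝ) ≤ 2 * (((2 * k0 + 3 : ℕ) : ℝ) * (S : ℝ) ^ (2 * (j + 1))) * (M : ℝ) := by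
    have h5 : (n : ℝ) ≤ 2 * (D : ℝ) * (M : ℝ) := by exact_mod_cast hM3
    rw [hD] at h5
    push_cast at h5 ⊢
    rw [pow_mul]
    exact h5
  have hp1 : (n : ℝ) ≤ 2 ^ (4 * k0 + 4) * (S : ℝ) ^ (4 * k0 + 4) := by
    have h5 : n ≤ 2 ^ (4 * k0 + 4) * S ^ (4 * k0 + 4) := by
      rw [← mul_pow]
      exact (h2.trans_le h2S).le
    exact_mod_cast h5
  obtain ⟨t1, t2, t3, t4⟩ := Fin1_terms (s := (S : ℝ)) (E := E) (n := (#P : ℝ)) (Mr := (M : ℝ))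
    (pr := (n : ℝ)) (m := ((2 * k0 + 3 : ℕ) : ℝ)) (K := ((4 * k0 + 4 : ℕ) : ℝ)) (k0 := k0) (j := j)
    hs1 hE hcP (by exact_mod_cast hM1) hp0 (by positivity)
    (by exact_mod_cast (by omega : 1 ≤ 4 * k0 + 4)) hj (hP (j + 1) (by omega))
    (hP (j + 2) (by omega)) hpM hp1
  have hsum : ∑ r ∈ R, 1 / (r : ℝ) ≤ 1 + Real.log ((S ^ (2 * (j + 1)) : ℕ) : ℝ) := by
    apply Fin1_sum_inv
    intro r hr
    obtain ⟨a1, a2, a3, a4⟩ := hR r hr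
    exact ⟨a1.one_lt.le, a3⟩
  have hsum0 : 0 ≤ ∑ r ∈ R, 1 / (r : ℝ) := Finset.sum_nonneg fun r _ => by positivity
  refine hext.trans ?_
  push_cast at t1 t2 t3 t4 ⊢
  push_cast at hsum
  refine add_le_add ?_ ?_
  · refine mul_le_mul ?_ hsum hsum0 ?_
    · exact add_le_add t1 (add_le_add t2 t3)
    · positivity
  · exact t4

/-- the sum over all the blocks -/
theorem Fin1_ind {n : ℕ} [hn0 : NeZero n] {S : ℕ} (hS : 1 ≤ S) {k0 : ℕ} {A Z : ℝ}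
    (hA : ∑ q ∈ PY n (S ^ (2 * 1)), dl n q / q ≤ A)
    (hZ : ∀ j, 1 ≤ j → j + 1 ≤ k0 →
      ∑ r ∈ (PY n (S ^ (2 * (j + 1)))).filter (fun r => S ^ (2 * j) < r), dl n r / r ≤ Z) :
    ∀ j, j + 1 ≤ k0 → ∑ q ∈ PY n (S ^ (2 * (j + 1))), dl n q / q ≤ A + j * Z := by
  intro j
  induction j with
  | zero =>
    intro _
    simpa using hA
  | succ j ih =>
    intro hj
    have h1 := ih (by omega)
    have h2 := hZ (j + 1) (by omega) hj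
    have h3 : S ^ (2 * (j + 1)) ≤ S ^ (2 * (j + 1 + 1)) :=
      Nat.pow_le_pow_right hS (by omega)
    have h4 : PY n (S ^ (2 * (j + 1 + 1))) = PY n (S ^ (2 * (j + 1))) ∪
        (PY n (S ^ (2 * (j + 1 + 1)))).filter (fun r => S ^ (2 * (j + 1)) < r) := by
      ext q
      rw [mem_union, mem_filter, mem_PY, mem_PY]
      constructor
      · rintro ⟨a, b⟩
        rcases le_or_gt q (S ^ (2 * (j + 1))) with h | h
        · exact Or.inl ⟨h, b⟩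
        · exact Or.inr ⟨⟨a, b⟩, h⟩
      · rintro (⟨a, b⟩ | ⟨⟨a, b⟩, c⟩)
        · exact ⟨a.trans h3, b⟩
        · exact ⟨a, b⟩
    have h5 : Disjoint (PY n (S ^ (2 * (j + 1))))
        ((PY n (S ^ (2 * (j + 1 + 1)))).filter (fun r => S ^ (2 * (j + 1)) < r)) := by
      rw [Finset.disjoint_left]
      intro q hq hq'
      rw [mem_PY] at hq
      rw [mem_filter] at hq'
      omega
    rw [h4, Finset.sum_union h5]
    push_cast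
    linarith

/-- the primes up to `S ^ 2` -/
theorem Fin1_first {n : ℕ} [hn0 : NeZero n] {S : ℕ} (hS : 1 ≤ S)
    (hB : ∀ q : ℕ, q.Prime → ¬ q ∣ n → q ≤ S ^ 2 → (#(Bd n q) : ℝ) ≤ 36 * n / (S : ℝ) ^ 16) :
    ∑ q ∈ PY n (S ^ (2 * 1)), dl n q / q ≤
      36 / (S : ℝ) ^ 16 * (1 + Real.log ((S ^ (2 * 1) : ℕ) : ℝ)) := by
  have hp0 : (0 : ℝ) < n := by exact_mod_cast Nat.pos_of_ne_zero (NeZero.ne n)
  have hs0 : (0 : ℝ) < S := by exact_mod_cast hS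
  have h1 : ∑ q ∈ PY n (S ^ (2 * 1)), dl n q / q ≤
      36 / (S : ℝ) ^ 16 * ∑ q ∈ PY n (S ^ (2 * 1)), 1 / (q : ℝ) := by
    rw [Finset.mul_sum]
    apply Finset.sum_le_sum
    intro q hq
    rw [mem_PY] at hq
    have h2 := hB q hq.2.1 hq.2.2 (by simpa using hq.1)
    have h3 : dl n q ≤ 36 / (S : ℝ) ^ 16 := by
      unfold dl
      rw [div_le_iff₀ hp0]
      refine h2.trans (le_of_eq ?_)
      ring
    rw [mul_one_div]
    gcongr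
  refine h1.trans ?_
  have h4 : ∑ q ∈ PY n (S ^ (2 * 1)), 1 / (q : ℝ) ≤
      1 + Real.log ((S ^ (2 * 1) : ℕ) : ℝ) := by
    apply Fin1_sum_inv
    intro r hr
    rw [mem_PY] at hr
    exact ⟨hr.2.1.one_lt.le, hr.1⟩
  gcongr

theorem fin_one (k0 : ℕ) (hk0 : 1 ≤ k0) : ∃ S0 : ℕ, ∀ S : ℕ, S0 ≤ S → ∀ (n : ℕ) [NeZero n],
    S ^ (4 * k0 + 4) ≤ n → n < (S + 1) ^ (4 * k0 + 4) → ∀ H : Subgroup (ZMod n)ˣ, Stab H →
    S ^ 60 ≤ Nat.card H →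
    ∑ q ∈ PY n (S ^ (2 * k0)), dl n q / q ≤ (S : ℝ) ^ (-(1 / 2) : ℝ) := by
  obtain ⟨a, ha⟩ : ∃ a : ℝ, a = 1 / (8 * ((k0 : ℝ) + 2)) := ⟨_, rfl⟩
  have ha0 : 0 < a := by rw [ha]; positivity
  obtain ⟨T0, hT0⟩ := many_cop a ha0 (4 * k0 + 4)
  obtain ⟨T1, hT1⟩ := fin_beta
  obtain ⟨C0, hC0⟩ : ∃ C0 : ℝ, C0 = 144 * ((2 * k0 + 3 : ℕ) : ℝ) * ((4 * k0 + 4 : ℕ) : ℝ) ^ k0 +
      (4 * ((4 * k0 + 4 : ℕ) : ℝ) ^ (k0 + 1) +
        2 * 2 ^ (4 * k0 + 4) * ((2 * k0 + 3 : ℕ) : ℝ) ^ (4 * k0 + 6)) := ⟨_, rfl⟩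
  obtain ⟨C1, hC1⟩ : ∃ C1 : ℝ, C1 = 144 * ((k0 : ℝ) + 1) * ((4 * k0 + 4 : ℕ) : ℝ) *
      ((2 * k0 + 3 : ℕ) : ℝ) := ⟨_, rfl⟩
  have hC00 : 0 ≤ C0 := by rw [hC0]; positivity
  have hC10 : 0 ≤ C1 := by rw [hC1]; positivity
  obtain ⟨S1, hS1⟩ := Fin1_small (2 * (k0 : ℝ) * (36 + k0 * (C0 + C1)))
  refine ⟨max (max (max T0 T1) S1) (max (2 ^ (4 * k0 + 4)) (max 3 (2 * k0 + 3))), ?_⟩
  intro S hS n hn0 h1 h2 H hH hc
  simp only [max_le_iff] at hS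
  obtain ⟨⟨⟨hS0, hST1⟩, hSS1⟩, hSp, hS3, hSm⟩ := hS
  have hs0 : (0 : ℝ) < S := by exact_mod_cast (by omega : 0 < S)
  have hs1 : (1 : ℝ) ≤ S := by exact_mod_cast (by omega : 1 ≤ S)
  have hlog : 0 ≤ Real.log (S : ℝ) := Real.log_nonneg hs1
  have hppos : 0 < n := Nat.pos_of_ne_zero (NeZero.ne n)
  have hpS : n < S ^ (4 * k0 + 4 + 1) := by
    calc n < (S + 1) ^ (4 * k0 + 4) := h2
      _ ≤ (2 * S) ^ (4 * k0 + 4) := Nat.pow_le_pow_left (by omega) _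
      _ = 2 ^ (4 * k0 + 4) * S ^ (4 * k0 + 4) := mul_pow _ _ _
      _ ≤ S * S ^ (4 * k0 + 4) := Nat.mul_le_mul_right _ hSp
      _ = S ^ (4 * k0 + 4 + 1) := by ring
  have h8 : S ^ 8 ≤ n :=
    (Nat.pow_le_pow_right (by omega) (by omega : 8 ≤ 4 * k0 + 4)).trans h1
  have hn := hT0 S hS0 n hppos hpS
  obtain ⟨P, hPd⟩ : ∃ P, P = (PS S).filter fun q => ¬ q ∣ n := ⟨_, rfl⟩
  rw [← hPd] at hn
  have hPS : ∀ q ∈ P, q.Prime ∧ S < q ∧ q ≤ S ^ 2 ∧ ¬ q ∣ n := by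
    intro q hq
    rw [hPd, mem_filter, PS, mem_filter, mem_Ioc] at hq
    exact ⟨hq.1.2, hq.1.1.1, hq.1.1.2, hq.2⟩
  have hE : (1 : ℝ) ≤ (S : ℝ) ^ (1 / 8 : ℝ) := Real.one_le_rpow hs1 (by norm_num)
  have hP : ∀ i, i ≤ k0 + 1 → (S : ℝ) ^ (2 * i) ≤ (#P : ℝ) ^ i * (S : ℝ) ^ (1 / 8 : ℝ) :=
    fun i hi => Fin1_P hs1 ha hn hi
  have hPne : P.Nonempty := by
    rw [← Finset.card_pos]
    have h3 : (0 : ℝ) < #P := lt_of_lt_of_le (by positivity) hn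
    exact_mod_cast h3
  have hB : ∀ q : ℕ, q.Prime → ¬ q ∣ n → q ≤ S ^ 2 →
      (#(Bd n q) : ℝ) ≤ 36 * n / (S : ℝ) ^ 16 :=
    fun q hq hqn hqS => hT1 S hST1 n h8 H hH hc q hq hqn hqS
  have hBP : ∀ q ∈ P, (#(Bd n q) : ℝ) ≤ 36 * n / (S : ℝ) ^ 16 := by
    intro q hq
    obtain ⟨a1, a2, a3, a4⟩ := hPS q hq
    exact hB q a1 a4 a3
  have hlogj : ∀ j, j ≤ k0 → Real.log ((S ^ (2 * j) : ℕ) : ℝ) ≤ 2 * k0 * Real.log S := by
    intro j hj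
    push_cast
    rw [Real.log_pow]
    have : ((2 * j : ℕ) : ℝ) ≤ 2 * k0 := by exact_mod_cast Nat.mul_le_mul_left 2 hj
    gcongr
  obtain ⟨e, he⟩ : ∃ e : ℝ, e = (S : ℝ) ^ (1 / 8 : ℝ) / S := ⟨_, rfl⟩
  have he0 : 0 < e := by rw [he]; positivity
  have hfirst : ∑ q ∈ PY n (S ^ (2 * 1)), dl n q / q ≤
      36 * e * (1 + 2 * k0 * Real.log S) := by
    refine (Fin1_first (by omega) hB).trans ?_
    have h3 := hlogj 1 hk0
    have h4 : 36 / (S : ℝ) ^ 16 ≤ 36 * e := by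
      rw [he, mul_div_assoc', div_le_div_iff₀ (by positivity) hs0]
      have h5 : (S : ℝ) ≤ (S : ℝ) ^ 16 := by
        calc (S : ℝ) = (S : ℝ) ^ 1 := (pow_one _).symm
          _ ≤ (S : ℝ) ^ 16 := pow_le_pow_right₀ hs1 (by norm_num)
      nlinarith [mul_nonneg (sub_nonneg.2 hE) (by positivity : (0 : ℝ) ≤ (S : ℝ) ^ 16)]
    have h6 : 0 ≤ Real.log ((S ^ (2 * 1) : ℕ) : ℝ) := Real.log_natCast_nonneg _
    gcongr
  have hZ : ∀ j, 1 ≤ j → j + 1 ≤ k0 →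
      ∑ r ∈ (PY n (S ^ (2 * (j + 1)))).filter (fun r => S ^ (2 * j) < r), dl n r / r ≤
        (C0 * (1 + 2 * k0 * Real.log S) + C1) * e := by
    intro j hj0 hj
    refine (Fin1_block hSp hS3 hSm hE hPS hP hPne h1 h2 hBP hj0 hj ?_).trans ?_
    · intro r hr
      rw [mem_filter, mem_PY] at hr
      exact ⟨hr.1.2.1, hr.2, hr.1.1, hr.1.2.2⟩
    have h3 := hlogj (j + 1) hj
    rw [← he]
    calc (144 * ((2 * k0 + 3 : ℕ) : ℝ) * ((4 * k0 + 4 : ℕ) : ℝ) ^ k0 * e +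
        (4 * ((4 * k0 + 4 : ℕ) : ℝ) ^ (k0 + 1) * e +
          2 * 2 ^ (4 * k0 + 4) * ((2 * k0 + 3 : ℕ) : ℝ) ^ (4 * k0 + 6) * e)) *
        (1 + Real.log ((S ^ (2 * (j + 1)) : ℕ) : ℝ)) +
      144 * (k0 + 1) * ((4 * k0 + 4 : ℕ) : ℝ) * ((2 * k0 + 3 : ℕ) : ℝ) * e
        = C0 * e * (1 + Real.log ((S ^ (2 * (j + 1)) : ℕ) : ℝ)) + C1 * e := by
          rw [hC0, hC1]
          ring
      _ ≤ C0 * e * (1 + 2 * k0 * Real.log S) + C1 * e := by gcongr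
      _ = (C0 * (1 + 2 * k0 * Real.log S) + C1) * e := by ring
  obtain ⟨j, rfl⟩ : ∃ j, k0 = j + 1 := ⟨k0 - 1, by omega⟩
  have hall := Fin1_ind (by omega) hfirst hZ j le_rfl
  refine hall.trans (le_trans ?_ (hS1 S hSS1))
  rw [← he]
  push_cast
  obtain ⟨l, hl⟩ : ∃ l : ℝ, l = Real.log (S : ℝ) := ⟨_, rfl⟩
  rw [← hl] at hlog ⊢
  have hjr : (0 : ℝ) ≤ (j : ℝ) := Nat.cast_nonneg j
  have g1 : (1 : ℝ) + 2 * ((j : ℝ) + 1) * l ≤ 2 * ((j : ℝ) + 1) * (1 + l) := by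
    nlinarith
  have g2 : (1 : ℝ) ≤ 2 * ((j : ℝ) + 1) * (1 + l) := by
    nlinarith [mul_nonneg hjr hlog]
  have g3 : 0 ≤ 2 * ((j : ℝ) + 1) * (1 + l) := by positivity
  calc 36 * e * (1 + 2 * ((j : ℝ) + 1) * l) +
        (j : ℝ) * ((C0 * (1 + 2 * ((j : ℝ) + 1) * l) + C1) * e)
      ≤ 36 * e * (2 * ((j : ℝ) + 1) * (1 + l)) +
        ((j : ℝ) + 1) * ((C0 * (2 * ((j : ℝ) + 1) * (1 + l)) +
          C1 * (2 * ((j : ℝ) + 1) * (1 + l))) * e) := by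
        have g4 : C1 ≤ C1 * (2 * ((j : ℝ) + 1) * (1 + l)) := by nlinarith
        have g5 : (j : ℝ) ≤ (j : ℝ) + 1 := by linarith
        gcongr
    _ = e * (2 * ((j : ℝ) + 1) * (36 + ((j : ℝ) + 1) * (C0 + C1)) * (1 + l)) := by ring

end Pool.Agent.Helper26.PG
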