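import Pool.Agent.Helper26.PG.Ext
import Pool.Agent.Helper26.PG.BetaG
import Pool.Agent.Helper26.PG.Fin1

/-!
# PG-Fin1G: the choice of the parameters, first part, for sets

PROOF.  The proof of `fin_one` uses `H` only through `fin_beta`; take the same proof from the bound
`∀ q prime, ¬ q ∣ n → q ≤ S ^ 2 → #Bd ≤ 36 n / S ^ 16` (`fin_core`; if Fin1.lean already contains it, cite it), and `fin_betaG`.
-/

set_option autoImplicit false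

namespace Pool.Agent.Helper26.PG

open Finset
open Pool.Agent.Helper26.PE (la la_mul la_prime la_one la_sq la_eq la_abs PS Tup mem_Tup card_Tup pr sm)

theorem fin_core (k0 : ℕ) (hk0 : 1 ≤ k0) : ∃ S0 : ℕ, ∀ S : ℕ, S0 ≤ S → ∀ (n : ℕ) [NeZero n],
    S ^ (4 * k0 + 4) ≤ n → n < (S + 1) ^ (4 * k0 + 4) →
    (∀ q : ℕ, q.Prime → ¬ q ∣ n → q ≤ S ^ 2 → (#(Bd n q) : ℝ) ≤ 36 * n / (S : ℝ) ^ 16) →
    ∑ q ∈ PY n (S ^ (2 * k0)), dl n q / q ≤ (S : ℝ) ^ (-(1 / 2) : ℝ) := by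
  obtain ⟨a, ha⟩ : ∃ a : ℝ, a = 1 / (8 * ((k0 : ℝ) + 2)) := ⟨_, rfl⟩
  have ha0 : 0 < a := by rw [ha]; positivity
  obtain ⟨T0, hT0⟩ := many_cop a ha0 (4 * k0 + 4)
  obtain ⟨C0, hC0⟩ : ∃ C0 : ℝ, C0 = 144 * ((2 * k0 + 3 : ℕ) : ℝ) * ((4 * k0 + 4 : ℕ) : ℝ) ^ k0 +
      (4 * ((4 * k0 + 4 : ℕ) : ℝ) ^ (k0 + 1) +
        2 * 2 ^ (4 * k0 + 4) * ((2 * k0 + 3 : ℕ) : ℝ) ^ (4 * k0 + 6)) := ⟨_, rfl⟩
  obtain ⟨C1, hC1⟩ : ∃ C1 : ℝ, C1 = 144 * ((k0 : ℝ) + 1) * ((4 * k0 + 4 : ℕ) : ℝ) *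
      ((2 * k0 + 3 : ℕ) : ℝ) := ⟨_, rfl⟩
  have hC00 : 0 ≤ C0 := by rw [hC0]; positivity
  have hC10 : 0 ≤ C1 := by rw [hC1]; positivity
  obtain ⟨S1, hS1⟩ := Fin1_small (2 * (k0 : ℝ) * (36 + k0 * (C0 + C1)))
  refine ⟨max (max T0 S1) (max (2 ^ (4 * k0 + 4)) (max 3 (2 * k0 + 3))), ?_⟩
  intro S hS n hn0 h1 h2 hB
  simp only [max_le_iff] at hS
  obtain ⟨⟨hS0, hSS1⟩, hSp, hS3, hSm⟩ := hS
  have hs0 : (0 : ℝ) < S := by exact_mod_cast (by omega : 0 < S)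
  have hs1 : (1 : ℝ) ≤ S := by exact_mod_cast (by omega : 1 ≤ S)
  have hlog : 0 ≤ Real.log (S : ℝ) := Real.log_nonneg hs1
  have hppos : 0 < n := Nat.pos_of_ne_zero (NeZero.ne n)
  have hpS : n < S ^ (4 * k0 + 4 + 1) := by
    calc n < (S + 1) ^ (4 * k0 + 4) := h2
      _ ≤ (2 * S) ^ (4 * k0 + 4) := Nat.pow_le_pow_left (by omega) _
      _ = 2 ^ (4 * k0 + 4) * S ^ (4 * k0 + 4) := mul_pow _ _ _
      _ ≤ S * S ^ (4 * k0 + 4) := Nat.mul_le_mul_right _ hSp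
      _ = S ^ (4 * k0 + 4 + 1) := by ring
  have hn := hT0 S hS0 n hppos hpS
  obtain ⟨P, hPd⟩ : ∃ P, P = (PS S).filter fun q => ¬ q ∣ n := ⟨_, rfl⟩
  rw [← hPd] at hn
  have hPS : ∀ q ∈ P, q.Prime ∧ S < q ∧ q ≤ S ^ 2 ∧ ¬ q ∣ n := by
    intro q hq
    rw [hPd, mem_filter, PS, mem_filter, mem_Ioc] at hq
    exact ⟨hq.1.2, hq.1.1.1, hq.1.1.2, hq.2⟩
  have hE : (1 : ℝ) ≤ (S : ℝ) ^ (1 / 8 : ℝ) := Real.one_le_rpow hs1 (by norm_num)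
  have hP : ∀ i, i ≤ k0 + 1 → (S : ℝ) ^ (2 * i) ≤ (#P : ℝ) ^ i * (S : ℝ) ^ (1 / 8 : ℝ) :=
    fun i hi => Fin1_P hs1 ha hn hi
  have hPne : P.Nonempty := by
    rw [← Finset.card_pos]
    have h3 : (0 : ℝ) < #P := lt_of_lt_of_le (by positivity) hn
    exact_mod_cast h3
  have hBP : ∀ q ∈ P, (#(Bd n q) : ℝ) ≤ 36 * n / (S : ℝ) ^ 16 := by
    intro q hq
    obtain ⟨a1, a2, a3, a4⟩ := hPS q hq
    exact hB q a1 a4 a3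
  have hlogj : ∀ j, j ≤ k0 → Real.log ((S ^ (2 * j) : ℕ) : ℝ) ≤ 2 * k0 * Real.log S := by
    intro j hj
    push_cast
    rw [Real.log_pow]
    have : ((2 * j : ℕ) : ℝ) ≤ 2 * k0 := by exact_mod_cast Nat.mul_le_mul_left 2 hj
    gcongr
  obtain ⟨e, he⟩ : ∃ e : ℝ, e = (S : ℝ) ^ (1 / 8 : ℝ) / S := ⟨_, rfl⟩
  have he0 : 0 < e := by rw [he]; positivity
  have hfirst : ∑ q ∈ PY n (S ^ (2 * 1)), dl n q / q ≤
      36 * e * (1 + 2 * k0 * Real.log S) := by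
    refine (Fin1_first (by omega) hB).trans ?_
    have h3 := hlogj 1 hk0
    have h4 : 36 / (S : ℝ) ^ 16 ≤ 36 * e := by
      rw [he, mul_div_assoc', div_le_div_iff₀ (by positivity) hs0]
      have h5 : (S : ℝ) ≤ (S : ℝ) ^ 16 := by
        calc (S : ℝ) = (S : ℝ) ^ 1 := (pow_one _).symm
          _ ≤ (S : ℝ) ^ 16 := pow_le_pow_right₀ hs1 (by norm_num)
      nlinarith [mul_nonneg (sub_nonneg.2 hE) (by positivity : (0 : ℝ) ≤ (S : ℝ) ^ 16)]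
    have h6 : 0 ≤ Real.log ((S ^ (2 * 1) : ℕ) : ℝ) := Real.log_natCast_nonneg _
    gcongr
  have hZ : ∀ j, 1 ≤ j → j + 1 ≤ k0 →
      ∑ r ∈ (PY n (S ^ (2 * (j + 1)))).filter (fun r => S ^ (2 * j) < r), dl n r / r ≤
        (C0 * (1 + 2 * k0 * Real.log S) + C1) * e := by
    intro j hj0 hj
    refine (Fin1_block hSp hS3 hSm hE hPS hP hPne h1 h2 hBP hj0 hj ?_).trans ?_
    · intro r hr
      rw [mem_filter, mem_PY] at hr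
      exact ⟨hr.1.2.1, hr.2, hr.1.1, hr.1.2.2⟩
    have h3 := hlogj (j + 1) hj
    rw [← he]
    calc (144 * ((2 * k0 + 3 : ℕ) : ℝ) * ((4 * k0 + 4 : ℕ) : ℝ) ^ k0 * e +
        (4 * ((4 * k0 + 4 : ℕ) : ℝ) ^ (k0 + 1) * e +
          2 * 2 ^ (4 * k0 + 4) * ((2 * k0 + 3 : ℕ) : ℝ) ^ (4 * k0 + 6) * e)) *
        (1 + Real.log ((S ^ (2 * (j + 1)) : ℕ) : ℝ)) +
      144 * (k0 + 1) * ((4 * k0 + 4 : ℕ) : ℝ) * ((2 * k0 + 3 : ℕ) : ℝ) * e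
        = C0 * e * (1 + Real.log ((S ^ (2 * (j + 1)) : ℕ) : ℝ)) + C1 * e := by
          rw [hC0, hC1]
          ring
      _ ≤ C0 * e * (1 + 2 * k0 * Real.log S) + C1 * e := by gcongr
      _ = (C0 * (1 + 2 * k0 * Real.log S) + C1) * e := by ring
  obtain ⟨j, rfl⟩ : ∃ j, k0 = j + 1 := ⟨k0 - 1, by omega⟩
  have hall := Fin1_ind (by omega) hfirst hZ j le_rfl
  refine hall.trans (le_trans ?_ (hS1 S hSS1))
  rw [← he]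
  push_cast
  obtain ⟨l, hl⟩ : ∃ l : ℝ, l = Real.log (S : ℝ) := ⟨_, rfl⟩
  rw [← hl] at hlog ⊢
  have hjr : (0 : ℝ) ≤ (j : ℝ) := Nat.cast_nonneg j
  have g1 : (1 : ℝ) + 2 * ((j : ℝ) + 1) * l ≤ 2 * ((j : ℝ) + 1) * (1 + l) := by
    nlinarith
  have g2 : (1 : ℝ) ≤ 2 * ((j : ℝ) + 1) * (1 + l) := by
    nlinarith [mul_nonneg hjr hlog]
  have g3 : 0 ≤ 2 * ((j : ℝ) + 1) * (1 + l) := by positivity
  calc 36 * e * (1 + 2 * ((j : ℝ) + 1) * l) +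
        (j : ℝ) * ((C0 * (1 + 2 * ((j : ℝ) + 1) * l) + C1) * e)
      ≤ 36 * e * (2 * ((j : ℝ) + 1) * (1 + l)) +
        ((j : ℝ) + 1) * ((C0 * (2 * ((j : ℝ) + 1) * (1 + l)) +
          C1 * (2 * ((j : ℝ) + 1) * (1 + l))) * e) := by
        have g4 : C1 ≤ C1 * (2 * ((j : ℝ) + 1) * (1 + l)) := by nlinarith
        have g5 : (j : ℝ) ≤ (j : ℝ) + 1 := by linarith
        gcongr
    _ = e * (2 * ((j : ℝ) + 1) * (36 + ((j : ℝ) + 1) * (C0 + C1)) * (1 + l)) := by ring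

theorem fin_oneG (k0 : ℕ) (hk0 : 1 ≤ k0) : ∃ S0 : ℕ, ∀ S : ℕ, S0 ≤ S → ∀ (n : ℕ) [NeZero n],
    S ^ (4 * k0 + 4) ≤ n → n < (S + 1) ^ (4 * k0 + 4) → ∀ G : Finset (ZMod n)ˣ, #G = S ^ 60 →
    Near G (1 / (S : ℝ) ^ 80) →
    ∑ q ∈ PY n (S ^ (2 * k0)), dl n q / q ≤ (S : ℝ) ^ (-(1 / 2) : ℝ) := by
  obtain ⟨T0, hT0⟩ := fin_core k0 hk0
  obtain ⟨T1, hT1⟩ := fin_betaG
  refine ⟨max (max T0 T1) 1, ?_⟩
  intro S hS n hn0 h1 h2 G hG hN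
  simp only [max_le_iff] at hS
  obtain ⟨⟨hS0, hS1⟩, hS2⟩ := hS
  have h8 : S ^ 8 ≤ n :=
    (Nat.pow_le_pow_right (by omega) (by omega : 8 ≤ 4 * k0 + 4)).trans h1
  exact hT0 S hS0 n h1 h2 fun q hq hqn hqS => hT1 S hS1 n h8 G hG hN q hq hqn hqS

end Pool.Agent.Helper26.PG
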