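import Pool.Agent.Helper26.PG.Geo

/-!
# PG-Gauss: Polya-Vinogradov for all characters, sums over pairs

PROOF.  `G(a) = ∑ x, χ x ψ (a x)`, `ψ = ZMod.stdAddChar`.  For a unit `u`: `χ u G(u a) = G(a)`.  With `j = ‖a‖` the map
`u ↦ u a` has fibres of size at most `gcd (n, j)`, so Parseval `∑ a, |G a| ^ 2 ≤ n φ(n)` gives
`φ(n) |G a| ^ 2 ≤ gcd (n, j) n φ(n)`.  `G 0 = 0`.
`n χ m = ∑ a, G a ψ (- a m)`, so `n |∑ m ∈ Icc 1 b, χ m| ≤ ∑ a ≠ 0, √(n gcd) n / (2 ‖a‖)` and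
`∑ j ≤ n / 2, √gcd (j, n) / j ≤ ∑ d ∣ n, ∑ (i ≤ n / 2), 1 / i ≤ τ(n) (1 + log n)`.  For the pairs
`|∑ i ∈ Icc 1 M, ψ (a i)| ^ 2 ≤ M n / (2 ‖a‖)` and the same sum.
-/

set_option autoImplicit false

namespace Pool.Agent.Helper26.PG

open Finset
open Pool.Agent.Helper26.PE (la la_mul la_prime la_one la_sq la_eq la_abs PS Tup mem_Tup card_Tup pr sm)

variable {n : ℕ} [hn0 : NeZero n]

private theorem Gauss_orth (b : ZMod n) :
    ∑ a : ZMod n, (ZMod.stdAddChar (a * b) : ℂ) = if b = 0 then (n : ℂ) else 0 := by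
  have h := AddChar.sum_mulShift b (ZMod.isPrimitive_stdAddChar n)
  rw [h, ZMod.card]
  split_ifs <;> simp

/-- the Gauss sums -/
private noncomputable def Gauss_G (χ : DirichletCharacter ℂ n) (a : ZMod n) : ℂ :=
  ∑ x : ZMod n, χ x * (ZMod.stdAddChar (a * x) : ℂ)

private theorem Gauss_parseval (χ : DirichletCharacter ℂ n) :
    ∑ a : ZMod n, ‖Gauss_G χ a‖ ^ 2 = (n : ℝ) * ∑ x : ZMod n, ‖χ x‖ ^ 2 := by
  classical
  have h1 : ∀ a : ZMod n, ((‖Gauss_G χ a‖ ^ 2 : ℝ) : ℂ) =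
      ∑ s : ZMod n, ∑ t : ZMod n, (χ s * (starRingEnd ℂ) (χ t)) *
        (ZMod.stdAddChar (a * (s - t)) : ℂ) := by
    intro a
    rw [Complex.ofReal_pow, ← Complex.conj_mul', mul_comm]
    unfold Gauss_G
    rw [map_sum, Finset.sum_mul_sum]
    refine Finset.sum_congr rfl fun s _ => Finset.sum_congr rfl fun t _ => ?_
    rw [map_mul (starRingEnd ℂ) (χ t), ← AddChar.map_neg_eq_conj]
    have h2 : (ZMod.stdAddChar (a * (s - t)) : ℂ) =
        ZMod.stdAddChar (a * s) * ZMod.stdAddChar (-(a * t)) := by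
      rw [← AddChar.map_add_eq_mul]
      congr 1
      ring
    rw [h2]
    ring
  have h2 : ((∑ a : ZMod n, ‖Gauss_G χ a‖ ^ 2 : ℝ) : ℂ) =
      (((n : ℝ) * ∑ x : ZMod n, ‖χ x‖ ^ 2 : ℝ) : ℂ) := by
    rw [Complex.ofReal_sum]
    simp only [h1]
    rw [Finset.sum_comm]
    have h3 : ∀ s : ZMod n, ∑ a : ZMod n, ∑ t : ZMod n, (χ s * (starRingEnd ℂ) (χ t)) *
        (ZMod.stdAddChar (a * (s - t)) : ℂ) = (n : ℂ) * ((‖χ s‖ ^ 2 : ℝ) : ℂ) := by
      intro s
      rw [Finset.sum_comm]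
      have h4 : ∀ t : ZMod n, ∑ a : ZMod n, (χ s * (starRingEnd ℂ) (χ t)) *
          (ZMod.stdAddChar (a * (s - t)) : ℂ) =
          if s = t then (χ s * (starRingEnd ℂ) (χ t)) * (n : ℂ) else 0 := by
        intro t
        rw [← Finset.mul_sum, Gauss_orth]
        by_cases h : s = t
        · rw [if_pos h, if_pos (sub_eq_zero.2 h)]
        · rw [if_neg h, if_neg (sub_ne_zero.2 h), mul_zero]
      rw [Finset.sum_congr rfl fun t _ => h4 t, Finset.sum_ite_eq, if_pos (Finset.mem_univ s),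
        Complex.ofReal_pow, ← Complex.mul_conj']
      ring
    rw [Finset.sum_congr rfl fun s _ => h3 s, ← Finset.mul_sum]
    push_cast
    rfl
  exact_mod_cast h2

private theorem Gauss_unit (χ : DirichletCharacter ℂ n) (u : (ZMod n)ˣ) (a : ZMod n) :
    ‖Gauss_G χ ((u : ZMod n) * a)‖ = ‖Gauss_G χ a‖ := by
  have h1 : Gauss_G χ a = χ (u : ZMod n) * Gauss_G χ ((u : ZMod n) * a) := by
    unfold Gauss_G
    rw [Finset.mul_sum]
    refine (Fintype.sum_equiv (Units.mulLeft u) _ _ fun x => ?_).symm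
    show χ (u : ZMod n) * (χ x * (ZMod.stdAddChar ((u : ZMod n) * a * x) : ℂ)) =
      χ ((u : ZMod n) * x) * (ZMod.stdAddChar (a * ((u : ZMod n) * x)) : ℂ)
    rw [map_mul χ, ← mul_assoc]
    congr 2
    ring
  rw [h1, norm_mul, DirichletCharacter.unit_norm_eq_one, one_mul]

private theorem Gauss_kernel (j : ℕ) (S : Finset (ZMod n)) (hS : ∀ x ∈ S, x * (j : ZMod n) = 0) :
    #S ≤ Nat.gcd n j := by
  classical
  have hn : 0 < n := Nat.pos_of_ne_zero hn0.out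
  have hd : 0 < Nat.gcd n j := Nat.gcd_pos_of_pos_left _ hn
  obtain ⟨q, hq⟩ := Nat.gcd_dvd_left n j
  have hq0 : 0 < q := by
    rcases Nat.eq_zero_or_pos q with h | h
    · rw [h, mul_zero] at hq
      omega
    · exact h
  have hdv : ∀ x ∈ S, q ∣ x.val := by
    intro x hx
    have h1 : n ∣ x.val * j := by
      have h2 := hS x hx
      rw [← ZMod.natCast_zmod_val x, ← Nat.cast_mul, ZMod.natCast_eq_zero_iff] at h2
      exact h2
    obtain ⟨t, ht⟩ := Nat.gcd_dvd_right n j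
    have hcop : Nat.Coprime q t := by
      have h3 := Nat.gcd_mul_left (Nat.gcd n j) q t
      rw [← hq, ← ht] at h3
      exact Nat.eq_of_mul_eq_mul_left hd (by rw [mul_one]; exact h3.symm)
    have h4 : q ∣ x.val * t := by
      apply Nat.dvd_of_mul_dvd_mul_left hd
      rw [← hq]
      have h5 : Nat.gcd n j * (x.val * t) = x.val * (Nat.gcd n j * t) := by ring
      rw [h5, ← ht]
      exact h1
    exact hcop.dvd_of_dvd_mul_right h4
  calc #S ≤ #(range (Nat.gcd n j)) := by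
        refine Finset.card_le_card_of_injOn (fun x => x.val / q) ?_ ?_
        · intro x hx
          have h1 := ZMod.val_lt x
          rw [Finset.mem_coe, mem_range]
          apply Nat.div_lt_of_lt_mul
          rw [mul_comm, ← hq]
          exact h1
        · intro x hx y hy hxy
          have h1 := Nat.div_mul_cancel (hdv x hx)
          have h2 := Nat.div_mul_cancel (hdv y hy)
          apply ZMod.val_injective n
          rw [← h1, ← h2]
          exact congrArg (· * q) hxy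
    _ = Nat.gcd n j := card_range _

private theorem Gauss_fibre (a b : ZMod n) :
    #(univ.filter fun u : (ZMod n)ˣ => (u : ZMod n) * a = b) ≤
      Nat.gcd n a.valMinAbs.natAbs := by
  classical
  rcases (univ.filter fun u : (ZMod n)ˣ => (u : ZMod n) * a = b).eq_empty_or_nonempty with h | ⟨u₀, hu₀⟩
  · rw [h]
    exact Nat.zero_le _
  · have h0 := (Finset.mem_filter.mp hu₀).2
    refine le_trans ?_ (Gauss_kernel a.valMinAbs.natAbs
      ((univ.filter fun u : (ZMod n)ˣ => (u : ZMod n) * a = b).image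
        fun u : (ZMod n)ˣ => (u : ZMod n) - (u₀ : ZMod n)) ?_)
    · rw [Finset.card_image_of_injective]
      intro u v huv
      exact Units.ext (sub_left_injective huv)
    · intro x hx
      obtain ⟨u, hu, rfl⟩ := Finset.mem_image.mp hx
      have h1 := (Finset.mem_filter.mp hu).2
      have h2 : ((u : ZMod n) - (u₀ : ZMod n)) * a = 0 := by
        rw [sub_mul, h1, h0, sub_self]
      have h4 := ZMod.coe_valMinAbs a
      rcases Int.natAbs_eq a.valMinAbs with h5 | h5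
      · have h6 : a = ((a.valMinAbs.natAbs : ℕ) : ZMod n) := by
          conv_lhs => rw [← h4, h5, Int.cast_natCast]
        rw [← h6]
        exact h2
      · have h6 : a = -((a.valMinAbs.natAbs : ℕ) : ZMod n) := by
          conv_lhs => rw [← h4, h5, Int.cast_neg, Int.cast_natCast]
        have h7 : ((a.valMinAbs.natAbs : ℕ) : ZMod n) = -a := (neg_eq_iff_eq_neg.mpr h6).symm
        rw [h7, mul_neg, h2, neg_zero]

private theorem Gauss_norm_sq (χ : DirichletCharacter ℂ n) (a : ZMod n) :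
    ‖Gauss_G χ a‖ ^ 2 ≤ n * (Nat.gcd n a.valMinAbs.natAbs : ℝ) := by
  classical
  obtain ⟨f, hf⟩ : ∃ f : ℝ, f = (Fintype.card (ZMod n)ˣ : ℝ) := ⟨_, rfl⟩
  have hf0 : 0 < f := by
    rw [hf]
    exact_mod_cast Fintype.card_pos
  have hW : ∑ x : ZMod n, ‖χ x‖ ^ 2 ≤ f := by
    have h1 : ∑ x : ZMod n, ‖χ x‖ ^ 2 ≤
        ∑ x : ZMod n, if x ∈ univ.image (fun u : (ZMod n)ˣ => (u : ZMod n)) then (1 : ℝ) else 0 := by
      refine Finset.sum_le_sum fun x _ => ?_
      split_ifs with h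
      · have h2 := DirichletCharacter.norm_le_one χ x
        have h3 := norm_nonneg (χ x)
        nlinarith
      · have h2 : ¬ IsUnit x := by
          rintro ⟨u, rfl⟩
          exact h (Finset.mem_image_of_mem _ (Finset.mem_univ u))
        rw [MulChar.map_nonunit χ h2, norm_zero]
        norm_num
    refine h1.trans ?_
    rw [Finset.sum_ite_mem, Finset.univ_inter, Finset.sum_const, nsmul_eq_mul, mul_one, hf]
    exact_mod_cast Finset.card_image_le
  have h2 : ∑ u : (ZMod n)ˣ, ‖Gauss_G χ ((u : ZMod n) * a)‖ ^ 2 = f * ‖Gauss_G χ a‖ ^ 2 := by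
    rw [Finset.sum_congr rfl fun u _ => by rw [Gauss_unit χ u a], Finset.sum_const, nsmul_eq_mul,
      hf, Finset.card_univ]
  have h3 : ∑ u : (ZMod n)ˣ, ‖Gauss_G χ ((u : ZMod n) * a)‖ ^ 2 ≤
      ∑ b : ZMod n, (Nat.gcd n a.valMinAbs.natAbs : ℝ) * ‖Gauss_G χ b‖ ^ 2 := by
    rw [← Finset.sum_fiberwise univ (fun u : (ZMod n)ˣ => (u : ZMod n) * a)]
    refine Finset.sum_le_sum fun b _ => ?_
    rw [Finset.sum_congr rfl (g := fun _ => ‖Gauss_G χ b‖ ^ 2) (fun u hu => by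
      rw [(Finset.mem_filter.mp hu).2]), Finset.sum_const, nsmul_eq_mul]
    refine mul_le_mul_of_nonneg_right ?_ (by positivity)
    exact_mod_cast Gauss_fibre a b
  rw [h2, ← Finset.mul_sum, Gauss_parseval] at h3
  have hg0 : (0 : ℝ) ≤ (Nat.gcd n a.valMinAbs.natAbs : ℝ) := Nat.cast_nonneg _
  have hnn : (0 : ℝ) ≤ (n : ℝ) := Nat.cast_nonneg _
  have h4 : (Nat.gcd n a.valMinAbs.natAbs : ℝ) * ((n : ℝ) * ∑ x : ZMod n, ‖χ x‖ ^ 2) ≤
      (Nat.gcd n a.valMinAbs.natAbs : ℝ) * ((n : ℝ) * f) :=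
    mul_le_mul_of_nonneg_left (mul_le_mul_of_nonneg_left hW hnn) hg0
  have h5 : f * ‖Gauss_G χ a‖ ^ 2 ≤ f * (n * (Nat.gcd n a.valMinAbs.natAbs : ℝ)) := by
    calc f * ‖Gauss_G χ a‖ ^ 2 ≤ _ := h3.trans h4
      _ = _ := by ring
  exact le_of_mul_le_mul_left h5 hf0

private theorem Gauss_zero (χ : DirichletCharacter ℂ n) (hχ : χ ≠ 1) : Gauss_G χ 0 = 0 := by
  unfold Gauss_G
  simp only [zero_mul, AddChar.map_zero_eq_one, mul_one]
  exact MulChar.sum_eq_zero_of_ne_one hχ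

private theorem Gauss_inv (χ : DirichletCharacter ℂ n) (m : ZMod n) :
    (n : ℂ) * χ m = ∑ a : ZMod n, Gauss_G χ a * (ZMod.stdAddChar (-a * m) : ℂ) := by
  classical
  have h1 : ∀ a : ZMod n, Gauss_G χ a * (ZMod.stdAddChar (-a * m) : ℂ) =
      ∑ x : ZMod n, χ x * (ZMod.stdAddChar (a * (x - m)) : ℂ) := by
    intro a
    unfold Gauss_G
    rw [Finset.sum_mul]
    refine Finset.sum_congr rfl fun x _ => ?_
    rw [mul_assoc, ← AddChar.map_add_eq_mul]
    congr 2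
    ring
  rw [Finset.sum_congr rfl fun a _ => h1 a, Finset.sum_comm]
  have h2 : ∀ x : ZMod n, ∑ a : ZMod n, χ x * (ZMod.stdAddChar (a * (x - m)) : ℂ) =
      if x = m then χ x * (n : ℂ) else 0 := by
    intro x
    rw [← Finset.mul_sum, Gauss_orth]
    by_cases h : x = m
    · rw [if_pos h, if_pos (sub_eq_zero.2 h)]
    · rw [if_neg h, if_neg (sub_ne_zero.2 h), mul_zero]
  rw [Finset.sum_congr rfl fun x _ => h2 x, Finset.sum_ite_eq', if_pos (Finset.mem_univ m)]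
  ring

private theorem Gauss_count (g : ℕ → ℝ) (hg : ∀ j, 0 ≤ g j) :
    ∑ a ∈ (univ : Finset (ZMod n)).erase 0, g a.valMinAbs.natAbs ≤
      2 * ∑ j ∈ Icc 1 (n / 2), g j := by
  classical
  have hmaps : ∀ a ∈ (univ : Finset (ZMod n)).erase 0, a.valMinAbs.natAbs ∈ Icc 1 (n / 2) := by
    intro a ha
    rw [mem_Icc]
    refine ⟨?_, ZMod.natAbs_valMinAbs_le a⟩
    rw [Nat.one_le_iff_ne_zero]
    intro h
    rw [Int.natAbs_eq_zero, ZMod.valMinAbs_eq_zero] at h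
    exact (Finset.mem_erase.mp ha).1 h
  rw [← Finset.sum_fiberwise_of_maps_to hmaps, Finset.mul_sum]
  refine Finset.sum_le_sum fun j _ => ?_
  have h1 : ∑ a ∈ ((univ : Finset (ZMod n)).erase 0).filter (fun a => a.valMinAbs.natAbs = j),
      g a.valMinAbs.natAbs = ((((univ : Finset (ZMod n)).erase 0).filter
        (fun a => a.valMinAbs.natAbs = j)).card : ℝ) * g j := by
    rw [Finset.sum_congr rfl (g := fun _ => g j), Finset.sum_const, nsmul_eq_mul]
    intro a ha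
    rw [(Finset.mem_filter.mp ha).2]
  rw [h1]
  refine mul_le_mul_of_nonneg_right ?_ (hg j)
  have h2 : ((univ : Finset (ZMod n)).erase 0).filter (fun a => a.valMinAbs.natAbs = j) ⊆
      {((j : ℕ) : ZMod n), -((j : ℕ) : ZMod n)} := by
    intro a ha
    have h3 := (Finset.mem_filter.mp ha).2
    rw [Finset.mem_insert, Finset.mem_singleton]
    have h4 := ZMod.coe_valMinAbs a
    rcases Int.natAbs_eq a.valMinAbs with h5 | h5
    · left
      rw [← h4, h5, h3, Int.cast_natCast]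
    · right
      rw [← h4, h5, h3, Int.cast_neg, Int.cast_natCast]
  have h3 := (Finset.card_le_card h2).trans Finset.card_le_two
  exact_mod_cast h3

omit hn0 in
private theorem Gauss_harm (M : ℕ) (hM : M ≤ n) :
    ∑ j ∈ Icc 1 M, ((j : ℝ))⁻¹ ≤ 1 + Real.log n := by
  have h5 := harmonic_le_one_add_log M
  rw [harmonic_eq_sum_Icc] at h5
  push_cast at h5
  refine h5.trans ?_
  have h6 : Real.log (M : ℝ) ≤ Real.log n := by
    rcases Nat.eq_zero_or_pos M with h | h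
    · rw [h, Nat.cast_zero, Real.log_zero]
      exact Real.log_natCast_nonneg n
    · apply Real.log_le_log
      · exact_mod_cast h
      · exact_mod_cast hM
  linarith

private theorem Gauss_gcd (M : ℕ) (hM : M ≤ n) :
    ∑ j ∈ Icc 1 M, √(Nat.gcd n j : ℝ) / j ≤ #n.divisors * (1 + Real.log n) := by
  classical
  have hn : 0 < n := Nat.pos_of_ne_zero hn0.out
  have h1 : ∀ j ∈ Icc 1 M, √(Nat.gcd n j : ℝ) / j ≤
      ∑ d ∈ n.divisors, if d ∣ j then (d : ℝ) / j else 0 := by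
    intro j hj
    have hj1 := (Finset.mem_Icc.mp hj).1
    have hj0 : (0 : ℝ) < j := by exact_mod_cast hj1
    have hg1 : (1 : ℝ) ≤ (Nat.gcd n j : ℝ) := by
      exact_mod_cast Nat.gcd_pos_of_pos_left _ hn
    have h2 : √(Nat.gcd n j : ℝ) ≤ (Nat.gcd n j : ℝ) := by
      rw [Real.sqrt_le_left (by linarith)]
      nlinarith
    have h3 : (Nat.gcd n j : ℝ) / j = if Nat.gcd n j ∣ j then (Nat.gcd n j : ℝ) / j else 0 := by
      rw [if_pos (Nat.gcd_dvd_right n j)]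
    refine (div_le_div_of_nonneg_right h2 hj0.le).trans ?_
    rw [h3]
    refine Finset.single_le_sum (f := fun d : ℕ => if d ∣ j then (d : ℝ) / j else 0)
      (fun d _ => ?_) (Nat.mem_divisors.mpr ⟨Nat.gcd_dvd_left n j, hn.ne'⟩)
    split_ifs
    · positivity
    · exact le_rfl
  refine (Finset.sum_le_sum h1).trans ?_
  rw [Finset.sum_comm, ← nsmul_eq_mul]
  refine Finset.sum_le_card_nsmul _ _ _ fun d hd => ?_
  have hd0 : 0 < d := Nat.pos_of_mem_divisors hd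
  rw [← Finset.sum_filter]
  have h4 : ∑ j ∈ (Icc 1 M).filter (fun j => d ∣ j), (d : ℝ) / j =
      ∑ j ∈ (Icc 1 M).filter (fun j => d ∣ j), (((j / d : ℕ) : ℝ))⁻¹ := by
    refine Finset.sum_congr rfl fun j hj => ?_
    have h5 := (Finset.mem_filter.mp hj).2
    have h6 : (0 : ℝ) < d := by exact_mod_cast hd0
    rw [Nat.cast_div h5 h6.ne', inv_div]
  rw [h4, ← Finset.sum_image (f := fun i : ℕ => ((i : ℝ))⁻¹) (g := fun j : ℕ => j / d)]
  · refine (Finset.sum_le_sum_of_subset_of_nonneg (t := Icc 1 M) ?_ fun i _ _ => by positivity).trans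
      (Gauss_harm M hM)
    intro i hi
    obtain ⟨j, hj, rfl⟩ := Finset.mem_image.mp hi
    obtain ⟨h5, h6⟩ := Finset.mem_filter.mp hj
    rw [mem_Icc] at h5 ⊢
    exact ⟨Nat.div_pos (Nat.le_of_dvd (by omega) h6) hd0, (Nat.div_le_self _ _).trans h5.2⟩
  · intro j hj i hi hji
    have h5 := (Finset.mem_filter.mp hj).2
    have h6 := (Finset.mem_filter.mp hi).2
    rw [← Nat.div_mul_cancel h5, ← Nat.div_mul_cancel h6]
    exact congrArg (· * d) hji

private theorem Gauss_total (χ : DirichletCharacter ℂ n) :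
    ∑ a ∈ (univ : Finset (ZMod n)).erase 0, ‖Gauss_G χ a‖ *
      ((n : ℝ) / (2 * (a.valMinAbs.natAbs : ℝ))) ≤
      n * (√(n : ℝ) * #n.divisors * (1 + Real.log n)) := by
  have hnn : (0 : ℝ) ≤ (n : ℝ) := Nat.cast_nonneg _
  have h1 : ∀ a ∈ (univ : Finset (ZMod n)).erase 0, ‖Gauss_G χ a‖ *
      ((n : ℝ) / (2 * (a.valMinAbs.natAbs : ℝ))) ≤
      (fun j : ℕ => √(n : ℝ) * √(Nat.gcd n j : ℝ) * ((n : ℝ) / (2 * (j : ℝ))))
        a.valMinAbs.natAbs := by
    intro a _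
    have h2 : ‖Gauss_G χ a‖ ≤ √(n : ℝ) * √(Nat.gcd n a.valMinAbs.natAbs : ℝ) := by
      rw [← Real.sqrt_mul hnn]
      exact Real.le_sqrt_of_sq_le (Gauss_norm_sq χ a)
    exact mul_le_mul_of_nonneg_right h2 (by positivity)
  refine (Finset.sum_le_sum h1).trans ?_
  refine (Gauss_count (n := n)
    (fun j : ℕ => √(n : ℝ) * √(Nat.gcd n j : ℝ) * ((n : ℝ) / (2 * (j : ℝ))))
    (fun j => by positivity)).trans ?_
  have h3 : 2 * ∑ j ∈ Icc 1 (n / 2), √(n : ℝ) * √(Nat.gcd n j : ℝ) * ((n : ℝ) / (2 * (j : ℝ))) =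
      n * √(n : ℝ) * ∑ j ∈ Icc 1 (n / 2), √(Nat.gcd n j : ℝ) / j := by
    rw [Finset.mul_sum, Finset.mul_sum]
    refine Finset.sum_congr rfl fun j hj => ?_
    have : (0 : ℝ) < j := by exact_mod_cast (Finset.mem_Icc.mp hj).1
    field_simp
  rw [h3]
  have h4 := Gauss_gcd (n := n) (n / 2) (Nat.div_le_self n 2)
  have h5 : (0 : ℝ) ≤ n * √(n : ℝ) := by positivity
  have h6 := mul_le_mul_of_nonneg_left h4 h5
  refine h6.trans (le_of_eq ?_)
  ring

private theorem Gauss_geo (M : ℕ) {a : ZMod n} (ha : a ≠ 0) :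
    ‖∑ i ∈ Icc 1 M, (ZMod.stdAddChar (-a * (i : ZMod n)) : ℂ)‖ ≤
      n / (2 * (a.valMinAbs.natAbs : ℝ)) := by
  have h1 := geo_bound M (neg_ne_zero.mpr ha)
  rwa [ZMod.natAbs_valMinAbs_neg] at h1

private theorem Gauss_sum (χ : DirichletCharacter ℂ n) (hχ : χ ≠ 1) (b : ℕ) :
    ‖∑ m ∈ Icc 1 b, χ (m : ZMod n)‖ ≤ √(n : ℝ) * #n.divisors * (1 + Real.log n) := by
  classical
  have hn : (0 : ℝ) < n := by exact_mod_cast Nat.pos_of_ne_zero hn0.out
  have h1 : (n : ℂ) * ∑ m ∈ Icc 1 b, χ (m : ZMod n) = ∑ a : ZMod n, Gauss_G χ a *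
      ∑ m ∈ Icc 1 b, (ZMod.stdAddChar (-a * (m : ZMod n)) : ℂ) := by
    have e1 : ∀ m ∈ Icc 1 b, (n : ℂ) * χ (m : ZMod n) =
        ∑ a : ZMod n, Gauss_G χ a * (ZMod.stdAddChar (-a * (m : ZMod n)) : ℂ) :=
      fun m _ => Gauss_inv χ (m : ZMod n)
    rw [Finset.mul_sum, Finset.sum_congr rfl e1, Finset.sum_comm]
    refine Finset.sum_congr rfl fun a _ => ?_
    rw [Finset.mul_sum]
  have h2 : (n : ℝ) * ‖∑ m ∈ Icc 1 b, χ (m : ZMod n)‖ ≤
      n * (√(n : ℝ) * #n.divisors * (1 + Real.log n)) := by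
    have h3 : (n : ℝ) * ‖∑ m ∈ Icc 1 b, χ (m : ZMod n)‖ =
        ‖(n : ℂ) * ∑ m ∈ Icc 1 b, χ (m : ZMod n)‖ := by
      rw [norm_mul, Complex.norm_natCast]
    rw [h3, h1, ← Finset.add_sum_erase _ _ (Finset.mem_univ (0 : ZMod n)), Gauss_zero χ hχ, zero_mul,
      zero_add]
    refine (norm_sum_le _ _).trans ((Finset.sum_le_sum fun a ha => ?_).trans (Gauss_total χ))
    rw [norm_mul]
    exact mul_le_mul_of_nonneg_left (Gauss_geo b (Finset.mem_erase.mp ha).1) (norm_nonneg _)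
  exact le_of_mul_le_mul_left h2 hn

theorem pv (χ : DirichletCharacter ℂ n) (hχ : χ ≠ 1) (a b : ℕ) :
    ‖∑ m ∈ Ioc a b, χ (m : ZMod n)‖ ≤ 2 * √(n : ℝ) * #n.divisors * (1 + Real.log n) := by
  have hlog : 0 ≤ Real.log n := Real.log_natCast_nonneg n
  have hs : 0 ≤ √(n : ℝ) := Real.sqrt_nonneg _
  rcases le_or_gt a b with hab | hab
  · have h1 : ∑ m ∈ Icc 1 b, χ (m : ZMod n) =
        ∑ m ∈ Icc 1 a, χ (m : ZMod n) + ∑ m ∈ Ioc a b, χ (m : ZMod n) := by
      have hI : ∀ c : ℕ, Icc 1 c = Ioc 0 c := fun c => by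
        ext x
        rw [mem_Icc, mem_Ioc]
        omega
      rw [hI, hI, Finset.sum_Ioc_consecutive _ (Nat.zero_le a) hab]
    have h2 : ∑ m ∈ Ioc a b, χ (m : ZMod n) =
        ∑ m ∈ Icc 1 b, χ (m : ZMod n) - ∑ m ∈ Icc 1 a, χ (m : ZMod n) := by
      rw [h1]; ring
    rw [h2]
    refine (norm_sub_le _ _).trans ?_
    have h3 := Gauss_sum χ hχ a
    have h4 := Gauss_sum χ hχ b
    linarith
  · rw [Finset.Ioc_eq_empty (by omega), Finset.sum_empty, norm_zero]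
    positivity

theorem pair_sum (χ : DirichletCharacter ℂ n) (hχ : χ ≠ 1) (M : ℕ) :
    ‖∑ i ∈ Icc 1 M, ∑ j ∈ Icc 1 M, χ ((i + j : ℕ) : ZMod n)‖ ≤
      √(n : ℝ) * M * #n.divisors * (1 + Real.log n) := by
  classical
  have hn : (0 : ℝ) < n := by exact_mod_cast Nat.pos_of_ne_zero hn0.out
  have h1 : (n : ℂ) * ∑ i ∈ Icc 1 M, ∑ j ∈ Icc 1 M, χ ((i + j : ℕ) : ZMod n) =
      ∑ a : ZMod n, Gauss_G χ a *
        (∑ i ∈ Icc 1 M, (ZMod.stdAddChar (-a * (i : ZMod n)) : ℂ)) ^ 2 := by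
    rw [Finset.mul_sum]
    have e1 : ∀ i ∈ Icc 1 M, (n : ℂ) * ∑ j ∈ Icc 1 M, χ ((i + j : ℕ) : ZMod n) =
        ∑ a : ZMod n, ∑ j ∈ Icc 1 M, Gauss_G χ a * (ZMod.stdAddChar (-a * (i : ZMod n)) *
          ZMod.stdAddChar (-a * (j : ZMod n))) := by
      intro i _
      rw [Finset.mul_sum, Finset.sum_congr rfl fun j _ => Gauss_inv χ ((i + j : ℕ) : ZMod n),
        Finset.sum_comm]
      refine Finset.sum_congr rfl fun a _ => Finset.sum_congr rfl fun j _ => ?_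
      rw [← AddChar.map_add_eq_mul, ← mul_add, Nat.cast_add]
    rw [Finset.sum_congr rfl e1, Finset.sum_comm]
    refine Finset.sum_congr rfl fun a _ => ?_
    rw [pow_two, Finset.sum_mul_sum, Finset.mul_sum]
    refine Finset.sum_congr rfl fun i _ => ?_
    rw [Finset.mul_sum]
  have h2 : (n : ℝ) * ‖∑ i ∈ Icc 1 M, ∑ j ∈ Icc 1 M, χ ((i + j : ℕ) : ZMod n)‖ ≤
      n * (√(n : ℝ) * M * #n.divisors * (1 + Real.log n)) := by
    have h3 : (n : ℝ) * ‖∑ i ∈ Icc 1 M, ∑ j ∈ Icc 1 M, χ ((i + j : ℕ) : ZMod n)‖ =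
        ‖(n : ℂ) * ∑ i ∈ Icc 1 M, ∑ j ∈ Icc 1 M, χ ((i + j : ℕ) : ZMod n)‖ := by
      rw [norm_mul, Complex.norm_natCast]
    rw [h3, h1, ← Finset.add_sum_erase _ _ (Finset.mem_univ (0 : ZMod n)), Gauss_zero χ hχ, zero_mul,
      zero_add]
    have h4 : (n : ℝ) * (√(n : ℝ) * M * #n.divisors * (1 + Real.log n)) =
        M * (n * (√(n : ℝ) * #n.divisors * (1 + Real.log n))) := by ring
    rw [h4]
    refine (norm_sum_le _ _).trans (le_trans ?_
      (mul_le_mul_of_nonneg_left (Gauss_total χ) (Nat.cast_nonneg M)))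
    rw [Finset.mul_sum]
    refine Finset.sum_le_sum fun a ha => ?_
    rw [norm_mul, norm_pow, pow_two]
    have h5 := Gauss_geo M (Finset.mem_erase.mp ha).1
    have h6 := geo_triv M (-a)
    have h7 := norm_nonneg (∑ i ∈ Icc 1 M, (ZMod.stdAddChar (-a * (i : ZMod n)) : ℂ))
    have h8 := mul_le_mul h6 h5 h7 (Nat.cast_nonneg M)
    calc ‖Gauss_G χ a‖ * _ ≤ ‖Gauss_G χ a‖ *
          ((M : ℝ) * ((n : ℝ) / (2 * (a.valMinAbs.natAbs : ℝ)))) :=
        mul_le_mul_of_nonneg_left h8 (norm_nonneg _)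
      _ = _ := by ring
  exact le_of_mul_le_mul_left h2 hn

end Pool.Agent.Helper26.PG
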