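import Pool.Agent.Helper26.PG.Defs
import Pool.Agent.Helper53.KM.G13

/-!
# PG-Tot: small arithmetic functions

PROOF.  (1) `n / φ(n) = ∏ q ∣ n, q / (q - 1) ≤ ∏ i ≤ ω(n), (i + 1) / i = ω(n) + 1` (the `i`-th prime is `≥ i + 1`), and `2 ^ ω(n) ≤ n`.
(2) `4 ^ ω(n) ≤ τ(n) ^ 2` and the divisor bound (`divisor_bound` in Helper53/KM/G13.lean, namespace
Pool.Agent.M17.Helper89.SLE).
-/

set_option autoImplicit false

namespace Pool.Agent.Helper26.PG

open Finset
open Pool.Agent.Helper26.PE (la la_mul la_prime la_one la_sq la_eq la_abs PS Tup mem_Tup card_Tup pr sm)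

private theorem prod_ge (s : Finset ℕ) : (∀ q ∈ s, 2 ≤ q) →
    1 / ((#s : ℝ) + 1) ≤ ∏ q ∈ s, (1 - 1 / (q : ℝ)) := by
  refine Finset.induction_on_max s ?_ ?_
  · intro _
    simp
  · intro a s hmax ih h
    have ha : a ∉ s := fun h => lt_irrefl _ (hmax a h)
    have hs := ih (fun q hq => h q (mem_insert_of_mem hq))
    have h2 : #s + 2 ≤ a := by
      have h3 : s ⊆ Ico 2 a := fun q hq => mem_Ico.2 ⟨h q (mem_insert_of_mem hq), hmax q hq⟩
      have h4 := card_le_card h3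
      rw [Nat.card_Ico] at h4
      have h5 := h a (mem_insert_self _ _)
      omega
    rw [prod_insert ha, card_insert_of_notMem ha]
    push_cast
    have ha' : ((#s : ℝ) + 2) ≤ a := by exact_mod_cast h2
    have hk : (0 : ℝ) ≤ #s := by positivity
    have h3 : 1 / (a : ℝ) ≤ 1 / ((#s : ℝ) + 2) := one_div_le_one_div_of_le (by linarith) ha'
    have h4 : 1 - 1 / ((#s : ℝ) + 2) = ((#s : ℝ) + 1) / (#s + 2) := by
      field_simp
      ring
    have h5 : 1 / ((#s : ℝ) + 1 + 1) = ((#s : ℝ) + 1) / (#s + 2) * (1 / ((#s : ℝ) + 1)) := by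
      field_simp
      ring
    rw [h5]
    refine mul_le_mul ?_ hs (by positivity) ?_
    · rw [← h4]
      linarith
    · have h6 : 1 / ((#s : ℝ) + 2) ≤ 1 := by
        rw [div_le_one (by linarith)]
        linarith
      linarith

private theorem two_pow_omega (n : ℕ) (hn : 0 < n) : 2 ^ #n.primeFactors ≤ n := by
  calc 2 ^ #n.primeFactors = ∏ _q ∈ n.primeFactors, 2 := by rw [prod_const]
    _ ≤ ∏ q ∈ n.primeFactors, q := prod_le_prod' fun q hq => (Nat.prime_of_mem_primeFactors hq).two_le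
    _ ≤ n := Nat.le_of_dvd hn (Nat.prod_primeFactors_dvd n)

theorem tot_log (n : ℕ) (hn : 0 < n) : (n : ℝ) ≤ n.totient * (1 + Nat.log 2 n) := by
  have h1 : (n.totient : ℝ) = n * ∏ q ∈ n.primeFactors, (1 - 1 / (q : ℝ)) := by
    have h2 := Nat.totient_eq_mul_prod_factors n
    have h3 : ((n.totient : ℚ) : ℝ) = ((n * ∏ p ∈ n.primeFactors, (1 - (p : ℚ)⁻¹) : ℚ) : ℝ) := by
      rw [h2]
    push_cast at h3
    rw [h3]
    congr 1
    refine prod_congr rfl fun q _ => ?_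
    rw [one_div]
  have h2 := prod_ge n.primeFactors fun q hq => (Nat.prime_of_mem_primeFactors hq).two_le
  have h3 : #n.primeFactors ≤ Nat.log 2 n :=
    Nat.le_log_of_pow_le (by norm_num) (two_pow_omega n hn)
  have h4 : (#n.primeFactors : ℝ) ≤ Nat.log 2 n := by exact_mod_cast h3
  have h5 : (0 : ℝ) < n := by exact_mod_cast hn
  have hk : (0 : ℝ) ≤ #n.primeFactors := by positivity
  rw [h1]
  have h6 : 1 ≤ (∏ q ∈ n.primeFactors, (1 - 1 / (q : ℝ))) * (1 + Nat.log 2 n) := by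
    calc (1 : ℝ) = 1 / ((#n.primeFactors : ℝ) + 1) * (#n.primeFactors + 1) := by
          field_simp
      _ ≤ (∏ q ∈ n.primeFactors, (1 - 1 / (q : ℝ))) * (1 + Nat.log 2 n) := by
          refine mul_le_mul h2 (by linarith) (by positivity) ?_
          exact le_trans (by positivity) h2
  calc (n : ℝ) = n * 1 := by ring
    _ ≤ n * ((∏ q ∈ n.primeFactors, (1 - 1 / (q : ℝ))) * (1 + Nat.log 2 n)) :=
        mul_le_mul_of_nonneg_left h6 h5.le
    _ = _ := by ring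

theorem small_fun (a : ℝ) (ha : 0 < a) : ∃ C : ℝ, 0 < C ∧ ∀ n : ℕ, 0 < n →
    (4 : ℝ) ^ #n.primeFactors ≤ C * (n : ℝ) ^ a ∧ (#n.divisors : ℝ) ≤ C * (n : ℝ) ^ a ∧
      (1 : ℝ) + Nat.log 2 n ≤ C * (n : ℝ) ^ a := by
  obtain ⟨C, hC1, hC⟩ := Pool.Agent.M17.Helper89.SLE.divisor_bound (a / 2) (by linarith)
  have hC0 : 0 < C := by linarith
  refine ⟨C ^ 2, by positivity, fun n hn => ?_⟩
  have hn1 : (1 : ℝ) ≤ n := by exact_mod_cast hn
  have hn0 : (0 : ℝ) ≤ n := by linarith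
  have hsq : ∀ m : ℕ, 0 < m → (#m.divisors : ℝ) ^ 2 ≤ C ^ 2 * (m : ℝ) ^ a := by
    intro m hm
    have h1 := hC m hm
    have h2 : ((m : ℝ) ^ (a / 2)) ^ 2 = (m : ℝ) ^ a := by
      rw [← Real.rpow_natCast, ← Real.rpow_mul (by positivity)]
      congr 1
      push_cast
      ring
    calc (#m.divisors : ℝ) ^ 2 ≤ (C * (m : ℝ) ^ (a / 2)) ^ 2 :=
          pow_le_pow_left₀ (by positivity) h1 2
      _ = C ^ 2 * (m : ℝ) ^ a := by rw [mul_pow, h2]
  have hdiv : ∀ m : ℕ, 0 < m → (#m.divisors : ℝ) ≤ C ^ 2 * (m : ℝ) ^ a := by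
    intro m hm
    have h1 : (1 : ℝ) ≤ #m.divisors := by
      have : 0 < #m.divisors := card_pos.2 ⟨1, Nat.one_mem_divisors.2 hm.ne'⟩
      exact_mod_cast this
    calc (#m.divisors : ℝ) ≤ (#m.divisors : ℝ) ^ 2 := by nlinarith
      _ ≤ _ := hsq m hm
  refine ⟨?_, hdiv n hn, ?_⟩
  · refine le_trans ?_ (hsq n hn)
    have h1 : 2 ^ #n.primeFactors ≤ #n.divisors := by
      rw [Nat.card_divisors hn.ne']
      calc 2 ^ #n.primeFactors = ∏ _q ∈ n.primeFactors, 2 := by rw [prod_const]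
        _ ≤ ∏ q ∈ n.primeFactors, (n.factorization q + 1) := by
            refine prod_le_prod' fun q hq => ?_
            have h2 := (Nat.prime_of_mem_primeFactors hq).factorization_pos_of_dvd hn.ne'
              (Nat.dvd_of_mem_primeFactors hq)
            omega
    have h3 : ((2 : ℝ) ^ #n.primeFactors) ≤ #n.divisors := by exact_mod_cast h1
    calc (4 : ℝ) ^ #n.primeFactors = ((2 : ℝ) ^ #n.primeFactors) ^ 2 := by
          rw [← pow_mul, mul_comm, pow_mul]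
          norm_num
      _ ≤ _ := pow_le_pow_left₀ (by positivity) h3 2
  · obtain ⟨k, hk⟩ : ∃ k, k = Nat.log 2 n := ⟨_, rfl⟩
    have h1 := hdiv (2 ^ k) (by positivity)
    rw [Nat.divisors_prime_pow Nat.prime_two, card_map, card_range] at h1
    have h2 : 2 ^ k ≤ n := by
      rw [hk]
      exact Nat.pow_log_le_self 2 hn.ne'
    have h3 : (((2 ^ k : ℕ) : ℝ)) ^ a ≤ (n : ℝ) ^ a :=
      Real.rpow_le_rpow (by positivity) (by exact_mod_cast h2) ha.le
    rw [← hk]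
    calc (1 : ℝ) + k = ((k + 1 : ℕ) : ℝ) := by push_cast; ring
      _ ≤ C ^ 2 * (((2 ^ k : ℕ) : ℝ)) ^ a := h1
      _ ≤ C ^ 2 * (n : ℝ) ^ a := mul_le_mul_of_nonneg_left h3 (by positivity)

end Pool.Agent.Helper26.PG
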