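import Pool.Agent.Helper26.PG.Mass

/-!
# PG-Uniq: `F` is close to a quadratic character

PROOF.  As PE-Uniq.  `∑ χ, |cf χ| ^ 2 W χ = ∑ q, 4 #Bd / (φ(n) q) ≤ 4 n Δ / φ(n) < θ`, so some `χ` has `W χ ≤ θ`.  For two
characters `χ`, `χ'` (equal or not) with `W ≤ θ`: `|χ q χ' q - 1| ≤ |χ q + 1| + |χ' q + 1|`, so by Cauchy-Schwarz
`∑ |χ χ' q - 1| / q ≤ 2 √θ √(∑ 1 / q) ≤ η`, hence `χ χ' = 1`.  So `χ ^ 2 = 1` and `χ` is the only one; `χ ≠ 1` by `h1`.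
`|cf χ| ≥ |cf χ| ^ 2 ≥ 1 - 4 n Δ / (φ(n) θ)`, `#{F χ ≠ s} = φ(n) (1 - |cf χ|) / 2 ≤ 2 n Δ / θ`.
-/

set_option autoImplicit false

namespace Pool.Agent.Helper26.PG

open Finset
open Pool.Agent.Helper26.PE (la la_mul la_prime la_one la_sq la_eq la_abs PS Tup mem_Tup card_Tup pr sm)

variable {n : ℕ} [hn0 : NeZero n]

/-- Cauchy-Schwarz with the weights `1 / q` -/
private theorem cs_weight {P : Finset ℕ} {f : ℕ → ℝ} {θ : ℝ}
    (h : ∑ q ∈ P, f q ^ 2 / q ≤ θ) :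
    ∑ q ∈ P, f q / q ≤ √θ * √(∑ q ∈ P, 1 / (q : ℝ)) := by
  have e1 : ∑ q ∈ P, f q / q = ∑ q ∈ P, (f q / √(q : ℝ)) * (1 / √(q : ℝ)) := by
    refine sum_congr rfl fun q _ => ?_
    have hq : √(q : ℝ) * √(q : ℝ) = q := Real.mul_self_sqrt (Nat.cast_nonneg q)
    rw [div_mul_div_comm, hq, mul_one]
  have e2 : ∑ q ∈ P, (f q / √(q : ℝ)) ^ 2 = ∑ q ∈ P, f q ^ 2 / q := by
    refine sum_congr rfl fun q _ => ?_
    rw [div_pow, Real.sq_sqrt (Nat.cast_nonneg q)]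
  have e3 : ∑ q ∈ P, (1 / √(q : ℝ)) ^ 2 = ∑ q ∈ P, 1 / (q : ℝ) := by
    refine sum_congr rfl fun q _ => ?_
    rw [div_pow, Real.sq_sqrt (Nat.cast_nonneg q), one_pow]
  rw [e1]
  refine (Real.sum_mul_le_sqrt_mul_sqrt P _ _).trans ?_
  rw [e2, e3]
  exact mul_le_mul_of_nonneg_right (Real.sqrt_le_sqrt h) (Real.sqrt_nonneg _)

private theorem card_units_filter [DecidablePred fun x : ZMod n => IsUnit x] :
    #(univ.filter fun x : ZMod n => IsUnit x) = n.totient := by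
  rw [← ZMod.card_units_eq_totient, ← card_univ]
  symm
  refine card_bij (fun (u : (ZMod n)ˣ) _ => (u : ZMod n)) (fun u _ => ?_) (fun u _ v _ h => ?_)
    fun x hx => ?_
  · rw [mem_filter]
    exact ⟨mem_univ _, u.isUnit⟩
  · exact Units.ext h
  · obtain ⟨u, hu⟩ := (mem_filter.1 hx).2
    exact ⟨u, mem_univ _, hu⟩

theorem legendre_close {Y : ℕ} {θ Δ η : ℝ} (hθ : 0 < θ)
    (hΔ : ∑ q ∈ PY n Y, dl n q / q ≤ Δ) (h4 : 4 * n * Δ < θ * n.totient)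
    (hη : ∀ ψ : DirichletCharacter ℂ n, ψ ≠ 1 → η < ∑ q ∈ PY n Y, ‖ψ (q : ZMod n) - 1‖ / q)
    (hθη : 2 * (√θ * √(∑ q ∈ PY n Y, 1 / (q : ℝ))) ≤ η)
    (h1 : θ < ∑ q ∈ PY n Y, 4 / (q : ℝ)) :
    ∃ (χ : DirichletCharacter ℂ n) (s : ℝ), χ ^ 2 = 1 ∧ χ ≠ 1 ∧
      ∑ q ∈ PY n Y, ‖χ (q : ZMod n) + 1‖ ^ 2 / q ≤ θ ∧ (s = 1 ∨ s = -1) ∧
      (Set.ncard {x : ZMod n | IsUnit x ∧ (F x : ℂ) * χ x ≠ s} : ℝ) ≤ 4 * Δ / θ * n := by
  classical
  have hn1 : (0 : ℝ) < n := by exact_mod_cast Nat.pos_of_ne_zero hn0.out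
  have hφ : (0 : ℝ) < n.totient := by
    exact_mod_cast Nat.totient_pos.2 (Nat.pos_of_ne_zero hn0.out)
  set Pr := PY n Y with hPr
  obtain ⟨W, hW⟩ : ∃ W : DirichletCharacter ℂ n → ℝ,
      ∀ χ, W χ = ∑ q ∈ Pr, ‖χ (q : ZMod n) + 1‖ ^ 2 / q := ⟨_, fun χ => rfl⟩
  have hW0 : ∀ χ, 0 ≤ W χ := by
    intro χ
    rw [hW]
    exact sum_nonneg fun q _ => by positivity
  have hqc : ∀ q ∈ Pr, Nat.Coprime q n := by
    intro q hq
    rw [hPr, mem_PY] at hq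
    exact (Nat.Prime.coprime_iff_not_dvd hq.2.1).2 hq.2.2
  have hqu : ∀ q ∈ Pr, IsUnit (q : ZMod n) := fun q hq => (ZMod.isUnit_iff_coprime q n).2 (hqc q hq)
  have hS0 : 0 ≤ ∑ q ∈ Pr, dl n q / q := by
    refine sum_nonneg fun q _ => ?_
    rw [dl]
    positivity
  have hΔ0 : 0 ≤ Δ := hS0.trans hΔ
  obtain ⟨A, hA⟩ : ∃ A : ℝ, A = 4 * n * Δ / n.totient := ⟨_, rfl⟩
  have hA0 : 0 ≤ A := by
    rw [hA]
    positivity
  have hAθ : A < θ := by
    rw [hA, div_lt_iff₀ hφ]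
    exact h4
  have hsum : ∑ χ : DirichletCharacter ℂ n, ‖cf χ‖ ^ 2 * W χ ≤ A := by
    have e1 : ∑ χ : DirichletCharacter ℂ n, ‖cf χ‖ ^ 2 * W χ =
        ∑ q ∈ Pr, (∑ χ : DirichletCharacter ℂ n, ‖cf χ‖ ^ 2 * ‖χ (q : ZMod n) + 1‖ ^ 2) / q := by
      simp only [hW, mul_sum]
      rw [sum_comm]
      refine sum_congr rfl fun q _ => ?_
      rw [sum_div]
      exact sum_congr rfl fun χ _ => (mul_div_assoc _ _ _).symm
    have e2 : ∑ q ∈ Pr, (∑ χ : DirichletCharacter ℂ n,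
        ‖cf χ‖ ^ 2 * ‖χ (q : ZMod n) + 1‖ ^ 2) / q =
        4 * n / n.totient * ∑ q ∈ Pr, dl n q / q := by
      rw [mul_sum]
      refine sum_congr rfl fun q hq => ?_
      rw [mass_prime (hqc q hq), dl]
      have h1 : (n : ℝ) ≠ 0 := hn1.ne'
      have h2 : (n.totient : ℝ) ≠ 0 := hφ.ne'
      have h3 : (q : ℝ) ≠ 0 := by
        rw [hPr, mem_PY] at hq
        exact_mod_cast hq.2.1.ne_zero
      field_simp
    rw [e1, e2, hA]
    have e4 : 4 * (n : ℝ) / n.totient * ∑ q ∈ Pr, dl n q / q ≤ 4 * (n : ℝ) / n.totient * Δ :=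
      mul_le_mul_of_nonneg_left hΔ (by positivity)
    refine e4.trans_eq ?_
    ring
  -- the mass of the large `W`
  have hbad : (∑ χ ∈ univ.filter (fun χ : DirichletCharacter ℂ n => θ < W χ), ‖cf χ‖ ^ 2) * θ ≤
      A := by
    rw [sum_mul]
    refine le_trans (sum_le_sum fun χ hχ =>
      mul_le_mul_of_nonneg_left (mem_filter.1 hχ).2.le (sq_nonneg ‖cf χ‖)) (le_trans ?_ hsum)
    exact sum_le_sum_of_subset_of_nonneg (filter_subset _ _) fun χ _ _ =>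
      mul_nonneg (sq_nonneg _) (hW0 χ)
  have hbad2 : (∑ χ ∈ univ.filter (fun χ : DirichletCharacter ℂ n => θ < W χ), ‖cf χ‖ ^ 2) ≤
      A / θ := by
    rw [le_div_iff₀ hθ]
    exact hbad
  have hη1 : A / θ < 1 := by
    rw [div_lt_one hθ]
    exact hAθ
  have htot : (∑ χ ∈ univ.filter (fun χ : DirichletCharacter ℂ n => θ < W χ), ‖cf χ‖ ^ 2) +
      ∑ χ ∈ univ.filter (fun χ : DirichletCharacter ℂ n => ¬ θ < W χ), ‖cf χ‖ ^ 2 = 1 := by
    rw [sum_filter_add_sum_filter_not, mass_one]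
  -- two characters with small `W` are inverse to each other
  have hpair : ∀ χ ψ : DirichletCharacter ℂ n, W χ ≤ θ → W ψ ≤ θ → χ * ψ = 1 := by
    intro χ ψ hχ hψ
    by_contra hne
    have e1 := hη (χ * ψ) hne
    have e2 : ∑ q ∈ Pr, ‖(χ * ψ) (q : ZMod n) - 1‖ / q ≤
        ∑ q ∈ Pr, ‖χ (q : ZMod n) + 1‖ / q + ∑ q ∈ Pr, ‖ψ (q : ZMod n) + 1‖ / q := by
      rw [← sum_add_distrib]
      refine sum_le_sum fun q _ => ?_
      rw [← add_div]
      refine div_le_div_of_nonneg_right ?_ (Nat.cast_nonneg q)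
      have e3 : (χ * ψ) (q : ZMod n) - 1 =
          χ (q : ZMod n) * (ψ (q : ZMod n) + 1) - (χ (q : ZMod n) + 1) := by
        rw [MulChar.mul_apply]
        ring
      rw [e3]
      refine (norm_sub_le _ _).trans ?_
      rw [norm_mul, add_comm]
      have e4 : ‖χ (q : ZMod n)‖ * ‖ψ (q : ZMod n) + 1‖ ≤ 1 * ‖ψ (q : ZMod n) + 1‖ :=
        mul_le_mul_of_nonneg_right (DirichletCharacter.norm_le_one χ _) (norm_nonneg _)
      linarith
    have e5 := cs_weight (P := Pr) (f := fun q => ‖χ (q : ZMod n) + 1‖) (θ := θ)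
      (by rw [← hW]; exact hχ)
    have e6 := cs_weight (P := Pr) (f := fun q => ‖ψ (q : ZMod n) + 1‖) (θ := θ)
      (by rw [← hW]; exact hψ)
    linarith
  have hgood : ∀ χ : DirichletCharacter ℂ n, W χ ≤ θ → χ ^ 2 = 1 ∧ χ ≠ 1 := by
    intro χ hχ
    refine ⟨by rw [sq]; exact hpair χ χ hχ hχ, ?_⟩
    rintro rfl
    have h3 : W 1 = ∑ q ∈ Pr, 4 / (q : ℝ) := by
      rw [hW]
      refine sum_congr rfl fun q hq => ?_
      rw [MulChar.one_apply (hqu q hq)]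
      norm_num
    linarith
  obtain ⟨χ, hχ⟩ : (univ.filter (fun χ : DirichletCharacter ℂ n => ¬ θ < W χ)).Nonempty := by
    by_contra hcon
    rw [not_nonempty_iff_eq_empty] at hcon
    rw [hcon, sum_empty, add_zero] at htot
    linarith
  have hχW : W χ ≤ θ := not_lt.1 (mem_filter.1 hχ).2
  obtain ⟨hχ2, hχ1⟩ := hgood χ hχW
  have hcf : 1 - A / θ ≤ ‖cf χ‖ ^ 2 := by
    have e1 : ∑ χ ∈ univ.filter (fun χ : DirichletCharacter ℂ n => ¬ θ < W χ), ‖cf χ‖ ^ 2 ≤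
        ∑ χ ∈ {χ}, ‖cf χ‖ ^ 2 := by
      refine sum_le_sum_of_subset_of_nonneg (fun ψ hψ => ?_) fun _ _ _ => sq_nonneg _
      rw [mem_singleton]
      have e2 := hpair ψ χ (not_lt.1 (mem_filter.1 hψ).2) hχW
      have e3 := hpair χ χ hχW hχW
      exact mul_right_cancel (e2.trans e3.symm)
    rw [sum_singleton] at e1
    linarith
  have hcf1 : ‖cf χ‖ ≤ 1 := by
    have e1 : ‖cf χ‖ ^ 2 ≤ 1 := by
      rw [← mass_one (n := n)]
      exact single_le_sum (f := fun χ : DirichletCharacter ℂ n => ‖cf χ‖ ^ 2)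
        (fun χ _ => sq_nonneg _) (mem_univ χ)
    nlinarith [norm_nonneg (cf χ)]
  have hcf2 : 1 - A / θ ≤ ‖cf χ‖ := by nlinarith [norm_nonneg (cf χ)]
  -- the values
  have hval : ∀ x : ZMod n, IsUnit x → χ x = 1 ∨ χ x = -1 := by
    intro x hu
    have e1 : χ x ^ 2 = 1 := by
      have e2 := DFunLike.congr_fun hχ2 ((hu.unit : (ZMod n)ˣ) : ZMod n)
      rw [MulChar.pow_apply_coe, MulChar.one_apply_coe, IsUnit.unit_spec] at e2
      exact e2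
    have e3 : (χ x - 1) * (χ x + 1) = 0 := by linear_combination e1
    rcases mul_eq_zero.1 e3 with h | h
    · exact Or.inl (sub_eq_zero.1 h)
    · exact Or.inr (eq_neg_of_add_eq_zero_left h)
  obtain ⟨v, hv⟩ : ∃ v : ZMod n → ℝ, ∀ x, v x = F x * (χ x).re := ⟨_, fun x => rfl⟩
  have hv1 : ∀ x : ZMod n, IsUnit x → v x = 1 ∨ v x = -1 := by
    intro x hx
    rw [hv]
    rcases hval x hx with h | h <;> rcases F_eq x with h' | h' <;> rw [h, h'] <;> simp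
  have hv2 : ∀ x : ZMod n, IsUnit x → (F x : ℂ) * χ x = (v x : ℂ) := by
    intro x hx
    rw [hv]
    rcases hval x hx with h | h <;> rw [h] <;> simp
  set U : Finset (ZMod n) := univ.filter (fun x : ZMod n => IsUnit x) with hU
  have hUc : #U = n.totient := card_units_filter
  have hR : (n.totient : ℂ) * cf χ = ((∑ x ∈ U, v x : ℝ) : ℂ) := by
    have h1 : (n.totient : ℂ) ≠ 0 := by
      exact_mod_cast hφ.ne'
    rw [cf, mul_div_cancel₀ _ h1, Complex.ofReal_sum, hU, sum_filter]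
    refine sum_congr rfl fun x _ => ?_
    by_cases hx : IsUnit x
    · rw [if_pos hx, ← hv2 x hx]
      rcases hval x hx with h | h <;> rw [h] <;> simp
    · rw [if_neg hx, MulChar.map_nonunit χ hx, map_zero, mul_zero]
  have hRn : |∑ x ∈ U, v x| = (n.totient : ℝ) * ‖cf χ‖ := by
    have h1 := congrArg norm hR
    rw [norm_mul, Complex.norm_real, Real.norm_eq_abs] at h1
    have h2 : ((n.totient : ℂ)) = (((n.totient : ℝ) : ℝ) : ℂ) := by push_cast; rfl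
    rw [h2, Complex.norm_real, Real.norm_of_nonneg hφ.le] at h1
    exact h1.symm
  obtain ⟨s, hs, hsR⟩ : ∃ s : ℝ, (s = 1 ∨ s = -1) ∧
      s * ∑ x ∈ U, v x = |∑ x ∈ U, v x| := by
    rcases le_total 0 (∑ x ∈ U, v x) with h | h
    · exact ⟨1, Or.inl rfl, by rw [abs_of_nonneg h, one_mul]⟩
    · exact ⟨-1, Or.inr rfl, by rw [abs_of_nonpos h]; ring⟩
  refine ⟨χ, s, hχ2, hχ1, by rw [← hW]; exact hχW, hs, ?_⟩
  have hset : {x : ZMod n | IsUnit x ∧ (F x : ℂ) * χ x ≠ s} =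
      ((U.filter fun x => v x ≠ s : Finset (ZMod n)) : Set (ZMod n)) := by
    ext x
    rw [Set.mem_setOf_eq, Finset.mem_coe, mem_filter, hU, mem_filter]
    constructor
    · rintro ⟨h1, h2⟩
      refine ⟨⟨mem_univ _, h1⟩, fun h3 => h2 ?_⟩
      rw [hv2 x h1, h3]
    · rintro ⟨⟨-, h1⟩, h2⟩
      refine ⟨h1, fun h3 => h2 ?_⟩
      rw [hv2 x h1] at h3
      exact_mod_cast h3
  rw [hset, Set.ncard_coe_finset]
  have hcount : (2 : ℝ) * #(U.filter fun x => v x ≠ s) =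
      (n.totient : ℝ) - |∑ x ∈ U, v x| := by
    rw [← hsR, mul_sum]
    have h1 : (n.totient : ℝ) = ∑ x ∈ U, (1 : ℝ) := by
      rw [sum_const, hUc, nsmul_eq_mul, mul_one]
    rw [h1, ← sum_sub_distrib]
    have h2 : ∀ x ∈ U, (1 : ℝ) - s * v x = if v x ≠ s then 2 else 0 := by
      intro x hx
      have hx0 : IsUnit x := (mem_filter.1 hx).2
      rcases hs with h | h <;> rcases hv1 x hx0 with h' | h' <;> rw [h, h'] <;> norm_num
    rw [sum_congr rfl h2, ← sum_filter, sum_const, nsmul_eq_mul, mul_comm]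
  rw [hRn] at hcount
  have h9 : (2 : ℝ) * #(U.filter fun x => v x ≠ s) ≤ (n.totient : ℝ) * (A / θ) := by
    rw [hcount]
    have h10 : (n.totient : ℝ) * (1 - A / θ) ≤ (n.totient : ℝ) * ‖cf χ‖ :=
      mul_le_mul_of_nonneg_left hcf2 hφ.le
    linarith
  have h11 : 0 ≤ Δ / θ * n := by positivity
  have h12 : (n.totient : ℝ) * (A / θ) = 4 * (Δ / θ * n) := by
    rw [hA]
    field_simp
  have h13 : 4 * Δ / θ * n = 4 * (Δ / θ * n) := by ring
  rw [h12] at h9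
  rw [h13]
  linarith

end Pool.Agent.Helper26.PG
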