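import Pool.Agent.Helper26.PG.Uniq
import Pool.Agent.Helper26.PG.Gauss
import Pool.Agent.Helper26.PG.Tot
import Pool.Agent.Helper26.PE.Primes
import Pool.Agent.Helper87.PN.Pretend
import Pool.Agent.Helper87.PN.Fin2

/-!
# PG-Fin2: the choice of the parameters, second part

PROOF (new, with `Pool.Agent.Helper87.PN.pretend`, no sums over pairs).  `Y = S ^ (2 k0)`, `x = S ^ (2 k0 + 3) ≤ n`,
`√n ≤ (S + 1) ^ (2 k0 + 2) ≤ 2 S ^ (2 k0 + 2)`.  For `ψ ≠ 1`: `pretend` with `A = 2 √n τ(n) (1 + log n)` (`pv`), `smooth_count` and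
`τ(n) ≤ C n ^ a` (`small_fun`) with small exponents: `#(Sm n x) A ≤ x / 4`, so `2 ∑ q ≤ x, |ψ q - 1| / q ≥ 3 / 4`; the primes in `(Y, x]`
contribute at most `2 C (1 + log (S ^ 3)) / log Y ≤ 4 C / k0 ≤ 1 / 8` to the sum (`mertens_block`), for `k0 ≥ k1`.  So
`∑ q ∈ PY n Y, |ψ q - 1| / q ≥ 1 / 4 > η := 1 / 8` (`PY n Y` is the filter in `pretend`, by `rfl`).
`legendre_close` with `θ = S ^ (-1/4)`, `Δ = S ^ (-1/2)`: `4 n / φ(n) S ^ (-1/4) < 1` (`tot_log`), `2 S ^ (-1/8) √(1 + log n) ≤ η`; `h1`: there is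
`ψ ≠ 1` (`φ(n) > 1`), `|ψ q - 1| ≤ 2`, so `η < ∑ 2 / q` and `θ < 2 η`.
-/

set_option autoImplicit false

namespace Pool.Agent.Helper26.PG

open Finset
open Pool.Agent.Helper26.PE (la la_mul la_prime la_one la_sq la_eq la_abs PS Tup mem_Tup card_Tup pr sm)

theorem fin_two : ∃ k1 : ℕ, ∀ k0 : ℕ, k1 ≤ k0 → ∃ S0 : ℕ, ∀ S : ℕ, S0 ≤ S →
    ∀ (n : ℕ) [NeZero n], S ^ (4 * k0 + 4) ≤ n → n < (S + 1) ^ (4 * k0 + 4) →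
    ∑ q ∈ PY n (S ^ (2 * k0)), dl n q / q ≤ (S : ℝ) ^ (-(1 / 2) : ℝ) →
    ∃ (χ : DirichletCharacter ℂ n) (s : ℝ), χ ^ 2 = 1 ∧ χ ≠ 1 ∧
      ∑ q ∈ PY n (S ^ (2 * k0)), ‖χ (q : ZMod n) + 1‖ ^ 2 / q ≤
        (S : ℝ) ^ (-(1 / 4) : ℝ) ∧ (s = 1 ∨ s = -1) ∧
      (Set.ncard {x : ZMod n | IsUnit x ∧ (F x : ℂ) * χ x ≠ s} : ℝ) ≤
        4 * (S : ℝ) ^ (-(1 / 4) : ℝ) * n := by
  exact Pool.Agent.Helper87.PN.fin_two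

end Pool.Agent.Helper26.PG
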