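import Pool.Agent.Helper26.PG.Gauss
import Pool.Agent.Helper85.BV.LUpper

/-!
# PG-Hyper: `L(1, χ)` from the sums of `χ * 1`

PROOF.  As PE-Hyper with `p` replaced by `n`.
-/

set_option autoImplicit false

namespace Pool.Agent.Helper26.PG

open Finset
open Pool.Agent.Helper26.PE (la la_mul la_prime la_one la_sq la_eq la_abs PS Tup mem_Tup card_Tup pr sm)

variable {n : ℕ} [hn0 : NeZero n]

namespace Hyper

open MeasureTheory Pool.Agent.Helper85.BV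

theorem chi_zero {χ : DirichletCharacter ℂ n} (hχ : χ ≠ 1) : χ ((0 : ℕ) : ZMod n) = 0 := by
  have h1 : n ≠ 1 := by
    rintro rfl
    exact hχ (DirichletCharacter.level_one χ)
  have : Fact (1 < n) := ⟨by have := hn0.out; omega⟩
  rw [Nat.cast_zero]
  exact MulChar.map_nonunit χ not_isUnit_zero

theorem cpow_two (t : ℝ) : (t : ℂ) ^ (-2 : ℂ) = (((t ^ 2)⁻¹ : ℝ) : ℂ) := by
  rw [Complex.cpow_neg, Complex.cpow_ofNat]
  push_cast
  rfl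

/-- `L(1, χ)` as an integral -/
theorem L_int {χ : DirichletCharacter ℂ n} (hχ : χ ≠ 1) :
    DirichletCharacter.LFunction χ 1 =
      ∫ t in Set.Ioi (1 : ℝ), Helper85.BV.F χ t * (((t ^ 2)⁻¹ : ℝ) : ℂ) := by
  rw [LFunction_eq χ hχ (s := 1) (by simp), mellin_eq, one_mul]
  simp_rw [← cpow_two]
  norm_num

theorem inv_sq_eq {t : ℝ} (ht : 0 < t) : (t ^ 2)⁻¹ = t ^ (-2 : ℝ) := by
  rw [Real.rpow_neg ht.le, Real.rpow_two]

theorem int_sq {c : ℝ} (hc : 0 < c) : IntegrableOn (fun t : ℝ => (t ^ 2)⁻¹) (Set.Ioi c) := by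
  refine (integrableOn_Ioi_rpow_of_lt (a := -2) (by norm_num) hc).congr_fun ?_ measurableSet_Ioi
  intro t ht
  exact (inv_sq_eq (hc.trans ht)).symm

theorem integral_sq {c : ℝ} (hc : 0 < c) : ∫ t in Set.Ioi c, (t ^ 2)⁻¹ = c⁻¹ := by
  have h1 : ∫ t in Set.Ioi c, (t ^ 2)⁻¹ = ∫ t in Set.Ioi c, t ^ (-2 : ℝ) :=
    setIntegral_congr_fun measurableSet_Ioi fun t ht => inv_sq_eq (hc.trans ht)
  rw [h1, integral_Ioi_rpow_of_lt (by norm_num) hc]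
  rw [show (-2 : ℝ) + 1 = -1 by norm_num, Real.rpow_neg_one]
  ring

theorem int_F {χ : DirichletCharacter ℂ n} (hχ : χ ≠ 1) {c : ℝ} (hc : 0 < c) :
    IntegrableOn (fun t : ℝ => Helper85.BV.F χ t * (((t ^ 2)⁻¹ : ℝ) : ℂ)) (Set.Ioi c) := by
  have h1 : IntegrableOn (fun t : ℝ => (((t ^ 2)⁻¹ : ℝ) : ℂ)) (Set.Ioi c) := (int_sq hc).ofReal
  refine (h1.norm.const_mul (n : ℝ)).mono' ?_ ?_
  · exact (measurable_F χ).aestronglyMeasurable.mul h1.aestronglyMeasurable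
  · refine Filter.Eventually.of_forall fun t => ?_
    rw [norm_mul]
    exact mul_le_mul_of_nonneg_right (norm_F_le χ hχ t) (norm_nonneg _)

theorem sum_F {χ : DirichletCharacter ℂ n} (hχ : χ ≠ 1) (m : ℕ) :
    ∑ k ∈ Icc 0 m, χ (k : ZMod n) = cs χ m := by
  unfold cs
  rw [Icc_eq_cons_Ioc (Nat.zero_le _), sum_cons, chi_zero hχ, zero_add, ← Icc_add_one_left_eq_Ioc,
    zero_add]

/-- Abel summation -/
theorem part {χ : DirichletCharacter ℂ n} (hχ : χ ≠ 1) (D : ℕ) :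
    ∑ d ∈ Icc 0 D, (((d : ℝ)⁻¹ : ℝ) : ℂ) * χ (d : ZMod n) =
      (((D : ℝ)⁻¹ : ℝ) : ℂ) * cs χ D +
        ∫ t in Set.Ioc (1 : ℝ) D, Helper85.BV.F χ t * (((t ^ 2)⁻¹ : ℝ) : ℂ) := by
  have h1 : ∀ t : ℝ, 0 < t → HasDerivAt (fun t : ℝ => ((t⁻¹ : ℝ) : ℂ)) ((-(t ^ 2)⁻¹ : ℝ) : ℂ) t := by
    intro t ht
    exact (hasDerivAt_inv ht.ne').ofReal_comp
  have h2 : ∀ t ∈ Set.Icc (1 : ℝ) D, deriv (fun t : ℝ => ((t⁻¹ : ℝ) : ℂ)) t =
      ((-(t ^ 2)⁻¹ : ℝ) : ℂ) := fun t ht => (h1 t (by linarith [ht.1])).deriv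
  have h3 := sum_mul_eq_sub_integral_mul₀' (fun k : ℕ => χ (k : ZMod n)) (chi_zero hχ) D
    (f := fun t : ℝ => ((t⁻¹ : ℝ) : ℂ))
    (fun t ht => (h1 t (by linarith [ht.1])).differentiableAt) ?_
  · rw [h3, sum_F hχ, sub_eq_add_neg, ← integral_neg]
    congr 1
    refine setIntegral_congr_fun measurableSet_Ioc fun t ht => ?_
    rw [h2 t ⟨ht.1.le, ht.2⟩, sum_F hχ]
    unfold Helper85.BV.F
    push_cast
    ring
  · refine IntegrableOn.congr_fun (f := fun t : ℝ => ((-(t ^ 2)⁻¹ : ℝ) : ℂ)) ?_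
      (fun t ht => (h2 t ht).symm) measurableSet_Icc
    refine ContinuousOn.integrableOn_Icc ?_
    refine Complex.continuous_ofReal.comp_continuousOn ?_
    refine (ContinuousOn.inv₀ (by fun_prop) fun t ht => ?_).neg
    have : 0 < t := by linarith [ht.1]
    positivity

theorem tail {χ : DirichletCharacter ℂ n} (hχ : χ ≠ 1) {A : ℝ}
    (hA : ∀ a b : ℕ, ‖∑ m ∈ Ioc a b, χ (m : ZMod n)‖ ≤ A) {D : ℕ} (hD : 1 ≤ D) :
    ‖DirichletCharacter.LFunction χ 1 -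
      ∑ d ∈ Icc 0 D, (((d : ℝ)⁻¹ : ℝ) : ℂ) * χ (d : ZMod n)‖ ≤ A * (D : ℝ)⁻¹ := by
  have hD1 : (1 : ℝ) ≤ D := by exact_mod_cast hD
  have hD0 : (0 : ℝ) < D := by linarith
  have h1 : DirichletCharacter.LFunction χ 1 =
      (∫ t in Set.Ioc (1 : ℝ) D, Helper85.BV.F χ t * (((t ^ 2)⁻¹ : ℝ) : ℂ)) +
      ∫ t in Set.Ioi (D : ℝ), Helper85.BV.F χ t * (((t ^ 2)⁻¹ : ℝ) : ℂ) := by
    rw [L_int hχ, ← Set.Ioc_union_Ioi_eq_Ioi hD1,
      setIntegral_union (Set.Ioc_disjoint_Ioi le_rfl) measurableSet_Ioi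
        ((int_F hχ one_pos).mono_set Set.Ioc_subset_Ioi_self) (int_F hχ hD0)]
  have h2 : ∫ t in Set.Ioi (D : ℝ), cs χ D * (((t ^ 2)⁻¹ : ℝ) : ℂ) =
      (((D : ℝ)⁻¹ : ℝ) : ℂ) * cs χ D := by
    rw [integral_const_mul, integral_complex_ofReal, integral_sq hD0, mul_comm]
  have h3 : IntegrableOn (fun t : ℝ => cs χ D * (((t ^ 2)⁻¹ : ℝ) : ℂ)) (Set.Ioi (D : ℝ)) :=
    ((int_sq hD0).ofReal).const_mul _
  have h4 : DirichletCharacter.LFunction χ 1 -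
      ∑ d ∈ Icc 0 D, (((d : ℝ)⁻¹ : ℝ) : ℂ) * χ (d : ZMod n) =
      ∫ t in Set.Ioi (D : ℝ), (Helper85.BV.F χ t * (((t ^ 2)⁻¹ : ℝ) : ℂ) -
        cs χ D * (((t ^ 2)⁻¹ : ℝ) : ℂ)) := by
    rw [integral_sub (int_F hχ hD0) h3, h1, part hχ, h2]
    ring
  rw [h4]
  have h5 : A * (D : ℝ)⁻¹ = ∫ t in Set.Ioi (D : ℝ), A * (t ^ 2)⁻¹ := by
    rw [integral_const_mul, integral_sq hD0]
  rw [h5]
  refine norm_integral_le_of_norm_le ((int_sq hD0).const_mul A) ?_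
  refine (ae_restrict_mem measurableSet_Ioi).mono fun t ht => ?_
  rw [← sub_mul, norm_mul, Complex.norm_real, Real.norm_of_nonneg (by positivity)]
  refine mul_le_mul_of_nonneg_right ?_ (by positivity)
  have h6 : D ≤ ⌊t⌋₊ := Nat.le_floor (le_of_lt ht)
  have h7 : Helper85.BV.F χ t - cs χ D = ∑ m ∈ Ioc D ⌊t⌋₊, χ (m : ZMod n) := by
    unfold Helper85.BV.F
    rw [← sum_F hχ, ← sum_F hχ, sub_eq_iff_eq_add, add_comm]
    have h8 : Icc 0 ⌊t⌋₊ = Icc 0 D ∪ Ioc D ⌊t⌋₊ := by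
      ext k
      simp only [mem_Icc, mem_union, mem_Ioc]
      omega
    rw [h8, sum_union]
    rw [disjoint_left]
    intro k hk hk'
    rw [mem_Icc] at hk
    rw [mem_Ioc] at hk'
    omega
  rw [h7]
  exact hA _ _

theorem count (x d : ℕ) : #{m ∈ Icc 1 x | d ∣ m} = x / d := by
  have h := Nat.Ioc_filter_dvd_card_eq_div x d
  rw [← h]
  congr 1

theorem swap (c : ℕ → ℂ) (x : ℕ) :
    ∑ m ∈ Icc 1 x, ∑ d ∈ m.divisors, c d = ∑ d ∈ Icc 1 x, c d * (x / d : ℕ) := by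
  have h1 : ∀ m ∈ Icc 1 x, ∑ d ∈ m.divisors, c d = ∑ d ∈ Icc 1 x, if d ∣ m then c d else 0 := by
    intro m hn
    rw [mem_Icc] at hn
    rw [← sum_filter]
    refine sum_congr ?_ fun _ _ => rfl
    ext d
    rw [Nat.mem_divisors, mem_filter, mem_Icc]
    constructor
    · rintro ⟨h2, h3⟩
      have := Nat.le_of_dvd (by omega) h2
      have := Nat.pos_of_dvd_of_pos h2 (by omega)
      exact ⟨⟨by omega, by omega⟩, h2⟩
    · rintro ⟨_, h2⟩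
      exact ⟨h2, by omega⟩
  rw [sum_congr rfl h1, sum_comm]
  refine sum_congr rfl fun d hd => ?_
  rw [mem_Icc] at hd
  rw [← sum_filter, sum_const, count x d, nsmul_eq_mul, mul_comm]

/-- the sum over `D < d ≤ x` -/
theorem far (c : ℕ → ℂ) {A : ℝ} (hA : ∀ a b : ℕ, ‖∑ m ∈ Ioc a b, c m‖ ≤ A) {x D : ℕ}
    (hD : 1 ≤ D) :
    ‖∑ d ∈ Ioc D x, c d * (x / d : ℕ)‖ ≤ x * A / D := by
  have hA0 : 0 ≤ A := (norm_nonneg _).trans (hA 0 0)
  have h1 : ∀ d ∈ Ioc D x, c d * (x / d : ℕ) =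
      ∑ l ∈ Icc 1 (x / D), if d ≤ x / l then c d else 0 := by
    intro d hd
    rw [mem_Ioc] at hd
    have h2 : {l ∈ Icc 1 (x / D) | d ≤ x / l} = Icc 1 (x / d) := by
      ext l
      rw [mem_filter, mem_Icc, mem_Icc]
      constructor
      · rintro ⟨h3, h4⟩
        refine ⟨h3.1, ?_⟩
        rw [Nat.le_div_iff_mul_le (by omega)] at h4 ⊢
        rwa [mul_comm]
      · rintro ⟨h3, h4⟩
        refine ⟨⟨h3, h4.trans (Nat.div_le_div_left hd.1.le (by omega))⟩, ?_⟩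
        rw [Nat.le_div_iff_mul_le (by omega)] at h4 ⊢
        rwa [mul_comm]
    rw [← sum_filter, h2, sum_const, Nat.card_Icc, Nat.add_sub_cancel, nsmul_eq_mul, mul_comm]
  rw [sum_congr rfl h1, sum_comm]
  refine (norm_sum_le _ _).trans ?_
  have h3 : ∀ l ∈ Icc 1 (x / D), ‖∑ d ∈ Ioc D x, if d ≤ x / l then c d else 0‖ ≤ A := by
    intro l hm
    rw [mem_Icc] at hm
    rw [← sum_filter]
    have h4 : {d ∈ Ioc D x | d ≤ x / l} = Ioc D (x / l) := by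
      ext d
      rw [mem_filter, mem_Ioc, mem_Ioc]
      have := Nat.div_le_self x l
      omega
    rw [h4]
    exact hA _ _
  refine (sum_le_sum h3).trans ?_
  rw [sum_const, Nat.card_Icc, Nat.add_sub_cancel, nsmul_eq_mul]
  have hD0 : (0 : ℝ) < D := by exact_mod_cast hD
  rw [mul_div_right_comm]
  exact mul_le_mul_of_nonneg_right Nat.cast_div_le hA0

/-- the sum over `d ≤ D` -/
theorem near (c : ℕ → ℂ) (hc : ∀ m, ‖c m‖ ≤ 1) (x D : ℕ) :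
    ‖∑ d ∈ Icc 1 D, c d * (x / d : ℕ) - x * ∑ d ∈ Icc 1 D, (((d : ℝ)⁻¹ : ℝ) : ℂ) * c d‖ ≤ D := by
  rw [mul_sum, ← sum_sub_distrib]
  refine (norm_sum_le _ _).trans ?_
  have h1 : ∀ d ∈ Icc 1 D,
      ‖c d * (x / d : ℕ) - x * ((((d : ℝ)⁻¹ : ℝ) : ℂ) * c d)‖ ≤ 1 := by
    intro d hd
    rw [mem_Icc] at hd
    have hd0 : (0 : ℝ) < d := by exact_mod_cast hd.1
    have h2 : c d * (x / d : ℕ) - x * ((((d : ℝ)⁻¹ : ℝ) : ℂ) * c d) =
        c d * ((((x / d : ℕ) : ℝ) - (x : ℝ) / d : ℝ) : ℂ) := by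
      push_cast
      ring
    rw [h2, norm_mul, Complex.norm_real]
    have h3 : ‖(((x / d : ℕ) : ℝ) - (x : ℝ) / d)‖ ≤ 1 := by
      rw [Real.norm_eq_abs, abs_le]
      have h4 : ((x / d : ℕ) : ℝ) ≤ (x : ℝ) / d := Nat.cast_div_le
      have h5 : (x : ℝ) / d < (x / d : ℕ) + 1 := by
        rw [div_lt_iff₀ hd0]
        have h6 := Nat.lt_mul_div_succ x (show 0 < d by omega)
        rw [mul_comm] at h6
        exact_mod_cast h6
      constructor <;> linarith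
    calc ‖c d‖ * _ ≤ 1 * 1 := mul_le_mul (hc d) h3 (norm_nonneg _) zero_le_one
      _ = 1 := one_mul 1
  refine (sum_le_sum h1).trans ?_
  simp

end Hyper

open Hyper in
theorem hyper {χ : DirichletCharacter ℂ n} (hχ : χ ≠ 1) {A : ℝ}
    (hA : ∀ a b : ℕ, ‖∑ m ∈ Ioc a b, χ (m : ZMod n)‖ ≤ A) {x D : ℕ} (hD : 1 ≤ D) (hDx : D ≤ x) :
    ‖(∑ m ∈ Icc 1 x, ∑ d ∈ m.divisors, χ (d : ZMod n)) -
        x * DirichletCharacter.LFunction χ 1‖ ≤ D + 4 * x * A / D := by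
  have hA0 : 0 ≤ A := (norm_nonneg _).trans (hA 0 0)
  have hD0 : (0 : ℝ) < D := by exact_mod_cast hD
  have h1 : Icc 1 x = Icc 1 D ∪ Ioc D x := by
    ext k
    simp only [mem_Icc, mem_union, mem_Ioc]
    omega
  have h2 : Disjoint (Icc 1 D) (Ioc D x) := by
    rw [disjoint_left]
    intro k hk hk'
    rw [mem_Icc] at hk
    rw [mem_Ioc] at hk'
    omega
  rw [swap (fun d => χ (d : ZMod n)), h1, sum_union h2]
  have h3 := near (fun d => χ (d : ZMod n)) (fun m => DirichletCharacter.norm_le_one χ _) x D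
  have h4 := far (fun d => χ (d : ZMod n)) hA (x := x) hD
  have h5 := tail hχ hA hD
  have h6 : ∑ d ∈ Icc 0 D, (((d : ℝ)⁻¹ : ℝ) : ℂ) * χ (d : ZMod n) =
      ∑ d ∈ Icc 1 D, (((d : ℝ)⁻¹ : ℝ) : ℂ) * χ (d : ZMod n) := by
    rw [Icc_eq_cons_Ioc (Nat.zero_le _), sum_cons, chi_zero hχ, mul_zero, zero_add,
      ← Icc_add_one_left_eq_Ioc, zero_add]
  rw [h6] at h5
  set S : ℂ := ∑ d ∈ Icc 1 D, (((d : ℝ)⁻¹ : ℝ) : ℂ) * χ (d : ZMod n) with hS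
  set L : ℂ := DirichletCharacter.LFunction χ 1
  have h7 : ‖(x : ℂ) * (L - S)‖ ≤ x * A / D := by
    rw [norm_mul, Complex.norm_natCast, mul_div_assoc]
    exact mul_le_mul_of_nonneg_left h5 (Nat.cast_nonneg _)
  have h8 : (∑ d ∈ Icc 1 D, χ (d : ZMod n) * (x / d : ℕ) + ∑ d ∈ Ioc D x, χ (d : ZMod n) * (x / d : ℕ)) -
      x * L = (∑ d ∈ Icc 1 D, χ (d : ZMod n) * (x / d : ℕ) - x * S) +
        ∑ d ∈ Ioc D x, χ (d : ZMod n) * (x / d : ℕ) - x * (L - S) := by ring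
  rw [h8]
  refine (norm_sub_le _ _).trans ?_
  refine (add_le_add ((norm_add_le _ _).trans (add_le_add h3 h4)) h7).trans ?_
  have h9 : 0 ≤ (x : ℝ) * A / D := by positivity
  have h10 : 4 * (x : ℝ) * A / D = 4 * (x * A / D) := by ring
  rw [h10]
  linarith

end Pool.Agent.Helper26.PG
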