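import Pool.Agent.Helper26.PG.Harm
import Pool.Agent.Helper26.PE.Recip

/-!
# PG-Recip: sums of `χ * 1`

PROOF.  As PE-Recip (2).  `χ d = 0` unless `(d, n) = 1`; for `(d, n) = 1`, `d ∉ E`: `χ d = s la d`; for `d ∈ E`: `|χ d - s la d| ≤ 2`.
Write `m = m1 m2` with `m1.primeFactors ⊆ n.primeFactors` and `m2` coprime to `n`: `∑ d ∣ m, (d, n) = 1, la d = ∑ d ∣ m2, la d` is
`1` if `m2` is a square and `0` otherwise.  The number of `m ≤ x` with `m2 = b ^ 2` is at most `∑ m1 ≤ x, √(x / m1) ≤ √x 4 ^ ω(n)`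
(`half_sum`).
-/

set_option autoImplicit false

namespace Pool.Agent.Helper26.PG

open Finset
open Pool.Agent.Helper26.PE (la la_mul la_prime la_one la_sq la_eq la_abs PS Tup mem_Tup card_Tup pr sm)

variable {n : ℕ} [hn0 : NeZero n]

/-- the part of `m` coprime to `n` -/
theorem Recip_split (n m : ℕ) (hn : 0 < n) (hm : 0 < m) :
    ∃ a b : ℕ, m = a * b ∧ 0 < b ∧ a.primeFactors ⊆ n.primeFactors ∧
      m.divisors.filter (fun d => Nat.Coprime d n) = b.divisors := by
  classical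
  have hne : (m.divisors.filter (fun d => Nat.Coprime d n)).Nonempty :=
    ⟨1, mem_filter.2 ⟨Nat.mem_divisors.2 ⟨one_dvd _, hm.ne'⟩, Nat.coprime_one_left n⟩⟩
  obtain ⟨b, hb, hmax⟩ := exists_max_image (m.divisors.filter (fun d => Nat.Coprime d n)) id hne
  rw [mem_filter, Nat.mem_divisors] at hb
  obtain ⟨⟨hbm, _⟩, hbn⟩ := hb
  obtain ⟨a, ha⟩ := hbm
  have hb0 : 0 < b := by
    rcases Nat.eq_zero_or_pos b with h | h
    · rw [h, zero_mul] at ha
      omega
    · exact h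
  have ha0 : 0 < a := by
    rcases Nat.eq_zero_or_pos a with h | h
    · rw [h, mul_zero] at ha
      omega
    · exact h
  refine ⟨a, b, by rw [ha, mul_comm], hb0, ?_, ?_⟩
  · intro q hq
    have hqp := Nat.prime_of_mem_primeFactors hq
    have hqa := Nat.dvd_of_mem_primeFactors hq
    rw [Nat.mem_primeFactors]
    refine ⟨hqp, ?_, hn.ne'⟩
    by_contra hqn
    have h1 : b * q ∈ m.divisors.filter (fun d => Nat.Coprime d n) := by
      rw [mem_filter, Nat.mem_divisors]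
      refine ⟨⟨?_, hm.ne'⟩, ?_⟩
      · rw [ha]
        exact Nat.mul_dvd_mul_left b hqa
      · exact Nat.Coprime.mul_left hbn ((Nat.Prime.coprime_iff_not_dvd hqp).2 hqn)
    have h2 := hmax _ h1
    simp only [id] at h2
    have h3 := hqp.two_le
    nlinarith
  · ext d
    rw [mem_filter, Nat.mem_divisors, Nat.mem_divisors]
    constructor
    · rintro ⟨⟨hd, _⟩, hdn⟩
      refine ⟨?_, hb0.ne'⟩
      have h1 : Nat.lcm d b ∈ m.divisors.filter (fun d => Nat.Coprime d n) := by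
        rw [mem_filter, Nat.mem_divisors]
        refine ⟨⟨Nat.lcm_dvd hd ⟨a, ha⟩, hm.ne'⟩, ?_⟩
        exact Nat.Coprime.coprime_dvd_left (Nat.lcm_dvd_mul d b) (Nat.Coprime.mul_left hdn hbn)
      have h2 := hmax _ h1
      simp only [id] at h2
      have h3 : b ∣ Nat.lcm d b := Nat.dvd_lcm_right d b
      have h4 : 0 < Nat.lcm d b := by
        rw [mem_filter] at h1
        exact Nat.pos_of_mem_divisors h1.1
      have h5 := Nat.le_of_dvd h4 h3
      have h6 : Nat.lcm d b = b := le_antisymm h2 h5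
      rw [← h6]
      exact Nat.dvd_lcm_left d b
    · rintro ⟨hd, _⟩
      refine ⟨⟨?_, hm.ne'⟩, Nat.Coprime.coprime_dvd_left hd hbn⟩
      rw [ha]
      exact Dvd.dvd.mul_right hd a

/-- the number of `m ≤ x` whose part coprime to `n` is a square -/
theorem Recip_count (n x : ℕ) (hn : 0 < n) {S : Finset ℕ}
    (hS : ∀ m ∈ S, (1 ≤ m ∧ m ≤ x) ∧ ∃ a b : ℕ, m = a * (b * b) ∧ a.primeFactors ⊆ n.primeFactors) :
    (#S : ℝ) ≤ (4 : ℝ) ^ #n.primeFactors * √(x : ℝ) := by
  classical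
  set D := (Icc 1 x).filter (fun d => d.primeFactors ⊆ n.primeFactors) with hD
  have h1 : S ⊆ D.biUnion fun d => (Icc 1 (Nat.sqrt (x / d))).image fun b => d * (b * b) := by
    intro m hm
    obtain ⟨⟨hm1, hmx⟩, a, b, hab, ha⟩ := hS m hm
    have ha0 : 0 < a := by
      rcases Nat.eq_zero_or_pos a with h | h
      · rw [h, zero_mul] at hab
        omega
      · exact h
    have hb0 : 0 < b := by
      rcases Nat.eq_zero_or_pos b with h | h
      · rw [h, zero_mul, mul_zero] at hab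
        omega
      · exact h
    have hax : a ≤ x := by
      have h2 : a * 1 ≤ a * (b * b) := Nat.mul_le_mul_left a (Nat.mul_pos hb0 hb0)
      omega
    rw [mem_biUnion]
    refine ⟨a, ?_, ?_⟩
    · rw [hD, mem_filter, mem_Icc]
      exact ⟨⟨ha0, hax⟩, ha⟩
    · rw [mem_image]
      refine ⟨b, mem_Icc.2 ⟨hb0, ?_⟩, hab.symm⟩
      rw [Nat.le_sqrt, Nat.le_div_iff_mul_le ha0]
      rw [mul_comm]
      omega
  have h2 : #S ≤ ∑ d ∈ D, Nat.sqrt (x / d) := by
    refine (card_le_card h1).trans (card_biUnion_le.trans (sum_le_sum fun d _ => ?_))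
    refine card_image_le.trans ?_
    rw [Nat.card_Icc]
    omega
  calc (#S : ℝ) ≤ ((∑ d ∈ D, Nat.sqrt (x / d) : ℕ) : ℝ) := by exact_mod_cast h2
    _ = ∑ d ∈ D, ((Nat.sqrt (x / d) : ℕ) : ℝ) := by push_cast; rfl
    _ ≤ ∑ d ∈ D, √(x : ℝ) * (1 / √(d : ℝ)) := by
        refine sum_le_sum fun d hd => ?_
        calc ((Nat.sqrt (x / d) : ℕ) : ℝ) ≤ √((x / d : ℕ) : ℝ) := Real.nat_sqrt_le_real_sqrt
          _ ≤ √((x : ℝ) / d) := Real.sqrt_le_sqrt Nat.cast_div_le
          _ = √(x : ℝ) * (1 / √(d : ℝ)) := by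
              rw [Real.sqrt_div (Nat.cast_nonneg x)]
              ring
    _ = √(x : ℝ) * ∑ d ∈ D, 1 / √(d : ℝ) := by rw [mul_sum]
    _ ≤ √(x : ℝ) * (4 : ℝ) ^ #n.primeFactors :=
        mul_le_mul_of_nonneg_left (half_sum n x hn) (Real.sqrt_nonneg _)
    _ = (4 : ℝ) ^ #n.primeFactors * √(x : ℝ) := mul_comm _ _

theorem ones_le {χ : DirichletCharacter ℂ n} {s : ℝ} (hs : s = 1 ∨ s = -1) {E : Finset ℕ}
    (hE : ∀ v : ℕ, v ∈ E ↔ 0 < v ∧ v < n ∧ Nat.Coprime v n ∧ (la v : ℂ) * χ (v : ZMod n) ≠ s)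
    {x : ℕ} (hx : x < n) :
    ‖∑ m ∈ Icc 1 x, ∑ d ∈ m.divisors, χ (d : ZMod n)‖ ≤
      (4 : ℝ) ^ #n.primeFactors * √(x : ℝ) +
        2 * x * ∑ d ∈ E.filter (fun v => v ≤ x), 1 / (d : ℝ) := by
  classical
  have hn : 0 < n := Nat.pos_of_ne_zero hn0.out
  have hs1 : |s| = 1 := by rcases hs with rfl | rfl <;> simp
  have hdiff : ∀ d : ℕ, 0 < d → d < n → Nat.Coprime d n →
      ‖χ (d : ZMod n) - ((s * la d : ℝ) : ℂ)‖ ≤ if d ∈ E then (2 : ℝ) else 0 := by
    intro d hd0 hdp hdn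
    split_ifs with h
    · refine (norm_sub_le _ _).trans ?_
      have h1 : ‖χ (d : ZMod n)‖ ≤ 1 := χ.norm_le_one _
      have h2 : ‖((s * la d : ℝ) : ℂ)‖ = 1 := by
        rw [Complex.norm_real, Real.norm_eq_abs, abs_mul, hs1, la_abs, one_mul]
      linarith
    · rw [hE] at h
      have h1 : (la d : ℂ) * χ (d : ZMod n) = s := by
        by_contra h2
        exact h ⟨hd0, hdp, hdn, h2⟩
      have h2 : (la d : ℂ) * la d = 1 := by exact_mod_cast la_sq d
      have h3 : χ (d : ZMod n) = ((s * la d : ℝ) : ℂ) := by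
        push_cast
        rw [← h1]
        linear_combination (-χ (d : ZMod n)) * h2
      rw [h3, sub_self, norm_zero]
  -- the exceptional `m`: part coprime to `n` is a square
  set Q : ℕ → Prop := fun m => ∃ a b : ℕ, m = a * (b * b) ∧ a.primeFactors ⊆ n.primeFactors with hQ
  have hn1 : ∀ m ∈ Icc 1 x, ‖∑ d ∈ m.divisors, χ (d : ZMod n)‖ ≤
      (if Q m then (1 : ℝ) else 0) +
        ∑ d ∈ E.filter (fun v => v ≤ x), if d ∣ m then (2 : ℝ) else 0 := by
    intro m hm
    rw [mem_Icc] at hm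
    have hm0 : m ≠ 0 := by omega
    obtain ⟨a, b, hab, hb0, ha, hC⟩ := Recip_split n m hn (by omega)
    have h0 : ∑ d ∈ m.divisors, χ (d : ZMod n) =
        ∑ d ∈ m.divisors.filter (fun d => Nat.Coprime d n), χ (d : ZMod n) := by
      symm
      refine sum_subset (filter_subset _ _) fun d hd hd' => ?_
      apply χ.map_nonunit
      intro hu
      apply hd'
      rw [mem_filter]
      exact ⟨hd, (ZMod.isUnit_iff_coprime d n).1 hu⟩
    have h1 : ∑ d ∈ m.divisors, χ (d : ZMod n) =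
        ((s * ∑ d ∈ b.divisors, la d : ℝ) : ℂ) +
          ∑ d ∈ m.divisors.filter (fun d => Nat.Coprime d n),
            (χ (d : ZMod n) - ((s * la d : ℝ) : ℂ)) := by
      rw [h0, sum_sub_distrib, hC]
      push_cast
      rw [mul_sum]
      ring
    have h2 : ‖((s * ∑ d ∈ b.divisors, la d : ℝ) : ℂ)‖ ≤ if Q m then (1 : ℝ) else 0 := by
      rw [Complex.norm_real, Real.norm_eq_abs, abs_mul, hs1, one_mul]
      rcases Pool.Agent.Helper26.PE.Recip_sq b hb0.ne' with h3 | ⟨h3, h4⟩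
      · rw [h3, abs_zero]
        split_ifs <;> norm_num
      · obtain ⟨c, hc⟩ := h4
        have h5 : Q m := ⟨a, c, by rw [hab, hc], ha⟩
        rw [h3, if_pos h5, abs_one]
    have h3 : ‖∑ d ∈ m.divisors.filter (fun d => Nat.Coprime d n),
          (χ (d : ZMod n) - ((s * la d : ℝ) : ℂ))‖ ≤
        ∑ d ∈ E.filter (fun v => v ≤ x), if d ∣ m then (2 : ℝ) else 0 := by
      calc ‖∑ d ∈ m.divisors.filter (fun d => Nat.Coprime d n),
            (χ (d : ZMod n) - ((s * la d : ℝ) : ℂ))‖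
          ≤ ∑ d ∈ m.divisors.filter (fun d => Nat.Coprime d n),
              ‖χ (d : ZMod n) - ((s * la d : ℝ) : ℂ)‖ := norm_sum_le _ _
        _ ≤ ∑ d ∈ m.divisors.filter (fun d => Nat.Coprime d n), if d ∈ E then (2 : ℝ) else 0 :=
            sum_le_sum fun d hd => by
              rw [mem_filter] at hd
              have h4 := Nat.pos_of_mem_divisors hd.1
              have h5 := Nat.le_of_dvd (by omega) (Nat.dvd_of_mem_divisors hd.1)
              exact hdiff d h4 (by omega) hd.2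
        _ ≤ ∑ d ∈ m.divisors, if d ∈ E then (2 : ℝ) else 0 :=
            sum_le_sum_of_subset_of_nonneg (filter_subset _ _) fun d _ _ => by
              split_ifs <;> norm_num
        _ = ∑ d ∈ E.filter (fun v => v ≤ x), if d ∣ m then (2 : ℝ) else 0 := by
            rw [← sum_filter, ← sum_filter]
            refine sum_congr ?_ fun _ _ => rfl
            ext d
            rw [mem_filter, mem_filter, mem_filter, Nat.mem_divisors]
            constructor
            · rintro ⟨⟨h4, _⟩, h5⟩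
              have h6 := Nat.le_of_dvd (by omega) h4
              exact ⟨⟨h5, by omega⟩, h4⟩
            · rintro ⟨⟨h4, _⟩, h5⟩
              exact ⟨⟨h5, hm0⟩, h4⟩
    rw [h1]
    exact (norm_add_le _ _).trans (add_le_add h2 h3)
  refine (norm_sum_le _ _).trans ((sum_le_sum hn1).trans ?_)
  rw [sum_add_distrib, sum_comm]
  refine add_le_add ?_ ?_
  · rw [← sum_filter, sum_const, nsmul_eq_mul, mul_one]
    refine Recip_count n x hn fun m hm => ?_
    rw [mem_filter, mem_Icc] at hm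
    exact ⟨hm.1, hm.2⟩
  · rw [mul_sum]
    refine sum_le_sum fun d _ => ?_
    rw [← sum_filter, sum_const, nsmul_eq_mul]
    have h1 : (Icc 1 x).filter (fun m => d ∣ m) = (Ioc 0 x).filter (fun m => d ∣ m) := by
      ext m
      rw [mem_filter, mem_filter, mem_Icc, mem_Ioc]
      constructor
      · rintro ⟨⟨h2, h3⟩, h4⟩
        exact ⟨⟨by omega, h3⟩, h4⟩
      · rintro ⟨⟨h2, h3⟩, h4⟩
        exact ⟨⟨by omega, h3⟩, h4⟩
    rw [h1, Nat.Ioc_filter_dvd_card_eq_div]
    have h2 : ((x / d : ℕ) : ℝ) ≤ (x : ℝ) / d := Nat.cast_div_le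
    calc ((x / d : ℕ) : ℝ) * 2 ≤ (x : ℝ) / d * 2 := by linarith
      _ = 2 * x * (1 / d) := by ring

end Pool.Agent.Helper26.PG
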