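import Pool.Agent.Helper26.PG.Tot
import Pool.Agent.Helper26.PE.Siegel

/-!
# PG-Siegel: Siegel's theorem for all moduli

PROOF.  `χ` modulo `n` is induced by the primitive character `χ'` modulo `f = χ.conductor`, `f ∣ n`
(`DirichletCharacter.primitiveCharacter`, `factorsThrough`, `LFunction_changeLevel`): `L(1, χ) = L(1, χ') ∏ q ∣ n, (1 - χ' q / q)`,
and the product has absolute value `≥ ∏ q ∣ n, (1 - 1 / q) = φ(n) / n ≥ 1 / (1 + log2 n) ≥ c n ^ (- ε / 2)` (`tot_log`, `small_fun`).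
The primitive case as in PE-Siegel (`χ' ^ 2 = 1`, `χ' ≠ 1`, `f ≤ n`).
-/

set_option autoImplicit false

namespace Pool.Agent.Helper26.PG

open Finset
open Pool.Agent.Helper26.PE (la la_mul la_prime la_one la_sq la_eq la_abs PS Tup mem_Tup card_Tup pr sm)

/-- the Euler factors at the primes dividing `n` -/
private theorem Siegel_prod {n f : ℕ} (hn : 0 < n) (ψ : DirichletCharacter ℂ f) :
    (n.totient : ℝ) / n ≤ ‖∏ q ∈ n.primeFactors, (1 - ψ (q : ZMod f) * (q : ℂ) ^ (-(1 : ℂ)))‖ := by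
  have hn0 : (0 : ℝ) < n := by exact_mod_cast hn
  have h1 : (n.totient : ℝ) / n = ∏ q ∈ n.primeFactors, (1 - (q : ℝ)⁻¹) := by
    have h2 : (n.totient : ℝ) = n * ∏ q ∈ n.primeFactors, (1 - (q : ℝ)⁻¹) := by
      have h3 := congrArg (fun x : ℚ => (x : ℝ)) (Nat.totient_eq_mul_prod_factors n)
      push_cast at h3
      exact h3
    rw [h2, mul_div_cancel_left₀ _ hn0.ne']
  rw [h1, norm_prod]
  refine prod_le_prod ?_ ?_
  · intro q hq
    have h2 : (1 : ℝ) ≤ q := by exact_mod_cast (Nat.prime_of_mem_primeFactors hq).one_lt.le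
    have h3 : (q : ℝ)⁻¹ ≤ 1 := inv_le_one_of_one_le₀ h2
    linarith
  · intro q hq
    have h2 : ‖ψ (q : ZMod f) * (q : ℂ) ^ (-(1 : ℂ))‖ ≤ (q : ℝ)⁻¹ := by
      rw [norm_mul, Complex.cpow_neg_one, norm_inv, Complex.norm_natCast]
      have h3 : ‖ψ (q : ZMod f)‖ ≤ 1 := ψ.norm_le_one _
      have h4 : (0 : ℝ) ≤ (q : ℝ)⁻¹ := by positivity
      nlinarith
    have h5 := norm_sub_norm_le (1 : ℂ) (ψ (q : ZMod f) * (q : ℂ) ^ (-(1 : ℂ)))
    rw [norm_one] at h5
    linarith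

theorem siegel (ε : ℝ) (hε : 0 < ε) : ∃ c : ℝ, 0 < c ∧ ∀ (n : ℕ) [NeZero n]
    (χ : DirichletCharacter ℂ n), χ ≠ 1 → χ ^ 2 = 1 →
      c * (n : ℝ) ^ (-ε) ≤ ‖DirichletCharacter.LFunction χ 1‖ := by
  obtain ⟨c, hc, h⟩ := Pool.Agent.Helper37.BV.siegelReal Pool.Agent.Helper85.BV.lBound
    Pool.Agent.Helper85.BV.lUpper Pool.Agent.Helper18.BV.estermann Pool.Agent.Helper79.BV.altProd
    Pool.Agent.Helper79.BV.altOne (ε / 2) (by linarith)
  obtain ⟨C, hC, hsm⟩ := small_fun (ε / 2) (by linarith)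
  refine ⟨c / C, by positivity, fun n hn χ h1 h2 => ?_⟩
  have hn0 : 0 < n := Nat.pos_of_ne_zero hn.ne
  have hn0' : (0 : ℝ) < n := by exact_mod_cast hn0
  have hfn : χ.conductor ∣ n := χ.conductor_dvd_level
  have hf0 : 0 < χ.conductor := Nat.pos_of_dvd_of_pos hfn hn0
  have : NeZero χ.conductor := ⟨hf0.ne'⟩
  have hcl : (DirichletCharacter.changeLevel hfn) χ.primitiveCharacter = χ :=
    DirichletCharacter.changeLevel_primitiveCharacter χ
  have hp1 : χ.primitiveCharacter ≠ 1 := by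
    intro h3
    rw [h3, map_one] at hcl
    exact h1 hcl.symm
  have hp2 : χ.primitiveCharacter ^ 2 = 1 := by
    rw [← DirichletCharacter.changeLevel_eq_one_iff hfn, map_pow, hcl, h2]
  have h3 := h χ.conductor χ.primitiveCharacter χ.primitiveCharacter_isPrimitive hp1 hp2
  have h4 := DirichletCharacter.LFunction_changeLevel hfn χ.primitiveCharacter (s := 1)
    (Or.inl hp1)
  rw [hcl] at h4
  rw [h4, norm_mul]
  have h5 := Siegel_prod hn0 χ.primitiveCharacter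
  have h6 : 1 / (C * (n : ℝ) ^ (ε / 2)) ≤ (n.totient : ℝ) / n := by
    have h7 := tot_log n hn0
    have h8 := (hsm n hn0).2.2
    have h9 : (n : ℝ) ≤ n.totient * (C * (n : ℝ) ^ (ε / 2)) :=
      h7.trans (mul_le_mul_of_nonneg_left h8 (Nat.cast_nonneg _))
    rw [div_le_div_iff₀ (by positivity) hn0', one_mul]
    exact h9
  have h7 : c * (n : ℝ) ^ (-(ε / 2)) ≤ c * (χ.conductor : ℝ) ^ (-(ε / 2)) := by
    refine mul_le_mul_of_nonneg_left ?_ hc.le
    refine Real.rpow_le_rpow_of_nonpos (by exact_mod_cast hf0) ?_ (by linarith)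
    exact_mod_cast Nat.le_of_dvd hn0 hfn
  calc c / C * (n : ℝ) ^ (-ε)
      = (c * (n : ℝ) ^ (-(ε / 2))) * (1 / (C * (n : ℝ) ^ (ε / 2))) := by
        have h8 : (n : ℝ) ^ (-ε) = (n : ℝ) ^ (-(ε / 2)) * ((n : ℝ) ^ (ε / 2))⁻¹ := by
          rw [← Real.rpow_neg hn0'.le, ← Real.rpow_add hn0']
          congr 1
          ring
        rw [h8]
        field_simp
    _ ≤ _ := mul_le_mul (h7.trans h3) (h6.trans h5) (by positivity) (norm_nonneg _)

end Pool.Agent.Helper26.PG
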