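import Pool.Agent.Helper26.PG.Fin3a
import Pool.Agent.Helper26.PG.Recip
import Pool.Agent.Helper26.PG.Hyper
import Pool.Agent.Helper26.PG.Siegel
import Pool.Agent.Helper26.PG.Tot
import Pool.Agent.Helper26.PE.Recip

/-!
# PG-Fin3: contradiction with Siegel's theorem

PROOF.  As PE-Fin3.  `E = {0 < v < n, (v, n) = 1, la v χ v ≠ s}`, `#E ≤ 4 S ^ (-1/4) n`, `fin_scale`, `x = n - 1`,
`Pool.Agent.Helper26.PE.sum_inv`, `ones_le`, `hyper` with `A = 2 √n τ(n) (1 + log n)` (`pv`) and `D = S ^ (3 k0 + 3)`: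
`|L(1, χ)| ≤ 4 ^ ω(n) / √x + 2 S ^ (-1/8) (2 + log n) + D / x + 4 A / D ≤ S ^ (-1/16)` for large `S` (`4 ^ ω(n)`, `τ(n) ≤ C n ^ a`,
`small_fun`); `siegel` with `ε = 1 / (32 (4 k0 + 5))`.
-/

set_option autoImplicit false

namespace Pool.Agent.Helper26.PG

open Finset
open Pool.Agent.Helper26.PE (la la_mul la_prime la_one la_sq la_eq la_abs PS Tup mem_Tup card_Tup pr sm)

/-- the arithmetic part -/
private theorem fin3_core {p : ℕ} [NeZero p] (hp2 : 1 < p) {χ : DirichletCharacter ℂ p} {s : ℝ}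
    {T B : ℝ} (hT0 : 0 < T) (hs : s = 1 ∨ s = -1)
    (hE : (Set.ncard {x : ZMod p | IsUnit x ∧ (F x : ℂ) * χ x ≠ s} : ℝ) ≤ B)
    (hsc : ∀ E : Finset ℕ,
      (∀ v : ℕ, v ∈ E ↔ 0 < v ∧ v < p ∧ Nat.Coprime v p ∧ (la v : ℂ) * χ (v : ZMod p) ≠ s) →
      (#E : ℝ) ≤ B → ∀ t : ℕ, 1 ≤ t → t < p →
        (#(E.filter fun v => v ≤ t) : ℝ) ≤ 1 / T ^ 2 * t) :
    ‖∑ n ∈ Icc 1 (p - 1), ∑ d ∈ n.divisors, χ (d : ZMod p)‖ ≤
      (4 : ℝ) ^ #p.primeFactors * √((p - 1 : ℕ) : ℝ) +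
        2 * ((p - 1 : ℕ) : ℝ) * (1 / T ^ 2 * (2 + Real.log ((p - 1 : ℕ) : ℝ))) := by
  classical
  obtain ⟨E, hEdef⟩ : ∃ E : Finset ℕ, E = (range p).filter (fun v => 0 < v ∧ Nat.Coprime v p ∧
    (la v : ℂ) * χ (v : ZMod p) ≠ s) := ⟨_, rfl⟩
  have hmem : ∀ v : ℕ, v ∈ E ↔ 0 < v ∧ v < p ∧ Nat.Coprime v p ∧
      (la v : ℂ) * χ (v : ZMod p) ≠ s := by
    intro v
    rw [hEdef, mem_filter, mem_range]
    tauto
  have hcard : (#E : ℝ) ≤ B := by
    refine le_trans ?_ hE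
    have hinj : Set.InjOn (fun v : ℕ => (v : ZMod p)) (E : Set ℕ) := by
      intro a ha b hb hab
      have ha' := ((hmem a).1 (Finset.mem_coe.1 ha)).2.1
      have hb' := ((hmem b).1 (Finset.mem_coe.1 hb)).2.1
      have h1 : ((a : ZMod p)).val = ((b : ZMod p)).val := by
        have : (a : ZMod p) = (b : ZMod p) := hab
        rw [this]
      rwa [ZMod.val_natCast_of_lt ha', ZMod.val_natCast_of_lt hb'] at h1
    have h1 : ((fun v : ℕ => (v : ZMod p)) '' (E : Set ℕ)).ncard = #E := by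
      rw [hinj.ncard_image, Set.ncard_coe_finset]
    have h2 : ((fun v : ℕ => (v : ZMod p)) '' (E : Set ℕ)) ⊆
        {x : ZMod p | IsUnit x ∧ (F x : ℂ) * χ x ≠ s} := by
      rintro _ ⟨v, hv, rfl⟩
      obtain ⟨h0, hlt, hcop, hne⟩ := (hmem v).1 (Finset.mem_coe.1 hv)
      refine ⟨(ZMod.isUnit_iff_coprime v p).2 hcop, ?_⟩
      show (F (v : ZMod p) : ℂ) * χ (v : ZMod p) ≠ s
      rw [F_nat hlt]
      exact hne
    have h3 := Set.ncard_le_ncard h2 (Set.toFinite _)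
    rw [h1] at h3
    exact_mod_cast h3
  have hx1 : 1 ≤ p - 1 := Nat.le_sub_one_of_lt hp2
  have hxp : p - 1 < p := Nat.sub_lt (lt_trans one_pos hp2) one_pos
  have hsum := Pool.Agent.Helper26.PE.sum_inv (E := E) (κ := 1 / T ^ 2) (x := p - 1) hx1
    (by positivity) (fun v hv => ((hmem v).1 hv).1) (fun t ht htx =>
      hsc E hmem hcard t ht (lt_of_le_of_lt htx hxp))
  have hones := ones_le (χ := χ) hs hmem (x := p - 1) hxp
  refine hones.trans ?_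
  have : 2 * ((p - 1 : ℕ) : ℝ) * ∑ d ∈ E.filter (fun v => v ≤ p - 1), 1 / (d : ℝ) ≤
      2 * ((p - 1 : ℕ) : ℝ) * (1 / T ^ 2 * (2 + Real.log ((p - 1 : ℕ) : ℝ))) :=
    mul_le_mul_of_nonneg_left hsum (by positivity)
  linarith

/-- the bound for `L(1, χ)` -/
private theorem fin3_L {p : ℕ} [NeZero p] (hp2' : 1 < p) {χ : DirichletCharacter ℂ p} {S : ℕ}
    {k0 : ℕ} {T W : ℝ}
    (hT : 256 ≤ T) (hTS : T ^ 16 = (S : ℝ)) (hk0 : 1 ≤ k0) (hW : W ≤ T)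
    (htau : (#p.divisors : ℝ) ≤ T)
    (h2T : (2 : ℝ) ^ (2 * k0 + 2) ≤ T) (hlog : 1 + Real.log p ≤ √T)
    (hp1 : S ^ (4 * k0 + 4) ≤ p) (hp2 : p < (S + 1) ^ (4 * k0 + 4)) (hχ : χ ≠ 1)
    (hO : ‖∑ n ∈ Icc 1 (p - 1), ∑ d ∈ n.divisors, χ (d : ZMod p)‖ ≤
      W * √((p - 1 : ℕ) : ℝ) + 2 * ((p - 1 : ℕ) : ℝ) *
        (1 / T ^ 2 * (2 + Real.log ((p - 1 : ℕ) : ℝ)))) :
    ‖DirichletCharacter.LFunction χ 1‖ ≤ 1 / T := by
  have hT0 : (0 : ℝ) < T := by linarith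
  set x : ℕ := p - 1 with hxdef
  have hxp : x + 1 = p := by rw [hxdef]; exact Nat.sub_add_cancel hp2'.le
  have hx1 : 1 ≤ x := by rw [hxdef]; exact Nat.le_sub_one_of_lt hp2'
  have hx0 : (0 : ℝ) < x := by exact_mod_cast hx1
  have hpR : (p : ℝ) = x + 1 := by rw [← hxp]; push_cast; ring
  have hx1R : (1 : ℝ) ≤ x := by exact_mod_cast hx1
  have hp0 : (0 : ℝ) < p := by rw [hpR]; linarith
  have hxlow : (p : ℝ) ≤ 2 * x := by rw [hpR]; linarith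
  -- sizes
  have hT1 : (1 : ℝ) ≤ T := by linarith
  have hS0 : (0 : ℝ) < (S : ℝ) := by rw [← hTS]; positivity
  have hS16 : 16 * T ≤ (S : ℝ) := by
    rw [← hTS]
    calc 16 * T ≤ T * T := mul_le_mul_of_nonneg_right (by linarith) hT0.le
      _ = T ^ 2 := by ring
      _ ≤ T ^ 16 := pow_le_pow_right₀ hT1 (by norm_num)
  have hS1 : (1 : ℝ) ≤ (S : ℝ) := by linarith
  have hpS : (S : ℝ) ^ (4 * k0 + 4) ≤ p := by
    rw [← Nat.cast_pow]; exact Nat.cast_le.2 hp1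
  have hpS' : (p : ℝ) ≤ ((S : ℝ) + 1) ^ (4 * k0 + 4) := by
    have := Nat.cast_le (α := ℝ) |>.2 hp2.le
    rwa [Nat.cast_pow, Nat.cast_add, Nat.cast_one] at this
  have hsT : √T * √T = T := Real.mul_self_sqrt hT0.le
  have hsT16 : 16 ≤ √T := by
    rw [show (16 : ℝ) = √256 by
      rw [show (256 : ℝ) = 16 ^ 2 by norm_num, Real.sqrt_sq (by norm_num)]]
    exact Real.sqrt_le_sqrt hT
  have hsTT : √T ≤ T := by
    calc √T = √T * 1 := (mul_one _).symm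
      _ ≤ √T * √T := mul_le_mul_of_nonneg_left (by linarith) (Real.sqrt_nonneg _)
      _ = T := hsT
  -- the four parts
  have hsx : √(x : ℝ) * √(x : ℝ) = x := Real.mul_self_sqrt hx0.le
  have hpbig : (S : ℝ) ^ 8 ≤ p := by
    refine le_trans ?_ hpS
    exact pow_le_pow_right₀ hS1 (by linarith)
  have hxbig : 8 * T ^ 2 ≤ √(x : ℝ) := by
    refine Real.le_sqrt_of_sq_le ?_
    have h1 : (8 * T ^ 2) ^ 2 * 2 ≤ (S : ℝ) ^ 8 := by
      have h2 : (8 * T ^ 2) ^ 2 * 2 ≤ (S : ℝ) ^ 4 := by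
        calc (8 * T ^ 2) ^ 2 * 2 = 128 * T ^ 4 := by ring
          _ ≤ 65536 * T ^ 4 := by
            exact mul_le_mul_of_nonneg_right (by norm_num) (by positivity)
          _ = (16 * T) ^ 4 := by ring
          _ ≤ (S : ℝ) ^ 4 := pow_le_pow_left₀ (by positivity) hS16 4
      exact h2.trans (pow_le_pow_right₀ hS1 (by norm_num))
    linarith
  have hpart1 : W * √(x : ℝ) ≤ x * (1 / (8 * T)) := by
    rw [mul_one_div, le_div_iff₀ (by positivity)]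
    calc W * √(x : ℝ) * (8 * T) ≤ T * √(x : ℝ) * (8 * T) :=
          mul_le_mul_of_nonneg_right (mul_le_mul_of_nonneg_right hW (Real.sqrt_nonneg _))
            (by positivity)
      _ = √(x : ℝ) * (8 * T ^ 2) := by ring
      _ ≤ √(x : ℝ) * √(x : ℝ) :=
          mul_le_mul_of_nonneg_left hxbig (Real.sqrt_nonneg _)
      _ = x := hsx
  have hlogx : Real.log (x : ℝ) ≤ Real.log p := by
    refine Real.log_le_log hx0 ?_
    rw [hpR]; linarith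
  have hlogp0 : 0 ≤ Real.log p := Real.log_nonneg (by rw [hpR]; linarith)
  have hpart2 : 1 / T ^ 2 * (2 + Real.log (x : ℝ)) ≤ 1 / (8 * T) := by
    have h1 : 2 + Real.log (x : ℝ) ≤ 2 * √T := by linarith
    calc 1 / T ^ 2 * (2 + Real.log (x : ℝ)) ≤ 1 / T ^ 2 * (2 * √T) :=
          mul_le_mul_of_nonneg_left h1 (by positivity)
      _ ≤ 1 / (8 * T) := by
        rw [one_div_mul_eq_div, div_le_div_iff₀ (by positivity) (by positivity)]
        calc 2 * √T * (8 * T) = (16 * √T) * T := by ring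
          _ ≤ (√T * √T) * T := by
            refine mul_le_mul_of_nonneg_right ?_ hT0.le
            exact mul_le_mul_of_nonneg_right hsT16 (Real.sqrt_nonneg _)
          _ = 1 * T ^ 2 := by rw [hsT]; ring
  set D : ℕ := S ^ (2 * k0 + 3) with hDdef
  have hDR : (D : ℝ) = (S : ℝ) ^ (2 * k0 + 3) := by rw [hDdef, Nat.cast_pow]
  have hD0 : (0 : ℝ) < D := by rw [hDR]; positivity
  have hpart3 : (D : ℝ) ≤ x * (1 / (8 * T)) := by
    rw [mul_one_div, le_div_iff₀ (by positivity)]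
    have h1 : (D : ℝ) * (8 * T) * 2 ≤ (S : ℝ) ^ (4 * k0 + 4) := by
      calc (D : ℝ) * (8 * T) * 2 = (D : ℝ) * (16 * T) := by ring
        _ ≤ (D : ℝ) * S := mul_le_mul_of_nonneg_left hS16 hD0.le
        _ = (S : ℝ) ^ (2 * k0 + 4) := by rw [hDR]; ring
        _ ≤ (S : ℝ) ^ (4 * k0 + 4) := pow_le_pow_right₀ hS1 (by linarith)
    linarith
  have hsqp : √(p : ℝ) ≤ T * (S : ℝ) ^ (2 * k0 + 2) := by
    have h1 : √(p : ℝ) ≤ ((S : ℝ) + 1) ^ (2 * k0 + 2) := by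
      rw [show ((S : ℝ) + 1) ^ (2 * k0 + 2) = √((((S : ℝ) + 1) ^ (2 * k0 + 2)) ^ 2) by
        rw [Real.sqrt_sq (by positivity)]]
      refine Real.sqrt_le_sqrt ?_
      refine hpS'.trans (le_of_eq ?_)
      rw [← pow_mul]
      congr 1
      ring
    refine h1.trans ?_
    calc ((S : ℝ) + 1) ^ (2 * k0 + 2) ≤ (2 * (S : ℝ)) ^ (2 * k0 + 2) :=
          pow_le_pow_left₀ (by positivity) (by linarith) _
      _ = 2 ^ (2 * k0 + 2) * (S : ℝ) ^ (2 * k0 + 2) := mul_pow _ _ _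
      _ ≤ T * (S : ℝ) ^ (2 * k0 + 2) := mul_le_mul_of_nonneg_right h2T (by positivity)
  have hpart4 : 4 * (x : ℝ) * (2 * √(p : ℝ) * #p.divisors * (1 + Real.log p)) / D ≤
      x * (1 / (8 * T)) := by
    rw [div_le_iff₀ hD0]
    have h1 : 2 * √(p : ℝ) * #p.divisors * (1 + Real.log p) ≤
        2 * (T * (S : ℝ) ^ (2 * k0 + 2)) * T * T := by
      refine mul_le_mul ?_ (hlog.trans hsTT) (by linarith) (by positivity)
      refine mul_le_mul ?_ htau (by positivity) (by positivity)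
      linarith
    have h2 : 4 * (2 * (T * (S : ℝ) ^ (2 * k0 + 2)) * T * T) ≤ 1 / (8 * T) * D := by
      rw [one_div_mul_eq_div, le_div_iff₀ (by positivity), hDR]
      have h3 : 64 * T ^ 4 ≤ (S : ℝ) := by
        rw [← hTS]
        calc 64 * T ^ 4 ≤ T * T ^ 4 := mul_le_mul_of_nonneg_right (by linarith) (by positivity)
          _ = T ^ 5 := by ring
          _ ≤ T ^ 16 := pow_le_pow_right₀ hT1 (by norm_num)
      calc 4 * (2 * (T * (S : ℝ) ^ (2 * k0 + 2)) * T * T) * (8 * T) =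
            (64 * T ^ 4) * (S : ℝ) ^ (2 * k0 + 2) := by ring
        _ ≤ (S : ℝ) * (S : ℝ) ^ (2 * k0 + 2) := mul_le_mul_of_nonneg_right h3 (by positivity)
        _ = (S : ℝ) ^ (2 * k0 + 3) := by ring
    calc 4 * (x : ℝ) * (2 * √(p : ℝ) * #p.divisors * (1 + Real.log p)) =
          x * (4 * (2 * √(p : ℝ) * #p.divisors * (1 + Real.log p))) := by ring
      _ ≤ x * (4 * (2 * (T * (S : ℝ) ^ (2 * k0 + 2)) * T * T)) :=
          mul_le_mul_of_nonneg_left (mul_le_mul_of_nonneg_left h1 (by norm_num)) hx0.le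
      _ ≤ x * (1 / (8 * T) * D) := mul_le_mul_of_nonneg_left h2 hx0.le
      _ = x * (1 / (8 * T)) * D := by ring
  -- hyper
  have hD1 : 1 ≤ D := by
    have : (0 : ℝ) < D := hD0
    have h' : 0 < D := by exact_mod_cast this
    exact h'
  have hDx : D ≤ x := by
    have h1 : (D : ℝ) ≤ x := by
      refine hpart3.trans ?_
      calc (x : ℝ) * (1 / (8 * T)) ≤ x * 1 := by
            refine mul_le_mul_of_nonneg_left ?_ hx0.le
            rw [div_le_one (by positivity)]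
            linarith
        _ = x := mul_one _
    exact_mod_cast h1
  have hhy := hyper hχ (A := 2 * √(p : ℝ) * #p.divisors * (1 + Real.log p)) (pv χ hχ) hD1 hDx
  set Z : ℂ := ∑ n ∈ Icc 1 x, ∑ d ∈ n.divisors, χ (d : ZMod p) with hZ
  set L : ℂ := DirichletCharacter.LFunction χ 1 with hL
  have hxL : (x : ℝ) * ‖L‖ = ‖(x : ℂ) * L‖ := by
    rw [norm_mul]; simp
  have h1 : ‖(x : ℂ) * L‖ ≤ ‖Z‖ + ‖Z - (x : ℂ) * L‖ := by
    calc ‖(x : ℂ) * L‖ = ‖Z - (Z - (x : ℂ) * L)‖ := by congr 1; ring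
      _ ≤ ‖Z‖ + ‖Z - (x : ℂ) * L‖ := norm_sub_le _ _
  have h2 : 2 * (x : ℝ) * (1 / T ^ 2 * (2 + Real.log (x : ℝ))) ≤ 2 * x * (1 / (8 * T)) :=
    mul_le_mul_of_nonneg_left hpart2 (by positivity)
  have h3 : (x : ℝ) * ‖L‖ ≤ x * (5 * (1 / (8 * T))) := by
    rw [hxL]
    linarith
  have h4 : ‖L‖ ≤ 5 * (1 / (8 * T)) := le_of_mul_le_mul_left h3 hx0
  refine h4.trans ?_
  rw [mul_one_div, div_le_div_iff₀ (by positivity) hT0]
  linarith

theorem fin_three (k0 : ℕ) (hk0 : 1 ≤ k0) : ∃ S0 : ℕ, ∀ S : ℕ, S0 ≤ S →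
    ∀ (n : ℕ) [NeZero n], S ^ (4 * k0 + 4) ≤ n → n < (S + 1) ^ (4 * k0 + 4) →
    ∀ (χ : DirichletCharacter ℂ n) (s : ℝ), χ ^ 2 = 1 → χ ≠ 1 →
      ∑ q ∈ PY n (S ^ (2 * k0)), ‖χ (q : ZMod n) + 1‖ ^ 2 / q ≤
        (S : ℝ) ^ (-(1 / 4) : ℝ) → (s = 1 ∨ s = -1) →
      (Set.ncard {x : ZMod n | IsUnit x ∧ (F x : ℂ) * χ x ≠ s} : ℝ) ≤
        4 * (S : ℝ) ^ (-(1 / 4) : ℝ) * n → False := by
  obtain ⟨K, hK⟩ : ∃ K : ℕ, K = 4 * k0 + 4 := ⟨_, rfl⟩
  have hK8 : 8 ≤ K := by omega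
  have hKR : (0 : ℝ) < K := by exact_mod_cast (lt_of_lt_of_le (by norm_num) hK8)
  have hε : (0 : ℝ) < 1 / (64 * K) := by positivity
  have hε1 : (0 : ℝ) < 1 / (128 * K) := by positivity
  obtain ⟨c, hc, hsieg⟩ := siegel (1 / (64 * K)) hε
  obtain ⟨C, hC, hsmall⟩ := small_fun (1 / (128 * K)) hε1
  obtain ⟨S1, hfs⟩ := fin_scale k0 hk0
  obtain ⟨u0, hu0⟩ : ∃ u0 : ℝ, u0 = 4 + C + (128 * K + 1) + 2 ^ (2 * k0 + 2) + (1 / c + 1) :=
    ⟨_, rfl⟩
  have h20 : (0 : ℝ) < 2 ^ (2 * k0 + 2) := by positivity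
  have hc0 : (0 : ℝ) < 1 / c := by positivity
  have hu0pos : 0 < u0 := by rw [hu0]; positivity
  refine ⟨max S1 ⌈u0 ^ 64⌉₊, ?_⟩
  intro S hS' p hpF hp1 hp2 χ s hχ2 hχ hW hs hE
  have hS : ⌈u0 ^ 64⌉₊ ≤ S := (le_max_right _ _).trans hS'
  have hS1 : S1 ≤ S := (le_max_left _ _).trans hS'
  have hSR : u0 ^ 64 ≤ (S : ℝ) := (Nat.le_ceil _).trans (Nat.cast_le.2 hS)
  have hS0 : (0 : ℝ) ≤ (S : ℝ) := by positivity
  obtain ⟨u, hu⟩ : ∃ u : ℝ, u = (S : ℝ) ^ ((64 : ℕ) : ℝ)⁻¹ := ⟨_, rfl⟩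
  have huS : u ^ 64 = (S : ℝ) := by
    rw [hu]; exact Real.rpow_inv_natCast_pow hS0 (by norm_num)
  have huu0 : u0 ≤ u := by
    rw [hu, ← Real.pow_rpow_inv_natCast hu0pos.le (by norm_num : (64 : ℕ) ≠ 0)]
    exact Real.rpow_le_rpow (by positivity) hSR (by positivity)
  have hu4 : 4 ≤ u := by linarith
  have huC : C ≤ u := by linarith
  have huK : 128 * K + 1 ≤ u := by linarith
  have hu2 : (2 : ℝ) ^ (2 * k0 + 2) ≤ u := by linarith
  have huc : 1 / c < u := by linarith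
  have hupos : 0 < u := by linarith
  have hu1 : 1 ≤ u := by linarith
  have hT : 256 ≤ u ^ 4 := by
    calc (256 : ℝ) = 4 ^ 4 := by norm_num
      _ ≤ u ^ 4 := pow_le_pow_left₀ (by norm_num) hu4 4
  have huT : u ≤ u ^ 4 := by
    calc u = u ^ 1 := (pow_one u).symm
      _ ≤ u ^ 4 := pow_le_pow_right₀ hu1 (by norm_num)
  have hu2T : u ^ 2 ≤ u ^ 4 := pow_le_pow_right₀ hu1 (by norm_num)
  have hTS : (u ^ 4) ^ 16 = (S : ℝ) := by rw [← pow_mul]; exact huS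
  have hsqT : √(u ^ 4) = u ^ 2 := by
    rw [show u ^ 4 = (u ^ 2) ^ 2 by ring, Real.sqrt_sq (by positivity)]
  have hS18 : (S : ℝ) ^ (-(1 / 8) : ℝ) = 1 / (u ^ 4) ^ 2 := by
    have e1 : (S : ℝ) ^ (-(1 / 8) : ℝ) = u ^ (-((8 : ℕ) : ℝ)) := by
      rw [← huS, ← Real.rpow_natCast u 64, ← Real.rpow_mul hupos.le]
      congr 1
      norm_num
    rw [e1, Real.rpow_neg hupos.le, Real.rpow_natCast, ← pow_mul, one_div]
  have hSbig : 2 ≤ S := by
    have h4 : (2 : ℝ) ≤ S := by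
      rw [← huS]
      calc (2 : ℝ) ≤ u := by linarith
        _ = u ^ 1 := (pow_one u).symm
        _ ≤ u ^ 64 := pow_le_pow_right₀ hu1 (by norm_num)
    exact_mod_cast h4
  have hpgt : 1 < p := by
    refine lt_of_lt_of_le ?_ hp1
    exact Nat.one_lt_pow (Nat.succ_ne_zero _) hSbig
  have hppos : 0 < p := lt_trans one_pos hpgt
  have hp0 : (0 : ℝ) < p := Nat.cast_pos.2 hppos
  -- `p ≤ u ^ (128 K)`
  have hpu : (p : ℝ) ≤ u ^ ((128 : ℝ) * K) := by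
    have h1 : (p : ℝ) ≤ ((S : ℝ) + 1) ^ (4 * k0 + 4) := by
      have := Nat.cast_le (α := ℝ) |>.2 hp2.le
      rwa [Nat.cast_pow, Nat.cast_add, Nat.cast_one] at this
    have h2 : (S : ℝ) + 1 ≤ u ^ 128 := by
      have h3 : (1 : ℝ) ≤ u ^ 64 := one_le_pow₀ hu1
      have h4 : (2 : ℝ) ≤ u ^ 64 := by
        calc (2 : ℝ) ≤ u := by linarith
          _ = u ^ 1 := (pow_one u).symm
          _ ≤ u ^ 64 := pow_le_pow_right₀ hu1 (by norm_num)
      calc (S : ℝ) + 1 = u ^ 64 + 1 := by rw [huS]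
        _ ≤ u ^ 64 + u ^ 64 := by linarith
        _ = 2 * u ^ 64 := by ring
        _ ≤ u ^ 64 * u ^ 64 := mul_le_mul_of_nonneg_right h4 (by positivity)
        _ = u ^ 128 := by rw [← pow_add]
    calc (p : ℝ) ≤ ((S : ℝ) + 1) ^ (4 * k0 + 4) := h1
      _ ≤ (u ^ 128) ^ (4 * k0 + 4) := pow_le_pow_left₀ (by positivity) h2 _
      _ = u ^ (128 * K) := by rw [← pow_mul, hK]
      _ = u ^ ((128 : ℝ) * K) := by
        rw [← Real.rpow_natCast u (128 * K)]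
        push_cast
        rfl
  have hpε : (p : ℝ) ^ (1 / (64 * K) : ℝ) ≤ u ^ 2 := by
    calc (p : ℝ) ^ (1 / (64 * K) : ℝ) ≤ (u ^ ((128 : ℝ) * K)) ^ (1 / (64 * K) : ℝ) :=
          Real.rpow_le_rpow hp0.le hpu hε.le
      _ = u ^ ((2 : ℕ) : ℝ) := by
        rw [← Real.rpow_mul hupos.le]
        congr 1
        field_simp
        norm_num
      _ = u ^ 2 := Real.rpow_natCast u 2
  have hpε1 : (p : ℝ) ^ (1 / (128 * K) : ℝ) ≤ u := by
    calc (p : ℝ) ^ (1 / (128 * K) : ℝ) ≤ (u ^ ((128 : ℝ) * K)) ^ (1 / (128 * K) : ℝ) :=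
          Real.rpow_le_rpow hp0.le hpu (by positivity)
      _ = u ^ (1 : ℝ) := by
        rw [← Real.rpow_mul hupos.le]
        congr 1
        field_simp
      _ = u := Real.rpow_one u
  have hCp : C * (p : ℝ) ^ (1 / (128 * K) : ℝ) ≤ u ^ 4 := by
    calc C * (p : ℝ) ^ (1 / (128 * K) : ℝ) ≤ u * u :=
          mul_le_mul huC hpε1 (by positivity) hupos.le
      _ = u ^ 2 := by ring
      _ ≤ u ^ 4 := hu2T
  obtain ⟨hs1, hs2, -⟩ := hsmall p hppos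
  have hw4 : (4 : ℝ) ^ #p.primeFactors ≤ u ^ 4 := hs1.trans hCp
  have hτ : (#p.divisors : ℝ) ≤ u ^ 4 := hs2.trans hCp
  have hlogp : 1 + Real.log p ≤ √(u ^ 4) := by
    rw [hsqT]
    have h1 : Real.log p ≤ 128 * K * Real.log u := by
      calc Real.log p ≤ Real.log (u ^ ((128 : ℝ) * K)) := Real.log_le_log hp0 hpu
        _ = 128 * K * Real.log u := Real.log_rpow hupos _
    have h2 : Real.log u ≤ u - 1 := Real.log_le_sub_one_of_pos hupos
    have h3 : 128 * K * Real.log u ≤ 128 * K * (u - 1) :=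
      mul_le_mul_of_nonneg_left h2 (by positivity)
    have h4 : (128 * K + 1) * u ≤ u * u := mul_le_mul_of_nonneg_right huK hupos.le
    have h5 : (0 : ℝ) ≤ 128 * K := by positivity
    calc 1 + Real.log p ≤ 1 + 128 * K * (u - 1) := by linarith
      _ = 1 + 128 * K * u - 128 * K := by ring
      _ ≤ (128 * K + 1) * u := by linarith
      _ ≤ u * u := h4
      _ = u ^ 2 := by ring
  have hO := fin3_core (p := p) hpgt (χ := χ) (s := s) (T := u ^ 4)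
    (B := 4 * (S : ℝ) ^ (-(1 / 4) : ℝ) * p) (by positivity) hs hE (by
      intro E hmem hcard t ht htp
      have := hfs S hS1 p hp1 hp2 χ s E hχ2 hW hmem hcard t ht htp
      rwa [hS18] at this)
  have hL := fin3_L (p := p) hpgt (χ := χ) (S := S) (k0 := k0) (T := u ^ 4)
    (W := (4 : ℝ) ^ #p.primeFactors) hT hTS hk0 hw4 hτ
    (hu2.trans huT) hlogp hp1 hp2 hχ hO
  have hsi := (hsieg p χ hχ hχ2).trans hL
  rw [Real.rpow_neg hp0.le] at hsi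
  have hpos : 0 < (p : ℝ) ^ (1 / (64 * K) : ℝ) := Real.rpow_pos_of_pos hp0 _
  have h1 : c * u ^ 4 ≤ u ^ 2 := by
    rw [← div_eq_mul_inv, div_le_div_iff₀ hpos (by positivity), one_mul] at hsi
    exact hsi.trans hpε
  have h2 : c * u ^ 4 = (c * u ^ 2) * u ^ 2 := by ring
  have h3 : 1 < c * u := by
    rw [div_lt_iff₀ hc] at huc
    linarith
  have h4 : c * u ≤ c * u ^ 2 := by
    refine mul_le_mul_of_nonneg_left ?_ hc.le
    calc u = u ^ 1 := (pow_one u).symm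
      _ ≤ u ^ 2 := pow_le_pow_right₀ hu1 (by norm_num)
  have h5 : 0 < u ^ 2 := by positivity
  have h6 : 1 * u ^ 2 < (c * u ^ 2) * u ^ 2 := mul_lt_mul_of_pos_right (by linarith) h5
  linarith

end Pool.Agent.Helper26.PG
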