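import Pool.Agent.Helper26.PG.Scale
import Pool.Agent.Helper26.PG.Tot
import Pool.Agent.Helper26.PE.Primes

/-!
# PG-Fin3a: the set where `la` and `χ` differ is sparse at all scales, with parameters

PROOF.  `κ = 4 S ^ (-1/4)`, `N = ⌊S ^ (1/16)⌋₊`, `P'` = the primes `q ≤ N` which do not divide `n`.  Such a `q` has `χ q = ± 1` and
`χ q = 1` would give `4 / q ≤ S ^ (-1/4)`; so `χ q = -1`.  `K2 = Nat.log 2 n + 1` (`2 ^ # ≤ v < n`), `#P' ≥ π(N) - log2 n ≥ N ^ (1 - b)`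
(`many_primes` of Helper26/PE/Primes.lean gives `π(N) ≥ N ^ (1 - b)`: apply it with `S ≈ √N`, or use Chebyshev).
`J = 32 (4 k0 + 5)`, `n ≤ N ^ (J + 1)`, `(K2 N / #P') ^ J ≤ (K2 N ^ b) ^ J ≤ S ^ (1/32)` for `b = 1 / (4 J)` and large `S`.
`scale`: `# ≤ S ^ (1/32) S ^ (1/16) 4 S ^ (-1/4) t ≤ S ^ (-1/8) t`.
-/

set_option autoImplicit false

namespace Pool.Agent.Helper26.PG

open Finset
open Pool.Agent.Helper26.PE (la la_mul la_prime la_one la_sq la_eq la_abs PS Tup mem_Tup card_Tup pr sm)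

private theorem Fin3a_ev {a : ℝ} (ha : 0 < a) (c : ℝ) :
    ∀ᶠ S : ℕ in Filter.atTop, c ≤ (S : ℝ) ^ a :=
  ((tendsto_rpow_atTop ha).comp tendsto_natCast_atTop_atTop).eventually_ge_atTop c

private theorem Fin3a_pow {k0 S p : ℕ} (hS : 2 ^ (4 * k0 + 4) ≤ S)
    (hp : p < (S + 1) ^ (4 * k0 + 4)) : p < S ^ (4 * k0 + 5) := by
  have hS1 : 1 ≤ S := le_trans Nat.one_le_two_pow hS
  calc p < (S + 1) ^ (4 * k0 + 4) := hp
    _ ≤ (2 * S) ^ (4 * k0 + 4) := Nat.pow_le_pow_left (by omega) _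
    _ = 2 ^ (4 * k0 + 4) * S ^ (4 * k0 + 4) := mul_pow _ _ _
    _ ≤ S * S ^ (4 * k0 + 4) := Nat.mul_le_mul_right _ hS
    _ = S ^ (4 * k0 + 5) := by ring

/-- the small primes -/
private theorem Fin3a_good {k0 S n N : ℕ} [NeZero n] (hk0 : 1 ≤ k0) (hS1 : 1 ≤ S)
    {χ : DirichletCharacter ℂ n} (hχ : χ ^ 2 = 1)
    (hsum : ∑ q ∈ PY n (S ^ (2 * k0)), ‖χ (q : ZMod n) + 1‖ ^ 2 / q ≤
        (S : ℝ) ^ (-(1 / 4) : ℝ))
    (hN : (N : ℝ) ≤ (S : ℝ) ^ (1 / 16 : ℝ)) (q : ℕ) (hq : q.Prime) (hqn : ¬ q ∣ n) (hqN : q ≤ N) :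
    χ (q : ZMod n) = -1 := by
  have hS1' : (1 : ℝ) ≤ S := by exact_mod_cast hS1
  have hS0 : (0 : ℝ) < S := by linarith
  have hq0 : (0 : ℝ) < q := by exact_mod_cast hq.pos
  have h1 : χ (q : ZMod n) ^ 2 = 1 := by
    have h2 : (χ ^ 2) (q : ZMod n) = 1 := by
      rw [hχ, MulChar.one_apply (unit_of_prime hq hqn)]
    rwa [MulChar.pow_apply' χ (by norm_num)] at h2
  have hq1 : (q : ℝ) ≤ (S : ℝ) ^ (1 / 16 : ℝ) := le_trans (by exact_mod_cast hqN) hN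
  have h1b : χ (q : ZMod n) = 1 ∨ χ (q : ZMod n) = -1 := by
    rcases mul_eq_zero.1 (show (χ (q : ZMod n) - 1) * (χ (q : ZMod n) + 1) = 0 by
      linear_combination h1) with h | h
    · exact Or.inl (sub_eq_zero.1 h)
    · exact Or.inr (eq_neg_of_add_eq_zero_left h)
  rcases h1b with h | h
  · exfalso
    have h3 : q ∈ PY n (S ^ (2 * k0)) := by
      rw [mem_PY]
      refine ⟨?_, hq, hqn⟩
      have h4 : (S : ℝ) ^ (1 / 16 : ℝ) ≤ (S : ℝ) ^ (1 : ℝ) :=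
        Real.rpow_le_rpow_of_exponent_le hS1' (by norm_num)
      rw [Real.rpow_one] at h4
      have h5 : q ≤ S := by exact_mod_cast hq1.trans h4
      exact h5.trans (Nat.le_self_pow (by omega) S)
    have h4 : ‖χ (q : ZMod n) + 1‖ ^ 2 / (q : ℝ) ≤ (S : ℝ) ^ (-(1 / 4) : ℝ) :=
      le_trans (single_le_sum (f := fun q : ℕ => ‖χ (q : ZMod n) + 1‖ ^ 2 / (q : ℝ))
        (fun _ _ => by positivity) h3) hsum
    have h5 : ‖χ (q : ZMod n) + 1‖ ^ 2 = 4 := by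
      rw [h]
      norm_num
    rw [h5, Real.rpow_neg hS0.le, div_le_iff₀ hq0, ← div_eq_inv_mul,
      le_div_iff₀ (by positivity)] at h4
    have h6 : (S : ℝ) ^ (1 / 16 : ℝ) ≤ (S : ℝ) ^ (1 / 4 : ℝ) :=
      Real.rpow_le_rpow_of_exponent_le hS1' (by norm_num)
    have h7 : (0 : ℝ) < (S : ℝ) ^ (1 / 4 : ℝ) := by positivity
    linarith
  · exact h

/-- powers of `N` -/
private theorem Fin3a_N {S J P p N : ℕ} (hS1 : (1 : ℝ) ≤ S) (hJ : J = 32 * P)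
    (hp : p < S ^ P) (hN : (S : ℝ) ^ (1 / 32 : ℝ) ≤ N) : p ≤ N ^ (J + 1) := by
  have hS0 : (0 : ℝ) < S := by linarith
  have hN1 : (1 : ℝ) ≤ N := le_trans (Real.one_le_rpow hS1 (by norm_num)) hN
  have h1 : ((S : ℝ) ^ (1 / 32 : ℝ)) ^ J ≤ (N : ℝ) ^ J :=
    pow_le_pow_left₀ (by positivity) hN J
  rw [← Real.rpow_mul_natCast hS0.le] at h1
  have h2 : (1 / 32 : ℝ) * J = P := by
    rw [hJ]
    push_cast
    ring
  rw [h2, Real.rpow_natCast] at h1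
  have h3 : S ^ P ≤ N ^ J := by exact_mod_cast h1
  have h4 : N ^ J ≤ N ^ (J + 1) := Nat.pow_le_pow_right (by exact_mod_cast hN1) (by omega)
  omega

/-- few prime divisors -/
private theorem Fin3a_om (P : Finset ℕ) (hP : ∀ q ∈ P, q.Prime) {v : ℕ} (hv : 0 < v) :
    #(P.filter fun q => q ∣ v) ≤ Nat.log 2 v := by
  have h1 : ∏ q ∈ P.filter (fun q => q ∣ v), q ∣ v := by
    refine prod_primes_dvd v (fun q hq => ?_) (fun q hq => ?_)
    · rw [mem_filter] at hq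
      exact (hP q hq.1).prime
    · rw [mem_filter] at hq
      exact hq.2
  have h2 : 2 ^ #(P.filter fun q => q ∣ v) ≤ ∏ q ∈ P.filter (fun q => q ∣ v), q := by
    rw [← prod_const]
    refine prod_le_prod (fun _ _ => Nat.zero_le _) fun q hq => ?_
    rw [mem_filter] at hq
    exact (hP q hq.1).two_le
  exact Nat.le_log_of_pow_le (by norm_num) (h2.trans (Nat.le_of_dvd hv h1))

/-- Chebyshev's lower bound -/
private theorem Fin3a_pi : ∃ N0 : ℕ, ∀ N : ℕ, N0 ≤ N → ∀ L : ℝ, Real.log N ≤ L → 0 < L →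
    (N : ℝ) / (2 * L) ≤ Nat.primeCounting N := by
  have h2 : (Real.log) =o[Filter.atTop] (fun y : ℝ => y) := Real.isLittleO_log_id_atTop
  obtain ⟨B, hB⟩ := Filter.eventually_atTop.1 (h2.bound (show (0 : ℝ) < 1 / 20 by norm_num))
  refine ⟨max 2 ⌈B⌉₊, fun N hN L hL hL0 => ?_⟩
  have hN2 : 2 ≤ N := (le_max_left _ _).trans hN
  have hNB : B ≤ (N : ℝ) + 1 := by
    have h3 : B ≤ ((⌈B⌉₊ : ℕ) : ℝ) := Nat.le_ceil B
    have h4 : ((⌈B⌉₊ : ℕ) : ℝ) ≤ N := by exact_mod_cast (le_max_right _ _).trans hN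
    linarith
  have hN2' : (2 : ℝ) ≤ N := by exact_mod_cast hN2
  have h3 := hB _ hNB
  have h4 : 0 < Real.log ((N : ℝ) + 1) := Real.log_pos (by linarith)
  rw [Real.norm_of_nonneg h4.le, Real.norm_of_nonneg (by linarith)] at h3
  have h5 := Chebyshev.pi_ge N
  have h6 : 0 < Real.log (N : ℝ) := Real.log_pos (by linarith)
  have h7 := Real.log_two_gt_d9
  refine le_trans ?_ h5
  rw [div_le_div_iff₀ (by positivity) h6]
  have h8 : (N : ℝ) / 2 ≤ N * Real.log 2 - Real.log (N + 1) := by nlinarith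
  have h9 : (N : ℝ) * Real.log N ≤ N * L := mul_le_mul_of_nonneg_left hL (by linarith)
  have h10 : (N : ℝ) / 2 * (2 * L) ≤ (N * Real.log 2 - Real.log (N + 1)) * (2 * L) :=
    mul_le_mul_of_nonneg_right h8 (by positivity)
  linarith

/-- the logarithm -/
private theorem Fin3a_log {n P S : ℕ} (hS : 1 ≤ S) (hn0 : 0 < n) (hn : n < S ^ P) {b : ℝ}
    (hb : 0 < b) (h1 : 1 + 4 * P / b ≤ (S : ℝ) ^ (b / 2)) :
    ((Nat.log 2 n + 1 : ℕ) : ℝ) ≤ (S : ℝ) ^ b := by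
  have hS' : (1 : ℝ) ≤ S := by exact_mod_cast hS
  have hS0 : (0 : ℝ) < S := by linarith
  have h2 : ((2 ^ Nat.log 2 n : ℕ) : ℝ) ≤ n := by
    exact_mod_cast Nat.pow_log_le_self 2 hn0.ne'
  have h3 : (Nat.log 2 n : ℝ) * Real.log 2 ≤ Real.log n := by
    rw [← Real.log_pow]
    refine Real.log_le_log (by positivity) ?_
    exact_mod_cast h2
  have h4 : Real.log n ≤ P * Real.log S := by
    rw [← Real.log_pow]
    refine Real.log_le_log (by exact_mod_cast hn0) ?_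
    exact_mod_cast hn.le
  have h5 : Real.log S ≤ (S : ℝ) ^ (b / 2) / (b / 2) :=
    Real.log_le_rpow_div hS0.le (by positivity)
  have h6 := Real.log_two_gt_d9
  have h7 : (Nat.log 2 n : ℝ) ≤ 2 * (P * Real.log S) := by
    have h8 : (0 : ℝ) ≤ Nat.log 2 n := Nat.cast_nonneg _
    nlinarith
  have h8 : (P : ℝ) * Real.log S ≤ P * ((S : ℝ) ^ (b / 2) / (b / 2)) :=
    mul_le_mul_of_nonneg_left h5 (Nat.cast_nonneg _)
  have h9 : (1 : ℝ) ≤ (S : ℝ) ^ (b / 2) := Real.one_le_rpow hS' (by positivity)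
  have h10 : (S : ℝ) ^ b = (S : ℝ) ^ (b / 2) * (S : ℝ) ^ (b / 2) := by
    rw [← Real.rpow_add hS0]
    congr 1
    ring
  rw [h10]
  push_cast
  calc (Nat.log 2 n : ℝ) + 1 ≤ 2 * (P * ((S : ℝ) ^ (b / 2) / (b / 2))) + (S : ℝ) ^ (b / 2) := by
        linarith
    _ = (1 + 4 * P / b) * (S : ℝ) ^ (b / 2) := by
        field_simp
        ring
    _ ≤ (S : ℝ) ^ (b / 2) * (S : ℝ) ^ (b / 2) := mul_le_mul_of_nonneg_right h1 (by positivity)

/-- the number of primes in `P'` -/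
private theorem Fin3a_card {n N : ℕ} (hn0 : 0 < n) :
    Nat.primeCounting N ≤ #(PY n N) + Nat.log 2 n := by
  rw [Nat.primeCounting, Nat.primeCounting', Nat.count_eq_card_filter_range]
  have h5 : (range (N + 1)).filter Nat.Prime ⊆
      PY n N ∪ ((range (N + 1)).filter Nat.Prime).filter (fun q => q ∣ n) := by
    intro q hq
    rw [mem_union, mem_PY, mem_filter (s := (range (N + 1)).filter Nat.Prime)]
    by_cases h : q ∣ n
    · exact Or.inr ⟨hq, h⟩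
    · rw [mem_filter, mem_range] at hq
      exact Or.inl ⟨by omega, hq.2, h⟩
  refine (card_le_card h5).trans ((card_union_le _ _).trans ?_)
  exact Nat.add_le_add_left (Fin3a_om _ (fun q hq => (mem_filter.1 hq).2) hn0) _

/-- the estimate of the constants -/
private theorem Fin3a_const {S J : ℕ} {b N X : ℝ} (hS1 : (1 : ℝ) ≤ S) (hb : b * (64 * J) = 1)
    (hN0 : 0 ≤ N) (hN : N ≤ (S : ℝ) ^ (1 / 16 : ℝ)) (hX0 : 0 ≤ X)
    (hX : X ≤ (S : ℝ) ^ b * (S : ℝ) ^ b) (hS4 : 4 ≤ (S : ℝ) ^ (1 / 32 : ℝ)) :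
    X ^ J * N * (4 * (S : ℝ) ^ (-(1 / 4) : ℝ)) ≤ (S : ℝ) ^ (-(1 / 8) : ℝ) := by
  have hS0 : (0 : ℝ) < S := by linarith
  rw [← Real.rpow_add hS0] at hX
  have h3 : X ^ J ≤ (S : ℝ) ^ (1 / 32 : ℝ) := by
    have h4 : X ^ J ≤ ((S : ℝ) ^ (b + b)) ^ J := pow_le_pow_left₀ hX0 hX J
    rw [← Real.rpow_mul_natCast hS0.le] at h4
    have h5 : (b + b) * J = 1 / 32 := by
      linear_combination (1 / 32) * hb
    rwa [h5] at h4
  have h4 : (0 : ℝ) ≤ (S : ℝ) ^ (-(1 / 4) : ℝ) := by positivity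
  calc X ^ J * N * (4 * (S : ℝ) ^ (-(1 / 4) : ℝ))
      ≤ (S : ℝ) ^ (1 / 32 : ℝ) * (S : ℝ) ^ (1 / 16 : ℝ) *
        ((S : ℝ) ^ (1 / 32 : ℝ) * (S : ℝ) ^ (-(1 / 4) : ℝ)) := by
        apply mul_le_mul
        · exact mul_le_mul h3 hN hN0 (by positivity)
        · exact mul_le_mul_of_nonneg_right hS4 h4
        · positivity
        · positivity
    _ = (S : ℝ) ^ (-(1 / 8) : ℝ) := by
        rw [← Real.rpow_add hS0, ← Real.rpow_add hS0, ← Real.rpow_add hS0]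
        norm_num

theorem fin_scale (k0 : ℕ) (hk0 : 1 ≤ k0) : ∃ S0 : ℕ, ∀ S : ℕ, S0 ≤ S →
    ∀ (n : ℕ) [NeZero n], S ^ (4 * k0 + 4) ≤ n → n < (S + 1) ^ (4 * k0 + 4) →
    ∀ (χ : DirichletCharacter ℂ n) (s : ℝ) (E : Finset ℕ), χ ^ 2 = 1 →
      ∑ q ∈ PY n (S ^ (2 * k0)), ‖χ (q : ZMod n) + 1‖ ^ 2 / q ≤ (S : ℝ) ^ (-(1 / 4) : ℝ) →
      (∀ v : ℕ, v ∈ E ↔ 0 < v ∧ v < n ∧ Nat.Coprime v n ∧ (la v : ℂ) * χ (v : ZMod n) ≠ s) →
      (#E : ℝ) ≤ 4 * (S : ℝ) ^ (-(1 / 4) : ℝ) * n →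
      ∀ t : ℕ, 1 ≤ t → t < n →
        (#(E.filter fun v => v ≤ t) : ℝ) ≤ (S : ℝ) ^ (-(1 / 8) : ℝ) * t := by
  obtain ⟨P, hPdef⟩ : ∃ P : ℕ, P = 4 * k0 + 5 := ⟨_, rfl⟩
  obtain ⟨J, hJdef⟩ : ∃ J : ℕ, J = 32 * P := ⟨_, rfl⟩
  have hP0 : 0 < P := by omega
  have hJ0 : 1 ≤ J := by omega
  have hP0' : (0 : ℝ) < P := by exact_mod_cast hP0
  have hJ0' : (1 : ℝ) ≤ J := by exact_mod_cast hJ0
  obtain ⟨b, hbdef⟩ : ∃ b : ℝ, b = 1 / (64 * J) := ⟨_, rfl⟩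
  have hb0 : 0 < b := by rw [hbdef]; positivity
  have hb1 : b * (64 * J) = 1 := by
    rw [hbdef, one_div, inv_mul_cancel₀ (by positivity)]
  have hb2 : b ≤ 1 / 64 := by nlinarith
  obtain ⟨N0, hN0⟩ := Fin3a_pi
  have hev := (((Fin3a_ev (show (0 : ℝ) < 1 / 32 by norm_num) 4).and
    (Fin3a_ev (show (0 : ℝ) < 1 / 32 by norm_num) N0)).and
    ((Fin3a_ev (show (0 : ℝ) < b / 2 by positivity) (8 / b)).and
    (Fin3a_ev (show (0 : ℝ) < b / 2 by positivity) (1 + 4 * P / b)))).and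
    (Filter.eventually_ge_atTop (2 ^ (4 * k0 + 4)))
  obtain ⟨S0, hS0⟩ := Filter.eventually_atTop.1 hev
  refine ⟨S0, ?_⟩
  intro S hS n hn0 hSn hnS χ s E hχ hsum hE hEc t ht1 htn
  obtain ⟨⟨⟨h4, hNN0⟩, h8b, hlogb⟩, h2pow⟩ := hS0 S hS
  have hn00 : 0 < n := Nat.pos_of_ne_zero hn0.out
  have hS1 : 1 ≤ S := le_trans Nat.one_le_two_pow h2pow
  have hS1' : (1 : ℝ) ≤ S := by exact_mod_cast hS1
  have hS0' : (0 : ℝ) < S := by linarith
  have hnP : n < S ^ P := by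
    rw [hPdef]
    exact Fin3a_pow h2pow hnS
  obtain ⟨N, hNdef⟩ : ∃ N : ℕ, N = ⌊(S : ℝ) ^ (1 / 16 : ℝ)⌋₊ := ⟨_, rfl⟩
  have hN1 : (N : ℝ) ≤ (S : ℝ) ^ (1 / 16 : ℝ) := by
    rw [hNdef]
    exact Nat.floor_le (by positivity)
  have hN2 : (S : ℝ) ^ (1 / 32 : ℝ) ≤ N := by
    have h5 : (S : ℝ) ^ (1 / 16 : ℝ) < N + 1 := by
      rw [hNdef]
      exact Nat.lt_floor_add_one _
    have h6 : (S : ℝ) ^ (1 / 16 : ℝ) = (S : ℝ) ^ (1 / 32 : ℝ) * (S : ℝ) ^ (1 / 32 : ℝ) := by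
      rw [← Real.rpow_add hS0']
      norm_num
    rw [h6] at h5
    nlinarith
  have hNpos : (0 : ℝ) < N := by linarith
  have hNS : (N : ℝ) ≤ S := by
    have h5 : (S : ℝ) ^ (1 / 16 : ℝ) ≤ (S : ℝ) ^ (1 : ℝ) :=
      Real.rpow_le_rpow_of_exponent_le hS1' (by norm_num)
    rw [Real.rpow_one] at h5
    exact hN1.trans h5
  have hS4 : (4 : ℝ) ≤ S := by linarith
  have hL0 : 0 < Real.log S := Real.log_pos (by linarith)
  have hNN : N0 ≤ N := by exact_mod_cast hNN0.trans hN2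
  have hpi := hN0 N hNN (Real.log S) (Real.log_le_log hNpos hNS) hL0
  have hK2 := Fin3a_log hS1 hn00 hnP hb0 hlogb
  have hlS : 4 * Real.log S ≤ (S : ℝ) ^ b := by
    have h5 : Real.log S ≤ (S : ℝ) ^ (b / 2) / (b / 2) :=
      Real.log_le_rpow_div hS0'.le (by positivity)
    have h6 : (S : ℝ) ^ b = (S : ℝ) ^ (b / 2) * (S : ℝ) ^ (b / 2) := by
      rw [← Real.rpow_add hS0']
      congr 1
      ring
    rw [h6]
    have h7 : 4 * ((S : ℝ) ^ (b / 2) / (b / 2)) = 8 / b * (S : ℝ) ^ (b / 2) := by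
      field_simp
      ring
    calc 4 * Real.log S ≤ 4 * ((S : ℝ) ^ (b / 2) / (b / 2)) := by linarith
      _ = 8 / b * (S : ℝ) ^ (b / 2) := h7
      _ ≤ (S : ℝ) ^ (b / 2) * (S : ℝ) ^ (b / 2) := mul_le_mul_of_nonneg_right h8b (by positivity)
  have hSb0 : 0 < (S : ℝ) ^ b := by positivity
  have hK3 : ((Nat.log 2 n + 1 : ℕ) : ℝ) ≤ N / (4 * Real.log S) := by
    rw [le_div_iff₀ (by positivity)]
    calc ((Nat.log 2 n + 1 : ℕ) : ℝ) * (4 * Real.log S) ≤ (S : ℝ) ^ b * (S : ℝ) ^ b :=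
          mul_le_mul hK2 hlS (by positivity) (by positivity)
      _ = (S : ℝ) ^ (b + b) := by rw [← Real.rpow_add hS0']
      _ ≤ (S : ℝ) ^ (1 / 32 : ℝ) := Real.rpow_le_rpow_of_exponent_le hS1' (by linarith)
      _ ≤ N := hN2
  have hcard : (Nat.primeCounting N : ℝ) ≤ #(PY n N) + Nat.log 2 n := by
    exact_mod_cast Fin3a_card (n := n) (N := N) hn00
  have hP' : (N : ℝ) / (4 * Real.log S) ≤ #(PY n N) := by
    have h5 : (N : ℝ) / (2 * Real.log S) = 2 * (N / (4 * Real.log S)) := by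
      field_simp
      ring
    rw [h5] at hpi
    push_cast at hK3
    linarith
  have hP'0 : (0 : ℝ) < #(PY n N) := lt_of_lt_of_le (by positivity) hP'
  have hP'1 : (N : ℝ) / #(PY n N) ≤ (S : ℝ) ^ b := by
    rw [div_le_iff₀ hP'0]
    rw [div_le_iff₀ (by positivity)] at hP'
    calc (N : ℝ) ≤ #(PY n N) * (4 * Real.log S) := hP'
      _ ≤ #(PY n N) * (S : ℝ) ^ b := mul_le_mul_of_nonneg_left hlS hP'0.le
      _ = (S : ℝ) ^ b * #(PY n N) := mul_comm _ _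
  have hne : (PY n N).Nonempty := by
    rw [← card_pos]
    exact_mod_cast hP'0
  have hκ0 : (0 : ℝ) ≤ 4 * (S : ℝ) ^ (-(1 / 4) : ℝ) := by positivity
  have hmain := scale hE (P' := PY n N) (N := N) (K2 := Nat.log 2 n + 1) (J := J) hne
    (fun q hq => by
      rw [mem_PY] at hq
      exact ⟨hq.2.1, hq.1, hq.2.2,
        Fin3a_good hk0 hS1 hχ hsum hN1 q hq.2.1 hq.2.2 hq.1⟩)
    (fun v hv hvn => by
      have h5 := Fin3a_om (PY n N) (fun q hq => (mem_PY.1 hq).2.1) hv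
      have h6 : Nat.log 2 v ≤ Nat.log 2 n := Nat.log_mono_right hvn.le
      omega)
    (by omega) hκ0 hEc (Fin3a_N hS1' hJdef hnP hN2) t ht1 htn
  refine hmain.trans ?_
  refine mul_le_mul_of_nonneg_right ?_ (Nat.cast_nonneg t)
  refine Fin3a_const hS1' hb1 (Nat.cast_nonneg _) hN1 (by positivity) ?_ h4
  rw [mul_div_assoc]
  exact mul_le_mul hK2 hP'1 (by positivity) (by positivity)

end Pool.Agent.Helper26.PG
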