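import Pool.Agent.Helper26.PG.Fin1
import Pool.Agent.Helper26.PG.Fin2
import Pool.Agent.Helper26.PG.Fin3

/-!
# PG-Final: the stabilizer is small

PROOF.  As PE-Final with `(4 k0 + 4) ε ≥ 60`.
-/

set_option autoImplicit false

namespace Pool.Agent.Helper26.PG

open Finset
open Pool.Agent.Helper26.PE (la la_mul la_prime la_one la_sq la_eq la_abs PS Tup mem_Tup card_Tup pr sm)

theorem stab_small (ε : ℝ) (hε : 0 < ε) : ∃ n0 : ℕ, ∀ (n : ℕ) [NeZero n], n0 ≤ n →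
    ∀ H : Subgroup (ZMod n)ˣ, Stab H → (Nat.card H : ℝ) ≤ (n : ℝ) ^ ε := by
  classical
  obtain ⟨k1, hk1⟩ := fin_two
  obtain ⟨k2, hk2⟩ := exists_nat_ge (15 / ε)
  obtain ⟨k0, hk0⟩ : ∃ k0 : ℕ, k0 = max (max k1 1) k2 := ⟨_, rfl⟩
  have hk01 : k1 ≤ k0 := by rw [hk0]; exact (le_max_left _ _).trans (le_max_left _ _)
  have hk02 : 1 ≤ k0 := by rw [hk0]; exact (le_max_right _ _).trans (le_max_left _ _)
  have hk03 : k2 ≤ k0 := by rw [hk0]; exact le_max_right _ _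
  have hKε : (60 : ℝ) ≤ ((4 * k0 + 4 : ℕ) : ℝ) * ε := by
    have h1 : 15 / ε ≤ (k0 : ℝ) := hk2.trans (by exact_mod_cast hk03)
    rw [div_le_iff₀ hε] at h1
    push_cast
    nlinarith
  obtain ⟨S1, hS1⟩ := fin_one k0 hk02
  obtain ⟨S2, hS2⟩ := hk1 k0 hk01
  obtain ⟨S3, hS3⟩ := fin_three k0 hk02
  obtain ⟨S0, hS0⟩ : ∃ S0 : ℕ, S0 = max (max S1 S2) (max S3 2) := ⟨_, rfl⟩
  have h01 : S1 ≤ S0 := by rw [hS0]; exact (le_max_left _ _).trans (le_max_left _ _)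
  have h02 : S2 ≤ S0 := by rw [hS0]; exact (le_max_right _ _).trans (le_max_left _ _)
  have h03 : S3 ≤ S0 := by rw [hS0]; exact (le_max_left _ _).trans (le_max_right _ _)
  have h04 : 2 ≤ S0 := by rw [hS0]; exact (le_max_right _ _).trans (le_max_right _ _)
  refine ⟨S0 ^ (4 * k0 + 4), ?_⟩
  intro n _ hn0 H hH
  by_contra hcon
  push Not at hcon
  -- the scale
  obtain ⟨S, hS⟩ : ∃ S : ℕ, S = Nat.findGreatest (fun S => S ^ (4 * k0 + 4) ≤ n) n := ⟨_, rfl⟩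
  have hS0n : S0 ≤ n := (Nat.le_self_pow (by omega) S0).trans hn0
  have hSS : S0 ≤ S := by
    rw [hS]
    exact Nat.le_findGreatest hS0n hn0
  have hSn : S ^ (4 * k0 + 4) ≤ n := by
    rw [hS]
    exact Nat.findGreatest_spec (P := fun S => S ^ (4 * k0 + 4) ≤ n) hS0n hn0
  have hS2' : 2 ≤ S := h04.trans hSS
  have hS1n : S + 1 ≤ n := by
    have h1 : S + 1 ≤ S ^ 2 := by nlinarith
    have h2 : S ^ 2 ≤ S ^ (4 * k0 + 4) := Nat.pow_le_pow_right (by omega) (by omega)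
    exact h1.trans (h2.trans hSn)
  have hnS : n < (S + 1) ^ (4 * k0 + 4) := by
    have h1 : ¬ (S + 1) ^ (4 * k0 + 4) ≤ n :=
      Nat.findGreatest_is_greatest (P := fun S => S ^ (4 * k0 + 4) ≤ n) (n := n)
        (by rw [← hS]; exact Nat.lt_succ_self S) hS1n
    exact not_le.1 h1
  have hcard : S ^ 60 ≤ Nat.card H := by
    have h1 : (1 : ℝ) ≤ (S : ℝ) := by exact_mod_cast (by omega : 1 ≤ S)
    have h2 : ((S : ℝ) ^ (4 * k0 + 4)) ≤ (n : ℝ) := by exact_mod_cast hSn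
    have h3 : ((S : ℝ) ^ (4 * k0 + 4)) ^ ε ≤ (n : ℝ) ^ ε :=
      Real.rpow_le_rpow (by positivity) h2 hε.le
    have h4 : (S : ℝ) ^ (60 : ℝ) ≤ ((S : ℝ) ^ (4 * k0 + 4)) ^ ε := by
      rw [← Real.rpow_natCast, ← Real.rpow_mul (by positivity)]
      exact Real.rpow_le_rpow_of_exponent_le h1 hKε
    have h5 : (S : ℝ) ^ (60 : ℝ) = (S : ℝ) ^ 60 := by
      rw [← Real.rpow_natCast]
      norm_num
    rw [h5] at h4
    have h6 : ((S ^ 60 : ℕ) : ℝ) ≤ ((Nat.card H : ℕ) : ℝ) := by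
      push_cast
      linarith
    exact_mod_cast h6
  obtain ⟨χ, s, hχ2, hχ1, hsum, hs, hE⟩ := hS2 S (h02.trans hSS) n hSn hnS
    (hS1 S (h01.trans hSS) n hSn hnS H hH hcard)
  exact hS3 S (h03.trans hSS) n hSn hnS χ s hχ2 hχ1 hsum hs hE

end Pool.Agent.Helper26.PG
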