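import Pool.Agent.Helper26.PG.BetaM
import Pool.Agent.Helper26.PG.Fin1G
import Pool.Agent.Helper26.PG.Fin2
import Pool.Agent.Helper26.PG.Fin3

/-!
# PG-FinalM: there are few bad columns (sharper)

PROOF.  As FinalW with `κ = ε - 2 δ > 0`; `(4 k0 + 4) κ ≥ 2000`, `d = ⌈(4 k0 + 4) δ⌉₊ + 1`: `n / A ≤ 2 n ^ δ ≤ S ^ d` (large `S`),
`30 + 2 d ≤ 34 + (4 k0 + 4) (ε - κ) ≤ (4 k0 + 4) ε`, `50 + 2 d + 1 ≤ 55 + (4 k0 + 4) (ε - κ) ≤ (4 k0 + 4) (ε - κ / 4)`,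
`8 + d ≤ 10 + (4 k0 + 4) δ ≤ 4 k0 + 4` (`δ < 1 / 2`).
-/

set_option autoImplicit false

namespace Pool.Agent.Helper26.PG

open Finset
open Pool.Agent.Helper26.PE (la la_mul la_prime la_one la_sq la_eq la_abs PS Tup mem_Tup card_Tup pr sm)

theorem nearM_small (δ ε : ℝ) (hδ : 0 ≤ δ) (hδε : 2 * δ < ε) (hε1 : ε ≤ 1) (C : ℝ) :
    ∃ n0 : ℕ, ∀ (n : ℕ) [NeZero n], n0 ≤ n → ∀ (K : Finset (ZMod n)ˣ) (A : ℕ), A < n →
    (n : ℝ) ^ (1 - δ) ≤ A + 1 → NearW K A (C * (n : ℝ) ^ (1 - ε + (ε - 2 * δ) / 4)) →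
    (#K : ℝ) ≤ (n : ℝ) ^ ε := by
  classical
  obtain ⟨κ, hκ⟩ : ∃ κ : ℝ, κ = ε - 2 * δ := ⟨_, rfl⟩
  have hκ0 : 0 < κ := by
    rw [hκ]
    linarith
  have hκ1 : κ ≤ 1 := by
    rw [hκ]
    linarith
  have hδ1 : δ ≤ 1 / 2 := by linarith
  rw [← hκ]
  obtain ⟨k1, hk1⟩ := fin_two
  obtain ⟨k2, hk2⟩ := exists_nat_ge (500 / κ)
  obtain ⟨k0, hk0⟩ : ∃ k0 : ℕ, k0 = max (max k1 1) k2 := ⟨_, rfl⟩
  have hk01 : k1 ≤ k0 := by rw [hk0]; exact (le_max_left _ _).trans (le_max_left _ _)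
  have hk02 : 1 ≤ k0 := by rw [hk0]; exact (le_max_right _ _).trans (le_max_left _ _)
  have hk03 : k2 ≤ k0 := by rw [hk0]; exact le_max_right _ _
  obtain ⟨m, hm⟩ : ∃ m : ℕ, m = 4 * k0 + 4 := ⟨_, rfl⟩
  have hmκ : (2000 : ℝ) ≤ (m : ℝ) * κ := by
    have h1 : 500 / κ ≤ (k0 : ℝ) := hk2.trans (by exact_mod_cast hk03)
    rw [div_le_iff₀ hκ0] at h1
    rw [hm]
    push_cast
    nlinarith
  have hm2000 : (2000 : ℝ) ≤ (m : ℝ) := by
    have h1 : (0 : ℝ) ≤ m := by positivity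
    nlinarith
  obtain ⟨d, hd⟩ : ∃ d : ℕ, d = ⌈(m : ℝ) * δ⌉₊ + 1 := ⟨_, rfl⟩
  have hmδ0 : 0 ≤ (m : ℝ) * δ := by positivity
  have hd1 : (m : ℝ) * δ + 1 ≤ d := by
    rw [hd]
    push_cast
    have := Nat.le_ceil ((m : ℝ) * δ)
    linarith
  have hd2 : (d : ℝ) ≤ (m : ℝ) * δ + 2 := by
    rw [hd]
    push_cast
    have := Nat.ceil_lt_add_one hmδ0
    linarith
  have hmε : (m : ℝ) * (2 * δ) = m * ε - m * κ := by
    rw [hκ]
    ring
  obtain ⟨S1, hS1⟩ := fin_core k0 hk02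
  obtain ⟨S2, hS2⟩ := hk1 k0 hk01
  obtain ⟨S3, hS3⟩ := fin_three k0 hk02
  obtain ⟨S4, hS4⟩ := fin_betaM d
  obtain ⟨S5, hS5⟩ := exists_nat_ge C
  obtain ⟨S0, hS0⟩ : ∃ S0 : ℕ, S0 = max (max (max S1 S2) (max S3 2)) (max (max S4 S5) (2 ^ (m + 1))) :=
    ⟨_, rfl⟩
  have h01 : S1 ≤ S0 := by
    rw [hS0]
    exact ((le_max_left _ _).trans (le_max_left _ _)).trans (le_max_left _ _)
  have h02 : S2 ≤ S0 := by
    rw [hS0]
    exact ((le_max_right _ _).trans (le_max_left _ _)).trans (le_max_left _ _)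
  have h03 : S3 ≤ S0 := by
    rw [hS0]
    exact ((le_max_left _ _).trans (le_max_right _ _)).trans (le_max_left _ _)
  have h04 : 2 ≤ S0 := by
    rw [hS0]
    exact ((le_max_right _ _).trans (le_max_right _ _)).trans (le_max_left _ _)
  have h05 : S4 ≤ S0 := by
    rw [hS0]
    exact ((le_max_left _ _).trans (le_max_left _ _)).trans (le_max_right _ _)
  have h06 : S5 ≤ S0 := by
    rw [hS0]
    exact ((le_max_right _ _).trans (le_max_left _ _)).trans (le_max_right _ _)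
  have h07 : 2 ^ (m + 1) ≤ S0 := by
    rw [hS0]
    exact (le_max_right _ _).trans (le_max_right _ _)
  refine ⟨S0 ^ (4 * k0 + 4), ?_⟩
  intro n _ hn0 K A hAn hnA hK
  by_contra hcon
  push Not at hcon
  -- the scale
  obtain ⟨S, hS⟩ : ∃ S : ℕ, S = Nat.findGreatest (fun S => S ^ (4 * k0 + 4) ≤ n) n := ⟨_, rfl⟩
  have hS0n : S0 ≤ n := (Nat.le_self_pow (by omega) S0).trans hn0
  have hSS : S0 ≤ S := by
    rw [hS]
    exact Nat.le_findGreatest hS0n hn0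
  have hSn : S ^ (4 * k0 + 4) ≤ n := by
    rw [hS]
    exact Nat.findGreatest_spec (P := fun S => S ^ (4 * k0 + 4) ≤ n) hS0n hn0
  have hS2' : 2 ≤ S := h04.trans hSS
  have hS1n : S + 1 ≤ n := by
    have h1 : S + 1 ≤ S ^ 2 := by nlinarith
    have h2 : S ^ 2 ≤ S ^ (4 * k0 + 4) := Nat.pow_le_pow_right (by omega) (by omega)
    exact h1.trans (h2.trans hSn)
  have hnS : n < (S + 1) ^ (4 * k0 + 4) := by
    have h1 : ¬ (S + 1) ^ (4 * k0 + 4) ≤ n :=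
      Nat.findGreatest_is_greatest (P := fun S => S ^ (4 * k0 + 4) ≤ n) (n := n)
        (by rw [← hS]; exact Nat.lt_succ_self S) hS1n
    exact not_le.1 h1
  have hSr1 : (1 : ℝ) ≤ (S : ℝ) := by exact_mod_cast (by omega : 1 ≤ S)
  have hSr0 : (0 : ℝ) < (S : ℝ) := by linarith
  have hSnr : ((S : ℝ) ^ (m : ℝ)) ≤ (n : ℝ) := by
    rw [Real.rpow_natCast, hm]
    exact_mod_cast hSn
  have hnr1 : (1 : ℝ) ≤ (n : ℝ) := by
    have : 1 ≤ n := by omega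
    exact_mod_cast this
  have hnr0 : (0 : ℝ) < (n : ℝ) := by linarith
  have hpw : ∀ t : ℝ, 0 ≤ t → (S : ℝ) ^ ((m : ℝ) * t) ≤ (n : ℝ) ^ t := by
    intro t ht
    rw [Real.rpow_mul hSr0.le]
    exact Real.rpow_le_rpow (by positivity) hSnr ht
  -- the subset
  have hcard : S ^ (30 + 2 * d) ≤ #K := by
    have h1 : (S : ℝ) ^ (((30 + 2 * d : ℕ) : ℝ)) ≤ (n : ℝ) ^ ε := by
      refine le_trans ?_ (hpw ε (by linarith))
      apply Real.rpow_le_rpow_of_exponent_le hSr1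
      push_cast
      nlinarith
    rw [Real.rpow_natCast] at h1
    have h6 : ((S ^ (30 + 2 * d) : ℕ) : ℝ) ≤ ((#K : ℕ) : ℝ) := by
      push_cast
      linarith
    exact_mod_cast h6
  obtain ⟨K', hK'sub, hK'c⟩ := Finset.exists_subset_card_eq hcard
  -- the window
  have hA : n ≤ A * S ^ d := by
    have h1 : (2 : ℝ) ≤ (n : ℝ) ^ (1 - δ) := by
      calc (2 : ℝ) ≤ (S : ℝ) := by exact_mod_cast hS2'
        _ = (S : ℝ) ^ (1 : ℝ) := (Real.rpow_one _).symm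
        _ ≤ (S : ℝ) ^ ((m : ℝ) * (1 - δ)) := by
            apply Real.rpow_le_rpow_of_exponent_le hSr1
            nlinarith
        _ ≤ (n : ℝ) ^ (1 - δ) := hpw _ (by linarith)
    have h2 : (n : ℝ) ^ (1 - δ) ≤ 2 * (A : ℝ) := by linarith
    have h3 : (n : ℝ) ^ δ ≤ (2 : ℝ) ^ m * (S : ℝ) ^ ((m : ℝ) * δ) := by
      have h4 : (n : ℝ) ≤ ((2 : ℝ) * S) ^ m := by
        have h5 : n ≤ (2 * S) ^ (4 * k0 + 4) :=
          hnS.le.trans (Nat.pow_le_pow_left (by omega) _)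
        rw [hm]
        exact_mod_cast h5
      calc (n : ℝ) ^ δ ≤ (((2 : ℝ) * S) ^ m) ^ δ := Real.rpow_le_rpow hnr0.le h4 hδ
        _ = ((2 : ℝ) * S) ^ ((m : ℝ) * δ) := by
            rw [← Real.rpow_natCast, ← Real.rpow_mul (by positivity)]
        _ = (2 : ℝ) ^ ((m : ℝ) * δ) * (S : ℝ) ^ ((m : ℝ) * δ) :=
            Real.mul_rpow (by norm_num) hSr0.le
        _ ≤ (2 : ℝ) ^ m * (S : ℝ) ^ ((m : ℝ) * δ) := by
            apply mul_le_mul_of_nonneg_right _ (by positivity)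
            rw [← Real.rpow_natCast 2 m]
            apply Real.rpow_le_rpow_of_exponent_le (by norm_num)
            nlinarith
    have h4 : 2 * (2 : ℝ) ^ m ≤ (S : ℝ) := by
      have h5 : (2 : ℝ) ^ (m + 1) ≤ (S : ℝ) := by exact_mod_cast h07.trans hSS
      rw [pow_succ] at h5
      linarith
    have h6 : (n : ℝ) ≤ (A : ℝ) * (S : ℝ) ^ d := by
      calc (n : ℝ) = (n : ℝ) ^ (1 - δ) * (n : ℝ) ^ δ := by
            rw [← Real.rpow_add hnr0]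
            rw [show 1 - δ + δ = 1 by ring, Real.rpow_one]
        _ ≤ (2 * (A : ℝ)) * ((2 : ℝ) ^ m * (S : ℝ) ^ ((m : ℝ) * δ)) :=
            mul_le_mul h2 h3 (by positivity) (by positivity)
        _ = (A : ℝ) * (2 * (2 : ℝ) ^ m * (S : ℝ) ^ ((m : ℝ) * δ)) := by ring
        _ ≤ (A : ℝ) * (S * (S : ℝ) ^ ((m : ℝ) * δ)) := by
            apply mul_le_mul_of_nonneg_left _ (by positivity)
            exact mul_le_mul_of_nonneg_right h4 (by positivity)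
        _ = (A : ℝ) * (S : ℝ) ^ (1 + (m : ℝ) * δ) := by
            rw [Real.rpow_add hSr0, Real.rpow_one]
        _ ≤ (A : ℝ) * (S : ℝ) ^ ((d : ℝ)) := by
            apply mul_le_mul_of_nonneg_left _ (by positivity)
            apply Real.rpow_le_rpow_of_exponent_le hSr1
            linarith
        _ = (A : ℝ) * (S : ℝ) ^ d := by rw [Real.rpow_natCast]
    exact_mod_cast h6
  -- the exceptions
  have hE : C * (n : ℝ) ^ (1 - ε + κ / 4) ≤ n / (S : ℝ) ^ (50 + 2 * d) := by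
    rw [le_div_iff₀ (by positivity)]
    have hCS : C ≤ (S : ℝ) := hS5.trans (by exact_mod_cast h06.trans hSS)
    have h1 : (S : ℝ) * (S : ℝ) ^ (50 + 2 * d) ≤ (n : ℝ) ^ (ε - κ / 4) := by
      calc (S : ℝ) * (S : ℝ) ^ (50 + 2 * d) = (S : ℝ) ^ (((51 + 2 * d : ℕ) : ℝ)) := by
            rw [Real.rpow_natCast]
            ring
        _ ≤ (S : ℝ) ^ ((m : ℝ) * (ε - κ / 4)) := by
            apply Real.rpow_le_rpow_of_exponent_le hSr1
            push_cast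
            nlinarith
        _ ≤ (n : ℝ) ^ (ε - κ / 4) := hpw _ (by linarith)
    calc C * (n : ℝ) ^ (1 - ε + κ / 4) * (S : ℝ) ^ (50 + 2 * d)
        ≤ S * (n : ℝ) ^ (1 - ε + κ / 4) * (S : ℝ) ^ (50 + 2 * d) := by
          apply mul_le_mul_of_nonneg_right _ (by positivity)
          exact mul_le_mul_of_nonneg_right hCS (by positivity)
      _ = (n : ℝ) ^ (1 - ε + κ / 4) * (S * (S : ℝ) ^ (50 + 2 * d)) := by ring
      _ ≤ (n : ℝ) ^ (1 - ε + κ / 4) * (n : ℝ) ^ (ε - κ / 4) :=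
          mul_le_mul_of_nonneg_left h1 (by positivity)
      _ = n := by
          rw [← Real.rpow_add hnr0]
          rw [show 1 - ε + κ / 4 + (ε - κ / 4) = 1 by ring, Real.rpow_one]
  have hK' : NearW K' A (n / (S : ℝ) ^ (50 + 2 * d)) := by
    intro k hk
    obtain ⟨s, hs⟩ := hK k (hK'sub hk)
    exact ⟨s, hs.trans hE⟩
  have hS8 : S ^ (8 + d) ≤ n := by
    refine le_trans (Nat.pow_le_pow_right (by omega) ?_) hSn
    have h1 : ((8 + d : ℕ) : ℝ) ≤ ((4 * k0 + 4 : ℕ) : ℝ) := by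
      rw [← hm]
      push_cast
      nlinarith
    exact_mod_cast h1
  have hB := hS4 S (h05.trans hSS) n hS8 K' A hK'c hAn hA hK'
  obtain ⟨χ, s, hχ2, hχ1, hsum, hs, hEx⟩ := hS2 S (h02.trans hSS) n hSn hnS
    (hS1 S (h01.trans hSS) n hSn hnS hB)
  exact hS3 S (h03.trans hSS) n hSn hnS χ s hχ2 hχ1 hsum hs hEx

end Pool.Agent.Helper26.PG
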