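import Pool.Agent.Helper26.PG.Defs

/-!
# PG-Harm: the harmonic sum over the integers coprime to `n`; powers of the radical

PROOF.  `G = n.primeFactors`, `⟨G⟩` = `Nat.factoredNumbers G`.  (1) Multiply the sum by `n / φ(n) = ∏ q ∣ n, (1 - 1/q)⁻¹
= ∑ d ∈ ⟨G⟩, 1 / d` (Euler product over `factoredNumbers`).  `d ≤ D`: the products `d t` are distinct and `≤ D T`, so
`≤ 1 + log (D T)`.  `d > D`: `∑ d > D, 1 / d ≤ D ^ (-1/2) ∑ d, d ^ (-1/2) = D ^ (-1/2) ∏ q ∣ n, (1 - q ^ (-1/2))⁻¹ ≤ D ^ (-1/2) 4 ^ ω(n)`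
(`(1 - 2 ^ (-1/2))⁻¹ ≤ 4`), times `1 + log T`.  Take `D = 16 ^ ω(n)`.  (It is enough to use finite sets of `d`: all `d ∈ ⟨G⟩`,
`d ≤ X`, and let `X` grow, or the `HasSum` statements of Mathlib.)  (2) the same bound for `∑ d ∈ ⟨G⟩, d ^ (-1/2)`.
-/

set_option autoImplicit false

namespace Pool.Agent.Helper26.PG

open Finset
open Pool.Agent.Helper26.PE (la la_mul la_prime la_one la_sq la_eq la_abs PS Tup mem_Tup card_Tup pr sm)

/-- `d ↦ 1 / d` as a homomorphism -/
noncomputable def invHom : ℕ →* ℝ where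
  toFun d := 1 / (d : ℝ)
  map_one' := by simp
  map_mul' a b := by
    rw [Nat.cast_mul, one_div_mul_one_div]

/-- `d ↦ 1 / √d` as a homomorphism -/
noncomputable def rtHom : ℕ →* ℝ where
  toFun d := 1 / √(d : ℝ)
  map_one' := by simp
  map_mul' a b := by
    rw [Nat.cast_mul, Real.sqrt_mul (Nat.cast_nonneg a), one_div_mul_one_div]

theorem invHom_apply (d : ℕ) : invHom d = 1 / (d : ℝ) := rfl

theorem rtHom_apply (d : ℕ) : rtHom d = 1 / √(d : ℝ) := rfl

theorem rtHom_nonneg (d : ℕ) : 0 ≤ rtHom d := by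
  rw [rtHom_apply]
  positivity

theorem invHom_nonneg (d : ℕ) : 0 ≤ invHom d := by
  rw [invHom_apply]
  positivity

theorem rt_prime_le {p : ℕ} (hp : p.Prime) : rtHom p ≤ 3 / 4 := by
  have h2 : (2 : ℝ) ≤ p := by exact_mod_cast hp.two_le
  have h3 : (4 / 3 : ℝ) ≤ √(p : ℝ) := by
    apply Real.le_sqrt_of_sq_le
    nlinarith
  rw [rtHom_apply, div_le_iff₀ (by linarith)]
  linarith

theorem inv_prime_le {p : ℕ} (hp : p.Prime) : invHom p ≤ 1 / 2 := by
  have h2 : (2 : ℝ) ≤ p := by exact_mod_cast hp.two_le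
  rw [invHom_apply, div_le_iff₀ (by linarith)]
  linarith

theorem rt_hasSum (n : ℕ) :
    HasSum (fun m : Nat.factoredNumbers n.primeFactors => rtHom m)
      (∏ p ∈ n.primeFactors with p.Prime, (1 - rtHom p)⁻¹) := by
  refine (EulerProduct.summable_and_hasSum_factoredNumbers_prod_filter_prime_geometric
    (f := rtHom) ?_ n.primeFactors).2
  intro p hp
  rw [Real.norm_eq_abs, abs_of_nonneg (rtHom_nonneg p)]
  linarith [rt_prime_le hp]

theorem inv_hasSum (n : ℕ) :
    HasSum (fun m : Nat.factoredNumbers n.primeFactors => invHom m)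
      (∏ p ∈ n.primeFactors with p.Prime, (1 - invHom p)⁻¹) := by
  refine (EulerProduct.summable_and_hasSum_factoredNumbers_prod_filter_prime_geometric
    (f := invHom) ?_ n.primeFactors).2
  intro p hp
  rw [Real.norm_eq_abs, abs_of_nonneg (invHom_nonneg p)]
  linarith [inv_prime_le hp]

theorem filt_prime (n : ℕ) : (n.primeFactors.filter fun p => p.Prime) = n.primeFactors := by
  rw [Finset.filter_eq_self]
  intro p hp
  exact Nat.prime_of_mem_primeFactors hp

theorem rt_prod_le (n : ℕ) :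
    (∏ p ∈ n.primeFactors with p.Prime, (1 - rtHom p)⁻¹) ≤ (4 : ℝ) ^ #n.primeFactors := by
  rw [filt_prime, ← Finset.prod_const]
  apply Finset.prod_le_prod
  · intro p hp
    have h := rt_prime_le (Nat.prime_of_mem_primeFactors hp)
    exact inv_nonneg.2 (by linarith)
  · intro p hp
    have h := rt_prime_le (Nat.prime_of_mem_primeFactors hp)
    rw [inv_le_comm₀ (by linarith) (by norm_num)]
    linarith

theorem rt_fin (n : ℕ) (A : Finset (Nat.factoredNumbers n.primeFactors)) :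
    ∑ d ∈ A, rtHom (d : ℕ) ≤ (4 : ℝ) ^ #n.primeFactors :=
  (sum_le_hasSum A (fun i _ => rtHom_nonneg _) (rt_hasSum n)).trans (rt_prod_le n)

theorem inv_prod_eq (n : ℕ) (hn : 0 < n) :
    (∏ p ∈ n.primeFactors with p.Prime, (1 - invHom p)⁻¹) = (n : ℝ) / n.totient := by
  rw [filt_prime, Finset.prod_inv_distrib]
  have h1 : ((n.totient : ℚ) : ℝ) = ((n * ∏ p ∈ n.primeFactors, (1 - (p : ℚ)⁻¹) : ℚ) : ℝ) := by
    rw [Nat.totient_eq_mul_prod_factors n]
  have h2 : (n.totient : ℝ) = n * ∏ p ∈ n.primeFactors, (1 - invHom p) := by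
    have h3 : ∀ p ∈ n.primeFactors, 1 - invHom p = 1 - (p : ℝ)⁻¹ := by
      intro p _
      rw [invHom_apply, one_div]
    rw [Finset.prod_congr rfl h3]
    push_cast at h1
    exact h1
  have hn' : (n : ℝ) ≠ 0 := by
    have : (0 : ℝ) < n := by exact_mod_cast hn
    exact this.ne'
  have ht : (n.totient : ℝ) ≠ 0 := by
    have : 0 < n.totient := Nat.totient_pos.2 hn
    have : (0 : ℝ) < n.totient := by exact_mod_cast this
    exact this.ne'
  have hP : (∏ p ∈ n.primeFactors, (1 - invHom p)) ≠ 0 := by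
    intro h0
    rw [h0, mul_zero] at h2
    exact ht h2
  rw [h2, div_eq_mul_inv, mul_inv, ← mul_assoc, mul_inv_cancel₀ hn', one_mul]

theorem harm_le (N : ℕ) : ∑ m ∈ Icc 1 N, 1 / (m : ℝ) ≤ 1 + Real.log N := by
  have h := harmonic_le_one_add_log N
  rw [harmonic_eq_sum_Icc] at h
  push_cast at h
  simpa only [one_div] using h

/-- the products of an integer coprime to `n` and an integer with prime factors in `n` are distinct -/
theorem prod_inj {n t t' d d' : ℕ} (ht : Nat.Coprime t n) (ht' : Nat.Coprime t' n) (ht0 : t ≠ 0)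
    (ht0' : t' ≠ 0) (hn : n ≠ 0) (hd : d ≠ 0) (hd' : d' ≠ 0) (hdn : d.primeFactors ⊆ n.primeFactors)
    (hdn' : d'.primeFactors ⊆ n.primeFactors) (h : t * d = t' * d') : t = t' ∧ d = d' := by
  have cop : ∀ {a b : ℕ}, Nat.Coprime a n → a ≠ 0 → b ≠ 0 → b.primeFactors ⊆ n.primeFactors →
      Nat.Coprime b a := by
    intro a b ha ha0 hb0 hb
    rw [← Nat.disjoint_primeFactors hb0 ha0]
    exact ((Nat.disjoint_primeFactors ha0 hn).2 ha).symm.mono_left hb
  have h1 : d ∣ d' := by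
    have h3 : d ∣ t' * d' := ⟨t, by rw [← h, mul_comm]⟩
    exact (cop ht' ht0' hd hdn).dvd_of_dvd_mul_left h3
  have h2 : d' ∣ d := by
    have h3 : d' ∣ t * d := ⟨t', by rw [h, mul_comm]⟩
    exact (cop ht ht0 hd' hdn').dvd_of_dvd_mul_left h3
  have h4 : d = d' := Nat.dvd_antisymm h1 h2
  refine ⟨?_, h4⟩
  rw [h4] at h
  exact Nat.eq_of_mul_eq_mul_right (Nat.pos_of_ne_zero hd') h

theorem part_small (n T D : ℕ) (hn : 0 < n) (hT : 1 ≤ T) (hD : 1 ≤ D)
    (A : Finset (Nat.factoredNumbers n.primeFactors)) (hA : ∀ d ∈ A, (d : ℕ) ≤ D) :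
    (∑ t ∈ (Icc 1 T).filter (fun t => Nat.Coprime t n), 1 / (t : ℝ)) *
      ∑ d ∈ A, invHom (d : ℕ) ≤ 1 + Real.log T + Real.log D := by
  classical
  have h1 : (∑ t ∈ (Icc 1 T).filter (fun t => Nat.Coprime t n), 1 / (t : ℝ)) *
      ∑ d ∈ A, invHom (d : ℕ) =
      ∑ c ∈ ((Icc 1 T).filter (fun t => Nat.Coprime t n)) ×ˢ A, 1 / ((c.1 * (c.2 : ℕ) : ℕ) : ℝ) := by
    rw [Finset.sum_mul_sum, Finset.sum_product]
    refine Finset.sum_congr rfl fun t _ => Finset.sum_congr rfl fun d _ => ?_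
    rw [invHom_apply, one_div_mul_one_div, Nat.cast_mul]
  have hinj : Set.InjOn (fun c : ℕ × Nat.factoredNumbers n.primeFactors => c.1 * (c.2 : ℕ))
      (((Icc 1 T).filter (fun t => Nat.Coprime t n)) ×ˢ A : Finset _) := by
    intro c hc c' hc' h
    rw [Finset.mem_coe, Finset.mem_product, Finset.mem_filter, Finset.mem_Icc] at hc hc'
    have e := Nat.mem_factoredNumbers_iff_primeFactors_subset.1 c.2.2
    have e' := Nat.mem_factoredNumbers_iff_primeFactors_subset.1 c'.2.2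
    have h5 := prod_inj hc.1.2 hc'.1.2 (by omega) (by omega) hn.ne' e.1 e'.1 e.2 e'.2 h
    exact Prod.ext h5.1 (Subtype.ext h5.2)
  have h2 := Finset.sum_image (f := fun m : ℕ => 1 / (m : ℝ)) hinj
  have h3 : (((Icc 1 T).filter (fun t => Nat.Coprime t n)) ×ˢ A).image
      (fun c : ℕ × Nat.factoredNumbers n.primeFactors => c.1 * (c.2 : ℕ)) ⊆ Icc 1 (T * D) := by
    intro m hm
    rw [Finset.mem_image] at hm
    obtain ⟨c, hc, rfl⟩ := hm
    rw [Finset.mem_product, Finset.mem_filter, Finset.mem_Icc] at hc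
    have e := Nat.mem_factoredNumbers_iff_primeFactors_subset.1 c.2.2
    rw [Finset.mem_Icc]
    refine ⟨?_, Nat.mul_le_mul hc.1.1.2 (hA _ hc.2)⟩
    exact Nat.mul_pos (by omega) (Nat.pos_of_ne_zero e.1)
  rw [h1, ← h2]
  refine (Finset.sum_le_sum_of_subset_of_nonneg h3 fun m _ _ => by positivity).trans ?_
  refine (harm_le (T * D)).trans ?_
  have hT' : (T : ℝ) ≠ 0 := by
    have : (1 : ℝ) ≤ T := by exact_mod_cast hT
    linarith
  have hD' : (D : ℝ) ≠ 0 := by
    have : (1 : ℝ) ≤ D := by exact_mod_cast hD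
    linarith
  rw [Nat.cast_mul, Real.log_mul hT' hD', add_assoc]

theorem part_large (n : ℕ) (A : Finset (Nat.factoredNumbers n.primeFactors))
    (hA : ∀ d ∈ A, 16 ^ #n.primeFactors < (d : ℕ)) :
    ∑ d ∈ A, invHom (d : ℕ) ≤ 1 := by
  have h4 : (0 : ℝ) < 4 ^ #n.primeFactors := by positivity
  have h1 : ∀ d ∈ A, invHom (d : ℕ) ≤ rtHom (d : ℕ) * (1 / 4 ^ #n.primeFactors) := by
    intro d hd
    have h5 : ((16 : ℝ) ^ #n.primeFactors) < ((d : ℕ) : ℝ) := by
      have := hA d hd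
      exact_mod_cast this
    have h6 : ((4 : ℝ) ^ #n.primeFactors) ≤ √((d : ℕ) : ℝ) := by
      apply Real.le_sqrt_of_sq_le
      rw [← pow_mul, mul_comm, pow_mul]
      norm_num
      exact h5.le
    rw [invHom_apply, rtHom_apply, one_div_mul_one_div]
    apply one_div_le_one_div_of_le (mul_pos (h4.trans_le h6) h4)
    calc √((d : ℕ) : ℝ) * 4 ^ #n.primeFactors ≤ √((d : ℕ) : ℝ) * √((d : ℕ) : ℝ) :=
          mul_le_mul_of_nonneg_left h6 (Real.sqrt_nonneg _)
      _ = ((d : ℕ) : ℝ) := Real.mul_self_sqrt (Nat.cast_nonneg _)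
  refine (Finset.sum_le_sum h1).trans ?_
  rw [← Finset.sum_mul, mul_one_div, div_le_one h4]
  exact rt_fin n A

theorem harm (n T : ℕ) (hn : 0 < n) (hT : 1 ≤ T) :
    ∑ t ∈ (Icc 1 T).filter (fun t => Nat.Coprime t n), 1 / (t : ℝ) ≤
      (n.totient : ℝ) / n * (2 + 2 * Real.log T + #n.primeFactors * Real.log 16) := by
  classical
  set S : ℝ := ∑ t ∈ (Icc 1 T).filter (fun t => Nat.Coprime t n), 1 / (t : ℝ) with hS
  have hS0 : 0 ≤ S := Finset.sum_nonneg fun t _ => by positivity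
  have hS1 : S ≤ 1 + Real.log T :=
    (Finset.sum_le_sum_of_subset_of_nonneg (Finset.filter_subset _ _)
      fun m _ _ => by positivity).trans (harm_le T)
  have key : ∀ A : Finset (Nat.factoredNumbers n.primeFactors),
      ∑ d ∈ A, S * invHom (d : ℕ) ≤ 2 + 2 * Real.log T + #n.primeFactors * Real.log 16 := by
    intro A
    rw [← Finset.mul_sum, ← Finset.sum_filter_add_sum_filter_not A
      (fun d : Nat.factoredNumbers n.primeFactors => (d : ℕ) ≤ 16 ^ #n.primeFactors), mul_add]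
    have h1 := part_small n T (16 ^ #n.primeFactors) hn hT (Nat.one_le_pow _ _ (by norm_num))
      (A.filter fun d => (d : ℕ) ≤ 16 ^ #n.primeFactors) (fun d hd => (Finset.mem_filter.1 hd).2)
    have h2 := part_large n (A.filter fun d => ¬ (d : ℕ) ≤ 16 ^ #n.primeFactors)
      (fun d hd => not_le.1 (Finset.mem_filter.1 hd).2)
    rw [← hS] at h1
    have h3 : Real.log ((16 ^ #n.primeFactors : ℕ) : ℝ) = #n.primeFactors * Real.log 16 := by
      rw [Nat.cast_pow, Real.log_pow]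
      norm_num
    rw [h3] at h1
    have h4 := mul_le_mul_of_nonneg_left h2 hS0
    linarith
  have h5 := (inv_hasSum n).mul_left S
  have h6 := hasSum_le_of_sum_le h5 key
  rw [inv_prod_eq n hn] at h6
  have hn' : (0 : ℝ) < n := by exact_mod_cast hn
  have ht : (0 : ℝ) < n.totient := by
    have : 0 < n.totient := Nat.totient_pos.2 hn
    exact_mod_cast this
  have h7 : S = (n.totient : ℝ) / n * (S * ((n : ℝ) / n.totient)) := by
    field_simp
  rw [h7]
  exact mul_le_mul_of_nonneg_left h6 (by positivity)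

theorem half_sum (n x : ℕ) (hn : 0 < n) :
    ∑ d ∈ (Icc 1 x).filter (fun d => d.primeFactors ⊆ n.primeFactors), 1 / √(d : ℝ) ≤
      (4 : ℝ) ^ #n.primeFactors := by
  classical
  have h1 := rt_fin n (((Icc 1 x).filter (fun d => d.primeFactors ⊆ n.primeFactors)).subtype
    (fun d => d ∈ Nat.factoredNumbers n.primeFactors))
  rw [Finset.sum_subtype_of_mem (fun d => rtHom d)] at h1
  · exact h1
  · intro d hd
    rw [Finset.mem_filter, Finset.mem_Icc] at hd
    exact Nat.mem_factoredNumbers_iff_primeFactors_subset.2 ⟨by omega, hd.2⟩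

end Pool.Agent.Helper26.PG
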