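import Pool.Agent.Helper26.PG.Defs

/-!
# PG-Mass: Parseval for the characters modulo `n`

PROOF.  As PE-Mass; `(∑ χ, |∑ x, G x conj (χ x)| ^ 2) = φ(n) ∑ x unit, |G x| ^ 2`.
-/

set_option autoImplicit false

namespace Pool.Agent.Helper26.PG

open Finset
open Pool.Agent.Helper26.PE (la la_mul la_prime la_one la_sq la_eq la_abs PS Tup mem_Tup card_Tup pr sm)

variable {n : ℕ} [hn0 : NeZero n]


/-- the coefficient of `F` at `χ` (the sum runs over the units only, as `χ x = 0` otherwise) -/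
noncomputable def cf (χ : DirichletCharacter ℂ n) : ℂ :=
  (∑ x : ZMod n, (F x : ℂ) * (starRingEnd ℂ) (χ x)) / (n.totient : ℂ)

private theorem conj_char (χ : DirichletCharacter ℂ n) {x : ZMod n} (hx : IsUnit x) :
    (starRingEnd ℂ) (χ x) = χ x⁻¹ := by
  have h1 : (starRingEnd ℂ) (χ x) * χ x = 1 := by
    have h2 : ‖χ x‖ = 1 := by
      have h3 := χ.unit_norm_eq_one hx.unit
      rwa [IsUnit.unit_spec] at h3
    rw [mul_comm, Complex.mul_conj, Complex.normSq_eq_norm_sq, h2]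
    norm_num
  have h4 : χ x⁻¹ * χ x = 1 := by
    rw [← map_mul, ZMod.inv_mul_of_unit x hx, map_one]
  have h5 : χ x ≠ 0 := by
    intro h0
    rw [h0, mul_zero] at h4
    exact zero_ne_one h4
  exact mul_right_cancel₀ h5 (h1.trans h4.symm)

/-- Parseval -/
private theorem parseval [DecidablePred fun x : ZMod n => IsUnit x] (G : ZMod n → ℝ) :
    ∑ χ : DirichletCharacter ℂ n, ‖∑ x : ZMod n, (G x : ℂ) * (starRingEnd ℂ) (χ x)‖ ^ 2 =
      (n.totient : ℝ) * ∑ x ∈ univ.filter (fun x : ZMod n => IsUnit x), G x ^ 2 := by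
  classical
  have key : ∀ x y : ZMod n, ∑ χ : DirichletCharacter ℂ n,
      (starRingEnd ℂ) (χ x) * χ y = if IsUnit x ∧ x = y then (n.totient : ℂ) else 0 := by
    intro x y
    by_cases hx : IsUnit x
    · have h1 : ∀ χ : DirichletCharacter ℂ n, (starRingEnd ℂ) (χ x) * χ y = χ x⁻¹ * χ y :=
        fun χ => by rw [conj_char χ hx]
      rw [sum_congr rfl fun χ _ => h1 χ, DirichletCharacter.sum_char_inv_mul_char_eq ℂ hx y]
      by_cases hxy : x = y
      · rw [if_pos hxy, if_pos ⟨hx, hxy⟩]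
      · rw [if_neg hxy, if_neg (fun h => hxy h.2)]
    · rw [if_neg (fun h => hx h.1)]
      refine sum_eq_zero fun χ _ => ?_
      rw [χ.map_nonunit hx, map_zero, zero_mul]
  have h2 : ∀ χ : DirichletCharacter ℂ n,
      ((‖∑ x : ZMod n, (G x : ℂ) * (starRingEnd ℂ) (χ x)‖ ^ 2 : ℝ) : ℂ) =
        ∑ x : ZMod n, ∑ y : ZMod n, (G x : ℂ) * G y * ((starRingEnd ℂ) (χ x) * χ y) := by
    intro χ
    rw [← Complex.normSq_eq_norm_sq, ← Complex.mul_conj, map_sum, sum_mul_sum]
    refine sum_congr rfl fun x _ => sum_congr rfl fun y _ => ?_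
    rw [map_mul, Complex.conj_ofReal, Complex.conj_conj]
    ring
  have h3 : ((∑ χ : DirichletCharacter ℂ n,
      ‖∑ x : ZMod n, (G x : ℂ) * (starRingEnd ℂ) (χ x)‖ ^ 2 : ℝ) : ℂ) =
      (((n.totient : ℝ) * ∑ x ∈ univ.filter (fun x : ZMod n => IsUnit x), G x ^ 2 : ℝ) : ℂ) := by
    rw [Complex.ofReal_sum, sum_congr rfl fun χ _ => h2 χ, sum_comm]
    have h4 : ∀ x : ZMod n, ∑ χ : DirichletCharacter ℂ n, ∑ y : ZMod n,
        (G x : ℂ) * G y * ((starRingEnd ℂ) (χ x) * χ y) =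
        if IsUnit x then (n.totient : ℂ) * (G x : ℂ) ^ 2 else 0 := by
      intro x
      rw [sum_comm]
      have h5 : ∀ y : ZMod n, ∑ χ : DirichletCharacter ℂ n,
          (G x : ℂ) * G y * ((starRingEnd ℂ) (χ x) * χ y) =
          if x = y then (if IsUnit x then (n.totient : ℂ) * (G x : ℂ) ^ 2 else 0) else 0 := by
        intro y
        rw [← mul_sum, key]
        by_cases hxy : x = y
        · subst hxy
          rw [if_pos rfl]
          by_cases hx : IsUnit x
          · rw [if_pos ⟨hx, rfl⟩, if_pos hx]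
            ring
          · rw [if_neg (fun h => hx h.1), if_neg hx, mul_zero]
        · rw [if_neg hxy, if_neg (fun h => hxy h.2), mul_zero]
      rw [sum_congr rfl fun y _ => h5 y, sum_ite_eq]
      simp
    rw [sum_congr rfl fun x _ => h4 x, ← sum_filter, Complex.ofReal_mul, Complex.ofReal_sum,
      mul_sum]
    refine sum_congr ?_ fun x _ => ?_
    · ext x
      simp
    · push_cast
      ring
  exact_mod_cast h3

private theorem card_unit [DecidablePred fun x : ZMod n => IsUnit x] :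
    #(univ.filter (fun x : ZMod n => IsUnit x)) = n.totient := by
  rw [← ZMod.card_units_eq_totient n, ← card_univ]
  symm
  refine card_bij (fun u _ => (u : ZMod n)) (fun u _ => mem_filter.2 ⟨mem_univ _, u.isUnit⟩)
    (fun u _ u' _ h => Units.ext h) fun x hx => ?_
  obtain ⟨u, hu⟩ := (mem_filter.1 hx).2
  exact ⟨u, mem_univ _, hu⟩

private theorem tot_pos : (0 : ℝ) < (n.totient : ℝ) := by
  exact_mod_cast Nat.totient_pos.2 (Nat.pos_of_ne_zero (NeZero.ne n))

private theorem norm_tot : ‖(n.totient : ℂ)‖ = (n.totient : ℝ) := by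
  rw [Complex.norm_natCast]

theorem mass_one : ∑ χ : DirichletCharacter ℂ n, ‖cf χ‖ ^ 2 = 1 := by
  classical
  have h1 : ∀ χ : DirichletCharacter ℂ n, ‖cf χ‖ ^ 2 =
      ‖∑ x : ZMod n, (F x : ℂ) * (starRingEnd ℂ) (χ x)‖ ^ 2 / (n.totient : ℝ) ^ 2 := by
    intro χ
    rw [cf, norm_div, norm_tot, div_pow]
  rw [sum_congr rfl fun χ _ => h1 χ, ← sum_div, parseval]
  have h2 : ∑ x ∈ univ.filter (fun x : ZMod n => IsUnit x), F x ^ 2 = (n.totient : ℝ) := by
    rw [sum_congr rfl fun x _ => (sq (F x)).trans (F_sq x), sum_const, card_unit, nsmul_eq_mul,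
      mul_one]
  have h3 := tot_pos (n := n)
  rw [h2]
  field_simp

theorem mass_prime {q : ℕ} (hq : Nat.Coprime q n) :
    ∑ χ : DirichletCharacter ℂ n, ‖cf χ‖ ^ 2 * ‖χ (q : ZMod n) + 1‖ ^ 2 =
      4 * (#(Bd n q) : ℝ) / (n.totient : ℝ) := by
  classical
  have hu : IsUnit (q : ZMod n) := (ZMod.isUnit_iff_coprime q n).2 hq
  have h1 : ∀ χ : DirichletCharacter ℂ n, ‖cf χ‖ ^ 2 * ‖χ (q : ZMod n) + 1‖ ^ 2 =
      ‖∑ x : ZMod n, ((F ((q : ZMod n) * x) + F x : ℝ) : ℂ) * (starRingEnd ℂ) (χ x)‖ ^ 2 /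
        (n.totient : ℝ) ^ 2 := by
    intro χ
    have h2 : ∑ x : ZMod n, (F x : ℂ) * (starRingEnd ℂ) (χ x) * χ (q : ZMod n) =
        ∑ x : ZMod n, (F ((q : ZMod n) * x) : ℂ) * (starRingEnd ℂ) (χ x) := by
      rw [← Equiv.sum_comp (Units.mulLeft hu.unit)]
      refine sum_congr rfl fun x _ => ?_
      rw [Units.mulLeft_apply, IsUnit.unit_spec, map_mul, map_mul]
      have h3 : (starRingEnd ℂ) (χ (q : ZMod n)) * χ (q : ZMod n) = 1 := by
        rw [conj_char χ hu, ← map_mul, ZMod.inv_mul_of_unit _ hu, map_one]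
      linear_combination ((F ((q : ZMod n) * x) : ℂ) * (starRingEnd ℂ) (χ x)) * h3
    have h4 : (∑ x : ZMod n, (F x : ℂ) * (starRingEnd ℂ) (χ x)) * (χ (q : ZMod n) + 1) =
        ∑ x : ZMod n, ((F ((q : ZMod n) * x) + F x : ℝ) : ℂ) * (starRingEnd ℂ) (χ x) := by
      rw [mul_add, mul_one, sum_mul, h2, ← sum_add_distrib]
      refine sum_congr rfl fun x _ => ?_
      push_cast
      ring
    rw [← mul_pow, ← norm_mul, cf, div_mul_eq_mul_div, h4, norm_div, norm_tot, div_pow]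
  rw [sum_congr rfl fun χ _ => h1 χ, ← sum_div, parseval]
  have h5 : ∑ x ∈ univ.filter (fun x : ZMod n => IsUnit x), (F ((q : ZMod n) * x) + F x) ^ 2 =
      4 * (#(Bd n q) : ℝ) := by
    have h6 : ∀ x ∈ univ.filter (fun x : ZMod n => IsUnit x),
        (F ((q : ZMod n) * x) + F x) ^ 2 = if x ∈ Bd n q then (4 : ℝ) else 0 := by
      intro x hx
      have hx0 : IsUnit x := (mem_filter.1 hx).2
      by_cases hb : x ∈ Bd n q
      · rw [if_pos hb]
        have h7 := (mem_Bd.1 hb).2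
        rcases F_eq ((q : ZMod n) * x) with h8 | h8 <;> rcases F_eq x with h9 | h9
        · rw [h8, h9]; norm_num
        · rw [h8, h9] at h7; norm_num at h7
        · rw [h8, h9] at h7; norm_num at h7
        · rw [h8, h9]; norm_num
      · rw [if_neg hb]
        have h7 : F ((q : ZMod n) * x) = - F x := by
          by_contra hcon
          exact hb (mem_Bd.2 ⟨hx0, hcon⟩)
        rw [h7]
        ring
    rw [sum_congr rfl h6, ← sum_filter, sum_const, nsmul_eq_mul, mul_comm]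
    congr 2
    congr 1
    ext x
    rw [mem_filter, mem_filter]
    exact ⟨fun h => h.2, fun h => ⟨⟨mem_univ _, (mem_Bd.1 h).1⟩, h⟩⟩
  have h3 := tot_pos (n := n)
  rw [h5]
  field_simp

end Pool.Agent.Helper26.PG
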