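import Pool.Agent.Helper26.PG.MissG

/-!
# PG-Miss: most cosets of a subgroup have a small element

PROOF.  `miss_set` of PG-MissG for the set of the elements of `H`.  The set needs no unit condition.
-/

set_option autoImplicit false

namespace Pool.Agent.Helper26.PG

open Finset
open Pool.Agent.Helper26.PE (la la_mul la_prime la_one la_sq la_eq la_abs PS Tup mem_Tup card_Tup pr sm)

variable {n : ℕ} [hn0 : NeZero n]


theorem miss_card (H : Subgroup (ZMod n)ˣ) (M L : ℕ) (hM : 0 < M) (h2M : 2 * M < n) (hL : 0 < L) :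
    (Set.ncard {x : ZMod n | ∀ g ∈ H, 2 * M < (((g : (ZMod n)ˣ) : ZMod n) * x).val} : ℝ) ≤
      n * (4 * (L : ℝ) ^ 3 / Nat.card H + (n : ℝ) ^ 3 / (2 * (M : ℝ) ^ 3 * (L : ℝ) ^ 2)) := by
  classical
  have hmem : ∀ g : (ZMod n)ˣ, g ∈ (H : Set (ZMod n)ˣ).toFinset ↔ g ∈ H := by
    intro g
    rw [Set.mem_toFinset, SetLike.mem_coe]
  have h := miss_set (H : Set (ZMod n)ˣ).toFinset ⟨1, (hmem 1).2 H.one_mem⟩ M L hM h2M hL
  have hc : #(H : Set (ZMod n)ˣ).toFinset = Nat.card H := by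
    rw [Set.toFinset_card, Nat.card_eq_fintype_card]
    exact Fintype.card_congr (Equiv.refl _)
  rw [hc] at h
  simpa only [hmem] using h

end Pool.Agent.Helper26.PG
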