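import Pool.Agent.Helper26.PG.Geo
import Pool.Agent.Helper68.CO2.Four

/-!
# PG-MissG: most elements are moved to a small element by a large set of units

PROOF.  As PG-Miss with a finite set `G` of units in place of the subgroup, `h = #G`:
`e(x) = (1 / n) ∑ a ≠ 0, S(a) ^ 2 ∑ g ∈ G, ψ (- a g x)`, `∑ x, |e x| ^ 2 ≤ (1 / n) ∑ g, g' ∈ G, ∑ a ≠ 0, w(a) w(a g / g')`.  For given
`a`, `b`, `g'` with `0 < ‖a‖ ≤ L` at most `gcd (a, n) ≤ L` units `g` satisfy `a g = b g'`, so the terms with both norms `≤ L` give at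
most `(2 L) ^ 2 h L M ^ 4`, the others at most `h ^ 2 n ^ 3 M / (2 L ^ 2)`: the same bound.
-/

set_option autoImplicit false

namespace Pool.Agent.Helper26.PG

open Finset
open Pool.Agent.Helper26.PE (la la_mul la_prime la_one la_sq la_eq la_abs PS Tup mem_Tup card_Tup pr sm)

variable {n : ℕ} [hn0 : NeZero n]

/-- the exponential sum of a set -/
private noncomputable def mg_hat (S : Finset (ZMod n)) (a : ZMod n) : ℂ :=
  ∑ s ∈ S, ZMod.stdAddChar (a * s)

private theorem mg_orth (b : ZMod n) :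
    ∑ a : ZMod n, (ZMod.stdAddChar (a * b) : ℂ) = if b = 0 then (n : ℂ) else 0 := by
  have h := AddChar.sum_mulShift b (ZMod.isPrimitive_stdAddChar n)
  rw [h, ZMod.card]
  split_ifs <;> simp

/-- Parseval -/
private theorem mg_parseval (K : ZMod n → ℂ) :
    ∑ x : ZMod n, ‖∑ b : ZMod n, K b * (ZMod.stdAddChar (b * x) : ℂ)‖ ^ 2 =
      (n : ℝ) * ∑ b : ZMod n, ‖K b‖ ^ 2 := by
  classical
  have h1 : ∀ x : ZMod n, ((‖∑ b : ZMod n, K b * (ZMod.stdAddChar (b * x) : ℂ)‖ ^ 2 : ℝ) : ℂ) =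
      ∑ b : ZMod n, ∑ c : ZMod n,
        K b * (starRingEnd ℂ) (K c) * (ZMod.stdAddChar (x * (b - c)) : ℂ) := by
    intro x
    rw [Complex.ofReal_pow, ← Complex.conj_mul', mul_comm, map_sum, Finset.sum_mul_sum]
    refine Finset.sum_congr rfl fun b _ => Finset.sum_congr rfl fun c _ => ?_
    have e : x * (b - c) = b * x + -(c * x) := by ring
    rw [map_mul (starRingEnd ℂ), ← AddChar.map_neg_eq_conj, e, AddChar.map_add_eq_mul]
    ring
  have h2 : ((∑ x : ZMod n, ‖∑ b : ZMod n, K b * (ZMod.stdAddChar (b * x) : ℂ)‖ ^ 2 : ℝ) : ℂ) =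
      (((n : ℝ) * ∑ b : ZMod n, ‖K b‖ ^ 2 : ℝ) : ℂ) := by
    rw [Complex.ofReal_sum]
    simp only [h1]
    rw [Finset.sum_comm]
    have h3 : ∀ b : ZMod n, ∑ x : ZMod n, ∑ c : ZMod n,
        K b * (starRingEnd ℂ) (K c) * (ZMod.stdAddChar (x * (b - c)) : ℂ) =
          (n : ℂ) * ((‖K b‖ ^ 2 : ℝ) : ℂ) := by
      intro b
      rw [Finset.sum_comm]
      have h4 : ∀ c : ZMod n, ∑ x : ZMod n,
          K b * (starRingEnd ℂ) (K c) * (ZMod.stdAddChar (x * (b - c)) : ℂ) =
            if b = c then K b * (starRingEnd ℂ) (K c) * n else 0 := by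
        intro c
        rw [← Finset.mul_sum, mg_orth]
        by_cases h : b = c
        · rw [if_pos h, if_pos (sub_eq_zero.2 h)]
        · rw [if_neg h, if_neg (sub_ne_zero.2 h), mul_zero]
      rw [Finset.sum_congr rfl (fun c _ => h4 c), Finset.sum_ite_eq, if_pos (Finset.mem_univ b),
        Complex.mul_conj', Complex.ofReal_pow, mul_comm]
    rw [Finset.sum_congr rfl (fun b _ => h3 b), ← Finset.mul_sum, Complex.ofReal_mul,
      Complex.ofReal_sum, Complex.ofReal_natCast]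
  exact_mod_cast h2

private theorem mg_parseval_set (S : Finset (ZMod n)) :
    ∑ a : ZMod n, ‖mg_hat S a‖ ^ 2 = (n : ℝ) * S.card := by
  classical
  have h1 : ∀ a : ZMod n, mg_hat S a =
      ∑ b : ZMod n, (if b ∈ S then (1 : ℂ) else 0) * (ZMod.stdAddChar (b * a) : ℂ) := by
    intro a
    unfold mg_hat
    rw [← Finset.sum_filter_add_sum_filter_not Finset.univ (fun b => b ∈ S)]
    have h2 : ∑ b ∈ Finset.univ.filter (fun b => b ∉ S),
        (if b ∈ S then (1 : ℂ) else 0) * (ZMod.stdAddChar (b * a) : ℂ) = 0 := by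
      refine Finset.sum_eq_zero fun b hb => ?_
      rw [if_neg (Finset.mem_filter.1 hb).2, zero_mul]
    rw [h2, add_zero]
    have h3 : Finset.univ.filter (fun b => b ∈ S) = S := by
      ext b
      simp
    rw [h3]
    refine Finset.sum_congr rfl fun b hb => ?_
    rw [if_pos hb, one_mul, mul_comm]
  simp only [h1]
  rw [mg_parseval]
  congr 1
  have h4 : ∀ b : ZMod n, ‖(if b ∈ S then (1 : ℂ) else 0)‖ ^ 2 = if b ∈ S then (1 : ℝ) else 0 := by
    intro b
    split_ifs <;> simp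
  simp only [h4]
  simp

/-- the interval -/
private noncomputable def mg_In (n M : ℕ) : Finset (ZMod n) :=
  (Icc 1 M).image fun i : ℕ => (i : ZMod n)

omit hn0 in
private theorem mg_In_inj {M : ℕ} (hM : M < n) :
    Set.InjOn (fun i : ℕ => (i : ZMod n)) (Icc 1 M : Finset ℕ) := by
  intro i hi j hj hij
  have hi' := (Finset.mem_Icc.1 (Finset.mem_coe.1 hi)).2
  have hj' := (Finset.mem_Icc.1 (Finset.mem_coe.1 hj)).2
  have h1 : ((i : ZMod n)).val = ((j : ZMod n)).val := congrArg ZMod.val hij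
  rwa [ZMod.val_natCast_of_lt (by omega), ZMod.val_natCast_of_lt (by omega)] at h1

omit hn0 in
private theorem mg_In_card {M : ℕ} (hM : M < n) : (mg_In n M).card = M := by
  unfold mg_In
  rw [Finset.card_image_of_injOn (mg_In_inj hM), Nat.card_Icc, Nat.add_sub_cancel]

private theorem mg_In_hat {M : ℕ} (hM : M < n) (a : ZMod n) :
    mg_hat (mg_In n M) a = ∑ i ∈ Icc 1 M, (ZMod.stdAddChar (a * (i : ZMod n)) : ℂ) := by
  unfold mg_hat mg_In
  rw [Finset.sum_image fun i hi j hj h => mg_In_inj hM (Finset.mem_coe.2 hi) (Finset.mem_coe.2 hj) h]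

/-- the elements of small absolute value -/
private noncomputable def mg_Sm (n L : ℕ) [NeZero n] : Finset (ZMod n) :=
  univ.filter fun a : ZMod n => a ≠ 0 ∧ a.valMinAbs.natAbs ≤ L

private theorem mg_Sm_card (L : ℕ) : (mg_Sm n L).card ≤ 2 * L := by
  have h1 : (mg_Sm n L).card ≤ ((Finset.Icc (-(L : ℤ)) L).erase 0).card := by
    refine Finset.card_le_card_of_injOn (fun a => a.valMinAbs) ?_ ?_
    · intro a ha
      have ha' := (Finset.mem_filter.1 (Finset.mem_coe.1 ha)).2
      refine Finset.mem_coe.2 (Finset.mem_erase.2 ⟨?_, ?_⟩)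
      · intro h
        exact ha'.1 ((ZMod.valMinAbs_eq_zero a).1 h)
      · show a.valMinAbs ∈ Finset.Icc (-(L : ℤ)) L
        rw [Finset.mem_Icc]
        have := ha'.2
        omega
    · intro a _ b _ hab
      exact ZMod.injective_valMinAbs hab
  rw [Finset.card_erase_of_mem (by rw [Finset.mem_Icc]; omega), Int.card_Icc] at h1
  omega

/-- few elements are killed by `A` -/
private theorem mg_kill {A : ℕ} (hA : 0 < A) :
    ((univ : Finset (ZMod n)).filter fun t => t * (A : ZMod n) = 0).card ≤ A := by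
  have hn : 0 < n := Nat.pos_of_ne_zero hn0.out
  have hd : ∀ t : ZMod n, t * (A : ZMod n) = 0 → n ∣ t.val * A := by
    intro t ht
    rw [← ZMod.natCast_eq_zero_iff, Nat.cast_mul, ZMod.natCast_zmod_val]
    exact ht
  have h1 : ((univ : Finset (ZMod n)).filter fun t => t * (A : ZMod n) = 0).card ≤
      (Finset.range A).card := by
    refine Finset.card_le_card_of_injOn (fun t => t.val * A / n) ?_ ?_
    · intro t ht
      have ht' := (Finset.mem_filter.1 (Finset.mem_coe.1 ht)).2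
      refine Finset.mem_coe.2 (Finset.mem_range.2 ?_)
      rw [Nat.div_lt_iff_lt_mul hn, mul_comm]
      exact Nat.mul_lt_mul_of_pos_left (ZMod.val_lt t) hA
    · intro t ht t' ht' htt
      have h2 := hd t (Finset.mem_filter.1 (Finset.mem_coe.1 ht)).2
      have h3 := hd t' (Finset.mem_filter.1 (Finset.mem_coe.1 ht')).2
      simp only at htt
      have h4 : t.val * A = t'.val * A := by
        rw [← Nat.div_mul_cancel h2, ← Nat.div_mul_cancel h3, htt]
      exact ZMod.val_injective n (Nat.eq_of_mul_eq_mul_right hA h4)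
  rwa [Finset.card_range] at h1

/-- the fibres of the multiplication by a small element -/
private theorem mg_fibre {L : ℕ} (G : Finset (ZMod n)ˣ) {a : ZMod n} (ha : a ∈ mg_Sm n L) (b : ZMod n) :
    (G.filter fun g => ((g⁻¹ : (ZMod n)ˣ) : ZMod n) * b = a).card ≤ L := by
  classical
  have ha' := (Finset.mem_filter.1 ha).2
  rcases (G.filter fun g => ((g⁻¹ : (ZMod n)ˣ) : ZMod n) * b = a).eq_empty_or_nonempty with h0 | ⟨g0, hg0⟩
  · rw [h0, Finset.card_empty]
    exact Nat.zero_le _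
  have hA : 0 < a.valMinAbs.natAbs := by
    rw [Int.natAbs_pos, Ne, ZMod.valMinAbs_eq_zero]
    exact ha'.1
  have key : ∀ g ∈ G.filter (fun g => ((g⁻¹ : (ZMod n)ˣ) : ZMod n) * b = a),
      (g : ZMod n) * a = b := by
    intro g hg
    rw [← (Finset.mem_filter.1 hg).2, ← mul_assoc, ← Units.val_mul, mul_inv_cancel,
      Units.val_one, one_mul]
  have haA : ∀ t : ZMod n, t * a = 0 → t * (a.valMinAbs.natAbs : ZMod n) = 0 := by
    intro t ht
    have h1 : ((a.valMinAbs : ℤ) : ZMod n) = a := ZMod.coe_valMinAbs a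
    rcases Int.natAbs_eq a.valMinAbs with h2 | h2
    · have h3 : ((a.valMinAbs.natAbs : ℕ) : ZMod n) = a := by
        have h4 := congrArg (fun z : ℤ => (z : ZMod n)) h2
        rw [h1, Int.cast_natCast] at h4
        exact h4.symm
      rw [h3]
      exact ht
    · have h3 : ((a.valMinAbs.natAbs : ℕ) : ZMod n) = -a := by
        have h4 := congrArg (fun z : ℤ => (z : ZMod n)) h2
        rw [h1, Int.cast_neg, Int.cast_natCast] at h4
        rw [eq_comm, neg_eq_iff_eq_neg]
        exact h4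
      rw [h3, mul_neg, ht, neg_zero]
  refine le_trans ?_ ((mg_kill (n := n) hA).trans ha'.2)
  refine Finset.card_le_card_of_injOn (fun g => (g : ZMod n) - (g0 : ZMod n)) ?_ ?_
  · intro g hg
    refine Finset.mem_coe.2 (Finset.mem_filter.2 ⟨Finset.mem_univ _, haA _ ?_⟩)
    rw [sub_mul, key g (Finset.mem_coe.1 hg), key g0 hg0, sub_self]
  · intro g _ g' _ h
    exact Units.ext (sub_left_injective h)

/-- the pointwise bound -/
private theorem mg_w_pair {M L : ℕ} (hM : M < n) (hL : 0 < L) {y z : ZMod n} (hy : y ≠ 0)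
    (hz : z ≠ 0) :
    ‖mg_hat (mg_In n M) y‖ ^ 2 * ‖mg_hat (mg_In n M) z‖ ^ 2 ≤
      (M : ℝ) ^ 4 * ((if y ∈ mg_Sm n L then 1 else 0) * (if z ∈ mg_Sm n L then 1 else 0)) +
        ((n : ℝ) / (2 * L)) ^ 2 * (‖mg_hat (mg_In n M) y‖ ^ 2 + ‖mg_hat (mg_In n M) z‖ ^ 2) := by
  have hL' : (0 : ℝ) < L := by exact_mod_cast hL
  have hp0 : (0 : ℝ) ≤ (n : ℝ) := Nat.cast_nonneg _
  have htriv : ∀ a : ZMod n, ‖mg_hat (mg_In n M) a‖ ^ 2 ≤ (M : ℝ) ^ 2 := by
    intro a
    rw [mg_In_hat hM]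
    exact pow_le_pow_left₀ (norm_nonneg _) (geo_triv M a) 2
  have hbig : ∀ a : ZMod n, a ≠ 0 → a ∉ mg_Sm n L →
      ‖mg_hat (mg_In n M) a‖ ^ 2 ≤ ((n : ℝ) / (2 * L)) ^ 2 := by
    intro a ha haS
    rw [mg_In_hat hM]
    refine pow_le_pow_left₀ (norm_nonneg _) ((geo_bound M ha).trans ?_) 2
    have h1 : L < a.valMinAbs.natAbs := by
      by_contra h
      exact haS (Finset.mem_filter.2 ⟨Finset.mem_univ _, ha, not_lt.1 h⟩)
    have h2 : (L : ℝ) ≤ (a.valMinAbs.natAbs : ℝ) := by exact_mod_cast h1.le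
    exact div_le_div_of_nonneg_left hp0 (by positivity) (by linarith)
  have hc : (0 : ℝ) ≤ ((n : ℝ) / (2 * L)) ^ 2 := by positivity
  have wy : (0 : ℝ) ≤ ‖mg_hat (mg_In n M) y‖ ^ 2 := by positivity
  have wz : (0 : ℝ) ≤ ‖mg_hat (mg_In n M) z‖ ^ 2 := by positivity
  by_cases h1 : y ∈ mg_Sm n L
  · by_cases h2 : z ∈ mg_Sm n L
    · rw [if_pos h1, if_pos h2]
      have h3 := mul_le_mul (htriv y) (htriv z) wz (by positivity)
      have h4 : (M : ℝ) ^ 2 * (M : ℝ) ^ 2 = (M : ℝ) ^ 4 := by ring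
      have h5 := mul_nonneg hc (add_nonneg wy wz)
      linarith
    · rw [if_neg h2, mul_zero, mul_zero, zero_add]
      have h3 := mul_le_mul_of_nonneg_left (hbig z hz h2) wy
      have h4 := mul_nonneg hc wz
      linarith
  · rw [if_neg h1, zero_mul, mul_zero, zero_add]
    have h3 := mul_le_mul_of_nonneg_right (hbig y hy h1) wz
    have h4 := mul_nonneg hc wy
    linarith

theorem miss_set (G : Finset (ZMod n)ˣ) (hG : G.Nonempty) (M L : ℕ) (hM : 0 < M) (h2M : 2 * M < n)
    (hL : 0 < L) :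
    (Set.ncard {x : ZMod n | ∀ g ∈ G, 2 * M < (((g : (ZMod n)ˣ) : ZMod n) * x).val} : ℝ) ≤
      n * (4 * (L : ℝ) ^ 3 / #G + (n : ℝ) ^ 3 / (2 * (M : ℝ) ^ 3 * (L : ℝ) ^ 2)) := by
  classical
  have hMp : M < n := by omega
  obtain ⟨h, hh⟩ : ∃ h, h = #G := ⟨_, rfl⟩
  have hh0 : (0 : ℝ) < (h : ℝ) := by
    have : 0 < #G := Finset.card_pos.2 hG
    rw [hh]
    exact_mod_cast this
  have hM0 : (0 : ℝ) < (M : ℝ) := by exact_mod_cast hM
  have hL0 : (0 : ℝ) < (L : ℝ) := by exact_mod_cast hL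
  have hp0 : (0 : ℝ) < (n : ℝ) := by exact_mod_cast Nat.pos_of_ne_zero hn0.out
  set S : ZMod n → ℂ := mg_hat (mg_In n M) with hS
  set u : (ZMod n)ˣ → ZMod n := fun g => ((g⁻¹ : (ZMod n)ˣ) : ZMod n) with hu
  set v : (ZMod n)ˣ → ZMod n := fun g => (g : ZMod n) with hv
  have huv : ∀ g, u g * v g = 1 := by
    intro g
    rw [hu, hv]
    dsimp only
    rw [← Units.val_mul, inv_mul_cancel, Units.val_one]
  have hub : ∀ g (b : ZMod n), b ≠ 0 → u g * b ≠ 0 := by
    intro g b hb h0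
    apply hb
    have h1 : v g * (u g * b) = b := by
      rw [← mul_assoc, mul_comm (v g), huv, one_mul]
    rw [← h1, h0, mul_zero]
  -- reindexing by multiplication with `u g`
  have hre : ∀ (g : (ZMod n)ˣ) (f : ZMod n → ℂ), ∑ a : ZMod n, f a = ∑ b : ZMod n, f (u g * b) := by
    intro g f
    exact (Equiv.sum_comp (Units.mulLeft g⁻¹) f).symm
  have hreR : ∀ (g : (ZMod n)ˣ) (f : ZMod n → ℝ), ∑ a : ZMod n, f a = ∑ b : ZMod n, f (u g * b) := by
    intro g f
    exact (Equiv.sum_comp (Units.mulLeft g⁻¹) f).symm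
  set K' : ZMod n → ℂ := fun b => ∑ g ∈ G, ((starRingEnd ℂ) (S (u g * b))) ^ 2 with hK'
  set K : ZMod n → ℂ := fun b => if b = 0 then 0 else K' b with hK
  have hS0 : S 0 = (M : ℂ) := by
    rw [hS]
    unfold mg_hat
    simp [mg_In_card hMp]
  have hK0 : K' 0 = (h : ℂ) * (M : ℂ) ^ 2 := by
    rw [hK']
    simp only [mul_zero, hS0, Complex.conj_natCast, Finset.sum_const, ← hh, nsmul_eq_mul]
  set X : Finset (ZMod n) := univ.filter fun x : ZMod n =>
    ∀ g ∈ G, 2 * M < (((g : (ZMod n)ˣ) : ZMod n) * x).val with hX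
  have hXc : Set.ncard {x : ZMod n |
      ∀ g ∈ G, 2 * M < (((g : (ZMod n)ˣ) : ZMod n) * x).val} = X.card := by
    rw [← Set.ncard_coe_finset]
    congr 1
    ext x
    rw [hX, Finset.mem_coe, Finset.mem_filter]
    exact ⟨fun hx => ⟨Finset.mem_univ _, hx⟩, fun hx => hx.2⟩
  -- the main identity
  have hmain : ∀ x ∈ X, ∑ b : ZMod n, K b * (ZMod.stdAddChar (b * x) : ℂ) =
      -((h : ℂ) * (M : ℂ) ^ 2) := by
    intro x hx
    have hx' := (Finset.mem_filter.1 hx).2
    have e1 : ∑ b : ZMod n, K' b * (ZMod.stdAddChar (b * x) : ℂ) = 0 := by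
      have e2 : ∑ b : ZMod n, K' b * (ZMod.stdAddChar (b * x) : ℂ) =
          ∑ g ∈ G, ∑ a : ZMod n, ((starRingEnd ℂ) (S a)) ^ 2 *
            (ZMod.stdAddChar (a * (v g * x)) : ℂ) := by
        rw [hK']
        simp only [Finset.sum_mul]
        rw [Finset.sum_comm]
        refine Finset.sum_congr rfl fun g _ => ?_
        rw [hre g fun a => ((starRingEnd ℂ) (S a)) ^ 2 * (ZMod.stdAddChar (a * (v g * x)) : ℂ)]
        refine Finset.sum_congr rfl fun b _ => ?_
        have e3 : u g * b * (v g * x) = b * x := by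
          have := huv g
          calc u g * b * (v g * x) = (u g * v g) * (b * x) := by ring
            _ = b * x := by rw [this, one_mul]
        rw [e3]
      rw [e2]
      refine Finset.sum_eq_zero fun g hgG => ?_
      have e4 : ∀ a : ZMod n, ((starRingEnd ℂ) (S a)) ^ 2 * (ZMod.stdAddChar (a * (v g * x)) : ℂ) =
          ∑ i ∈ mg_In n M, ∑ j ∈ mg_In n M, (ZMod.stdAddChar (a * (v g * x - i - j)) : ℂ) := by
        intro a
        rw [hS]
        unfold mg_hat
        rw [pow_two, map_sum, Finset.sum_mul_sum, Finset.sum_mul]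
        refine Finset.sum_congr rfl fun i _ => ?_
        rw [Finset.sum_mul]
        refine Finset.sum_congr rfl fun j _ => ?_
        have e5 : a * (v g * x - i - j) = -(a * i) + -(a * j) + a * (v g * x) := by ring
        rw [e5, AddChar.map_add_eq_mul, AddChar.map_add_eq_mul, AddChar.map_neg_eq_conj,
          AddChar.map_neg_eq_conj]
      simp only [e4]
      rw [Finset.sum_comm]
      refine Finset.sum_eq_zero fun i hi => ?_
      rw [Finset.sum_comm]
      refine Finset.sum_eq_zero fun j hj => ?_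
      rw [mg_orth, if_neg]
      intro h0
      obtain ⟨i', hi', rfl⟩ := Finset.mem_image.1 hi
      obtain ⟨j', hj', rfl⟩ := Finset.mem_image.1 hj
      have hi2 := (Finset.mem_Icc.1 hi').2
      have hj2 := (Finset.mem_Icc.1 hj').2
      have e6 : v g * x = ((i' + j' : ℕ) : ZMod n) := by
        push_cast
        linear_combination h0
      have e7 := hx' g hgG
      have e8 : (((g : (ZMod n)ˣ) : ZMod n) * x).val = i' + j' := by
        have e9 : ((g : (ZMod n)ˣ) : ZMod n) * x = ((i' + j' : ℕ) : ZMod n) := e6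
        rw [e9, ZMod.val_natCast_of_lt (by omega)]
      rw [e8] at e7
      omega
    have e10 : ∑ b : ZMod n, K' b * (ZMod.stdAddChar (b * x) : ℂ) =
        (h : ℂ) * (M : ℂ) ^ 2 + ∑ b : ZMod n, K b * (ZMod.stdAddChar (b * x) : ℂ) := by
      have e13 := Finset.add_sum_erase Finset.univ
        (fun b : ZMod n => K' b * (ZMod.stdAddChar (b * x) : ℂ)) (Finset.mem_univ 0)
      have e14 := Finset.add_sum_erase Finset.univ
        (fun b : ZMod n => K b * (ZMod.stdAddChar (b * x) : ℂ)) (Finset.mem_univ 0)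
      have e11 : K 0 = 0 := by rw [hK]; simp
      rw [← e13, ← e14, hK0, zero_mul, AddChar.map_zero_eq_one, mul_one, e11, zero_mul, zero_add]
      congr 1
      refine Finset.sum_congr rfl fun b hb => ?_
      have e12 : K b = K' b := by
        rw [hK]
        exact if_neg (Finset.ne_of_mem_erase hb)
      rw [e12]
    rw [e1] at e10
    linear_combination -e10
  -- the bound for the coefficients
  set w : ZMod n → ℝ := fun a => ‖S a‖ ^ 2 with hw
  set V : ZMod n → ℝ := fun b => ∑ g ∈ G, w (u g * b) with hV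
  have hw0 : ∀ a, 0 ≤ w a := fun a => by
    rw [hw]
    positivity
  have hV0 : ∀ b, 0 ≤ V b := fun b => Finset.sum_nonneg fun g _ => hw0 _
  have hKV : ∀ b, ‖K' b‖ ≤ V b := by
    intro b
    refine (norm_sum_le _ _).trans (le_of_eq ?_)
    refine Finset.sum_congr rfl fun g _ => ?_
    rw [norm_pow, RCLike.norm_conj]
  have hwsum : ∑ a : ZMod n, w a = (n : ℝ) * M := by
    have := mg_parseval_set (n := n) (mg_In n M)
    rw [mg_In_card hMp] at this
    exact this
  have hVsum : ∑ b : ZMod n, V b = (h : ℝ) * (n * M) := by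
    rw [hV, Finset.sum_comm]
    have : ∀ g ∈ G, ∑ b : ZMod n, w (u g * b) = (n : ℝ) * M := fun g _ => by
      rw [← hreR g w, hwsum]
    rw [Finset.sum_congr rfl this, Finset.sum_const, ← hh, nsmul_eq_mul]
  set χ : ZMod n → ℝ := fun y => if y ∈ mg_Sm n L then 1 else 0 with hχ
  have hχ0 : ∀ y, 0 ≤ χ y := fun y => by
    rw [hχ]
    dsimp only
    split_ifs <;> norm_num
  set nn : ZMod n → ℝ := fun b => ∑ g ∈ G, χ (u g * b) with hnn
  have hnn0 : ∀ b, 0 ≤ nn b := fun b => Finset.sum_nonneg fun g _ => hχ0 _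
  have hSmc : ((mg_Sm n L).card : ℝ) ≤ 2 * L := by exact_mod_cast mg_Sm_card (n := n) L
  have hχsum : ∑ y : ZMod n, χ y = ((mg_Sm n L).card : ℝ) := by
    rw [hχ]
    simp
  have hnnle : ∀ b, nn b ≤ 2 * L * L := by
    intro b
    have h1 : nn b = ((G.filter fun g => u g * b ∈ mg_Sm n L).card : ℝ) := by
      rw [hnn, hχ]
      dsimp only
      rw [← Finset.sum_filter, Finset.sum_const, nsmul_eq_mul, mul_one]
    have h2 : (G.filter fun g => u g * b ∈ mg_Sm n L).card ≤ (mg_Sm n L).card * L := by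
      rw [Finset.card_eq_sum_card_fiberwise (f := fun g => u g * b)
        (s := G.filter fun g => u g * b ∈ mg_Sm n L) (t := mg_Sm n L)
        (fun g hg => Finset.mem_coe.2 (Finset.mem_filter.1 (Finset.mem_coe.1 hg)).2)]
      refine (Finset.sum_le_card_nsmul _ _ L fun a ha => ?_).trans (le_of_eq (smul_eq_mul _ _))
      refine le_trans (Finset.card_le_card ?_) (mg_fibre G ha b)
      intro g hg
      have hg1 := Finset.mem_filter.1 hg
      exact Finset.mem_filter.2 ⟨(Finset.mem_filter.1 hg1.1).1, hg1.2⟩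
    rw [h1]
    calc ((G.filter fun g => u g * b ∈ mg_Sm n L).card : ℝ) ≤ ((mg_Sm n L).card * L : ℕ) := by
          exact_mod_cast h2
      _ = ((mg_Sm n L).card : ℝ) * L := by push_cast; ring
      _ ≤ 2 * L * L := mul_le_mul_of_nonneg_right hSmc hL0.le
  have hnnsum : ∑ b : ZMod n, nn b ≤ (h : ℝ) * (2 * L) := by
    rw [hnn, Finset.sum_comm]
    have : ∀ g ∈ G, ∑ b : ZMod n, χ (u g * b) = ((mg_Sm n L).card : ℝ) := fun g _ => by
      rw [← hreR g χ, hχsum]
    rw [Finset.sum_congr rfl this, Finset.sum_const, ← hh, nsmul_eq_mul]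
    exact mul_le_mul_of_nonneg_left hSmc hh0.le
  have hnnsq : ∑ b : ZMod n, nn b ^ 2 ≤ (h : ℝ) * (2 * L) * (2 * L * L) := by
    calc ∑ b : ZMod n, nn b ^ 2 ≤ ∑ b : ZMod n, nn b * (2 * L * L) := by
          refine Finset.sum_le_sum fun b _ => ?_
          rw [pow_two]
          exact mul_le_mul_of_nonneg_left (hnnle b) (hnn0 b)
      _ = (∑ b : ZMod n, nn b) * (2 * L * L) := by rw [Finset.sum_mul]
      _ ≤ _ := mul_le_mul_of_nonneg_right hnnsum (by positivity)
  set c : ℝ := ((n : ℝ) / (2 * L)) ^ 2 with hc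
  have hVsq : ∀ b : ZMod n, b ≠ 0 → V b ^ 2 ≤ (M : ℝ) ^ 4 * nn b ^ 2 + 2 * h * c * V b := by
    intro b hb
    have h1 : V b ^ 2 = ∑ g ∈ G, ∑ g' ∈ G, w (u g * b) * w (u g' * b) := by
      rw [pow_two, hV, Finset.sum_mul_sum]
    have h2 : (M : ℝ) ^ 4 * nn b ^ 2 + 2 * h * c * V b =
        ∑ g ∈ G, ∑ g' ∈ G, ((M : ℝ) ^ 4 * (χ (u g * b) * χ (u g' * b)) +
          c * (w (u g * b) + w (u g' * b))) := by
      simp only [Finset.sum_add_distrib, ← Finset.mul_sum, mul_add, Finset.sum_const,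
        ← hh, nsmul_eq_mul]
      rw [pow_two, hnn, ← Finset.sum_mul, hV]
      ring
    rw [h1, h2]
    exact Finset.sum_le_sum fun g _ => Finset.sum_le_sum fun g' _ =>
      mg_w_pair hMp hL (hub g b hb) (hub g' b hb)
  have hKsum : ∑ b : ZMod n, ‖K b‖ ^ 2 ≤
      (M : ℝ) ^ 4 * ((h : ℝ) * (2 * L) * (2 * L * L)) + 2 * h * c * ((h : ℝ) * (n * M)) := by
    have hc0 : 0 ≤ c := by
      rw [hc]
      positivity
    calc ∑ b : ZMod n, ‖K b‖ ^ 2 ≤ ∑ b : ZMod n, ((M : ℝ) ^ 4 * nn b ^ 2 + 2 * h * c * V b) := by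
          refine Finset.sum_le_sum fun b _ => ?_
          by_cases hb : b = 0
          · have h1 : K b = 0 := by
              rw [hK]
              exact if_pos hb
            have h2 := hV0 b
            rw [h1, norm_zero, zero_pow two_ne_zero]
            positivity
          · have h1 : K b = K' b := by
              rw [hK]
              exact if_neg hb
            rw [h1]
            exact (pow_le_pow_left₀ (norm_nonneg _) (hKV b) 2).trans (hVsq b hb)
      _ = (M : ℝ) ^ 4 * ∑ b : ZMod n, nn b ^ 2 + 2 * h * c * ∑ b : ZMod n, V b := by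
          rw [Finset.sum_add_distrib, ← Finset.mul_sum, ← Finset.mul_sum]
      _ ≤ _ := by
          rw [hVsum]
          have := mul_le_mul_of_nonneg_left hnnsq (by positivity : (0 : ℝ) ≤ (M : ℝ) ^ 4)
          linarith
  -- conclusion
  have hfinal : (X.card : ℝ) * ((h : ℝ) * (M : ℝ) ^ 2) ^ 2 ≤
      (n : ℝ) * ((M : ℝ) ^ 4 * ((h : ℝ) * (2 * L) * (2 * L * L)) +
        2 * h * c * ((h : ℝ) * (n * M))) := by
    calc (X.card : ℝ) * ((h : ℝ) * (M : ℝ) ^ 2) ^ 2 =
          ∑ x ∈ X, ‖∑ b : ZMod n, K b * (ZMod.stdAddChar (b * x) : ℂ)‖ ^ 2 := by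
          rw [← nsmul_eq_mul, ← Finset.sum_const]
          refine Finset.sum_congr rfl fun x hx => ?_
          rw [hmain x hx, norm_neg, norm_mul, norm_pow, Complex.norm_natCast, Complex.norm_natCast]
      _ ≤ ∑ x : ZMod n, ‖∑ b : ZMod n, K b * (ZMod.stdAddChar (b * x) : ℂ)‖ ^ 2 :=
          Finset.sum_le_sum_of_subset_of_nonneg (Finset.subset_univ _) fun _ _ _ => by positivity
      _ = (n : ℝ) * ∑ b : ZMod n, ‖K b‖ ^ 2 := mg_parseval K
      _ ≤ _ := mul_le_mul_of_nonneg_left hKsum hp0.le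
  rw [hXc, ← hh]
  have hden : (0 : ℝ) < ((h : ℝ) * (M : ℝ) ^ 2) ^ 2 := by positivity
  refine le_of_mul_le_mul_right (hfinal.trans (le_of_eq ?_)) hden
  rw [hc]
  field_simp
  ring

end Pool.Agent.Helper26.PG
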