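import Pool.Agent.Helper26.PG.Geo
import Pool.Agent.Helper68.CO2.Four

/-!
# PG-MissM: most elements are moved to a small element by a large set of units, sums of `m` elements

PROOF.  As PG-MissG (`m = 2`) with `T(x) = #{(i_1, .., i_m, g) : i_1 + .. + i_m = g x}`, `h = #G`:
`T(x) = h M ^ m / n + e(x)`, `∑ x, |e x| ^ 2 ≤ (1 / n) ∑ g, g' ∈ G, ∑ a ≠ 0, |S a| ^ m |S (a g / g')| ^ m`.
(i) `0 < ‖a‖ ≤ L` and `0 < ‖b‖ ≤ L`, `b = a g / g'`: let `t = gcd (a, n)`; `t` divides `b` too, so for given `a` there are at most `2 L / t`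
such `b`, and for given `a`, `b`, `g'` at most `t` units `g` with `a g = b g'`: at most `2 L h` for each `a`, at most `4 L ^ 2 h` in all
(no loss against prime `n`; in MissG the bound was `4 L ^ 3 h`).  (ii) the other terms: at most
`2 h ^ 2 (n / (2 L)) ^ m ∑ a, |S a| ^ m ≤ 2 h ^ 2 (n / (2 L)) ^ m M ^ (m - 2) n M`.
If `x` is in the set then `T(x) = 0` (`m M < n`), so `# (h M ^ m / n) ^ 2 ≤ (1 / n) (4 L ^ 2 h M ^ (2 m) + 2 h ^ 2 n ^ (m + 1) M ^ (m - 1) / (2 L) ^ m)`.
-/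

set_option autoImplicit false

namespace Pool.Agent.Helper26.PG

open Finset
open Pool.Agent.Helper26.PE (la la_mul la_prime la_one la_sq la_eq la_abs PS Tup mem_Tup card_Tup pr sm)

variable {n : ℕ} [hn0 : NeZero n]

/-- the exponential sum of a set -/
private noncomputable def mm_hat (S : Finset (ZMod n)) (a : ZMod n) : ℂ :=
  ∑ s ∈ S, ZMod.stdAddChar (a * s)

private theorem mm_orth (b : ZMod n) :
    ∑ a : ZMod n, (ZMod.stdAddChar (a * b) : ℂ) = if b = 0 then (n : ℂ) else 0 := by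
  have h := AddChar.sum_mulShift b (ZMod.isPrimitive_stdAddChar n)
  rw [h, ZMod.card]
  split_ifs <;> simp

/-- Parseval -/
private theorem mm_parseval (K : ZMod n → ℂ) :
    ∑ x : ZMod n, ‖∑ b : ZMod n, K b * (ZMod.stdAddChar (b * x) : ℂ)‖ ^ 2 =
      (n : ℝ) * ∑ b : ZMod n, ‖K b‖ ^ 2 := by
  classical
  have h1 : ∀ x : ZMod n, ((‖∑ b : ZMod n, K b * (ZMod.stdAddChar (b * x) : ℂ)‖ ^ 2 : ℝ) : ℂ) =
      ∑ b : ZMod n, ∑ c : ZMod n,
        K b * (starRingEnd ℂ) (K c) * (ZMod.stdAddChar (x * (b - c)) : ℂ) := by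
    intro x
    rw [Complex.ofReal_pow, ← Complex.conj_mul', mul_comm, map_sum, Finset.sum_mul_sum]
    refine Finset.sum_congr rfl fun b _ => Finset.sum_congr rfl fun c _ => ?_
    have e : x * (b - c) = b * x + -(c * x) := by ring
    rw [map_mul (starRingEnd ℂ), ← AddChar.map_neg_eq_conj, e, AddChar.map_add_eq_mul]
    ring
  have h2 : ((∑ x : ZMod n, ‖∑ b : ZMod n, K b * (ZMod.stdAddChar (b * x) : ℂ)‖ ^ 2 : ℝ) : ℂ) =
      (((n : ℝ) * ∑ b : ZMod n, ‖K b‖ ^ 2 : ℝ) : ℂ) := by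
    rw [Complex.ofReal_sum]
    simp only [h1]
    rw [Finset.sum_comm]
    have h3 : ∀ b : ZMod n, ∑ x : ZMod n, ∑ c : ZMod n,
        K b * (starRingEnd ℂ) (K c) * (ZMod.stdAddChar (x * (b - c)) : ℂ) =
          (n : ℂ) * ((‖K b‖ ^ 2 : ℝ) : ℂ) := by
      intro b
      rw [Finset.sum_comm]
      have h4 : ∀ c : ZMod n, ∑ x : ZMod n,
          K b * (starRingEnd ℂ) (K c) * (ZMod.stdAddChar (x * (b - c)) : ℂ) =
            if b = c then K b * (starRingEnd ℂ) (K c) * n else 0 := by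
        intro c
        rw [← Finset.mul_sum, mm_orth]
        by_cases h : b = c
        · rw [if_pos h, if_pos (sub_eq_zero.2 h)]
        · rw [if_neg h, if_neg (sub_ne_zero.2 h), mul_zero]
      rw [Finset.sum_congr rfl (fun c _ => h4 c), Finset.sum_ite_eq, if_pos (Finset.mem_univ b),
        Complex.mul_conj', Complex.ofReal_pow, mul_comm]
    rw [Finset.sum_congr rfl (fun b _ => h3 b), ← Finset.mul_sum, Complex.ofReal_mul,
      Complex.ofReal_sum, Complex.ofReal_natCast]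
  exact_mod_cast h2

private theorem mm_parseval_set (S : Finset (ZMod n)) :
    ∑ a : ZMod n, ‖mm_hat S a‖ ^ 2 = (n : ℝ) * S.card := by
  classical
  have h1 : ∀ a : ZMod n, mm_hat S a =
      ∑ b : ZMod n, (if b ∈ S then (1 : ℂ) else 0) * (ZMod.stdAddChar (b * a) : ℂ) := by
    intro a
    unfold mm_hat
    rw [← Finset.sum_filter_add_sum_filter_not Finset.univ (fun b => b ∈ S)]
    have h2 : ∑ b ∈ Finset.univ.filter (fun b => b ∉ S),
        (if b ∈ S then (1 : ℂ) else 0) * (ZMod.stdAddChar (b * a) : ℂ) = 0 := by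
      refine Finset.sum_eq_zero fun b hb => ?_
      rw [if_neg (Finset.mem_filter.1 hb).2, zero_mul]
    rw [h2, add_zero]
    have h3 : Finset.univ.filter (fun b => b ∈ S) = S := by
      ext b
      simp
    rw [h3]
    refine Finset.sum_congr rfl fun b hb => ?_
    rw [if_pos hb, one_mul, mul_comm]
  simp only [h1]
  rw [mm_parseval]
  congr 1
  have h4 : ∀ b : ZMod n, ‖(if b ∈ S then (1 : ℂ) else 0)‖ ^ 2 = if b ∈ S then (1 : ℝ) else 0 := by
    intro b
    split_ifs <;> simp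
  simp only [h4]
  simp

/-- the interval -/
private noncomputable def mm_In (n M : ℕ) : Finset (ZMod n) :=
  (Icc 1 M).image fun i : ℕ => (i : ZMod n)

omit hn0 in
private theorem mm_In_inj {M : ℕ} (hM : M < n) :
    Set.InjOn (fun i : ℕ => (i : ZMod n)) (Icc 1 M : Finset ℕ) := by
  intro i hi j hj hij
  have hi' := (Finset.mem_Icc.1 (Finset.mem_coe.1 hi)).2
  have hj' := (Finset.mem_Icc.1 (Finset.mem_coe.1 hj)).2
  have h1 : ((i : ZMod n)).val = ((j : ZMod n)).val := congrArg ZMod.val hij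
  rwa [ZMod.val_natCast_of_lt (by omega), ZMod.val_natCast_of_lt (by omega)] at h1

omit hn0 in
private theorem mm_In_card {M : ℕ} (hM : M < n) : (mm_In n M).card = M := by
  unfold mm_In
  rw [Finset.card_image_of_injOn (mm_In_inj hM), Nat.card_Icc, Nat.add_sub_cancel]

private theorem mm_In_hat {M : ℕ} (hM : M < n) (a : ZMod n) :
    mm_hat (mm_In n M) a = ∑ i ∈ Icc 1 M, (ZMod.stdAddChar (a * (i : ZMod n)) : ℂ) := by
  unfold mm_hat mm_In
  rw [Finset.sum_image fun i hi j hj h => mm_In_inj hM (Finset.mem_coe.2 hi) (Finset.mem_coe.2 hj) h]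

/-- the elements of small absolute value -/
private noncomputable def mm_Sm (n L : ℕ) [NeZero n] : Finset (ZMod n) :=
  univ.filter fun a : ZMod n => a ≠ 0 ∧ a.valMinAbs.natAbs ≤ L

private theorem mm_Sm_card (L : ℕ) : (mm_Sm n L).card ≤ 2 * L := by
  have h1 : (mm_Sm n L).card ≤ ((Finset.Icc (-(L : ℤ)) L).erase 0).card := by
    refine Finset.card_le_card_of_injOn (fun a => a.valMinAbs) ?_ ?_
    · intro a ha
      have ha' := (Finset.mem_filter.1 (Finset.mem_coe.1 ha)).2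
      refine Finset.mem_coe.2 (Finset.mem_erase.2 ⟨?_, ?_⟩)
      · intro h
        exact ha'.1 ((ZMod.valMinAbs_eq_zero a).1 h)
      · show a.valMinAbs ∈ Finset.Icc (-(L : ℤ)) L
        rw [Finset.mem_Icc]
        have := ha'.2
        omega
    · intro a _ b _ hab
      exact ZMod.injective_valMinAbs hab
  rw [Finset.card_erase_of_mem (by rw [Finset.mem_Icc]; omega), Int.card_Icc] at h1
  omega

/-- few elements are killed by `A` -/
private theorem mm_kill {A : ℕ} (hA : 0 < A) :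
    ((univ : Finset (ZMod n)).filter fun t => t * (A : ZMod n) = 0).card ≤ A := by
  have hn : 0 < n := Nat.pos_of_ne_zero hn0.out
  have hd : ∀ t : ZMod n, t * (A : ZMod n) = 0 → n ∣ t.val * A := by
    intro t ht
    rw [← ZMod.natCast_eq_zero_iff, Nat.cast_mul, ZMod.natCast_zmod_val]
    exact ht
  have h1 : ((univ : Finset (ZMod n)).filter fun t => t * (A : ZMod n) = 0).card ≤
      (Finset.range A).card := by
    refine Finset.card_le_card_of_injOn (fun t => t.val * A / n) ?_ ?_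
    · intro t ht
      have ht' := (Finset.mem_filter.1 (Finset.mem_coe.1 ht)).2
      refine Finset.mem_coe.2 (Finset.mem_range.2 ?_)
      rw [Nat.div_lt_iff_lt_mul hn, mul_comm]
      exact Nat.mul_lt_mul_of_pos_left (ZMod.val_lt t) hA
    · intro t ht t' ht' htt
      have h2 := hd t (Finset.mem_filter.1 (Finset.mem_coe.1 ht)).2
      have h3 := hd t' (Finset.mem_filter.1 (Finset.mem_coe.1 ht')).2
      simp only at htt
      have h4 : t.val * A = t'.val * A := by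
        rw [← Nat.div_mul_cancel h2, ← Nat.div_mul_cancel h3, htt]
      exact ZMod.val_injective n (Nat.eq_of_mul_eq_mul_right hA h4)
  rwa [Finset.card_range] at h1


/-- the small multiples of a divisor -/
private theorem mm_Sm_dvd (L t : ℕ) (ht : 0 < t) :
    ((mm_Sm n L).filter fun a => (t : ℤ) ∣ a.valMinAbs).card * t ≤ 2 * L := by
  obtain ⟨q, hq⟩ : ∃ q, q = L / t := ⟨_, rfl⟩
  have h1 : ((mm_Sm n L).filter fun a => (t : ℤ) ∣ a.valMinAbs).card ≤
      ((Finset.Icc (-(q : ℤ)) (q : ℤ)).erase 0).card := by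
    refine Finset.card_le_card_of_injOn (fun a => a.valMinAbs / t) ?_ ?_
    · intro a ha
      have ha1 := Finset.mem_filter.1 (Finset.mem_coe.1 ha)
      have ha' := (Finset.mem_filter.1 ha1.1).2
      obtain ⟨z, hz⟩ := ha1.2
      have ht' : (0 : ℤ) < t := by exact_mod_cast ht
      have hz1 : a.valMinAbs / t = z := by
        rw [hz, Int.mul_ediv_cancel_left _ ht'.ne']
      have hz0 : z ≠ 0 := by
        rintro rfl
        apply ha'.1
        rw [← ZMod.valMinAbs_eq_zero, hz, mul_zero]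
      have hz2 : z.natAbs ≤ q := by
        rw [hq, Nat.le_div_iff_mul_le ht]
        have h2 := ha'.2
        rw [hz, Int.natAbs_mul, Int.natAbs_natCast] at h2
        rwa [mul_comm]
      show a.valMinAbs / t ∈ ((Finset.Icc (-(q : ℤ)) (q : ℤ)).erase 0 : Finset ℤ)
      rw [hz1, Finset.mem_erase, Finset.mem_Icc]
      refine ⟨hz0, ?_, ?_⟩ <;> omega
    · intro a ha a' ha' haa
      obtain ⟨z, hz⟩ := (Finset.mem_filter.1 (Finset.mem_coe.1 ha)).2
      obtain ⟨z', hz'⟩ := (Finset.mem_filter.1 (Finset.mem_coe.1 ha')).2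
      have ht' : (0 : ℤ) < t := by exact_mod_cast ht
      simp only at haa
      rw [hz, hz', Int.mul_ediv_cancel_left _ ht'.ne', Int.mul_ediv_cancel_left _ ht'.ne'] at haa
      apply ZMod.injective_valMinAbs
      rw [hz, hz', haa]
  rw [Finset.card_erase_of_mem (by rw [Finset.mem_Icc]; omega), Int.card_Icc] at h1
  have h2 : ((mm_Sm n L).filter fun a => (t : ℤ) ∣ a.valMinAbs).card ≤ 2 * q := by omega
  calc _ ≤ 2 * q * t := Nat.mul_le_mul_right _ h2
    _ = 2 * (q * t) := by ring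
    _ ≤ 2 * L := Nat.mul_le_mul_left _ (hq ▸ Nat.div_mul_le_self L t)

/-- an element is moved to a small one by few units -/
private theorem mm_few {L : ℕ} (G : Finset (ZMod n)ˣ) (b : ZMod n) :
    (G.filter fun g => ((g⁻¹ : (ZMod n)ˣ) : ZMod n) * b ∈ mm_Sm n L).card ≤ 2 * L := by
  classical
  have hn : 0 < n := Nat.pos_of_ne_zero hn0.out
  obtain ⟨t, ht⟩ : ∃ t, t = Nat.gcd b.val n := ⟨_, rfl⟩
  have ht0 : 0 < t := ht ▸ Nat.gcd_pos_of_pos_right _ hn
  have htn : t ∣ n := ht ▸ Nat.gcd_dvd_right _ _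
  have htb : t ∣ b.val := ht ▸ Nat.gcd_dvd_left _ _
  -- Bezout
  have hbez : ∃ x : ZMod n, (t : ZMod n) = b * x := by
    have h1 := Nat.gcd_eq_gcd_ab b.val n
    rw [← ht] at h1
    refine ⟨((Nat.gcdA b.val n : ℤ) : ZMod n), ?_⟩
    have h2 := congrArg (fun z : ℤ => (z : ZMod n)) h1
    simp only [Int.cast_add, Int.cast_mul, Int.cast_natCast, ZMod.natCast_self, zero_mul, add_zero,
      ZMod.natCast_zmod_val] at h2
    exact h2
  obtain ⟨x, hx⟩ := hbez
  have hdv : ∀ g : (ZMod n)ˣ, (t : ℤ) ∣ (((g⁻¹ : (ZMod n)ˣ) : ZMod n) * b).valMinAbs := by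
    intro g
    rw [← ZMod.intCast_zmod_eq_zero_iff_dvd]
    have h1 : ((((((g⁻¹ : (ZMod n)ˣ) : ZMod n) * b).valMinAbs : ℤ) : ZMod n)) =
        ((g⁻¹ : (ZMod n)ˣ) : ZMod n) * b := ZMod.coe_valMinAbs _
    have h2 := congrArg (ZMod.castHom htn (ZMod t)) h1
    rw [map_intCast, map_mul] at h2
    rw [h2]
    have h3 : ZMod.castHom htn (ZMod t) b = 0 := by
      have h4 : ((b.val : ℕ) : ZMod n) = b := ZMod.natCast_zmod_val b
      rw [← h4, map_natCast, ZMod.natCast_eq_zero_iff]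
      exact htb
    rw [h3, mul_zero]
  have h1 : (G.filter fun g => ((g⁻¹ : (ZMod n)ˣ) : ZMod n) * b ∈ mm_Sm n L).card ≤
      ((mm_Sm n L).filter fun a => (t : ℤ) ∣ a.valMinAbs).card * t := by
    rw [Finset.card_eq_sum_card_fiberwise (f := fun g => ((g⁻¹ : (ZMod n)ˣ) : ZMod n) * b)
      (s := G.filter fun g => ((g⁻¹ : (ZMod n)ˣ) : ZMod n) * b ∈ mm_Sm n L)
      (t := (mm_Sm n L).filter fun a => (t : ℤ) ∣ a.valMinAbs)
      (fun g hg => Finset.mem_coe.2 (Finset.mem_filter.2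
        ⟨(Finset.mem_filter.1 (Finset.mem_coe.1 hg)).2, hdv g⟩))]
    refine (Finset.sum_le_card_nsmul _ _ t fun a _ => ?_).trans (le_of_eq (smul_eq_mul _ _))
    rcases ((G.filter fun g => ((g⁻¹ : (ZMod n)ˣ) : ZMod n) * b ∈ mm_Sm n L).filter
      fun g => ((g⁻¹ : (ZMod n)ˣ) : ZMod n) * b = a).eq_empty_or_nonempty with h0 | ⟨g0, hg0⟩
    · rw [h0, Finset.card_empty]
      exact Nat.zero_le _
    have key : ∀ g ∈ (G.filter fun g => ((g⁻¹ : (ZMod n)ˣ) : ZMod n) * b ∈ mm_Sm n L).filter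
        (fun g => ((g⁻¹ : (ZMod n)ˣ) : ZMod n) * b = a), (g : ZMod n) * a = b := by
      intro g hg
      rw [← (Finset.mem_filter.1 hg).2, ← mul_assoc, ← Units.val_mul, mul_inv_cancel,
        Units.val_one, one_mul]
    refine le_trans ?_ (mm_kill (n := n) ht0)
    refine Finset.card_le_card_of_injOn (fun g => (g : ZMod n) - (g0 : ZMod n)) ?_ ?_
    · intro g hg
      refine Finset.mem_coe.2 (Finset.mem_filter.2 ⟨Finset.mem_univ _, ?_⟩)
      have e1 : ((g : ZMod n) - (g0 : ZMod n)) * a = 0 := by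
        rw [sub_mul, key g (Finset.mem_coe.1 hg), key g0 hg0, sub_self]
      rw [hx, ← key g0 hg0]
      linear_combination ((g0 : ZMod n) * x) * e1
    · intro g _ g' _ h
      exact Units.ext (sub_left_injective h)
  exact h1.trans (mm_Sm_dvd L t ht0)

private theorem mm_char_sum {ι : Type} (s : Finset ι) (f : ι → ZMod n) :
    (ZMod.stdAddChar (∑ i ∈ s, f i) : ℂ) = ∏ i ∈ s, (ZMod.stdAddChar (f i) : ℂ) := by
  classical
  induction s using Finset.induction_on with
  | empty => simp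
  | insert a s ha ih => rw [sum_insert ha, prod_insert ha, AddChar.map_add_eq_mul, ih]

private theorem mm_inner (m M : ℕ) (a : ZMod n) :
    ∑ z ∈ Tup m (Icc 1 M), (ZMod.stdAddChar (a * ((sm z : ℕ) : ZMod n)) : ℂ) =
      (∑ i ∈ Icc 1 M, (ZMod.stdAddChar (a * (i : ZMod n)) : ℂ)) ^ m := by
  classical
  have h1 : (∑ i ∈ Icc 1 M, (ZMod.stdAddChar (a * (i : ZMod n)) : ℂ)) ^ m =
      ∏ _j : Fin m, ∑ i ∈ Icc 1 M, (ZMod.stdAddChar (a * (i : ZMod n)) : ℂ) := by
    rw [Finset.prod_const, Finset.card_univ, Fintype.card_fin]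
  rw [h1, Finset.prod_univ_sum]
  refine Finset.sum_congr rfl fun z _ => ?_
  rw [sm, Nat.cast_sum, Finset.mul_sum, mm_char_sum]

omit hn0 in
private theorem mm_sm_bd {m M : ℕ} {z : Fin m → ℕ} (hz : z ∈ Tup m (Icc 1 M)) :
    m ≤ sm z ∧ sm z ≤ m * M := by
  have h1 : ∀ j, 1 ≤ z j ∧ z j ≤ M := fun j => Finset.mem_Icc.1 (mem_Tup.1 hz j)
  unfold sm
  constructor
  · calc m = ∑ _j : Fin m, 1 := by simp
      _ ≤ ∑ j, z j := Finset.sum_le_sum fun j _ => (h1 j).1
  · calc ∑ j, z j ≤ ∑ _j : Fin m, M := Finset.sum_le_sum fun j _ => (h1 j).2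
      _ = m * M := by simp

/-- the pointwise bound -/
private theorem mm_w_pair {M L : ℕ} (m : ℕ) (hM : M < n) (hL : 0 < L) {y z : ZMod n} (hy : y ≠ 0)
    (hz : z ≠ 0) :
    ‖mm_hat (mm_In n M) y‖ ^ m * ‖mm_hat (mm_In n M) z‖ ^ m ≤
      (M : ℝ) ^ (2 * m) * ((if y ∈ mm_Sm n L then 1 else 0) * (if z ∈ mm_Sm n L then 1 else 0)) +
        ((n : ℝ) / (2 * L)) ^ m * (‖mm_hat (mm_In n M) y‖ ^ m + ‖mm_hat (mm_In n M) z‖ ^ m) := by
  have hL' : (0 : ℝ) < L := by exact_mod_cast hL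
  have hp0 : (0 : ℝ) ≤ (n : ℝ) := Nat.cast_nonneg _
  have htriv : ∀ a : ZMod n, ‖mm_hat (mm_In n M) a‖ ^ m ≤ (M : ℝ) ^ m := by
    intro a
    rw [mm_In_hat hM]
    exact pow_le_pow_left₀ (norm_nonneg _) (geo_triv M a) m
  have hbig : ∀ a : ZMod n, a ≠ 0 → a ∉ mm_Sm n L →
      ‖mm_hat (mm_In n M) a‖ ^ m ≤ ((n : ℝ) / (2 * L)) ^ m := by
    intro a ha haS
    rw [mm_In_hat hM]
    refine pow_le_pow_left₀ (norm_nonneg _) ((geo_bound M ha).trans ?_) m
    have h1 : L < a.valMinAbs.natAbs := by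
      by_contra h
      exact haS (Finset.mem_filter.2 ⟨Finset.mem_univ _, ha, not_lt.1 h⟩)
    have h2 : (L : ℝ) ≤ (a.valMinAbs.natAbs : ℝ) := by exact_mod_cast h1.le
    exact div_le_div_of_nonneg_left hp0 (by positivity) (by linarith)
  have hc : (0 : ℝ) ≤ ((n : ℝ) / (2 * L)) ^ m := by positivity
  have wy : (0 : ℝ) ≤ ‖mm_hat (mm_In n M) y‖ ^ m := by positivity
  have wz : (0 : ℝ) ≤ ‖mm_hat (mm_In n M) z‖ ^ m := by positivity
  by_cases h1 : y ∈ mm_Sm n L
  · by_cases h2 : z ∈ mm_Sm n L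
    · rw [if_pos h1, if_pos h2]
      have h3 := mul_le_mul (htriv y) (htriv z) wz (by positivity)
      have h4 : (M : ℝ) ^ m * (M : ℝ) ^ m = (M : ℝ) ^ (2 * m) := by ring
      have h5 := mul_nonneg hc (add_nonneg wy wz)
      linarith
    · rw [if_neg h2, mul_zero, mul_zero, zero_add]
      have h3 := mul_le_mul_of_nonneg_left (hbig z hz h2) wy
      have h4 := mul_nonneg hc wz
      linarith
  · rw [if_neg h1, zero_mul, mul_zero, zero_add]
    have h3 := mul_le_mul_of_nonneg_right (hbig y hy h1) wz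
    have h4 := mul_nonneg hc wy
    linarith

theorem miss_m (G : Finset (ZMod n)ˣ) (hG : G.Nonempty) (m M L : ℕ) (hm : 2 ≤ m) (hM : 0 < M)
    (hmM : m * M < n) (hL : 0 < L) :
    (Set.ncard {x : ZMod n | ∀ g ∈ G, m * M < (((g : (ZMod n)ˣ) : ZMod n) * x).val} : ℝ) ≤
      n * (4 * (L : ℝ) ^ 2 / #G +
        2 * (n : ℝ) ^ (m + 1) / ((2 * (L : ℝ)) ^ m * (M : ℝ) ^ (m + 1))) := by
  classical
  have hMp : M < n := lt_of_le_of_lt (Nat.le_mul_of_pos_left M (by omega)) hmM
  obtain ⟨h, hh⟩ : ∃ h, h = #G := ⟨_, rfl⟩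
  have hh0 : (0 : ℝ) < (h : ℝ) := by
    have : 0 < #G := Finset.card_pos.2 hG
    rw [hh]
    exact_mod_cast this
  have hM0 : (0 : ℝ) < (M : ℝ) := by exact_mod_cast hM
  have hL0 : (0 : ℝ) < (L : ℝ) := by exact_mod_cast hL
  have hp0 : (0 : ℝ) < (n : ℝ) := by exact_mod_cast Nat.pos_of_ne_zero hn0.out
  set S : ZMod n → ℂ := mm_hat (mm_In n M) with hS
  set u : (ZMod n)ˣ → ZMod n := fun g => ((g⁻¹ : (ZMod n)ˣ) : ZMod n) with hu
  set v : (ZMod n)ˣ → ZMod n := fun g => (g : ZMod n) with hv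
  have huv : ∀ g, u g * v g = 1 := by
    intro g
    rw [hu, hv]
    dsimp only
    rw [← Units.val_mul, inv_mul_cancel, Units.val_one]
  have hub : ∀ g (b : ZMod n), b ≠ 0 → u g * b ≠ 0 := by
    intro g b hb h0
    apply hb
    have h1 : v g * (u g * b) = b := by
      rw [← mul_assoc, mul_comm (v g), huv, one_mul]
    rw [← h1, h0, mul_zero]
  -- reindexing by multiplication with `u g`
  have hre : ∀ (g : (ZMod n)ˣ) (f : ZMod n → ℂ), ∑ a : ZMod n, f a = ∑ b : ZMod n, f (u g * b) := by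
    intro g f
    exact (Equiv.sum_comp (Units.mulLeft g⁻¹) f).symm
  have hreR : ∀ (g : (ZMod n)ˣ) (f : ZMod n → ℝ), ∑ a : ZMod n, f a = ∑ b : ZMod n, f (u g * b) := by
    intro g f
    exact (Equiv.sum_comp (Units.mulLeft g⁻¹) f).symm
  set K' : ZMod n → ℂ := fun b => ∑ g ∈ G, ((starRingEnd ℂ) (S (u g * b))) ^ m with hK'
  set K : ZMod n → ℂ := fun b => if b = 0 then 0 else K' b with hK
  have hS0 : S 0 = (M : ℂ) := by
    rw [hS]
    unfold mm_hat
    simp [mm_In_card hMp]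
  have hK0 : K' 0 = (h : ℂ) * (M : ℂ) ^ m := by
    rw [hK']
    simp only [mul_zero, hS0, Complex.conj_natCast, Finset.sum_const, ← hh, nsmul_eq_mul]
  set X : Finset (ZMod n) := univ.filter fun x : ZMod n =>
    ∀ g ∈ G, m * M < (((g : (ZMod n)ˣ) : ZMod n) * x).val with hX
  have hXc : Set.ncard {x : ZMod n |
      ∀ g ∈ G, m * M < (((g : (ZMod n)ˣ) : ZMod n) * x).val} = X.card := by
    rw [← Set.ncard_coe_finset]
    congr 1
    ext x
    rw [hX, Finset.mem_coe, Finset.mem_filter]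
    exact ⟨fun hx => ⟨Finset.mem_univ _, hx⟩, fun hx => hx.2⟩
  -- the main identity
  have hmain : ∀ x ∈ X, ∑ b : ZMod n, K b * (ZMod.stdAddChar (b * x) : ℂ) =
      -((h : ℂ) * (M : ℂ) ^ m) := by
    intro x hx
    have hx' := (Finset.mem_filter.1 hx).2
    have e1 : ∑ b : ZMod n, K' b * (ZMod.stdAddChar (b * x) : ℂ) = 0 := by
      have e2 : ∑ b : ZMod n, K' b * (ZMod.stdAddChar (b * x) : ℂ) =
          ∑ g ∈ G, ∑ a : ZMod n, ((starRingEnd ℂ) (S a)) ^ m *
            (ZMod.stdAddChar (a * (v g * x)) : ℂ) := by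
        rw [hK']
        simp only [Finset.sum_mul]
        rw [Finset.sum_comm]
        refine Finset.sum_congr rfl fun g _ => ?_
        rw [hre g fun a => ((starRingEnd ℂ) (S a)) ^ m * (ZMod.stdAddChar (a * (v g * x)) : ℂ)]
        refine Finset.sum_congr rfl fun b _ => ?_
        have e3 : u g * b * (v g * x) = b * x := by
          have := huv g
          calc u g * b * (v g * x) = (u g * v g) * (b * x) := by ring
            _ = b * x := by rw [this, one_mul]
        rw [e3]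
      rw [e2]
      refine Finset.sum_eq_zero fun g hgG => ?_
      have e4 : ∀ a : ZMod n, ((starRingEnd ℂ) (S a)) ^ m * (ZMod.stdAddChar (a * (v g * x)) : ℂ) =
          ∑ z ∈ Tup m (Icc 1 M),
            (ZMod.stdAddChar (a * (v g * x - ((sm z : ℕ) : ZMod n))) : ℂ) := by
        intro a
        have e41 : (starRingEnd ℂ) (S a) =
            ∑ i ∈ Icc 1 M, (ZMod.stdAddChar ((-a) * (i : ZMod n)) : ℂ) := by
          rw [hS, mm_In_hat hMp, map_sum]
          refine Finset.sum_congr rfl fun i _ => ?_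
          rw [neg_mul, AddChar.map_neg_eq_conj]
        rw [e41, ← mm_inner, Finset.sum_mul]
        refine Finset.sum_congr rfl fun z _ => ?_
        rw [← AddChar.map_add_eq_mul]
        congr 1
        ring
      simp only [e4]
      rw [Finset.sum_comm]
      refine Finset.sum_eq_zero fun z hz => ?_
      rw [mm_orth, if_neg]
      intro h0
      have e6 : v g * x = ((sm z : ℕ) : ZMod n) := sub_eq_zero.1 h0
      have e7 := hx' g hgG
      have hz2 := (mm_sm_bd hz).2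
      have e8 : (((g : (ZMod n)ˣ) : ZMod n) * x).val = sm z := by
        have e9 : ((g : (ZMod n)ˣ) : ZMod n) * x = ((sm z : ℕ) : ZMod n) := e6
        rw [e9, ZMod.val_natCast_of_lt (by omega)]
      rw [e8] at e7
      omega
    have e10 : ∑ b : ZMod n, K' b * (ZMod.stdAddChar (b * x) : ℂ) =
        (h : ℂ) * (M : ℂ) ^ m + ∑ b : ZMod n, K b * (ZMod.stdAddChar (b * x) : ℂ) := by
      have e13 := Finset.add_sum_erase Finset.univ
        (fun b : ZMod n => K' b * (ZMod.stdAddChar (b * x) : ℂ)) (Finset.mem_univ 0)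
      have e14 := Finset.add_sum_erase Finset.univ
        (fun b : ZMod n => K b * (ZMod.stdAddChar (b * x) : ℂ)) (Finset.mem_univ 0)
      have e11 : K 0 = 0 := by rw [hK]; simp
      rw [← e13, ← e14, hK0, zero_mul, AddChar.map_zero_eq_one, mul_one, e11, zero_mul, zero_add]
      congr 1
      refine Finset.sum_congr rfl fun b hb => ?_
      have e12 : K b = K' b := by
        rw [hK]
        exact if_neg (Finset.ne_of_mem_erase hb)
      rw [e12]
    rw [e1] at e10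
    linear_combination -e10
  -- the bound for the coefficients
  set w : ZMod n → ℝ := fun a => ‖S a‖ ^ m with hw
  set V : ZMod n → ℝ := fun b => ∑ g ∈ G, w (u g * b) with hV
  have hw0 : ∀ a, 0 ≤ w a := fun a => by
    rw [hw]
    positivity
  have hV0 : ∀ b, 0 ≤ V b := fun b => Finset.sum_nonneg fun g _ => hw0 _
  have hKV : ∀ b, ‖K' b‖ ≤ V b := by
    intro b
    refine (norm_sum_le _ _).trans (le_of_eq ?_)
    refine Finset.sum_congr rfl fun g _ => ?_
    rw [norm_pow, RCLike.norm_conj]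
  have hwsum : ∑ a : ZMod n, w a ≤ (n : ℝ) * (M : ℝ) ^ (m - 1) := by
    have h2 := mm_parseval_set (n := n) (mm_In n M)
    rw [mm_In_card hMp] at h2
    have h3 : ∀ a : ZMod n, w a ≤ (M : ℝ) ^ (m - 2) * ‖mm_hat (mm_In n M) a‖ ^ 2 := by
      intro a
      have h4 : ‖S a‖ ≤ M := by
        rw [hS, mm_In_hat hMp]
        exact geo_triv M a
      have h5 : w a = ‖S a‖ ^ (m - 2) * ‖S a‖ ^ 2 := by
        rw [hw]
        dsimp only
        rw [← pow_add]
        congr 1
        omega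
      rw [h5]
      exact mul_le_mul_of_nonneg_right (pow_le_pow_left₀ (norm_nonneg _) h4 _) (by positivity)
    refine (Finset.sum_le_sum fun a _ => h3 a).trans (le_of_eq ?_)
    rw [← Finset.mul_sum, h2]
    obtain ⟨m', rfl⟩ := Nat.exists_eq_add_of_le hm
    have e1 : 2 + m' - 2 = m' := by omega
    have e2 : 2 + m' - 1 = m' + 1 := by omega
    rw [e1, e2]
    ring
  have hVsum : ∑ b : ZMod n, V b ≤ (h : ℝ) * (n * (M : ℝ) ^ (m - 1)) := by
    rw [hV, Finset.sum_comm]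
    have : ∀ g ∈ G, ∑ b : ZMod n, w (u g * b) ≤ (n : ℝ) * (M : ℝ) ^ (m - 1) := fun g _ => by
      rw [← hreR g w]
      exact hwsum
    refine (Finset.sum_le_sum this).trans (le_of_eq ?_)
    rw [Finset.sum_const, ← hh, nsmul_eq_mul]
  set χ : ZMod n → ℝ := fun y => if y ∈ mm_Sm n L then 1 else 0 with hχ
  have hχ0 : ∀ y, 0 ≤ χ y := fun y => by
    rw [hχ]
    dsimp only
    split_ifs <;> norm_num
  set nn : ZMod n → ℝ := fun b => ∑ g ∈ G, χ (u g * b) with hnn
  have hnn0 : ∀ b, 0 ≤ nn b := fun b => Finset.sum_nonneg fun g _ => hχ0 _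
  have hSmc : ((mm_Sm n L).card : ℝ) ≤ 2 * L := by exact_mod_cast mm_Sm_card (n := n) L
  have hχsum : ∑ y : ZMod n, χ y = ((mm_Sm n L).card : ℝ) := by
    rw [hχ]
    simp
  have hnnle : ∀ b, nn b ≤ 2 * L := by
    intro b
    have h1 : nn b = ((G.filter fun g => u g * b ∈ mm_Sm n L).card : ℝ) := by
      rw [hnn, hχ]
      dsimp only
      rw [← Finset.sum_filter, Finset.sum_const, nsmul_eq_mul, mul_one]
    rw [h1]
    exact_mod_cast mm_few (L := L) G b
  have hnnsum : ∑ b : ZMod n, nn b ≤ (h : ℝ) * (2 * L) := by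
    rw [hnn, Finset.sum_comm]
    have : ∀ g ∈ G, ∑ b : ZMod n, χ (u g * b) = ((mm_Sm n L).card : ℝ) := fun g _ => by
      rw [← hreR g χ, hχsum]
    rw [Finset.sum_congr rfl this, Finset.sum_const, ← hh, nsmul_eq_mul]
    exact mul_le_mul_of_nonneg_left hSmc hh0.le
  have hnnsq : ∑ b : ZMod n, nn b ^ 2 ≤ (h : ℝ) * (2 * L) * (2 * L) := by
    calc ∑ b : ZMod n, nn b ^ 2 ≤ ∑ b : ZMod n, nn b * (2 * L) := by
          refine Finset.sum_le_sum fun b _ => ?_
          rw [pow_two]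
          exact mul_le_mul_of_nonneg_left (hnnle b) (hnn0 b)
      _ = (∑ b : ZMod n, nn b) * (2 * L) := by rw [Finset.sum_mul]
      _ ≤ _ := mul_le_mul_of_nonneg_right hnnsum (by positivity)
  set c : ℝ := ((n : ℝ) / (2 * L)) ^ m with hc
  have hVsq : ∀ b : ZMod n, b ≠ 0 → V b ^ 2 ≤ (M : ℝ) ^ (2 * m) * nn b ^ 2 + 2 * h * c * V b := by
    intro b hb
    have h1 : V b ^ 2 = ∑ g ∈ G, ∑ g' ∈ G, w (u g * b) * w (u g' * b) := by
      rw [pow_two, hV, Finset.sum_mul_sum]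
    have h2 : (M : ℝ) ^ (2 * m) * nn b ^ 2 + 2 * h * c * V b =
        ∑ g ∈ G, ∑ g' ∈ G, ((M : ℝ) ^ (2 * m) * (χ (u g * b) * χ (u g' * b)) +
          c * (w (u g * b) + w (u g' * b))) := by
      simp only [Finset.sum_add_distrib, ← Finset.mul_sum, mul_add, Finset.sum_const,
        ← hh, nsmul_eq_mul]
      rw [pow_two, hnn, ← Finset.sum_mul, hV]
      ring
    rw [h1, h2]
    exact Finset.sum_le_sum fun g _ => Finset.sum_le_sum fun g' _ =>
      mm_w_pair m hMp hL (hub g b hb) (hub g' b hb)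
  have hKsum : ∑ b : ZMod n, ‖K b‖ ^ 2 ≤
      (M : ℝ) ^ (2 * m) * ((h : ℝ) * (2 * L) * (2 * L)) + 2 * h * c * ((h : ℝ) * (n * (M : ℝ) ^ (m - 1))) := by
    have hc0 : 0 ≤ c := by
      rw [hc]
      positivity
    calc ∑ b : ZMod n, ‖K b‖ ^ 2 ≤ ∑ b : ZMod n, ((M : ℝ) ^ (2 * m) * nn b ^ 2 + 2 * h * c * V b) := by
          refine Finset.sum_le_sum fun b _ => ?_
          by_cases hb : b = 0
          · have h1 : K b = 0 := by
              rw [hK]
              exact if_pos hb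
            have h2 := hV0 b
            rw [h1, norm_zero, zero_pow two_ne_zero]
            positivity
          · have h1 : K b = K' b := by
              rw [hK]
              exact if_neg hb
            rw [h1]
            exact (pow_le_pow_left₀ (norm_nonneg _) (hKV b) 2).trans (hVsq b hb)
      _ = (M : ℝ) ^ (2 * m) * ∑ b : ZMod n, nn b ^ 2 + 2 * h * c * ∑ b : ZMod n, V b := by
          rw [Finset.sum_add_distrib, ← Finset.mul_sum, ← Finset.mul_sum]
      _ ≤ _ := by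
          have h1 := mul_le_mul_of_nonneg_left hnnsq (by positivity : (0 : ℝ) ≤ (M : ℝ) ^ (2 * m))
          have h2 := mul_le_mul_of_nonneg_left hVsum (by positivity : (0 : ℝ) ≤ 2 * h * c)
          linarith
  -- conclusion
  have hfinal : (X.card : ℝ) * ((h : ℝ) * (M : ℝ) ^ m) ^ 2 ≤
      (n : ℝ) * ((M : ℝ) ^ (2 * m) * ((h : ℝ) * (2 * L) * (2 * L)) +
        2 * h * c * ((h : ℝ) * (n * (M : ℝ) ^ (m - 1)))) := by
    calc (X.card : ℝ) * ((h : ℝ) * (M : ℝ) ^ m) ^ 2 =
          ∑ x ∈ X, ‖∑ b : ZMod n, K b * (ZMod.stdAddChar (b * x) : ℂ)‖ ^ 2 := by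
          rw [← nsmul_eq_mul, ← Finset.sum_const]
          refine Finset.sum_congr rfl fun x hx => ?_
          rw [hmain x hx, norm_neg, norm_mul, norm_pow, Complex.norm_natCast, Complex.norm_natCast]
      _ ≤ ∑ x : ZMod n, ‖∑ b : ZMod n, K b * (ZMod.stdAddChar (b * x) : ℂ)‖ ^ 2 :=
          Finset.sum_le_sum_of_subset_of_nonneg (Finset.subset_univ _) fun _ _ _ => by positivity
      _ = (n : ℝ) * ∑ b : ZMod n, ‖K b‖ ^ 2 := mm_parseval K
      _ ≤ _ := mul_le_mul_of_nonneg_left hKsum hp0.le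
  rw [hXc, ← hh]
  have hden : (0 : ℝ) < ((h : ℝ) * (M : ℝ) ^ m) ^ 2 := by positivity
  refine le_of_mul_le_mul_right (hfinal.trans (le_of_eq ?_)) hden
  rw [hc, div_pow]
  have hMm : (M : ℝ) ^ m = (M : ℝ) ^ (m - 1) * M := by
    rw [← pow_succ]
    congr 1
    omega
  have hMm1 : (M : ℝ) ^ (m + 1) = (M : ℝ) ^ (m - 1) * M * M := by
    rw [pow_succ, hMm]
  have hM2 : (M : ℝ) ^ (2 * m) = ((M : ℝ) ^ (m - 1) * M) ^ 2 := by
    rw [← hMm, ← pow_mul, mul_comm]
  rw [hM2, hMm1, hMm, pow_succ (n : ℝ) m]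
  have hMp1 : (0 : ℝ) < (M : ℝ) ^ (m - 1) := by positivity
  have hLp : (0 : ℝ) < (2 * (L : ℝ)) ^ m := by positivity
  generalize (M : ℝ) ^ (m - 1) = Q at *
  generalize (2 * (L : ℝ)) ^ m = R at *
  generalize (n : ℝ) ^ m = N at *
  field_simp
  ring

end Pool.Agent.Helper26.PG
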