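import Pool.Agent.Helper26.PG.Defs

/-!
# PG-Scale: the set where `la` and `χ` differ is sparse at all scales

PROOF.  `(q, v) ↦ q v` maps `P' × (E ∩ [1, t])` to `E ∩ [1, N t]` if `N t < n` (`la (q v) χ (q v) = la v χ v`), with fibres of size at
most `K2`.  Claim by induction on `j`: if `n ≤ N ^ (j + 1) t` then `#(E ∩ [1, t]) ≤ (K2 N / #P') ^ j N κ t`.  `j = 0`, and in the step the
case `n ≤ N t`: `#E ≤ κ n ≤ κ N t` (and `K2 N / #P' ≥ 1`, as `#P' ≤ N`).  Step: `#P' #(E ∩ [1, t]) ≤ K2 #(E ∩ [1, N t])`.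
-/

set_option autoImplicit false

namespace Pool.Agent.Helper26.PG

open Finset
open Pool.Agent.Helper26.PE (la la_mul la_prime la_one la_sq la_eq la_abs PS Tup mem_Tup card_Tup pr sm)

variable {n : ℕ} [hn0 : NeZero n]


theorem scale {χ : DirichletCharacter ℂ n} {s : ℝ} {E : Finset ℕ}
    (hE : ∀ v : ℕ, v ∈ E ↔ 0 < v ∧ v < n ∧ Nat.Coprime v n ∧ (la v : ℂ) * χ (v : ZMod n) ≠ s)
    {P' : Finset ℕ} {N K2 J : ℕ} {κ : ℝ} (hne : P'.Nonempty)
    (hP' : ∀ q ∈ P', q.Prime ∧ q ≤ N ∧ ¬ q ∣ n ∧ χ (q : ZMod n) = -1)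
    (hK2 : ∀ v : ℕ, 0 < v → v < n → #(P'.filter fun q => q ∣ v) ≤ K2) (hK21 : 1 ≤ K2)
    (hκ0 : 0 ≤ κ) (hκ : (#E : ℝ) ≤ κ * n) (hJ : n ≤ N ^ (J + 1)) (t : ℕ) (ht : 1 ≤ t)
    (htn : t < n) :
    (#(E.filter fun v => v ≤ t) : ℝ) ≤ (K2 * N / (#P' : ℝ)) ^ J * N * κ * t := by
  have hN1 : 1 ≤ N := by
    obtain ⟨q, hq⟩ := hne
    have h := hP' q hq
    have := h.1.two_le
    have := h.2.1
    omega
  have hN0 : (0 : ℝ) < N := by exact_mod_cast hN1
  have hPc : #P' ≤ N := by
    have h1 : P' ⊆ Icc 1 N := by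
      intro q hq
      have h := hP' q hq
      rw [mem_Icc]
      exact ⟨h.1.one_lt.le, h.2.1⟩
    have h2 := card_le_card h1
    rwa [Nat.card_Icc, Nat.add_sub_cancel] at h2
  have hP0 : (0 : ℝ) < #P' := by exact_mod_cast card_pos.2 hne
  have hPc' : (#P' : ℝ) ≤ N := by exact_mod_cast hPc
  have hK' : (1 : ℝ) ≤ K2 := by exact_mod_cast hK21
  have hc1 : (1 : ℝ) ≤ K2 * N / (#P' : ℝ) := by
    rw [le_div_iff₀ hP0, one_mul]
    calc (#P' : ℝ) ≤ 1 * N := by rw [one_mul]; exact hPc'
      _ ≤ K2 * N := mul_le_mul_of_nonneg_right hK' hN0.le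
  generalize hc : (K2 * N / (#P' : ℝ) : ℝ) = c at hc1 ⊢
  have hcP : (#P' : ℝ) * c = K2 * N := by
    rw [← hc]
    field_simp
  -- the first case
  have base : ∀ (j t : ℕ), n ≤ N * t →
      (#(E.filter fun v => v ≤ t) : ℝ) ≤ c ^ j * N * κ * t := by
    intro j t h
    have h1 : (#(E.filter fun v => v ≤ t) : ℝ) ≤ #E := by
      exact_mod_cast card_le_card (filter_subset _ _)
    have h2 : (n : ℝ) ≤ N * t := by exact_mod_cast h
    have h3 : (1 : ℝ) ≤ c ^ j := one_le_pow₀ hc1
    have h4 : (0 : ℝ) ≤ N * κ * t := by positivity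
    calc (#(E.filter fun v => v ≤ t) : ℝ) ≤ κ * n := h1.trans hκ
      _ ≤ κ * (N * t) := mul_le_mul_of_nonneg_left h2 hκ0
      _ = 1 * (N * κ * t) := by ring
      _ ≤ c ^ j * (N * κ * t) := mul_le_mul_of_nonneg_right h3 h4
      _ = c ^ j * N * κ * t := by ring
  have main : ∀ (j t : ℕ), 1 ≤ t → t < n → n ≤ N ^ (j + 1) * t →
      (#(E.filter fun v => v ≤ t) : ℝ) ≤ c ^ j * N * κ * t := by
    intro j
    induction j with
    | zero =>
      intro t _ _ h
      refine base 0 t ?_
      simpa using h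
    | succ j ih =>
      intro t ht1 htp' h
      by_cases hc2 : n ≤ N * t
      · exact base (j + 1) t hc2
      · have hc' : N * t < n := not_le.1 hc2
        have h1 := ih (N * t) (Nat.mul_pos (by omega) (by omega)) hc' (by
          calc n ≤ N ^ (j + 1 + 1) * t := h
            _ = N ^ (j + 1) * (N * t) := by ring)
        have h2 : #(P' ×ˢ E.filter fun v => v ≤ t) ≤
            K2 * #(E.filter fun v => v ≤ N * t) := by
          refine card_le_mul_card_image_of_maps_to (f := fun a : ℕ × ℕ => a.1 * a.2) ?_ K2 ?_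
          · rintro ⟨q, v⟩ hnd
            rw [mem_product, mem_filter] at hnd
            obtain ⟨hqP, hvE, hvt⟩ := hnd
            simp only at hqP hvE hvt
            obtain ⟨hq, hqN, hqn, hqχ⟩ := hP' q hqP
            obtain ⟨hv0, hvn, hvc, hv⟩ := (hE v).1 hvE
            rw [mem_filter]
            have hle : q * v ≤ N * t := Nat.mul_le_mul hqN hvt
            refine ⟨(hE _).2 ⟨Nat.mul_pos hq.pos hv0, hle.trans_lt hc',
              Nat.Coprime.mul_left ((Nat.Prime.coprime_iff_not_dvd hq).2 hqn) hvc, ?_⟩, hle⟩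
            have h4 : ((la (q * v) : ℝ) : ℂ) * χ ((q * v : ℕ) : ZMod n) =
                (la v : ℂ) * χ (v : ZMod n) := by
              rw [la_mul hq.ne_zero hv0.ne', la_prime hq, Nat.cast_mul, map_mul, hqχ]
              push_cast
              ring
            rw [h4]
            exact hv
          · intro b hb
            have hbE : b ∈ E := (mem_filter.1 hb).1
            obtain ⟨hb0, hbn, -, -⟩ := (hE b).1 hbE
            refine le_trans ?_ (hK2 b hb0 hbn)
            refine card_le_card_of_injOn (fun a => a.1) ?_ ?_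
            · rintro ⟨q, v⟩ hnd
              rw [mem_coe, mem_filter, mem_product] at hnd
              rw [mem_coe, mem_filter]
              exact ⟨hnd.1.1, ⟨v, hnd.2.symm⟩⟩
            · rintro ⟨q, v⟩ hnd ⟨q', v'⟩ hnd' hnn
              rw [mem_coe, mem_filter, mem_product] at hnd hnd'
              obtain ⟨⟨hqP, -⟩, e1⟩ := hnd
              obtain ⟨-, e2⟩ := hnd'
              simp only at hnn hqP e1 e2
              subst hnn
              have h3 : q * v = q * v' := e1.trans e2.symm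
              have h4 : v = v' := Nat.eq_of_mul_eq_mul_left (hP' q hqP).1.pos h3
              rw [h4]
        rw [card_product] at h2
        have h3 : (#P' : ℝ) * #(E.filter fun v => v ≤ t) ≤
            K2 * #(E.filter fun v => v ≤ N * t) := by exact_mod_cast h2
        have h4 : (K2 : ℝ) * #(E.filter fun v => v ≤ N * t) ≤
            K2 * (c ^ j * N * κ * ((N * t : ℕ) : ℝ)) :=
          mul_le_mul_of_nonneg_left h1 (by linarith)
        have h5 : (#P' : ℝ) * #(E.filter fun v => v ≤ t) ≤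
            #P' * (c ^ (j + 1) * N * κ * t) := by
          refine h3.trans (h4.trans (le_of_eq ?_))
          push_cast
          linear_combination (- (c ^ j * N * κ * t)) * hcP
        exact le_of_mul_le_mul_left h5 hP0
  exact main J t ht htn (hJ.trans (Nat.le_mul_of_pos_right _ (by omega)))

end Pool.Agent.Helper26.PG
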